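import Mathlib

/-! Jacobsthal sums: for p = 4n+1 the sum phi(1) of chi(t(t^2-1)) is 2x with x odd, x^2+y^2=p. -/

namespace Pool.Agent.Work.MP_f41de7_nt

open Finset

section
variable {p : ℕ} [Fact p.Prime]

/-- Jacobsthal sum. -/
noncomputable def jphi (p : ℕ) [Fact p.Prime] (a : ZMod p) : ℤ :=
  ∑ t : ZMod p, quadraticChar (ZMod p) (t * (t ^ 2 - a))

lemma hchar2 (hp2 : p ≠ 2) : ringChar (ZMod p) ≠ 2 := by
  rw [ZMod.ringChar_zmod_n]; exact hp2

lemma sum_chi_lin (hp2 : p ≠ 2) {d : ZMod p} (hd : d ≠ 0) :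
    ∑ b : ZMod p, quadraticChar (ZMod p) (1 + d * b) = 0 := by
  have h := quadraticChar_sum_zero (hchar2 (p := p) hp2)
  rw [← h]
  refine Fintype.sum_bijective (fun b : ZMod p => 1 + d * b) ?_ _ _ (fun b => rfl)
  constructor
  · intro x y hxy
    have : d * x = d * y := by simpa using hxy
    exact mul_left_cancel₀ hd this
  · intro y
    refine ⟨(y - 1) / d, ?_⟩
    field_simp
    ring

lemma sum_chi_quad (hp2 : p ≠ 2) {d : ZMod p} (hd : d ≠ 0) :
    ∑ a : ZMod p, quadraticChar (ZMod p) (a * (a + d)) = -1 := by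
  classical
  have h0 : ∑ a ∈ univ.erase (0 : ZMod p), quadraticChar (ZMod p) (a * (a + d))
      = ∑ b ∈ univ.erase (0 : ZMod p), quadraticChar (ZMod p) (1 + d * b) := by
    refine Finset.sum_nbij' (fun a => a⁻¹) (fun b => b⁻¹) ?_ ?_ ?_ ?_ ?_
    · intro a ha; simp at ha ⊢; exact ha
    · intro a ha; simp at ha ⊢; exact ha
    · intro a ha; simp
    · intro a ha; simp
    · intro a ha
      have ha0 : a ≠ 0 := by simpa using ha
      have e : a * (a + d) = a ^ 2 * (1 + d * a⁻¹) := by field_simp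
      rw [e, map_mul, quadraticChar_sq_one' ha0, one_mul]
  rw [← Finset.add_sum_erase univ _ (mem_univ (0 : ZMod p)), h0]
  have h1 := sum_chi_lin hp2 hd
  rw [← Finset.add_sum_erase univ _ (mem_univ (0 : ZMod p))] at h1
  simp at h1 ⊢
  linarith

lemma sum_chi_two (hp2 : p ≠ 2) (u v : ZMod p) :
    ∑ a : ZMod p, quadraticChar (ZMod p) ((u - a) * (v - a)) = if u = v then (p : ℤ) - 1 else -1 := by
  classical
  split_ifs with h
  · subst h
    have : ∀ a ∈ (univ : Finset (ZMod p)), quadraticChar (ZMod p) ((u - a) * (u - a)) = if a = u then 0 else 1 := by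
      intro a _
      split_ifs with h
      · simp [h]
      · rw [← pow_two]; exact quadraticChar_sq_one' (sub_ne_zero.mpr (Ne.symm h))
    rw [Finset.sum_congr rfl this, Finset.sum_ite, Finset.sum_const_zero, zero_add, Finset.sum_const]
    have : (univ.filter (fun a : ZMod p => ¬ a = u)) = univ.erase u := by
      ext a; simp
    rw [this, Finset.card_erase_of_mem (mem_univ u), Finset.card_univ, ZMod.card]
    have := (Fact.out : p.Prime).one_lt
    simp
    omega
  · have hd : v - u ≠ 0 := sub_ne_zero.mpr (Ne.symm h)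
    rw [← sum_chi_quad hp2 hd]
    refine Fintype.sum_bijective (fun a : ZMod p => u - a) ?_ _ _ ?_
    · constructor
      · intro x y hxy; simpa using hxy
      · intro y; exact ⟨u - y, by ring⟩
    · intro a
      congr 1
      ring

lemma chi_sum_zero (hp2 : p ≠ 2) : ∑ a : ZMod p, quadraticChar (ZMod p) a = 0 :=
  quadraticChar_sum_zero (hchar2 (p := p) hp2)

lemma chi_mul_self {t : ZMod p} (ht : t ≠ 0) :
    quadraticChar (ZMod p) t * quadraticChar (ZMod p) t = 1 := by
  rw [← map_mul, ← pow_two]; exact quadraticChar_sq_one' ht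

/-- second moment -/
lemma jphi_moment (hp4 : p % 4 = 1) :
    ∑ a : ZMod p, (jphi p a) ^ 2 = 2 * p * (p - 1) := by
  classical
  have hp2 : p ≠ 2 := by omega
  have hneg : quadraticChar (ZMod p) (-1) = 1 := by
    rw [quadraticChar_neg_one (hchar2 hp2), ZMod.card]
    exact ZMod.χ₄_nat_one_mod_four hp4
  have h1 : ∀ a : ZMod p, (jphi p a) ^ 2 = ∑ s : ZMod p, ∑ t : ZMod p,
      (quadraticChar (ZMod p) s * quadraticChar (ZMod p) t) *
        quadraticChar (ZMod p) ((s ^ 2 - a) * (t ^ 2 - a)) := by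
    intro a
    rw [pow_two, jphi, Finset.sum_mul_sum]
    refine Finset.sum_congr rfl fun s _ => Finset.sum_congr rfl fun t _ => ?_
    simp only [map_mul]
    ring
  simp_rw [h1]
  rw [Finset.sum_comm]
  have h2 : ∀ s : ZMod p, ∑ a : ZMod p, ∑ t : ZMod p,
      (quadraticChar (ZMod p) s * quadraticChar (ZMod p) t) *
        quadraticChar (ZMod p) ((s ^ 2 - a) * (t ^ 2 - a)) =
      ∑ t : ZMod p, (quadraticChar (ZMod p) s * quadraticChar (ZMod p) t) *
        ((if s ^ 2 = t ^ 2 then (p : ℤ) else 0) - 1) := by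
    intro s
    rw [Finset.sum_comm]
    refine Finset.sum_congr rfl fun t _ => ?_
    rw [← Finset.mul_sum, sum_chi_two hp2]
    split_ifs <;> ring
  simp_rw [h2]
  have h3 : ∀ s : ZMod p, ∑ t : ZMod p, (quadraticChar (ZMod p) s * quadraticChar (ZMod p) t) *
        ((if s ^ 2 = t ^ 2 then (p : ℤ) else 0) - 1) = if s = 0 then 0 else 2 * (p : ℤ) := by
    intro s
    have e : ∀ t : ZMod p, (quadraticChar (ZMod p) s * quadraticChar (ZMod p) t) *
        ((if s ^ 2 = t ^ 2 then (p : ℤ) else 0) - 1) =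
        (if s ^ 2 = t ^ 2 then (p : ℤ) * (quadraticChar (ZMod p) s * quadraticChar (ZMod p) t) else 0)
          - quadraticChar (ZMod p) s * quadraticChar (ZMod p) t := by
      intro t; split_ifs <;> ring
    simp_rw [e]
    rw [Finset.sum_sub_distrib, ← Finset.mul_sum, chi_sum_zero hp2, mul_zero, sub_zero]
    split_ifs with hs
    · subst hs
      refine Finset.sum_eq_zero fun t _ => ?_
      simp
    · rw [← Finset.sum_filter]
      have hne : s ≠ -s := by
        intro h
        have h2 : (2 : ZMod p) * s = 0 := by linear_combination h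
        rcases mul_eq_zero.mp h2 with h | h
        · have : ((2 : ℕ) : ZMod p) = 0 := by exact_mod_cast h
          rw [ZMod.natCast_eq_zero_iff] at this
          exact hp2 ((Nat.prime_dvd_prime_iff_eq Fact.out Nat.prime_two).mp this)
        · exact hs h
      have hf : (univ.filter (fun t : ZMod p => s ^ 2 = t ^ 2)) = {s, -s} := by
        ext t
        simp only [mem_filter, mem_univ, true_and, mem_insert, mem_singleton]
        constructor
        · intro h
          rcases sq_eq_sq_iff_eq_or_eq_neg.mp h.symm with h | h <;> simp [h]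
        · rintro (h | h) <;> simp [h]
      rw [hf, Finset.sum_pair hne]
      have : quadraticChar (ZMod p) (-s) = quadraticChar (ZMod p) s := by
        rw [← neg_one_mul, map_mul, hneg, one_mul]
      rw [this, chi_mul_self hs]
      ring
  simp_rw [h3]
  rw [Finset.sum_ite, Finset.sum_const_zero, zero_add, Finset.sum_const]
  have : (univ.filter (fun a : ZMod p => ¬ a = 0)) = univ.erase 0 := by
    ext a; simp
  rw [this, Finset.card_erase_of_mem (mem_univ _), Finset.card_univ, ZMod.card]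
  have := (Fact.out : p.Prime).one_lt
  simp only [nsmul_eq_mul]
  push_cast [Nat.cast_sub this.le]
  ring

lemma jphi_twist {a c : ZMod p} (hc : c ≠ 0) :
    jphi p (a * c ^ 2) = quadraticChar (ZMod p) c * jphi p a := by
  rw [jphi, jphi, Finset.mul_sum]
  symm
  refine Fintype.sum_bijective (fun t : ZMod p => c * t) ?_ _ _ ?_
  · constructor
    · intro x y hxy; exact mul_left_cancel₀ hc hxy
    · intro y; exact ⟨c⁻¹ * y, by field_simp⟩
  · intro t
    have e : c * t * ((c * t) ^ 2 - a * c ^ 2) = c ^ 2 * (c * (t * (t ^ 2 - a))) := by ring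
    show quadraticChar (ZMod p) c * quadraticChar (ZMod p) (t * (t ^ 2 - a)) = _
    rw [e, map_mul (quadraticChar (ZMod p)) (c ^ 2), quadraticChar_sq_one' hc, one_mul,
      map_mul (quadraticChar (ZMod p)) c]

lemma jphi_twist_sq {a c : ZMod p} (hc : c ≠ 0) :
    (jphi p (a * c ^ 2)) ^ 2 = (jphi p a) ^ 2 := by
  rw [jphi_twist hc, mul_pow, pow_two (quadraticChar (ZMod p) c), chi_mul_self hc, one_mul]

lemma jphi_zero (hp2 : p ≠ 2) : jphi p 0 = 0 := by
  rw [jphi, ← chi_sum_zero hp2]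
  refine Finset.sum_congr rfl fun t _ => ?_
  by_cases ht : t = 0
  · simp [ht]
  · rw [sub_zero, map_mul, quadraticChar_sq_one' ht, mul_one]

/-- counting square roots -/
lemma sum_sq_count (hp2 : p ≠ 2) (F : ZMod p → ℤ) :
    ∑ c : ZMod p, F (c ^ 2) = ∑ a : ZMod p, F a * (1 + quadraticChar (ZMod p) a) := by
  classical
  have h : ∀ c : ZMod p, F (c ^ 2) = ∑ a : ZMod p, if a = c ^ 2 then F a else 0 := by
    intro c; simp
  simp_rw [h]
  rw [Finset.sum_comm]
  refine Finset.sum_congr rfl fun a _ => ?_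
  rw [← Finset.sum_filter, Finset.sum_const]
  have hc := quadraticChar_card_sqrts (hchar2 (p := p) hp2) a
  have he : (univ.filter (fun c : ZMod p => a = c ^ 2)) = {x : ZMod p | x ^ 2 = a}.toFinset := by
    ext c; simp [eq_comm]
  rw [he, nsmul_eq_mul, hc]
  ring

lemma jphi_two_squares (hp4 : p % 4 = 1) {g : ZMod p} (hg : quadraticChar (ZMod p) g = -1) :
    (jphi p 1) ^ 2 + (jphi p g) ^ 2 = 4 * p := by
  classical
  have hp2 : p ≠ 2 := by omega
  have hg0 : g ≠ 0 := by rintro rfl; simp at hg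
  have h1 := sum_sq_count hp2 (fun a => (jphi p a) ^ 2)
  have h2 := sum_sq_count hp2 (fun a => (jphi p (g * a)) ^ 2)
  have h3 : ∑ a : ZMod p, (jphi p (g * a)) ^ 2 * (1 + quadraticChar (ZMod p) a)
      = ∑ a : ZMod p, (jphi p a) ^ 2 * (1 - quadraticChar (ZMod p) a) := by
    refine Fintype.sum_bijective (fun t : ZMod p => g * t) ?_ _ _ ?_
    · constructor
      · intro x y hxy; exact mul_left_cancel₀ hg0 hxy
      · intro y; exact ⟨g⁻¹ * y, by field_simp⟩
    · intro t
      rw [map_mul, hg]; ring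
  have h4 : ∑ a : ZMod p, (jphi p a) ^ 2 * (1 + quadraticChar (ZMod p) a) +
      ∑ a : ZMod p, (jphi p a) ^ 2 * (1 - quadraticChar (ZMod p) a) = 2 * (2 * (p : ℤ) * ((p : ℤ) - 1)) := by
    rw [← jphi_moment hp4, ← Finset.sum_add_distrib, Finset.mul_sum]
    refine Finset.sum_congr rfl fun a _ => by ring
  have card1 : (univ.erase (0 : ZMod p)).card = p - 1 := by
    rw [Finset.card_erase_of_mem (mem_univ _), Finset.card_univ, ZMod.card]
  have hp1 := (Fact.out : p.Prime).one_lt
  have h5 : ∑ c : ZMod p, (jphi p (c ^ 2)) ^ 2 = ((p : ℤ) - 1) * (jphi p 1) ^ 2 := by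
    rw [← Finset.add_sum_erase univ _ (mem_univ (0 : ZMod p))]
    have : ∀ c ∈ univ.erase (0 : ZMod p), (jphi p (c ^ 2)) ^ 2 = (jphi p 1) ^ 2 := by
      intro c hc
      have := jphi_twist_sq (a := 1) (c := c) (by simpa using hc)
      rwa [one_mul] at this
    rw [Finset.sum_congr rfl this, Finset.sum_const, card1, nsmul_eq_mul]
    simp [jphi_zero hp2]
    push_cast [Nat.cast_sub hp1.le]; left; ring
  have h6 : ∑ c : ZMod p, (jphi p (g * c ^ 2)) ^ 2 = ((p : ℤ) - 1) * (jphi p g) ^ 2 := by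
    rw [← Finset.add_sum_erase univ _ (mem_univ (0 : ZMod p))]
    have : ∀ c ∈ univ.erase (0 : ZMod p), (jphi p (g * c ^ 2)) ^ 2 = (jphi p g) ^ 2 := by
      intro c hc
      exact jphi_twist_sq (a := g) (c := c) (by simpa using hc)
    rw [Finset.sum_congr rfl this, Finset.sum_const, card1, nsmul_eq_mul]
    simp [jphi_zero hp2]
    push_cast [Nat.cast_sub hp1.le]; left; ring
  rw [h5] at h1
  rw [h6, h3] at h2
  have hp0 : ((p : ℤ) - 1) ≠ 0 := by
    have : (1 : ℤ) < p := by exact_mod_cast hp1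
    omega
  have : ((p : ℤ) - 1) * ((jphi p 1) ^ 2 + (jphi p g) ^ 2) = ((p : ℤ) - 1) * (4 * p) := by
    rw [← h1, ← h2] at h4
    linarith
  exact mul_left_cancel₀ hp0 this

lemma sum_zmod_range {M : Type*} [AddCommMonoid M] (f : ZMod p → M) :
    ∑ t : ZMod p, f t = ∑ k ∈ range p, f (k : ZMod p) := by
  have hp := (Fact.out : p.Prime).pos
  have : NeZero p := ⟨hp.ne'⟩
  refine Finset.sum_nbij' (fun t => t.val) (fun k => (k : ZMod p)) ?_ ?_ ?_ ?_ ?_
  · intro a _; simpa using ZMod.val_lt a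
  · intro a _; simp
  · intro a _; simp
  · intro a ha; simp at ha ⊢; exact Nat.mod_eq_of_lt ha
  · intro a _; simp

lemma chi_neg_one (hp4 : p % 4 = 1) : quadraticChar (ZMod p) (-1) = 1 := by
  rw [quadraticChar_neg_one (hchar2 (by omega)), ZMod.card]
  exact ZMod.χ₄_nat_one_mod_four hp4

lemma sum_range_add' {M : Type*} [AddCommMonoid M] (f : ℕ → M) (n m : ℕ) :
    ∑ x ∈ range (n + m), f x = (∑ x ∈ range n, f x) + ∑ x ∈ range m, f (n + x) := by
  induction m with
  | zero => simp
  | succ m ih => rw [← add_assoc, Finset.sum_range_succ, ih, Finset.sum_range_succ, add_assoc]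

lemma jphi_half {n : ℕ} (hn : p = 4 * n + 1) (a : ZMod p) :
    jphi p a = 2 * ∑ x ∈ range (2 * n),
      quadraticChar (ZMod p) (((x + 1 : ℕ) : ZMod p) * (((x + 1 : ℕ) : ZMod p) ^ 2 - a)) := by
  have hneg := chi_neg_one (p := p) (by omega)
  rw [jphi, sum_zmod_range]
  set f : ZMod p → ℤ := fun t => quadraticChar (ZMod p) (t * (t ^ 2 - a)) with hf
  have hf1 : ∀ t, f (-t) = f t := by
    intro t
    have e : (-t) * ((-t) ^ 2 - a) = (-1) * (t * (t ^ 2 - a)) := by ring
    simp only [hf]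
    rw [e, map_mul (quadraticChar (ZMod p)) (-1), hneg, one_mul]
  have hf0 : f 0 = 0 := by simp [hf]
  show ∑ k ∈ range p, f (k : ZMod p) = 2 * ∑ x ∈ range (2 * n), f ((x + 1 : ℕ) : ZMod p)
  have hr : range p = range (2 * n + 2 * n + 1) := by rw [hn]; congr 1; ring
  rw [hr, Finset.sum_range_succ', Nat.cast_zero, hf0, add_zero,
    sum_range_add' (fun k => f ((k + 1 : ℕ) : ZMod p)) (2 * n) (2 * n)]
  suffices hs : ∑ x ∈ range (2 * n), f ((2 * n + x + 1 : ℕ) : ZMod p) =
      ∑ x ∈ range (2 * n), f ((x + 1 : ℕ) : ZMod p) by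
    rw [hs]; ring
  rw [← Finset.sum_range_reflect (fun x => f ((2 * n + x + 1 : ℕ) : ZMod p)) (2 * n)]
  refine Finset.sum_congr rfl fun x hx => ?_
  rw [← hf1]
  congr 1
  have hx' : x < 2 * n := by simpa using hx
  have h2 : (2 * n + (2 * n - 1 - x) + 1) + (x + 1) = p := by omega
  have h3 : ((2 * n + (2 * n - 1 - x) + 1 : ℕ) : ZMod p) + ((x + 1 : ℕ) : ZMod p) = 0 := by
    rw [← Nat.cast_add, h2]; simp
  exact neg_eq_of_add_eq_zero_right h3

lemma odd_sum_range (f : ℕ → ℤ) (m : ℕ) (h : ∀ x ∈ range m, Odd (f x)) :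
    Odd (∑ x ∈ range m, f x) ↔ Odd m := by
  induction m with
  | zero => simp
  | succ m ih =>
    have ih' := ih (fun x hx => h x (by simp at hx ⊢; omega))
    have hm := h m (by simp)
    rw [Finset.sum_range_succ, Int.odd_add, Nat.odd_add_one, ih']
    constructor
    · intro hh ho
      exact (Int.not_even_iff_odd.mpr hm) (hh.mp ho)
    · intro hh
      constructor
      · intro ho; exact absurd ho hh
      · intro he; exact absurd he (Int.not_even_iff_odd.mpr hm)

lemma odd_chi {t : ZMod p} (ht : t ≠ 0) : Odd (quadraticChar (ZMod p) t) := by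
  rcases quadraticChar_dichotomy ht with h | h <;> rw [h] <;> decide

/-- MAIN (Jacobsthal). -/
theorem jphi_main {n : ℕ} (hn : p = 4 * n + 1) (hn0 : 0 < n) :
    ∃ x y : ℤ, jphi p 1 = 2 * x ∧ Odd x ∧ x ^ 2 + y ^ 2 = p := by
  classical
  have hp4 : p % 4 = 1 := by omega
  have hp2 : p ≠ 2 := by omega
  obtain ⟨g, hg⟩ := quadraticChar_exists_neg_one' (hchar2 (p := p) hp2)
  have h := jphi_two_squares hp4 hg
  refine ⟨_, ∑ x ∈ range (2 * n),
      quadraticChar (ZMod p) (((x + 1 : ℕ) : ZMod p) * (((x + 1 : ℕ) : ZMod p) ^ 2 - g)),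
      jphi_half hn 1, ?_, ?_⟩
  · obtain ⟨m, hm⟩ : ∃ m, 2 * n = m + 1 := ⟨2 * n - 1, by omega⟩
    rw [hm, Finset.sum_range_succ']
    simp only [zero_add, Nat.cast_one, one_pow, sub_self, mul_zero, MulChar.map_zero, add_zero]
    rw [odd_sum_range]
    · rw [Nat.odd_iff]; omega
    · intro x hx
      apply odd_chi
      have hx' : x < m := by simpa using hx
      have e : ((x + 1 + 1 : ℕ) : ZMod p) * (((x + 1 + 1 : ℕ) : ZMod p) ^ 2 - 1) =
          (((x + 2) * ((x + 1) * (x + 3)) : ℕ) : ZMod p) := by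
        push_cast; ring
      rw [e, Ne, ZMod.natCast_eq_zero_iff]
      intro hd
      have hpp := (Fact.out : p.Prime)
      rcases (Nat.Prime.dvd_mul hpp).mp hd with hd | hd
      · have := Nat.le_of_dvd (by omega) hd; omega
      · rcases (Nat.Prime.dvd_mul hpp).mp hd with hd | hd
        · have := Nat.le_of_dvd (by omega) hd; omega
        · have := Nat.le_of_dvd (by omega) hd; omega
  · have h1 := jphi_half hn (1 : ZMod p)
    have h2 := jphi_half hn g
    rw [h1, h2] at h
    have := h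
    have h4 : (4 : ℤ) * ((∑ x ∈ range (2 * n),
      quadraticChar (ZMod p) (((x + 1 : ℕ) : ZMod p) * (((x + 1 : ℕ) : ZMod p) ^ 2 - 1))) ^ 2 +
      (∑ x ∈ range (2 * n),
      quadraticChar (ZMod p) (((x + 1 : ℕ) : ZMod p) * (((x + 1 : ℕ) : ZMod p) ^ 2 - g))) ^ 2) = 4 * p := by
      rw [← h]; ring
    exact mul_left_cancel₀ (by norm_num) h4

/-- uniqueness of the odd part of a representation as a sum of two squares -/
lemma two_squares_unique (x y x' y' : ℤ) (hx : Odd x) (hx' : Odd x')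
    (hp2 : p ≠ 2) (h : x ^ 2 + y ^ 2 = p) (h' : x' ^ 2 + y' ^ 2 = p) : x' = x ∨ x' = -x := by
  have hpp := (Fact.out : p.Prime)
  have hpo : Odd (p : ℤ) := by exact_mod_cast hpp.odd_of_ne_two hp2
  have hy : Even y := by
    have : Odd (x ^ 2 + y ^ 2) := by rw [h]; exact hpo
    rw [Int.odd_add] at this
    have h2 := this.mp hx.pow
    exact (Int.even_pow.mp h2).1
  have hy' : Even y' := by
    have : Odd (x' ^ 2 + y' ^ 2) := by rw [h']; exact hpo
    rw [Int.odd_add] at this
    have h2 := this.mp hx'.pow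
    exact (Int.even_pow.mp h2).1
  have hp0 : (0 : ℤ) < p := by exact_mod_cast hpp.pos
  have key : ∀ m : ℤ, (p : ℤ) ∣ m → Even m → m ^ 2 ≤ (p : ℤ) ^ 2 → m = 0 := by
    intro m hd he hle
    obtain ⟨c, rfl⟩ := hd
    have hc : Even c := by
      rcases Int.even_mul.mp he with h | h
      · exact absurd h (Int.not_even_iff_odd.mpr hpo)
      · exact h
    obtain ⟨d, rfl⟩ := hc
    have : d = 0 := by
      by_contra hd0
      have h1 : 1 ≤ d ^ 2 := by
        have := sq_nonneg d
        have h3 : d ^ 2 ≠ 0 := pow_ne_zero 2 hd0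
        omega
      nlinarith [sq_nonneg (p : ℤ)]
    subst this; ring
  have hsq : x ^ 2 = x' ^ 2 := by
    have hprod : (p : ℤ) ∣ (x * y' - x' * y) * (x * y' + x' * y) := by
      refine ⟨x ^ 2 - x' ^ 2, ?_⟩
      have e1 : y ^ 2 = p - x ^ 2 := by linarith
      have e2 : y' ^ 2 = p - x' ^ 2 := by linarith
      calc (x * y' - x' * y) * (x * y' + x' * y) = x ^ 2 * y' ^ 2 - x' ^ 2 * y ^ 2 := by ring
        _ = _ := by rw [e1, e2]; ring
    have hfin : ∀ m k : ℤ, m ^ 2 + k ^ 2 = (p : ℤ) ^ 2 → m ^ 2 ≤ (p : ℤ) ^ 2 := by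
      intro m k hmk; nlinarith [sq_nonneg k]
    have hpi : Prime (p : ℤ) := Nat.prime_iff_prime_int.mp hpp
    have concl : x ^ 2 * y' ^ 2 = x' ^ 2 * y ^ 2 → x ^ 2 = x' ^ 2 := by
      intro hh
      have e1 : y ^ 2 = p - x ^ 2 := by linarith
      have e2 : y' ^ 2 = p - x' ^ 2 := by linarith
      rw [e1, e2] at hh
      have : (p : ℤ) * x ^ 2 = p * x' ^ 2 := by linarith
      exact mul_left_cancel₀ hp0.ne' this
    have hpsq : (x * x' + y * y') ^ 2 + (x * y' - x' * y) ^ 2 = (p : ℤ) ^ 2 := by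
      rw [pow_two (p : ℤ)]; nth_rewrite 1 [← h]; rw [← h']; ring
    have hpsq2 : (x * x' - y * y') ^ 2 + (x * y' + x' * y) ^ 2 = (p : ℤ) ^ 2 := by
      rw [pow_two (p : ℤ)]; nth_rewrite 1 [← h]; rw [← h']; ring
    rcases hpi.dvd_or_dvd hprod with hd | hd
    · have h0 := key _ hd ((hy'.mul_left x).sub (hy.mul_left x')) (by nlinarith [sq_nonneg (x * x' + y * y')])
      apply concl
      have : x * y' = x' * y := by linarith
      calc x ^ 2 * y' ^ 2 = (x * y') ^ 2 := by ring
        _ = (x' * y) ^ 2 := by rw [this]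
        _ = _ := by ring
    · have h0 := key _ hd ((hy'.mul_left x).add (hy.mul_left x')) (by nlinarith [sq_nonneg (x * x' - y * y')])
      apply concl
      have : x * y' = -(x' * y) := by linarith
      calc x ^ 2 * y' ^ 2 = (x * y') ^ 2 := by ring
        _ = (-(x' * y)) ^ 2 := by rw [this]
        _ = _ := by ring
  rcases sq_eq_sq_iff_eq_or_eq_neg.mp hsq.symm with h | h
  · left; exact h
  · right; exact h

end

end Pool.Agent.Work.MP_f41de7_nt
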