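import Mathlib
import Pool.Agent.Work.MP_f41de7_nt.CJac

/-! Teichmueller powers in Z/p^2 and the expansion of the Jacobsthal sum mod p^2. -/

namespace Pool.Agent.Work.MP_f41de7_nt

open Finset

section
variable {p : ℕ} [Fact p.Prime]

/-- reduction map -/
noncomputable def red (p : ℕ) : ZMod (p ^ 2) →+* ZMod p :=
  ZMod.castHom (dvd_pow_self p two_ne_zero) (ZMod p)

lemma red_nat (m : ℕ) : red p (m : ZMod (p ^ 2)) = (m : ZMod p) := by simp [red]

omit [Fact p.Prime] in
lemma p_sq_zero : ((p : ZMod (p ^ 2))) ^ 2 = 0 := by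
  have : ((p ^ 2 : ℕ) : ZMod (p ^ 2)) = 0 := ZMod.natCast_self _
  rw [← this]; push_cast; ring

lemma ker_red {x : ZMod (p ^ 2)} (h : red p x = 0) : ∃ y, x = (p : ZMod (p ^ 2)) * y := by
  have hp := (Fact.out : p.Prime).pos
  have : NeZero (p ^ 2) := ⟨(pow_pos hp 2).ne'⟩
  have hx : ((x.val : ℕ) : ZMod (p ^ 2)) = x := ZMod.natCast_zmod_val x
  rw [← hx, red_nat, ZMod.natCast_eq_zero_iff] at h
  obtain ⟨c, hc⟩ := h
  refine ⟨(c : ZMod (p ^ 2)), ?_⟩
  rw [← hx, hc]; push_cast; ring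

lemma isUnit_of_red {x : ZMod (p ^ 2)} (h : red p x ≠ 0) : IsUnit x := by
  have hpp := (Fact.out : p.Prime)
  have : NeZero (p ^ 2) := ⟨(pow_pos hpp.pos 2).ne'⟩
  have hx : ((x.val : ℕ) : ZMod (p ^ 2)) = x := ZMod.natCast_zmod_val x
  rw [← hx, red_nat, Ne, ZMod.natCast_eq_zero_iff] at h
  rw [← hx, ZMod.isUnit_iff_coprime]
  exact (Nat.Coprime.pow_left 2 ((Nat.Prime.coprime_iff_not_dvd hpp).mpr h)).symm

lemma mul_zero_of_red {x y : ZMod (p ^ 2)} (hx : red p x = 0) (hy : red p y = 0) : x * y = 0 := by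
  obtain ⟨a, rfl⟩ := ker_red hx
  obtain ⟨b, rfl⟩ := ker_red hy
  have := p_sq_zero (p := p)
  linear_combination a * b * this

lemma p_mul_congr {x y : ZMod (p ^ 2)} (h : red p x = red p y) :
    (p : ZMod (p ^ 2)) * x = p * y := by
  have : red p (x - y) = 0 := by rw [map_sub, h, sub_self]
  have h2 : red p (p : ZMod (p ^ 2)) = 0 := by rw [red_nat]; simp
  have := mul_zero_of_red h2 this
  linear_combination this

lemma pow_p_congr {x y : ZMod (p ^ 2)} (h : red p x = red p y) : x ^ p = y ^ p := by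
  have : red p (x - y) = 0 := by rw [map_sub, h, sub_self]
  obtain ⟨z, hz⟩ := ker_red this
  have h1 := dvd_sub_pow_of_dvd_sub (p := p) (a := x) (b := y) ⟨z, hz⟩ 1
  rw [pow_one, one_add_one_eq_two, p_sq_zero, zero_dvd_iff] at h1
  exact sub_eq_zero.mp h1

/-- Teichmueller -/
noncomputable def tei (p : ℕ) [Fact p.Prime] (a : ZMod p) : ZMod (p ^ 2) := ((a.val : ℕ) : ZMod (p ^ 2)) ^ p

lemma red_val (a : ZMod p) : red p ((a.val : ℕ) : ZMod (p ^ 2)) = a := by
  have : NeZero p := ⟨(Fact.out : p.Prime).ne_zero⟩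
  rw [red_nat]; exact ZMod.natCast_zmod_val a

lemma red_tei (a : ZMod p) : red p (tei p a) = a := by
  rw [tei, map_pow, red_val, ZMod.pow_card]

lemma tei_zero : tei p (0 : ZMod p) = 0 := by
  rw [tei, ZMod.val_zero, Nat.cast_zero, zero_pow (Fact.out : p.Prime).ne_zero]

lemma tei_mul (a b : ZMod p) : tei p (a * b) = tei p a * tei p b := by
  rw [tei, tei, tei, ← mul_pow]
  apply pow_p_congr
  rw [red_val, map_mul, red_val, red_val]

lemma tei_pow_p (a : ZMod p) : tei p a ^ p = tei p a := by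
  rw [tei]
  apply pow_p_congr
  rw [map_pow, red_val, ZMod.pow_card]

lemma tei_pow_pred {a : ZMod p} (ha : a ≠ 0) : tei p a ^ (p - 1) = 1 := by
  have hu : IsUnit (tei p a) := isUnit_of_red (by rw [red_tei]; exact ha)
  have hpp := (Fact.out : p.Prime)
  have h := tei_pow_p a
  have e : tei p a ^ p = tei p a ^ (p - 1) * tei p a := by
    rw [← pow_succ]; congr 1; have := hpp.pos; omega
  rw [e] at h
  exact hu.mul_left_injective (by simpa using h)

/-- power sums of Teichmueller representatives -/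
lemma tei_sum {k : ℕ} (hk : 0 < k) :
    ∑ a : ZMod p, tei p a ^ k = if (p - 1) ∣ k then (p : ZMod (p ^ 2)) - 1 else 0 := by
  classical
  have hpp := (Fact.out : p.Prime)
  split_ifs with h
  · rw [← Finset.add_sum_erase univ _ (mem_univ (0 : ZMod p)), tei_zero, zero_pow hk.ne', zero_add]
    have : ∀ a ∈ univ.erase (0 : ZMod p), tei p a ^ k = 1 := by
      intro a ha
      obtain ⟨c, rfl⟩ := h
      rw [pow_mul, tei_pow_pred (by simpa using ha), one_pow]
    rw [Finset.sum_congr rfl this, Finset.sum_const, Finset.card_erase_of_mem (mem_univ _),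
      Finset.card_univ, ZMod.card, nsmul_eq_mul, mul_one, Nat.cast_sub hpp.one_lt.le]
    simp
  · obtain ⟨g, hg⟩ := IsCyclic.exists_generator (α := (ZMod p)ˣ)
    have hord : orderOf g = p - 1 := by
      rw [orderOf_eq_card_of_forall_mem_zpowers hg, Nat.card_eq_fintype_card, ZMod.card_units]
    have hgk : ((g : ZMod p)) ^ k ≠ 1 := by
      intro hh
      apply h
      rw [← hord]
      apply orderOf_dvd_of_pow_eq_one
      ext
      push_cast
      exact hh
    have hS : tei p (g : ZMod p) ^ k * ∑ a : ZMod p, tei p a ^ k = ∑ a : ZMod p, tei p a ^ k := by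
      rw [Finset.mul_sum]
      refine Fintype.sum_bijective (fun t : ZMod p => (g : ZMod p) * t) ?_ _ _ ?_
      · constructor
        · intro x y hxy; exact mul_left_cancel₀ g.ne_zero hxy
        · intro y
          exact ⟨((g⁻¹ : (ZMod p)ˣ) : ZMod p) * y, Units.mul_inv_cancel_left g y⟩
      · intro t
        rw [tei_mul, mul_pow]
    have hu : IsUnit (tei p (g : ZMod p) ^ k - 1) := by
      apply isUnit_of_red
      rw [map_sub, map_pow, red_tei, map_one]
      exact sub_ne_zero.mpr hgk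
    have : (tei p (g : ZMod p) ^ k - 1) * ∑ a : ZMod p, tei p a ^ k = 0 := by
      rw [sub_mul, hS, one_mul, sub_self]
    exact (hu.mul_right_eq_zero).mp this

/-- Euler criterion modulo p^2 -/
lemma euler_sq {n : ℕ} (hn : p = 4 * n + 1) (hn0 : 0 < n) (x : ZMod (p ^ 2)) :
    2 * ((quadraticChar (ZMod p) (red p x) : ℤ) : ZMod (p ^ 2)) = 3 * x ^ (2 * n) - x ^ (6 * n) := by
  have hp2 : p ≠ 2 := by omega
  have e3 : x ^ (6 * n) = (x ^ (2 * n)) ^ 3 := by rw [← pow_mul]; congr 1; ring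
  by_cases ha : red p x = 0
  · have hx2 : x ^ 2 = 0 := by rw [pow_two x]; exact mul_zero_of_red ha ha
    have h1 : x ^ (2 * n) = 0 := by rw [pow_mul, hx2, zero_pow hn0.ne']
    rw [e3, h1, ha]; simp
  · set s := x ^ (2 * n) with hs
    set ε : ZMod (p ^ 2) := ((quadraticChar (ZMod p) (red p x) : ℤ) : ZMod (p ^ 2)) with hε
    have he2 : ε ^ 2 = 1 := by
      rw [hε, ← Int.cast_pow, quadraticChar_sq_one ha]; simp
    have hred : red p (s - ε) = 0 := by
      rw [map_sub, hs, map_pow, hε, map_intCast]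
      have := quadraticChar_eq_pow_of_char_ne_two' (hchar2 (p := p) hp2) (red p x)
      rw [this, ZMod.card]
      have : p / 2 = 2 * n := by omega
      rw [this, sub_self]
    have h0 := mul_zero_of_red hred hred
    rw [e3]
    linear_combination (s + 2 * ε) * h0 + (3 * s - 2 * ε) * he2

lemma expand_pow (n m : ℕ) (hn : p = 4 * n + 1) (hn0 : 0 < n) (hm : 0 < m) :
    ∑ t : ZMod p, (tei p t * (1 - tei p t ^ 2)) ^ (2 * m) =
      ∑ i ∈ range (2 * m + 1), (-1) ^ i * ((2 * m).choose i : ZMod (p ^ 2)) *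
        (if 4 * n ∣ 2 * m + 2 * i then (p : ZMod (p ^ 2)) - 1 else 0) := by
  have h1 : ∀ t : ZMod p, (tei p t * (1 - tei p t ^ 2)) ^ (2 * m) =
      ∑ i ∈ range (2 * m + 1), (-1) ^ i * ((2 * m).choose i : ZMod (p ^ 2)) * tei p t ^ (2 * m + 2 * i) := by
    intro t
    rw [mul_pow, sub_eq_neg_add, add_pow, Finset.mul_sum]
    refine Finset.sum_congr rfl fun i _ => ?_
    rw [one_pow, neg_pow, pow_add, ← pow_mul]
    ring
  simp_rw [h1]
  rw [Finset.sum_comm]
  refine Finset.sum_congr rfl fun i _ => ?_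
  rw [← Finset.mul_sum, tei_sum (by omega)]
  have : p - 1 = 4 * n := by omega
  rw [this]

lemma expand_two (n : ℕ) (hn : p = 4 * n + 1) (hn0 : 0 < n) :
    ∑ t : ZMod p, (tei p t * (1 - tei p t ^ 2)) ^ (2 * n) =
      (-1) ^ n * ((2 * n).choose n : ZMod (p ^ 2)) * ((p : ZMod (p ^ 2)) - 1) := by
  rw [expand_pow n n hn hn0 hn0, Finset.sum_eq_single n]
  · rw [if_pos ⟨1, by ring⟩]
  · intro i hi hin
    rw [if_neg, mul_zero]
    rintro ⟨c, hc⟩
    have hi' : i < 2 * n + 1 := by simpa using hi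
    have h1 : 0 < c := by
      rcases Nat.eq_zero_or_pos c with rfl | h
      · omega
      · exact h
    have h2 : c < 2 := by
      by_contra h
      have : 2 ≤ c := by omega
      nlinarith
    have : c = 1 := by omega
    subst this
    apply hin; omega
  · intro h; simp at h; omega

lemma expand_six (n : ℕ) (hn : p = 4 * n + 1) (hn0 : 0 < n) :
    ∑ t : ZMod p, (tei p t * (1 - tei p t ^ 2)) ^ (6 * n) =
      (-1) ^ n * (2 * ((6 * n).choose n : ZMod (p ^ 2)) + ((6 * n).choose (3 * n) : ZMod (p ^ 2)))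
        * ((p : ZMod (p ^ 2)) - 1) := by
  have h6 : 6 * n = 2 * (3 * n) := by ring
  have hsub : ({n, 3 * n, 5 * n} : Finset ℕ) ⊆ range (2 * (3 * n) + 1) := by
    intro i hi
    simp only [mem_insert, mem_singleton, mem_range] at hi ⊢
    omega
  rw [h6, expand_pow n (3 * n) hn hn0 (by omega), ← Finset.sum_subset hsub, ← h6]
  · have hsign : ∀ k, (-1 : ZMod (p ^ 2)) ^ ((2 * k + 1) * n) = (-1) ^ n := by
      intro k
      rw [add_mul, one_mul, pow_add, mul_assoc, pow_mul]
      simp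
    have e1 : ((-1 : ZMod (p ^ 2))) ^ (3 * n) = (-1) ^ n := by simpa using hsign 1
    have e2 : ((-1 : ZMod (p ^ 2))) ^ (5 * n) = (-1) ^ n := by simpa using hsign 2
    have e3 : (6 * n).choose (5 * n) = (6 * n).choose n := by
      rw [← Nat.choose_symm (show 5 * n ≤ 6 * n by omega)]; congr 1; omega
    rw [Finset.sum_insert (by simp; omega), Finset.sum_insert (by simp; omega), Finset.sum_singleton,
      if_pos ⟨2, by ring⟩, if_pos ⟨3, by ring⟩, if_pos ⟨4, by ring⟩, e1, e2, e3]
    ring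
  · intro i hi hin
    rw [if_neg, mul_zero]
    rintro ⟨c, hc⟩
    simp only [mem_insert, mem_singleton, mem_range, not_or] at hi hin
    have h2 : c < 5 := by
      by_contra h
      have : 5 ≤ c := by omega
      nlinarith
    have h3 : 1 < c := by
      by_contra h
      have : c ≤ 1 := by omega
      nlinarith
    interval_cases c <;> omega

/-- the Jacobsthal sum mod p^2 -/
theorem jphi_mod (n : ℕ) (hn : p = 4 * n + 1) (hn0 : 0 < n) :
    2 * ((jphi p 1 : ℤ) : ZMod (p ^ 2)) = ((p : ZMod (p ^ 2)) - 1) * (-1) ^ n *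
      (3 * ((2 * n).choose n : ZMod (p ^ 2)) - 2 * ((6 * n).choose n : ZMod (p ^ 2))
        - ((6 * n).choose (3 * n) : ZMod (p ^ 2))) := by
  have hneg := chi_neg_one (p := p) (by omega)
  have h1 : jphi p 1 = ∑ t : ZMod p, quadraticChar (ZMod p) (red p (tei p t * (1 - tei p t ^ 2))) := by
    rw [jphi]
    refine Finset.sum_congr rfl fun t _ => ?_
    rw [map_mul (red p), map_sub, map_pow, red_tei, map_one]
    have e : t * (t ^ 2 - 1) = (-1) * (t * (1 - t ^ 2)) := by ring
    rw [e, map_mul (quadraticChar (ZMod p)) (-1), hneg, one_mul]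
  rw [h1, Int.cast_sum, Finset.mul_sum]
  simp_rw [euler_sq hn hn0]
  rw [Finset.sum_sub_distrib, ← Finset.mul_sum, expand_two n hn hn0, expand_six n hn hn0]
  ring

end

end Pool.Agent.Work.MP_f41de7_nt
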