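import Mathlib
import Pool.Agent.Work.MP_f41de7_nt.CTei

/-! Binomials mod p^2 and module (C). -/

namespace Pool.Agent.Work.MP_f41de7_nt

open Finset Nat

section
variable {p : ℕ} [Fact p.Prime]

lemma unit_nat {m : ℕ} (h : ¬ p ∣ m) : IsUnit ((m : ℕ) : ZMod (p ^ 2)) := by
  apply isUnit_of_red
  rw [red_nat, Ne, ZMod.natCast_eq_zero_iff]
  exact h

lemma unit_fact {m : ℕ} (h : m < p) : IsUnit ((m ! : ℕ) : ZMod (p ^ 2)) := by
  apply unit_nat
  rw [(Fact.out : p.Prime).dvd_factorial]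
  omega

/-- first order expansion of a product -/
lemma exists_h (m k : ℕ) (h : ∀ i < k, ¬ p ∣ m + i) :
    ∃ g : ZMod (p ^ 2), ∀ c : ZMod (p ^ 2),
      ∏ i ∈ range k, (c * (p : ZMod (p ^ 2)) + ((m + i : ℕ) : ZMod (p ^ 2))) =
        (∏ i ∈ range k, ((m + i : ℕ) : ZMod (p ^ 2))) * (1 + c * (p : ZMod (p ^ 2)) * g) := by
  induction k with
  | zero => exact ⟨0, by simp⟩
  | succ k ih =>
    obtain ⟨h1, hh⟩ := ih (fun i hi => h i (by omega))
    obtain ⟨v, hv⟩ := (unit_nat (h k (by omega))).exists_right_inv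
    refine ⟨h1 + v, fun c => ?_⟩
    rw [Finset.prod_range_succ, Finset.prod_range_succ, hh c]
    have h2 := p_sq_zero (p := p)
    set P := ∏ i ∈ range k, ((m + i : ℕ) : ZMod (p ^ 2))
    set q : ZMod (p ^ 2) := (p : ZMod (p ^ 2))
    set w : ZMod (p ^ 2) := ((m + k : ℕ) : ZMod (p ^ 2))
    linear_combination P * (c ^ 2 * h1) * h2 - P * c * q * hv

lemma vander (M m K : ℕ) (h : m ≤ K) :
    ∑ k ∈ range (K + 1), M.choose k * m.choose k = (M + m).choose m := by
  have h1 : ∑ k ∈ range (K + 1), M.choose k * m.choose k =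
      ∑ k ∈ range (m + 1), M.choose k * m.choose k := by
    symm
    apply Finset.sum_subset
    · intro i hi; simp at hi ⊢; omega
    · intro i _ hi
      have : m < i := by simpa using hi
      rw [Nat.choose_eq_zero_of_lt this, mul_zero]
  rw [h1, Nat.add_choose_eq, Finset.Nat.sum_antidiagonal_eq_sum_range_succ (fun a b => M.choose a * m.choose b)]
  refine Finset.sum_congr rfl fun k hk => ?_
  have : k ≤ m := by simp at hk; omega
  rw [Nat.choose_symm this]

lemma choose_red {c m k : ℕ} (hm : m < p) (hk : k < p) :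
    red p (((c * p + m).choose k : ℕ) : ZMod (p ^ 2)) = red p ((m.choose k : ℕ) : ZMod (p ^ 2)) := by
  rw [red_nat, red_nat]
  have h := Choose.choose_modEq_choose_mod_mul_choose_div_nat (n := c * p + m) (k := k) (p := p)
  have hp := (Fact.out : p.Prime).pos
  have e1 : (c * p + m) % p = m := by
    rw [Nat.mul_add_mod_self_right]; exact Nat.mod_eq_of_lt hm
  have e2 : k % p = k := Nat.mod_eq_of_lt hk
  have e3 : k / p = 0 := Nat.div_eq_of_lt hk
  rw [e1, e2, e3, Nat.choose_zero_right, mul_one] at h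
  exact (ZMod.natCast_eq_natCast_iff _ _ _).mpr h

/-- the sum as three binomials -/
lemma G_three (n : ℕ) (hn : p = 4 * n + 1) (hn0 : 0 < n) :
    ∑ k ∈ range (2 * n + 1), (((n * p + n).choose k : ℕ) : ZMod (p ^ 2)) *
      (((2 * n * p + 2 * n).choose k : ℕ) : ZMod (p ^ 2)) =
    (((n * p + 3 * n).choose (2 * n) : ℕ) : ZMod (p ^ 2)) +
      (((2 * n * p + 3 * n).choose n : ℕ) : ZMod (p ^ 2)) - (((3 * n).choose n : ℕ) : ZMod (p ^ 2)) := by
  have h1 := vander (n * p + n) (2 * n) (2 * n) le_rfl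
  have h2 := vander (2 * n * p + 2 * n) n (2 * n) (by omega)
  have h3 := vander (2 * n) n (2 * n) (by omega)
  have e1 : n * p + n + 2 * n = n * p + 3 * n := by ring
  have e2 : 2 * n * p + 2 * n + n = 2 * n * p + 3 * n := by ring
  have e3 : 2 * n + n = 3 * n := by ring
  rw [e1] at h1
  rw [e2] at h2
  rw [e3] at h3
  rw [← h1, ← h2, ← h3, Nat.cast_sum, Nat.cast_sum, Nat.cast_sum, ← Finset.sum_add_distrib,
    ← Finset.sum_sub_distrib]
  refine Finset.sum_congr rfl fun k hk => ?_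
  have hk' : k < 2 * n + 1 := by simpa using hk
  have ha : red p ((((n * p + n).choose k : ℕ) : ZMod (p ^ 2)) - ((n.choose k : ℕ) : ZMod (p ^ 2))) = 0 := by
    rw [map_sub, choose_red (by omega) (by omega), sub_self]
  have hb : red p ((((2 * n * p + 2 * n).choose k : ℕ) : ZMod (p ^ 2)) -
      (((2 * n).choose k : ℕ) : ZMod (p ^ 2))) = 0 := by
    rw [map_sub, choose_red (by omega) (by omega), sub_self]
  have := mul_zero_of_red ha hb
  push_cast
  linear_combination this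

/-- All binomials of module (C) in terms of `B` and `h`. -/
lemma binomials (n : ℕ) (hn : p = 4 * n + 1) (hn0 : 0 < n) :
    ∃ h : ZMod (p ^ 2),
      (∀ c : ℕ, (((c * p + 3 * n).choose n : ℕ) : ZMod (p ^ 2)) =
        (-1) ^ n * ((2 * n).choose n : ZMod (p ^ 2)) *
          (1 - ((c : ZMod (p ^ 2)) + 1) * (p : ZMod (p ^ 2)) * h)) ∧
      (((n * p + 3 * n).choose (2 * n) : ℕ) : ZMod (p ^ 2)) =
        (-1) ^ n * ((2 * n).choose n : ZMod (p ^ 2)) * (1 - (p : ZMod (p ^ 2)) * h) ∧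
      2 * (((6 * n).choose n : ℕ) : ZMod (p ^ 2)) =
        ((2 * n).choose n : ZMod (p ^ 2)) * (1 + (p : ZMod (p ^ 2)) * h - 2 * (p : ZMod (p ^ 2))) := by
  have hpp := (Fact.out : p.Prime)
  have h2 := p_sq_zero (p := p)
  obtain ⟨h, hh⟩ := exists_h (p := p) (n + 1) n (by
    intro i hi hd
    have := Nat.le_of_dvd (by omega) hd
    omega)
  have hf : IsUnit ((n ! : ℕ) : ZMod (p ^ 2)) := unit_fact (by omega)
  have hf2 : IsUnit (((2 * n)! : ℕ) : ZMod (p ^ 2)) := unit_fact (by omega)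
  set P : ZMod (p ^ 2) := (p : ZMod (p ^ 2)) with hP
  have h4n : (4 : ZMod (p ^ 2)) * (n : ZMod (p ^ 2)) = P - 1 := by
    have : ((4 * n + 1 : ℕ) : ZMod (p ^ 2)) = P := by rw [← hn]
    rw [← this]; push_cast; ring
  set Q : ZMod (p ^ 2) := ∏ i ∈ range n, ((n + 1 + i : ℕ) : ZMod (p ^ 2)) with hQ
  have hQ1 : Q = (n ! : ZMod (p ^ 2)) * ((2 * n).choose n : ZMod (p ^ 2)) := by
    rw [hQ, ← Nat.cast_prod, ← Nat.ascFactorial_eq_prod_range, Nat.ascFactorial_eq_factorial_mul_choose]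
    push_cast
    rw [show n + n = 2 * n by ring]
  -- the reflected product
  have hrefl : ∀ c : ℕ, ∏ i ∈ range n, ((c * p + 2 * n + 1 + i : ℕ) : ZMod (p ^ 2)) =
      (-1) ^ n * (Q * (1 - ((c : ZMod (p ^ 2)) + 1) * P * h)) := by
    intro c
    have e1 : ∏ i ∈ range n, ((c * p + 2 * n + 1 + i : ℕ) : ZMod (p ^ 2)) =
        ∏ i ∈ range n, (-1 : ZMod (p ^ 2)) * ((-((c : ZMod (p ^ 2)) + 1) : ZMod (p ^ 2)) * P + ((n + 1 + i : ℕ) : ZMod (p ^ 2))) := by
      rw [← Finset.prod_range_reflect]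
      refine Finset.prod_congr rfl fun i hi => ?_
      have hi' : i < n := by simpa using hi
      have : (n - 1 - i : ℕ) + i + 1 = n := by omega
      have h3 : ((n - 1 - i : ℕ) : ZMod (p ^ 2)) = (n : ZMod (p ^ 2)) - i - 1 := by
        have h5 := congrArg (fun x : ℕ => (x : ZMod (p ^ 2))) this
        simp only [Nat.cast_add, Nat.cast_one] at h5
        linear_combination h5
      push_cast
      rw [h3]
      linear_combination h4n
    rw [e1, Finset.prod_mul_distrib, hh, Finset.prod_const, Finset.card_range]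
    ring
  refine ⟨h, ?_, ?_, ?_⟩
  · intro c
    have e : ((c * p + 3 * n).choose n) * n ! = ∏ i ∈ range n, (c * p + 2 * n + 1 + i) := by
      rw [← Nat.ascFactorial_eq_prod_range, Nat.ascFactorial_eq_factorial_mul_choose, mul_comm,
        show c * p + 2 * n + n = c * p + 3 * n by ring]
    have e2 : (((c * p + 3 * n).choose n : ℕ) : ZMod (p ^ 2)) * ((n ! : ℕ) : ZMod (p ^ 2)) =
        (-1) ^ n * (Q * (1 - ((c : ZMod (p ^ 2)) + 1) * P * h)) := by
      rw [← hrefl c]
      have h5 := congrArg (fun x : ℕ => (x : ZMod (p ^ 2))) e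
      simpa only [Nat.cast_mul, Nat.cast_prod] using h5
    refine hf.mul_left_injective ?_
    show (((c * p + 3 * n).choose n : ℕ) : ZMod (p ^ 2)) * ((n ! : ℕ) : ZMod (p ^ 2)) = _
    rw [e2, hQ1]; ring
  · have e : ((n * p + 3 * n).choose (2 * n)) * (2 * n)! =
        (∏ i ∈ range n, (n * p + n + 1 + i)) * ∏ i ∈ range n, (n * p + 2 * n + 1 + i) := by
      have e0 : ((n * p + 3 * n).choose (2 * n)) * (2 * n)! = ∏ i ∈ range (n + n), (n * p + n + 1 + i) := by
        rw [← Nat.ascFactorial_eq_prod_range, show n + n = 2 * n by ring,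
          Nat.ascFactorial_eq_factorial_mul_choose, mul_comm,
          show n * p + n + 2 * n = n * p + 3 * n by ring]
      rw [e0, Finset.prod_range_add]
      congr 1
      refine Finset.prod_congr rfl fun i _ => by ring
    have e1 : (∏ i ∈ range n, ((n * p + n + 1 + i : ℕ) : ZMod (p ^ 2))) = Q * (1 + n * P * h) := by
      rw [← hh]
      refine Finset.prod_congr rfl fun i _ => by push_cast; ring
    have e2 : (((n * p + 3 * n).choose (2 * n) : ℕ) : ZMod (p ^ 2)) * (((2 * n)! : ℕ) : ZMod (p ^ 2)) =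
        (Q * (1 + n * P * h)) * ((-1) ^ n * (Q * (1 - (n + 1) * P * h))) := by
      rw [← hrefl n, ← e1]
      have h5 := congrArg (fun x : ℕ => (x : ZMod (p ^ 2))) e
      simpa only [Nat.cast_mul, Nat.cast_prod] using h5
    have e3 : (((2 * n)! : ℕ) : ZMod (p ^ 2)) = Q * (n ! : ZMod (p ^ 2)) := by
      rw [hQ1]
      have := Nat.choose_mul_factorial_mul_factorial (show n ≤ 2 * n by omega)
      rw [show 2 * n - n = n by omega] at this
      rw [← this]; push_cast; ring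
    refine hf2.mul_left_injective ?_
    show (((n * p + 3 * n).choose (2 * n) : ℕ) : ZMod (p ^ 2)) * (((2 * n)! : ℕ) : ZMod (p ^ 2)) =
      (-1) ^ n * ((2 * n).choose n : ZMod (p ^ 2)) * (1 - P * h) * (((2 * n)! : ℕ) : ZMod (p ^ 2))
    rw [e2, e3, hQ1]
    linear_combination (-(-1) ^ n * (n ! : ZMod (p ^ 2)) ^ 2 * ((2 * n).choose n : ZMod (p ^ 2)) ^ 2 *
      ((n : ZMod (p ^ 2)) * (n + 1) * h ^ 2)) * h2
  · have e : ((6 * n).choose n) * n ! = ∏ i ∈ range n, (5 * n + 1 + i) := by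
      rw [← Nat.ascFactorial_eq_prod_range, Nat.ascFactorial_eq_factorial_mul_choose, mul_comm,
        show 5 * n + n = 6 * n by ring]
    have e1 : (∏ i ∈ range n, ((5 * n + 1 + i : ℕ) : ZMod (p ^ 2))) * (P + 2 * n) =
        (P + n) * (Q * (1 + P * h)) := by
      have e0 : ∀ i, ((5 * n + 1 + i : ℕ) : ZMod (p ^ 2)) = P + ((n + i : ℕ) : ZMod (p ^ 2)) := by
        intro i
        push_cast
        linear_combination h4n
      simp_rw [e0]
      have e4 : P + 2 * (n : ZMod (p ^ 2)) = P + ((n + n : ℕ) : ZMod (p ^ 2)) := by push_cast; ring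
      rw [e4, ← Finset.prod_range_succ (fun i => P + ((n + i : ℕ) : ZMod (p ^ 2))), Finset.prod_range_succ',
        add_zero, mul_comm]
      congr 1
      have := hh 1
      rw [one_mul] at this
      rw [← this]
      refine Finset.prod_congr rfl fun i _ => by push_cast; ring
    have e2 : (((6 * n).choose n : ℕ) : ZMod (p ^ 2)) * ((n ! : ℕ) : ZMod (p ^ 2)) =
        ∏ i ∈ range n, ((5 * n + 1 + i : ℕ) : ZMod (p ^ 2)) := by
      have h5 := congrArg (fun x : ℕ => (x : ZMod (p ^ 2))) e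
      simpa only [Nat.cast_mul, Nat.cast_prod] using h5
    rw [← e2] at e1
    refine hf.mul_left_injective ?_
    show 2 * (((6 * n).choose n : ℕ) : ZMod (p ^ 2)) * ((n ! : ℕ) : ZMod (p ^ 2)) =
      ((2 * n).choose n : ZMod (p ^ 2)) * (1 + P * h - 2 * P) * ((n ! : ℕ) : ZMod (p ^ 2))
    rw [hQ1] at e1
    set c6 : ZMod (p ^ 2) := (((6 * n).choose n : ℕ) : ZMod (p ^ 2))
    set F : ZMod (p ^ 2) := ((n ! : ℕ) : ZMod (p ^ 2))
    set C : ZMod (p ^ 2) := (((2 * n).choose n : ℕ) : ZMod (p ^ 2))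
    linear_combination (-(4 * (1 + 3 * P))) * e1 + ((1 + 3 * P) * (2 * c6 * F - F * C * (1 + P * h))) * h4n +
      (18 * c6 * F - F * C * (2 * h + 15 + 15 * P * h)) * h2

/-- the middle binomial -/
lemma binom_mid (n : ℕ) (hn : p = 4 * n + 1) (hn0 : 0 < n) :
    (((6 * n).choose (3 * n) : ℕ) : ZMod (p ^ 2)) * ((2 * n).choose n : ZMod (p ^ 2)) =
      -2 * (p : ZMod (p ^ 2)) := by
  have hpp := (Fact.out : p.Prime)
  -- Wilson type facts in Z/p
  have hw := ZMod.wilsons_lemma p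
  have h4n : (4 : ZMod p) * (n : ZMod p) = -1 := by
    have : ((4 * n + 1 : ℕ) : ZMod p) = 0 := by rw [← hn]; simp
    push_cast at this
    linear_combination this
  have hrf : ∀ k m : ℕ, m + k = p → (∏ i ∈ range k, ((m + i : ℕ) : ZMod p)) = (-1) ^ k * ((k ! : ℕ) : ZMod p) := by
    intro k m hmk
    rw [← Finset.prod_range_reflect, ← Finset.prod_range_add_one_eq_factorial, Nat.cast_prod]
    have : ∀ i ∈ range k, ((m + (k - 1 - i) : ℕ) : ZMod p) = (-1) * ((i + 1 : ℕ) : ZMod p) := by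
      intro i hi
      have hi' : i < k := by simpa using hi
      have e : (m + (k - 1 - i)) + (i + 1) = p := by omega
      have h5 := congrArg (fun x : ℕ => (x : ZMod p)) e
      simp only [Nat.cast_add (m + (k - 1 - i)), ZMod.natCast_self] at h5
      linear_combination h5
    rw [Finset.prod_congr rfl this, Finset.prod_mul_distrib, Finset.prod_const, Finset.card_range]
  set W : ZMod p := ∏ i ∈ range n, ((3 * n + 1 + i : ℕ) : ZMod p) with hW
  have hW1 : W = (-1) ^ n * ((n ! : ℕ) : ZMod p) := hrf n (3 * n + 1) (by omega)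
  have hW2 : (((3 * n)! : ℕ) : ZMod p) * W = -1 := by
    rw [← hw, hW, ← Nat.cast_prod, ← Nat.cast_mul, ← Nat.ascFactorial_eq_prod_range,
      Nat.factorial_mul_ascFactorial]
    congr 2; omega
  have hV : (((2 * n)! : ℕ) : ZMod p) * (((2 * n)! : ℕ) : ZMod p) = -1 := by
    have h1 := hrf (2 * n) (2 * n + 1) (by omega)
    have h2 : (((2 * n)! : ℕ) : ZMod p) * (∏ i ∈ range (2 * n), ((2 * n + 1 + i : ℕ) : ZMod p)) = -1 := by
      rw [← hw, ← Nat.cast_prod, ← Nat.cast_mul, ← Nat.ascFactorial_eq_prod_range,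
        Nat.factorial_mul_ascFactorial]
      congr 2; omega
    rw [h1, pow_mul] at h2
    simpa using h2
  obtain ⟨m, hm⟩ : ∃ m, 2 * n = m + 1 := ⟨2 * n - 1, by omega⟩
  have hfm : (((2 * n)! : ℕ) : ZMod p) = 2 * (n : ZMod p) * ((m ! : ℕ) : ZMod p) := by
    have : ((2 * n : ℕ) : ZMod p) = ((m + 1 : ℕ) : ZMod p) := by rw [hm]
    push_cast at this
    rw [hm, Nat.factorial_succ]
    push_cast
    rw [this]
  have hWne : W ≠ 0 := by
    intro h; rw [h, mul_zero] at hW2
    have : (1 : ZMod p) = 0 := by linear_combination hW2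
    exact one_ne_zero this
  have hNne : (2 : ZMod p) * (n : ZMod p) ≠ 0 := by
    intro h
    have : (1 : ZMod p) = 0 := by linear_combination h4n - 2 * h
    exact one_ne_zero this
  have hWsq : W * W = ((n ! : ℕ) : ZMod p) * ((n ! : ℕ) : ZMod p) := by
    rw [hW1]
    have : ((-1 : ZMod p) ^ n) * (-1) ^ n = 1 := by rw [← pow_add, ← two_mul, pow_mul]; simp
    linear_combination ((n ! : ℕ) : ZMod p) ^ 2 * this
  have hrel : W * ((m ! : ℕ) : ZMod p) * (((2 * n)! : ℕ) : ZMod p) =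
      -2 * (((3 * n)! : ℕ) : ZMod p) * ((n ! : ℕ) : ZMod p) * ((n ! : ℕ) : ZMod p) := by
    refine mul_left_cancel₀ (mul_ne_zero hWne hNne) ?_
    set a := (((3 * n)! : ℕ) : ZMod p)
    set b := ((n ! : ℕ) : ZMod p)
    set c := (((2 * n)! : ℕ) : ZMod p)
    set d := ((m ! : ℕ) : ZMod p)
    set N := (n : ZMod p)
    -- W*(2N)*(W d c) = W^2 c^2 ; W*2N*(-2 a b b) = -4N (aW) b^2
    linear_combination (-W * W * c) * hfm + W * W * hV - hWsq + (4 * N * b * b) * hW2 + (- b * b) * h4n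
  -- natural number identities
  have hnat : (6 * n).choose (3 * n) * (3 * n)! =
      (∏ i ∈ range n, (3 * n + 1 + i)) * ((∏ i ∈ range m, (p + 1 + i)) * p) := by
    have e0 : (6 * n).choose (3 * n) * (3 * n)! = ∏ i ∈ range (n + (m + 1)), (3 * n + 1 + i) := by
      rw [← Nat.ascFactorial_eq_prod_range, show n + (m + 1) = 3 * n by omega,
        Nat.ascFactorial_eq_factorial_mul_choose, mul_comm, show 3 * n + 3 * n = 6 * n by ring]
    rw [e0, Finset.prod_range_add]
    congr 1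
    rw [Finset.prod_range_succ']
    congr 1
    · refine Finset.prod_congr rfl fun i _ => by rw [hn]; ring
    · rw [hn]; ring
  have hc2 := Nat.choose_mul_factorial_mul_factorial (show n ≤ 2 * n by omega)
  rw [show 2 * n - n = n by omega] at hc2
  have hu : IsUnit ((((3 * n)! : ℕ) : ZMod (p ^ 2)) * (((n ! : ℕ) : ZMod (p ^ 2)) * ((n ! : ℕ) : ZMod (p ^ 2)))) :=
    (unit_fact (by omega)).mul ((unit_fact (by omega)).mul (unit_fact (by omega)))
  refine hu.mul_left_injective ?_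
  show (((6 * n).choose (3 * n) : ℕ) : ZMod (p ^ 2)) * ((2 * n).choose n : ZMod (p ^ 2)) *
    ((((3 * n)! : ℕ) : ZMod (p ^ 2)) * (((n ! : ℕ) : ZMod (p ^ 2)) * ((n ! : ℕ) : ZMod (p ^ 2)))) =
    -2 * (p : ZMod (p ^ 2)) * ((((3 * n)! : ℕ) : ZMod (p ^ 2)) *
      (((n ! : ℕ) : ZMod (p ^ 2)) * ((n ! : ℕ) : ZMod (p ^ 2))))
  have h6 := congrArg (fun x : ℕ => (x : ZMod (p ^ 2))) hnat
  have h7 := congrArg (fun x : ℕ => (x : ZMod (p ^ 2))) hc2
  simp only [Nat.cast_mul, Nat.cast_prod] at h6 h7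
  have h8 : (p : ZMod (p ^ 2)) * ((∏ i ∈ range n, ((3 * n + 1 + i : ℕ) : ZMod (p ^ 2))) *
      (∏ i ∈ range m, ((p + 1 + i : ℕ) : ZMod (p ^ 2))) * (((2 * n)! : ℕ) : ZMod (p ^ 2))) =
      (p : ZMod (p ^ 2)) * (-2 * (((3 * n)! : ℕ) : ZMod (p ^ 2)) * ((n ! : ℕ) : ZMod (p ^ 2)) *
        ((n ! : ℕ) : ZMod (p ^ 2))) := by
    apply p_mul_congr
    simp only [map_mul, map_prod, red_nat, map_neg, map_ofNat]
    rw [← hrel]
    congr 2
    rw [← Finset.prod_range_add_one_eq_factorial, Nat.cast_prod]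
    refine Finset.prod_congr rfl fun i _ => ?_
    push_cast
    rw [ZMod.natCast_self]; ring
  linear_combination ((2 * n).choose n : ZMod (p ^ 2)) * ((n ! : ℕ) : ZMod (p ^ 2)) *
    ((n ! : ℕ) : ZMod (p ^ 2)) * h6 + (∏ i ∈ range n, ((3 * n + 1 + i : ℕ) : ZMod (p ^ 2))) *
      (∏ i ∈ range m, ((p + 1 + i : ℕ) : ZMod (p ^ 2))) * (p : ZMod (p ^ 2)) * h7 + h8

/-- Module (C) in Z/p^2, binomial form. -/
lemma modC_binom (n : ℕ) (hn : p = 4 * n + 1) (hn0 : 0 < n) (G : ZMod (p ^ 2))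
    (hG : G = ∑ k ∈ range (2 * n + 1), (((n * p + n).choose k : ℕ) : ZMod (p ^ 2)) *
      (((2 * n * p + 2 * n).choose k : ℕ) : ZMod (p ^ 2))) :
    (-((jphi p 1 : ℤ) : ZMod (p ^ 2))) * G =
      (-((jphi p 1 : ℤ) : ZMod (p ^ 2))) ^ 2 - (p : ZMod (p ^ 2)) := by
  have hpp := (Fact.out : p.Prime)
  have h2 := p_sq_zero (p := p)
  obtain ⟨h, hb1, hb2, hb3⟩ := binomials n hn hn0
  have hcm := binom_mid n hn hn0
  have hj := jphi_mod n hn hn0
  rw [G_three n hn hn0, hb2, hb1 (2 * n)] at hG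
  have hb0 := hb1 0
  rw [zero_mul, zero_add] at hb0
  rw [hb0] at hG
  set J : ZMod (p ^ 2) := -((jphi p 1 : ℤ) : ZMod (p ^ 2)) with hJ
  set P : ZMod (p ^ 2) := (p : ZMod (p ^ 2)) with hP
  set s : ZMod (p ^ 2) := (-1) ^ n with hs0
  set C : ZMod (p ^ 2) := ((2 * n).choose n : ZMod (p ^ 2)) with hC
  set c6 : ZMod (p ^ 2) := ((6 * n).choose n : ZMod (p ^ 2))
  set cm : ZMod (p ^ 2) := ((6 * n).choose (3 * n) : ZMod (p ^ 2))
  have hs : s * s = 1 := by rw [hs0, ← pow_add, ← two_mul, pow_mul]; simp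
  have h4n : (4 : ZMod (p ^ 2)) * (n : ZMod (p ^ 2)) = P - 1 := by
    have : ((4 * n + 1 : ℕ) : ZMod (p ^ 2)) = P := by rw [← hn]
    rw [← this]; push_cast; ring
  have hG1 : G = s * C * (1 - (2 * (n : ZMod (p ^ 2)) + 1) * P * h) := by
    rw [hG]; push_cast; ring
  have hG2 : 2 * G = s * C * (2 - P * h) := by
    linear_combination 2 * hG1 - s * C * P * h * h4n - s * C * h * h2
  have hJ2 : 2 * J = (1 - P) * s * (3 * C - 2 * c6 - cm) := by
    linear_combination -hj
  have hkey4 : 4 * (G ^ 2 + P) = 4 * (J * G) := by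
    linear_combination (2 * G + s * C * (2 - P * h) - (1 - P) * s * (3 * C - 2 * c6 - cm)) * hG2 - 2 * G * hJ2 +
      (C ^ 2 * (2 - P * h) ^ 2 - (1 - P) * (3 * C ^ 2 - 2 * c6 * C - cm * C) * (2 - P * h)) * hs +
      (1 - P) * (2 - P * h) * C * hb3 + (1 - P) * (2 - P * h) * hcm +
      (C ^ 2 * (2 - P * h) * (2 - h) + 2 * h + 4 - 2 * P * h) * h2
  have h4 : IsUnit (4 : ZMod (p ^ 2)) := by
    have := unit_nat (p := p) (m := 4) (by
      intro hd
      have h5 : p ∣ 2 := by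
        have : p ∣ 2 ^ 2 := by norm_num; exact hd
        exact hpp.dvd_of_dvd_pow this
      have := Nat.le_of_dvd (by norm_num) h5
      omega)
    exact_mod_cast this
  have hkey : G ^ 2 + P = J * G := h4.mul_right_injective (by simpa using hkey4)
  have hCu : ¬ p ∣ (2 * n).choose n := by
    intro hd
    have hc2 := Nat.choose_mul_factorial_mul_factorial (show n ≤ 2 * n by omega)
    have : p ∣ (2 * n)! := by
      rw [← hc2, mul_assoc]; exact dvd_mul_of_dvd_left hd _
    rw [hpp.dvd_factorial] at this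
    omega
  have hCu' : IsUnit C := unit_nat hCu
  have hsu : IsUnit s := IsUnit.of_mul_eq_one s hs
  have h1u : IsUnit (2 - P * h) := by
    apply isUnit_of_red
    rw [map_sub, map_mul, hP, red_nat, ZMod.natCast_self, zero_mul, sub_zero, map_ofNat]
    have : ((2 : ℕ) : ZMod p) ≠ 0 := by
      rw [Ne, ZMod.natCast_eq_zero_iff]
      intro hd
      have := Nat.le_of_dvd (by norm_num) hd
      omega
    exact_mod_cast this
  have hGu : IsUnit G := by
    have : IsUnit (2 * G) := by rw [hG2]; exact (hsu.mul hCu').mul h1u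
    exact isUnit_of_mul_isUnit_right this
  obtain ⟨v, hv⟩ := hGu.exists_right_inv
  have hJv : J = G + P * v := by
    linear_combination (-v) * hkey + (G - J) * hv
  rw [hJv]
  linear_combination (-P) * hv - v ^ 2 * h2

/-- Module (C) in Z/p^2, recursion form. -/
theorem modC_zmod (n : ℕ) (hn : p = 4 * n + 1) (hn0 : 0 < n) (u : ℕ → ZMod (p ^ 2)) (hu0 : u 0 = 1)
    (hu : ∀ j < 2 * n, 8 * ((j : ZMod (p ^ 2)) + 1) ^ 2 * u (j + 1) =
      (4 * (j : ZMod (p ^ 2)) + 1) * (2 * (j : ZMod (p ^ 2)) + 1) * u j)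
    (x y : ℤ) (hx : Odd x) (hxy : x ^ 2 + y ^ 2 = p) :
    ∃ e : ℤ, (e = x ∨ e = -x) ∧
      2 * (e : ZMod (p ^ 2)) * ∑ k ∈ range (2 * n + 1), u k = 4 * (e : ZMod (p ^ 2)) ^ 2 - (p : ZMod (p ^ 2)) := by
  have hpp := (Fact.out : p.Prime)
  have h2 := p_sq_zero (p := p)
  have h4n : (4 : ZMod (p ^ 2)) * (n : ZMod (p ^ 2)) = (p : ZMod (p ^ 2)) - 1 := by
    have : ((4 * n + 1 : ℕ) : ZMod (p ^ 2)) = (p : ZMod (p ^ 2)) := by rw [← hn]
    rw [← this]; push_cast; ring
  have hub : ∀ k ≤ 2 * n, u k = (((n * p + n).choose k : ℕ) : ZMod (p ^ 2)) *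
      (((2 * n * p + 2 * n).choose k : ℕ) : ZMod (p ^ 2)) := by
    intro k
    induction k with
    | zero => intro _; simp [hu0]
    | succ k ih =>
      intro hk
      have ihk := ih (by omega)
      have hrec := hu k (by omega)
      have hun : IsUnit (8 * ((k : ZMod (p ^ 2)) + 1) ^ 2) := by
        have h1 : IsUnit (((k + 1 : ℕ) : ZMod (p ^ 2))) := unit_nat (by
          intro hd
          have := Nat.le_of_dvd (by omega) hd
          omega)
        have h8 : IsUnit (8 : ZMod (p ^ 2)) := by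
          have := unit_nat (p := p) (m := 8) (by
            intro hd
            have h5 : p ∣ 2 := by
              have : p ∣ 2 ^ 3 := by norm_num; exact hd
              exact hpp.dvd_of_dvd_pow this
            have := Nat.le_of_dvd (by norm_num) h5
            omega)
          exact_mod_cast this
        push_cast at h1
        exact h8.mul (h1.pow 2)
      refine hun.mul_right_injective ?_
      show 8 * ((k : ZMod (p ^ 2)) + 1) ^ 2 * u (k + 1) = _
      rw [hrec, ihk]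
      have c1 := Nat.choose_succ_right_eq (n * p + n) k
      have c2 := Nat.choose_succ_right_eq (2 * n * p + 2 * n) k
      have hpos := hpp.pos
      have k1 : k ≤ n * p + n := by nlinarith
      have k2 : k ≤ 2 * n * p + 2 * n := by nlinarith
      have d1 := congrArg (fun x : ℕ => (x : ZMod (p ^ 2))) c1
      have d2 := congrArg (fun x : ℕ => (x : ZMod (p ^ 2))) c2
      simp only [Nat.cast_mul, Nat.cast_sub k1, Nat.cast_sub k2, Nat.cast_add, Nat.cast_one,
        Nat.cast_ofNat] at d1 d2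
      set A := (((n * p + n).choose k : ℕ) : ZMod (p ^ 2))
      set A' := (((n * p + n).choose (k + 1) : ℕ) : ZMod (p ^ 2))
      set B := (((2 * n * p + 2 * n).choose k : ℕ) : ZMod (p ^ 2))
      set B' := (((2 * n * p + 2 * n).choose (k + 1) : ℕ) : ZMod (p ^ 2))
      set K := (k : ZMod (p ^ 2))
      set N := (n : ZMod (p ^ 2))
      set P := (p : ZMod (p ^ 2))
      have f1 : 4 * (A' * (K + 1)) = -(4 * K + 1) * A := by
        linear_combination 4 * d1 + (A * (P + 1)) * h4n + A * h2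
      have f2 : 2 * (B' * (K + 1)) = -(2 * K + 1) * B := by
        linear_combination 2 * d2 + (B * (P + 1)) * h4n + B * h2
      linear_combination (-(2 * (B' * (K + 1)))) * f1 + ((4 * K + 1) * A) * f2
  have hsum : ∑ k ∈ range (2 * n + 1), u k = ∑ k ∈ range (2 * n + 1),
      (((n * p + n).choose k : ℕ) : ZMod (p ^ 2)) * (((2 * n * p + 2 * n).choose k : ℕ) : ZMod (p ^ 2)) := by
    refine Finset.sum_congr rfl fun k hk => hub k ?_
    simp at hk; omega
  obtain ⟨x', y', hj, hxo, hxy'⟩ := jphi_main hn hn0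
  have huniq := two_squares_unique (p := p) x y x' y' hx hxo (by omega) hxy hxy'
  have hmain := modC_binom n hn hn0 _ hsum
  refine ⟨-x', ?_, ?_⟩
  · rcases huniq with h | h
    · right; rw [h]
    · left; rw [h]; ring
  · rw [hj] at hmain
    push_cast at hmain ⊢
    linear_combination hmain

/-- Module (C) over the p-adic integers. -/
theorem modC_padic (n : ℕ) (hn : p = 4 * n + 1) (hn0 : 0 < n) (u : ℕ → ℤ_[p]) (hu0 : u 0 = 1)
    (hu : ∀ j < 2 * n, 8 * ((j : ℤ_[p]) + 1) ^ 2 * u (j + 1) =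
      (4 * (j : ℤ_[p]) + 1) * (2 * (j : ℤ_[p]) + 1) * u j)
    (x y : ℤ) (hx : Odd x) (hxy : x ^ 2 + y ^ 2 = p) :
    ∃ e : ℤ, (e = x ∨ e = -x) ∧
      (p : ℤ_[p]) ^ 2 ∣ 2 * (e : ℤ_[p]) * ∑ k ∈ range (2 * n + 1), u k - (4 * (e : ℤ_[p]) ^ 2 - (p : ℤ_[p])) := by
  obtain ⟨e, he, h⟩ := modC_zmod n hn hn0 (fun k => PadicInt.toZModPow 2 (u k)) (by simp [hu0])
    (by
      intro j hj
      have := congrArg (PadicInt.toZModPow (p := p) 2) (hu j hj)
      simpa only [map_mul, map_pow, map_add, map_natCast, map_ofNat, map_one] using this) x y hx hxy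
  refine ⟨e, he, ?_⟩
  have hk : (2 * (e : ℤ_[p]) * ∑ k ∈ range (2 * n + 1), u k - (4 * (e : ℤ_[p]) ^ 2 - (p : ℤ_[p]))) ∈
      RingHom.ker (PadicInt.toZModPow (p := p) 2) := by
    rw [RingHom.mem_ker]
    simp only [map_sub, map_mul, map_pow, map_natCast, map_ofNat, map_sum, map_intCast]
    rw [h, sub_self]
  rw [PadicInt.ker_toZModPow, Ideal.mem_span_singleton] at hk
  exact hk

end

end Pool.Agent.Work.MP_f41de7_nt
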