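import Pool.Agent.Work.MP_f41de7_nt.ModP1

/-! Separability of the reduced polynomial `Gh` and coprimality with the special factors. -/

set_option linter.unusedSectionVars false
set_option linter.unusedSimpArgs false
set_option linter.unnecessarySimpa false

namespace Sc80
open Polynomial

section gen
variable {A : Type*} [CommRing A]

theorem hom_succ (u : ℕ → A) (n : ℕ) (U V : A) :
    hom u (n + 1) U V = V * hom u n U V + u (n + 1) * U ^ (n + 1) := by
  rw [hom, hom, Finset.sum_range_succ, Nat.sub_self, pow_zero, mul_one, Finset.mul_sum]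
  congr 1
  apply Finset.sum_congr rfl
  intro j hj
  rw [Finset.mem_range] at hj
  rw [show n + 1 - j = (n - j) + 1 from by omega, pow_succ]
  ring

/-- `hom u n U V = u n * U ^ n + V * w` -/
theorem hom_top (u : ℕ → A) (n : ℕ) (U V : A) : ∃ w, hom u n U V = u n * U ^ n + V * w := by
  cases n with
  | zero => exact ⟨0, by simp [hom]⟩
  | succ n => exact ⟨hom u n U V, by rw [hom_succ]; ring⟩

/-- `hom u n U V = u 0 * V ^ n + U * w` -/
theorem hom_bot (u : ℕ → A) (n : ℕ) (U V : A) : ∃ w, hom u n U V = u 0 * V ^ n + U * w := by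
  induction n with
  | zero => exact ⟨0, by simp [hom]⟩
  | succ n ih =>
    obtain ⟨w, hw⟩ := ih
    exact ⟨V * w + u (n + 1) * U ^ n, by rw [hom_succ, hw]; ring⟩

theorem hom_diag (u : ℕ → A) (n : ℕ) (V : A) :
    hom u n V V = V ^ n * ∑ j ∈ Finset.range (n + 1), u j := by
  rw [hom, Finset.mul_sum]
  apply Finset.sum_congr rfl
  intro j hj
  rw [Finset.mem_range] at hj
  rw [mul_assoc, ← pow_add, show j + (n - j) = n from by omega]
  ring

/-- `hom u n U V ≡ hom u n V V` modulo `V - U` -/
theorem hom_sub (u : ℕ → A) (n : ℕ) (U V : A) : (V - U) ∣ hom u n V V - hom u n U V := by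
  rw [hom, hom, ← Finset.sum_sub_distrib]
  apply Finset.dvd_sum
  intro j _
  rw [show u j * V ^ j * V ^ (n - j) - u j * U ^ j * V ^ (n - j) =
    (V ^ j - U ^ j) * (u j * V ^ (n - j)) by ring]
  exact (sub_dvd_pow_sub_pow V U j).mul_right _

theorem derivative_hom (u : ℕ → A) (m : ℕ) (U V : A[X]) :
    V * derivative (hom (fun j => C (u j)) (m + 1) U V) =
      ((m : A[X]) + 1) * derivative V * hom (fun j => C (u j)) (m + 1) U V +
      (V * derivative U - U * derivative V) *
        hom (fun j => C (((j : A) + 1) * u (j + 1))) m U V := by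
  have h1 : hom (fun j => C (u j)) (m + 1) U V = C (u 0) * V ^ (m + 1) +
      ∑ j ∈ Finset.range (m + 1), C (u (j + 1)) * U ^ (j + 1) * V ^ (m - j) := by
    rw [hom, Finset.sum_range_succ']
    simp only [Nat.add_sub_add_right, pow_zero, mul_one, Nat.sub_zero]
    rw [add_comm]
  rw [h1, hom, map_add, derivative_sum, mul_add, Finset.mul_sum, mul_add, Finset.mul_sum,
    Finset.mul_sum]
  rw [add_assoc, ← Finset.sum_add_distrib]
  congr 1
  · simp only [derivative_mul, derivative_C, zero_mul, zero_add, derivative_pow]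
    push_cast
    simp only [Nat.add_sub_cancel, map_add, map_natCast, map_one]
    ring
  · apply Finset.sum_congr rfl
    intro j hj
    rw [Finset.mem_range] at hj
    obtain ⟨i, rfl⟩ : ∃ i, m = j + i := ⟨m - j, by omega⟩
    rw [Nat.add_sub_cancel_left]
    simp only [derivative_mul, derivative_C, zero_mul, zero_add, derivative_pow, map_mul, map_add,
      map_natCast, map_one, Nat.add_sub_cancel, Nat.cast_add, Nat.cast_one]
    cases i with
    | zero => simp; ring
    | succ i =>
      simp only [Nat.add_sub_cancel, Nat.cast_add, Nat.cast_one, map_add, map_natCast, map_one]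
      ring

theorem wronskian_Z : Zd (X : A[X]) * derivative (Zn X) - Zn X * derivative (Zd X) =
    -(64 * X ^ 3 * (X - 5) ^ 4 * X1 X ^ 3) := by
  have h5 : derivative ((X : A[X]) - 5) = 1 := by
    have : (5 : A[X]) = C 5 := (map_ofNat C 5).symm
    rw [this, derivative_sub, derivative_X, derivative_C, sub_zero]
  have h1 : derivative ((X : A[X]) - 1) = 1 := by
    rw [derivative_sub, derivative_X, derivative_one, sub_zero]
  have hn : ∀ k : ℕ, derivative ((k : ℕ) : A[X]) = 0 := fun k => derivative_natCast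
  have h16 : derivative (16 : A[X]) = 0 := by simpa using hn 16
  have h22 : derivative (22 : A[X]) = 0 := by simpa using hn 22
  have h25 : derivative (25 : A[X]) = 0 := by simpa using hn 25
  have h5' : derivative (5 : A[X]) = 0 := by simpa using hn 5
  simp only [Zd, Zn, X1, dd, derivative_mul, derivative_neg, derivative_pow, derivative_add,
    derivative_sub, derivative_X, h16, h22, h25, h5', derivative_one]
  simp only [Nat.cast_ofNat, map_ofNat]
  norm_num
  ring

theorem derivative_G (u : ℕ → A) (m : ℕ) :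
    derivative (G u (m + 1)) = G (fun j => ((j : A) + 1) * u (j + 1)) m := by
  rw [G, G, Finset.sum_range_succ', derivative_add, derivative_sum]
  simp only [pow_zero, mul_one, derivative_C, add_zero]
  apply Finset.sum_congr rfl
  intro j _
  simp only [derivative_mul, derivative_C, zero_mul, zero_add, derivative_X_pow,
    Nat.add_sub_cancel, map_mul, map_add, map_natCast, map_one, Nat.cast_add, Nat.cast_one]
  ring

end gen

section ode
variable {K : Type*} [Field K] {p : ℕ} [Fact p.Prime] [CharP K p]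

theorem ode_mult {f : K[X]} {z : K} (h2 : (2 : K) ≠ 0) (hz0 : z ≠ 0) (hz1 : z ≠ 1)
    (hode : 8 * X * (1 - X) * derivative (derivative f) + (8 - 14 * X) * derivative f - f = 0)
    (hf : f.eval z = 0) (hf' : (derivative f).eval z = 0) (k : ℕ) :
    k + 2 ≤ p → (X - C z) ^ (k + 2) ∣ f := by
  induction k with
  | zero =>
    intro _
    obtain ⟨h, rfl⟩ := dvd_iff_isRoot.mpr hf
    rw [derivative_mul, derivative_sub, derivative_X, derivative_C, sub_zero, one_mul, eval_add,
      eval_mul, eval_sub, eval_X, eval_C, sub_self, zero_mul, add_zero] at hf'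
    obtain ⟨g, rfl⟩ := dvd_iff_isRoot.mpr hf'
    exact ⟨g, by ring⟩
  | succ j ih =>
    intro hj
    obtain ⟨h, hh⟩ := ih (by omega)
    have hd : derivative ((X : K[X]) - C z) = 1 := by
      rw [derivative_sub, derivative_X, derivative_C, sub_zero]
    have hnat : ∀ k : ℕ, derivative ((k : ℕ) : K[X]) = 0 := fun k => derivative_natCast
    have h2' : derivative (2 : K[X]) = 0 := by simpa using hnat 2
    have h1' : derivative (1 : K[X]) = 0 := derivative_one
    have d1 : derivative f = (X - C z) ^ (j + 1) * (((j : K[X]) + 2) * h + (X - C z) * derivative h) := by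
      rw [hh, derivative_mul, derivative_pow, hd, show j + 2 - 1 = j + 1 by omega]
      simp only [Nat.cast_add, Nat.cast_ofNat, map_add, map_natCast, map_ofNat]
      ring
    have d2 : derivative (derivative f) = (X - C z) ^ j *
        (((j : K[X]) + 2) * ((j : K[X]) + 1) * h + (X - C z) * (2 * ((j : K[X]) + 2) * derivative h +
          (X - C z) * derivative (derivative h))) := by
      rw [d1]
      simp only [derivative_mul, derivative_pow, hd, derivative_add, hnat, h2',
        show j + 1 - 1 = j by omega, Nat.cast_add, Nat.cast_one, map_add, map_natCast, map_one]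
      ring
    rw [d2, d1, hh] at hode
    have key : (X - C z) ^ j * (8 * X * (1 - X) * (((j : K[X]) + 2) * ((j : K[X]) + 1) * h) +
        (X - C z) * (8 * X * (1 - X) * (2 * ((j : K[X]) + 2) * derivative h +
          (X - C z) * derivative (derivative h)) + (8 - 14 * X) * (((j : K[X]) + 2) * h +
          (X - C z) * derivative h) - (X - C z) * h)) = 0 := by
      rw [← hode]; ring
    have key2 := (mul_eq_zero.mp key).resolve_left (pow_ne_zero _ (X_sub_C_ne_zero z))
    have key3 := congrArg (eval z) key2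
    simp only [eval_add, eval_sub, eval_mul, eval_X, eval_C, sub_self, zero_mul, add_zero,
      eval_one, eval_natCast, eval_ofNat, eval_zero] at key3
    have hj2 : ((j : K) + 2) ≠ 0 := by
      have : ((j + 2 : ℕ) : K) ≠ 0 := by
        rw [Ne, CharP.cast_eq_zero_iff K p]
        intro hd
        have := Nat.le_of_dvd (by omega) hd
        omega
      push_cast at this
      exact this
    have hj1 : ((j : K) + 1) ≠ 0 := by
      have : ((j + 1 : ℕ) : K) ≠ 0 := by
        rw [Ne, CharP.cast_eq_zero_iff K p]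
        intro hd
        have := Nat.le_of_dvd (by omega) hd
        omega
      push_cast at this
      exact this
    have h8 : (8 : K) ≠ 0 := by
      have : (8 : K) = 2 ^ 3 := by norm_num
      rw [this]
      exact pow_ne_zero _ h2
    have hz : h.eval z = 0 := by
      by_contra hne
      exact (mul_ne_zero (mul_ne_zero (mul_ne_zero h8 hz0) (sub_ne_zero.mpr (Ne.symm hz1)))
        (mul_ne_zero (mul_ne_zero hj2 hj1) hne)) key3
    obtain ⟨g, rfl⟩ := dvd_iff_isRoot.mpr hz
    exact ⟨g, by rw [hh]; ring⟩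

end ode

section cop
variable {k : Type*} [Field k]

theorem cop_of_eq {f g : k[X]} (a b : k[X]) {c : k} (hc : c ≠ 0) (h : a * f + b * g = C c) :
    IsCoprime f g := by
  refine ⟨C c⁻¹ * a, C c⁻¹ * b, ?_⟩
  have : C c⁻¹ * a * f + C c⁻¹ * b * g = C c⁻¹ * (a * f + b * g) := by ring
  rw [this, h, ← C_mul, inv_mul_cancel₀ hc, C_1]

theorem aeval_ne_of_cop {K : Type*} [Field K] [Algebra k K] {f g : k[X]} (h : IsCoprime f g) {a : K}
    (hf : aeval a f = 0) : aeval a g ≠ 0 := by
  obtain ⟨u, v, huv⟩ := h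
  intro hg
  have := congrArg (aeval a) huv
  rw [map_add, map_mul, map_mul, hf, hg, mul_zero, mul_zero, add_zero, map_one] at this
  exact zero_ne_one this

end cop

namespace Dat
variable {p N : ℕ} [Fact p.Prime] {R : Type*} [CommRing R] [IsDomain R] (L : Dat p N R)
include L

theorem nat_ne {j : ℕ} (h0 : 0 < j) (h1 : j < p) : ((j : ℕ) : ZMod p) ≠ 0 :=
  ne_nat L (fun h => absurd (Nat.le_of_dvd h0 h) (by omega))

theorem pow2_ne (j : ℕ) : (2 : ZMod p) ^ j ≠ 0 := pow_ne_zero _ L.two_ne

variable {n : ℕ} (hn : p = 4 * n + 1)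

include hn in
theorem n_pos : 0 < n := by
  have := (Fact.out : p.Prime).two_le
  omega

include hn in
theorem coeff_Gh : (L.Gh n).coeff (6 * n) = (-1) ^ n * L.ub n := by
  rw [← L.Gh_eq hn, Gh2]
  obtain ⟨m, rfl⟩ : ∃ m, n = m + 1 := ⟨n - 1, by have := L.n_pos hn; omega⟩
  rw [hom_succ, coeff_add]
  have h1 : (Yd (X : (ZMod p)[X]) * hom (fun j => C (L.ub j)) m (Yn X) (Yd X)).coeff (6 * (m + 1)) = 0 := by
    apply coeff_eq_zero_of_natDegree_lt
    have h2 := natDegree_Yd (A := ZMod p)
    have h3 : (hom (fun j => C (L.ub j)) m (Yn (X : (ZMod p)[X])) (Yd X)).natDegree ≤ 6 * m :=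
      natDegree_hom_le natDegree_Yn (natDegree_Yd.trans (by norm_num))
    have h4 := natDegree_mul_le (p := Yd (X : (ZMod p)[X]))
      (q := hom (fun j => C (L.ub j)) m (Yn X) (Yd X))
    omega
  rw [h1, zero_add, coeff_C_mul, mul_comm 6 (m + 1), coeff_pow_of_natDegree_le natDegree_Yn, mul_comm]
  congr 2
  have hm : ((X : (ZMod p)[X]) - C 1) ^ 5 * (X - C 5) = -Yn X := by
    simp only [Yn, map_one, map_ofNat]; ring
  have hmon : (((X : (ZMod p)[X]) - C 1) ^ 5 * (X - C 5)).Monic :=
    ((monic_X_sub_C 1).pow 5).mul (monic_X_sub_C 5)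
  have hdeg : (((X : (ZMod p)[X]) - C 1) ^ 5 * (X - C 5)).natDegree = 6 := by
    rw [Monic.natDegree_mul ((monic_X_sub_C 1).pow 5) (monic_X_sub_C 5),
      (monic_X_sub_C 1).natDegree_pow, natDegree_X_sub_C, natDegree_X_sub_C]
  have h5 := hmon.coeff_natDegree
  rw [hdeg, hm, coeff_neg] at h5
  rw [← h5, neg_neg]

include hn in
/-- (S1) -/
theorem natDegree_Gh : (L.Gh n).natDegree = 6 * n := by
  apply le_antisymm
  · exact natDegree_hom_le natDegree_Zn natDegree_Zd
  · apply le_natDegree_of_ne_zero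
    rw [L.coeff_Gh hn]
    exact mul_ne_zero (pow_ne_zero _ (neg_ne_zero.mpr one_ne_zero)) (L.ub_ne hn le_rfl)

include hn in
theorem Gh_ne_zero : L.Gh n ≠ 0 := by
  intro h
  have := L.coeff_Gh hn
  rw [h, coeff_zero] at this
  exact (mul_ne_zero (pow_ne_zero _ (neg_ne_zero.mpr one_ne_zero)) (L.ub_ne hn le_rfl)) this.symm

theorem cop_Zn_X : IsCoprime (Zn (X : (ZMod p)[X])) X := by
  have e5 : IsCoprime ((X : (ZMod p)[X]) - 5) X :=
    cop_of_eq (-1) 1 L.five_ne (by rw [map_ofNat]; ring)
  have e1 : IsCoprime ((X : (ZMod p)[X]) - 1) X :=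
    cop_of_eq (-1) 1 one_ne_zero (by rw [map_one]; ring)
  rw [Zn]
  exact (IsCoprime.neg_left e5.pow_left).mul_left e1 |> fun h => by
    simpa [neg_mul] using h

theorem cop_Zn_dd : IsCoprime (Zn (X : (ZMod p)[X])) (dd X) := by
  have e5 : IsCoprime ((X : (ZMod p)[X]) - 5) (dd X) := by
    refine cop_of_eq (-(5 * X + 3)) 1 (c := 2 ^ 3 * 5) (mul_ne_zero (L.pow2_ne 3) L.five_ne) ?_
    simp only [dd, map_mul, map_pow, map_ofNat]
    ring
  have e1 : IsCoprime ((X : (ZMod p)[X]) - 1) (dd X) := by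
    refine cop_of_eq (-(5 * X - 17)) 1 (c := 2 ^ 3) (L.pow2_ne 3) ?_
    simp only [dd, map_pow, map_ofNat]
    ring
  rw [Zn]
  have h := (IsCoprime.neg_left (e5.pow_left (m := 5))).mul_left e1
  exact h

include hn in
theorem cop_Gh_of {g : (ZMod p)[X]} (hg : g ∣ Zd X) (h : IsCoprime (Zn (X : (ZMod p)[X])) g) :
    IsCoprime (L.Gh n) g := by
  obtain ⟨w, hw⟩ := hom_top (fun j => C (L.ub j)) n (Zn (X : (ZMod p)[X])) (Zd X)
  obtain ⟨v, hv⟩ := hg
  rw [Gh, hw, hv, mul_assoc]
  apply IsCoprime.add_mul_left_left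
  exact (cop_of_eq 1 0 (L.ub_ne hn le_rfl) (by ring)).mul_left h.pow_left

include hn in
/-- (S2) -/
theorem cop_Gh_X : IsCoprime (L.Gh n) X := by
  apply L.cop_Gh_of hn _ L.cop_Zn_X
  exact ⟨16 * X ^ 3 * dd X, by simp only [Zd]; ring⟩

include hn in
theorem cop_Gh_dd : IsCoprime (L.Gh n) (dd X) := by
  apply L.cop_Gh_of hn _ L.cop_Zn_dd
  exact ⟨16 * X ^ 4, by simp only [Zd]; ring⟩

theorem eval_Gh {c : ZMod p} (hc : c = 1 ∨ c = 5) : (L.Gh n).eval c ≠ 0 := by
  obtain ⟨w, hw⟩ := hom_bot (fun j => C (L.ub j)) n (Zn (X : (ZMod p)[X])) (Zd X)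
  have hZn : eval c (Zn (X : (ZMod p)[X])) = Zn c := by
    have := map_Zn (evalRingHom c) X
    simpa using this
  have hZd : eval c (Zd (X : (ZMod p)[X])) = Zd c := by
    have := map_Zd (evalRingHom c) X
    simpa using this
  have h0 : Zn c = 0 := by
    rcases hc with rfl | rfl <;> simp [Zn]
  have h16 : (16 : ZMod p) ≠ 0 := by
    have : (16 : ZMod p) = 2 ^ 4 := by norm_num
    rw [this]; exact L.pow2_ne 4
  rw [Gh, hw, eval_add, eval_mul, eval_mul, hZn, h0, zero_mul, add_zero, eval_C, eval_pow, hZd,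
    L.ub_zero', one_mul]
  exact pow_ne_zero _ (mul_ne_zero (mul_ne_zero h16 (pow_ne_zero _ (L.c_ne hc))) (L.dd_ne hc))

theorem eval_Gh_one : (L.Gh n).eval 1 ≠ 0 := L.eval_Gh (Or.inl rfl)
theorem eval_Gh_five : (L.Gh n).eval 5 ≠ 0 := L.eval_Gh (Or.inr rfl)

include hn in
theorem four_n : (4 * (n : ZMod p) + 1) = 0 := by
  have : ((4 * n + 1 : ℕ) : ZMod p) = 0 := by rw [← hn]; exact ZMod.natCast_self p
  push_cast at this
  exact this

include hn in
theorem ub_choose {j : ℕ} (hj : j ≤ n) :
    L.ub j = ((Nat.choose n j * Nat.choose (2 * n) j : ℕ) : ZMod p) := by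
  have hN := L.N_eq hn
  have h4 := L.four_n hn
  induction j with
  | zero => rw [L.ub_zero']; simp
  | succ j ih =>
    have h1 := L.ub_rec (k := j) (by omega)
    rw [ih (by omega)] at h1
    apply mul_left_cancel₀ (L.eight_ne (k := j) (by omega))
    rw [h1]
    have c1 := congrArg (Nat.cast : ℕ → ZMod p) (Nat.choose_succ_right_eq n j)
    have c2 := congrArg (Nat.cast : ℕ → ZMod p) (Nat.choose_succ_right_eq (2 * n) j)
    rw [Nat.cast_mul, Nat.cast_mul, Nat.cast_sub (by omega)] at c1 c2
    push_cast at c1 c2 ⊢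
    set a := ((Nat.choose n (j + 1) : ℕ) : ZMod p)
    set b := ((Nat.choose (2 * n) (j + 1) : ℕ) : ZMod p)
    set a' := ((Nat.choose n j : ℕ) : ZMod p)
    set b' := ((Nat.choose (2 * n) j : ℕ) : ZMod p)
    have e1 : 8 * ((j : ZMod p) + 1) ^ 2 * (a * b) = 8 * (a * (j + 1)) * (b * (j + 1)) := by ring
    rw [e1, c1, c2]
    -- (4 j + 1) (2 j + 1) - 8 (n - j) (2 n - j) = (4 n + 1) (6 j + 1 - 4 n)
    linear_combination (a' * b') * (6 * (j : ZMod p) + 1 - 4 * n) * h4

include hn in
/-- (S3) -/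
theorem sum_ub_ne : (∑ j ∈ Finset.range (n + 1), L.ub j) ≠ 0 := by
  have h1 : ∑ j ∈ Finset.range (n + 1), L.ub j = ((Nat.choose (n + 2 * n) n : ℕ) : ZMod p) := by
    rw [Nat.add_choose_eq, Finset.Nat.sum_antidiagonal_eq_sum_range_succ
      (fun i j => Nat.choose n i * Nat.choose (2 * n) j), ← Finset.sum_range_reflect, Nat.cast_sum]
    apply Finset.sum_congr rfl
    intro j hj
    rw [Finset.mem_range] at hj
    rw [L.ub_choose hn (by omega), show n + 1 - 1 - j = n - j by omega,
      Nat.choose_symm (show j ≤ n by omega)]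
  rw [h1, Ne, ZMod.natCast_eq_zero_iff]
  intro hd
  have h2 : p ∣ Nat.factorial (n + 2 * n) := by
    rw [← Nat.choose_mul_factorial_mul_factorial (show n ≤ n + 2 * n by omega), mul_assoc]
    exact hd.mul_right _
  have h3 := ((Fact.out : p.Prime).dvd_factorial).mp h2
  omega

theorem cop_X1_X : IsCoprime (X1 (X : (ZMod p)[X])) X := by
  refine cop_of_eq (-1) 3 L.five_ne ?_
  simp only [X1, map_ofNat]
  ring

theorem cop_X1_dd : IsCoprime (X1 (X : (ZMod p)[X])) (dd X) := by
  refine cop_of_eq (-(15 * X - 41)) 9 (c := 2 ^ 2 * 5) (mul_ne_zero (L.pow2_ne 2) L.five_ne) ?_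
  simp only [X1, dd, map_mul, map_pow, map_ofNat]
  ring

theorem cop_X1_Zd : IsCoprime (X1 (X : (ZMod p)[X])) (Zd X) := by
  rw [Zd]
  refine IsCoprime.mul_right (IsCoprime.mul_right ?_ L.cop_X1_X.pow_right) L.cop_X1_dd
  exact (cop_of_eq 1 0 (L.pow2_ne 4) (by
    simp only [map_pow, map_ofNat]
    norm_num)).symm

include hn in
theorem cop_Gh_X1 : IsCoprime (L.Gh n) (X1 X) := by
  obtain ⟨w, hw⟩ := hom_sub (fun j => C (L.ub j)) n (Zn (X : (ZMod p)[X])) (Zd X)
  rw [hom_diag] at hw
  have h1 : L.Gh n = Zd X ^ n * (∑ j ∈ Finset.range (n + 1), C (L.ub j)) +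
      X1 X * (-(X1 X ^ 3 * X2 X * w)) := by
    rw [Gh]
    rw [Zd_sub_Zn] at hw
    linear_combination -hw
  rw [h1]
  apply IsCoprime.add_mul_left_left
  apply IsCoprime.mul_left
  · exact L.cop_X1_Zd.symm.pow_left
  · rw [← map_sum]
    exact cop_of_eq 1 0 (L.sum_ub_ne hn) (by ring)

include hn in
theorem no_double_root {K : Type*} [Field K] [Algebra (ZMod p) K] (α : K)
    (h0 : aeval α (L.Gh n) = 0) (h1 : aeval α (derivative (L.Gh n)) = 0) : False := by
  obtain ⟨m, rfl⟩ : ∃ m, n = m + 1 := ⟨n - 1, by have := L.n_pos hn; omega⟩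
  have hN := L.N_eq hn
  have : CharP K p := charP_of_injective_algebraMap (algebraMap (ZMod p) K).injective p
  set v : ℕ → K := fun j => algebraMap (ZMod p) K (L.ub j) with hv
  have ha : ∀ (w : ℕ → ZMod p) (l : ℕ), aeval α (hom (fun j => C (w j)) l (Zn (X : (ZMod p)[X])) (Zd X)) =
      hom (fun j => algebraMap (ZMod p) K (w j)) l (Zn α) (Zd α) := by
    intro w l
    rw [map_hom, map_Zn, map_Zd, aeval_X]
    simp only [aeval_C]
  have h2 : (2 : K) ≠ 0 := by
    have := (map_ne_zero (algebraMap (ZMod p) K)).mpr L.two_ne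
    rwa [map_ofNat] at this
  have hv0 : v 0 = 1 := by rw [hv]; simp only; rw [L.ub_zero', map_one]
  have hZd : Zd α ≠ 0 := by
    have c1 := aeval_ne_of_cop (L.cop_Gh_X hn) h0
    have c2 := aeval_ne_of_cop (L.cop_Gh_dd hn) h0
    rw [aeval_X] at c1
    rw [map_dd, aeval_X] at c2
    exact mul_ne_zero (mul_ne_zero (ne16 h2) (pow_ne_zero _ c1)) c2
  have hα : α ≠ 0 := by
    intro h
    apply hZd
    rw [Zd, h]
    ring
  have hG0 : hom v (m + 1) (Zn α) (Zd α) = 0 := by
    rw [← ha L.ub (m + 1)]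
    exact h0
  have hZn : Zn α ≠ 0 := by
    intro h
    obtain ⟨w, hw⟩ := hom_bot v (m + 1) (Zn α) (Zd α)
    rw [hG0, h, hv0, zero_mul, add_zero, one_mul] at hw
    exact pow_ne_zero _ hZd hw.symm
  have hne : Zd α ≠ Zn α := by
    intro h
    rw [← h, hom_diag] at hG0
    have h3 := (mul_eq_zero.mp hG0).resolve_left (pow_ne_zero _ hZd)
    rw [hv] at h3
    simp only at h3
    rw [← map_sum] at h3
    exact (map_ne_zero (algebraMap (ZMod p) K)).mpr (L.sum_ub_ne hn) h3
  set z := Zn α / Zd α with hz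
  have hzZ : z * Zd α = Zn α := div_mul_cancel₀ _ hZd
  have hz0 : z ≠ 0 := div_ne_zero hZn hZd
  have hz1 : z ≠ 1 := by
    intro h
    rw [h, one_mul] at hzZ
    exact hne hzZ
  have hf : (G v (m + 1)).eval z = 0 := by
    have e := hom_eval v (m + 1) _ _ z hzZ
    rw [hG0] at e
    have e2 := (mul_eq_zero.mp e.symm).resolve_left (pow_ne_zero _ hZd)
    have e3 := aeval_G v (m + 1) z
    simp only [Algebra.algebraMap_self, RingHom.id_apply, coe_aeval_eq_eval] at e3
    rw [e3]
    exact e2
  have hf' : (derivative (G v (m + 1))).eval z = 0 := by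
    have d := congrArg (aeval α) (derivative_hom L.ub m (Zn (X : (ZMod p)[X])) (Zd X))
    rw [wronskian_Z] at d
    have h1' : aeval α (derivative (hom (fun j => C (L.ub j)) (m + 1) (Zn (X : (ZMod p)[X])) (Zd X))) = 0 := h1
    have h0' : aeval α (hom (fun j => C (L.ub j)) (m + 1) (Zn (X : (ZMod p)[X])) (Zd X)) = 0 := h0
    rw [map_mul, h1', mul_zero, map_add, map_mul, h0', mul_zero, zero_add, map_mul,
      ha (fun j => ((j : ZMod p) + 1) * L.ub (j + 1)) m] at d
    have hW : aeval α (-(64 * (X : (ZMod p)[X]) ^ 3 * (X - 5) ^ 4 * X1 X ^ 3)) ≠ 0 := by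
      have h64 : aeval α (64 : (ZMod p)[X]) = 2 ^ 6 := by
        rw [map_ofNat]; norm_num
      rw [map_neg, map_mul, map_mul, map_mul, map_pow, map_pow, map_pow, aeval_X, h64, map_X1, aeval_X,
        map_sub, aeval_X, map_ofNat, neg_ne_zero]
      refine mul_ne_zero (mul_ne_zero (mul_ne_zero (pow_ne_zero _ h2) (pow_ne_zero _ hα))
        (pow_ne_zero _ ?_)) (pow_ne_zero _ ?_)
      · intro h
        apply hZn
        rw [Zn, h]
        ring
      · intro h
        apply hne
        have := Zd_sub_Zn α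
        rw [h] at this
        rw [← sub_eq_zero, this]
        ring
    have d2 := (mul_eq_zero.mp d.symm).resolve_left hW
    have e := hom_eval (fun j => algebraMap (ZMod p) K (((j : ZMod p) + 1) * L.ub (j + 1))) m _ _ z hzZ
    rw [d2] at e
    have e2 := (mul_eq_zero.mp e.symm).resolve_left (pow_ne_zero _ hZd)
    rw [derivative_G]
    have e3 := aeval_G (fun j => ((j : K) + 1) * v (j + 1)) m z
    simp only [Algebra.algebraMap_self, RingHom.id_apply, coe_aeval_eq_eval] at e3
    rw [e3, ← e2, hv]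
    simp only [map_mul, map_add, map_natCast, map_one]
  have hrec : ∀ k < m + 1, 8 * ((k : K) + 1) ^ 2 * v (k + 1) = (4 * k + 1) * (2 * k + 1) * v k := by
    intro k hk
    have := congrArg (algebraMap (ZMod p) K) (L.ub_rec (k := k) (by omega))
    simpa [hv, map_mul, map_add, map_pow, map_ofNat] using this
  have hode := ode_G v (m + 1) hrec
  have h4 : (4 * (((m + 1 : ℕ) : K)) + 1) = 0 := by
    have := congrArg (algebraMap (ZMod p) K) (L.four_n hn)
    simpa [map_mul, map_add, map_ofNat] using this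
  rw [h4, zero_mul, zero_mul, C_0, zero_mul, neg_zero] at hode
  have hp2 := (Fact.out : p.Prime).two_le
  have hdvd := ode_mult (p := p) h2 hz0 hz1 hode hf hf' (p - 2) (by omega)
  rw [show p - 2 + 2 = p by omega] at hdvd
  have hzero : G v (m + 1) = 0 := by
    apply eq_zero_of_dvd_of_natDegree_lt hdvd
    rw [(monic_X_sub_C z).natDegree_pow, natDegree_X_sub_C, mul_one]
    have : (G v (m + 1)).natDegree ≤ m + 1 := by
      rw [G]
      apply natDegree_sum_le_of_forall_le
      intro j hj
      rw [Finset.mem_range] at hj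
      exact (natDegree_C_mul_X_pow_le _ _).trans (by omega)
    omega
  have hc := congrArg (fun g => coeff g 0) hzero
  simp only [G, finsetSum_coeff, coeff_C_mul_X_pow, coeff_zero] at hc
  rw [Finset.sum_ite_eq (Finset.range (m + 1 + 1)) 0 v] at hc
  simp only [Finset.mem_range, Nat.zero_lt_succ, if_true, hv0] at hc
  exact one_ne_zero hc

include hn in
/-- (S4) -/
theorem Gh_separable : (L.Gh n).Separable := by
  rw [separable_def, isCoprime_iff_aeval_ne_zero_of_isAlgClosed (ZMod p) (AlgebraicClosure (ZMod p))]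
  intro α
  by_contra hcon
  push Not at hcon
  exact L.no_double_root hn α hcon.1 hcon.2

end Dat

end Sc80
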