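import Pool.Agent.Work.MP_f41de7_nt.ModP1
import Pool.Agent.Work.MP_f41de7_nt.Sep

/-! Evaluation of the two congruences at `m = 5/3` and `m = 3`. -/

set_option linter.unusedSectionVars false

namespace Sc80
open Polynomial

section
variable {A : Type*} [CommRing A]

theorem hom_smul (u : ℕ → A) (N : ℕ) (c U V : A) :
    hom u N (c * U) (c * V) = c ^ N * hom u N U V := by
  simp only [hom, Finset.mul_sum]
  apply Finset.sum_congr rfl
  intro j hj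
  rw [Finset.mem_range] at hj
  have : c ^ N = c ^ j * c ^ (N - j) := by rw [← pow_add]; congr 1; omega
  rw [this, mul_pow, mul_pow]; ring

theorem Zn_three : Zn (3 : A) = 64 * 1 := by simp only [Zn]; norm_num
theorem Zd_three : Zd (3 : A) = 64 * 81 := by simp only [Zd, dd]; norm_num
theorem Yn_three : Yn (3 : A) = 64 * 1 := by simp only [Yn]; norm_num
theorem Yd_three : Yd (3 : A) = 64 * 1 := by simp only [Yd, dd]; norm_num
theorem Zs_three : Zd (3 : A) - Zn 3 = 64 * 80 := by simp only [Zd, Zn, dd]; norm_num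
theorem Zm_three : -Zn (3 : A) = 64 * (-1) := by simp only [Zn]; norm_num

theorem Yn_mu {μ : A} (h : 3 * μ = 5) : 3 ^ 6 * Yn μ = 320 * 1 := by
  have e : 3 ^ 6 * Yn μ = -(3 * μ - 3) ^ 5 * (3 * μ - 15) := by simp only [Yn]; ring
  rw [e, h]; norm_num
theorem Yd_mu {μ : A} (h : 3 * μ = 5) : 3 ^ 6 * Yd μ = 320 * 81 := by
  have e : 3 ^ 6 * Yd μ = 1296 * (5 * (3 * μ) ^ 2 - 66 * (3 * μ) + 225) := by
    simp only [Yd, dd]; ring
  rw [e, h]; norm_num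
theorem Zn_mu {μ : A} (h : 3 * μ = 5) : 3 ^ 6 * Zn μ = (625 * 320) * 1 := by
  have e : 3 ^ 6 * Zn μ = -(3 * μ - 15) ^ 5 * (3 * μ - 3) := by simp only [Zn]; ring
  rw [e, h]; norm_num
theorem Zd_mu {μ : A} (h : 3 * μ = 5) : 3 ^ 6 * Zd μ = (625 * 320) * 1 := by
  have e : 3 ^ 6 * Zd μ = 16 * (3 * μ) ^ 4 * (5 * (3 * μ) ^ 2 - 66 * (3 * μ) + 225) := by
    simp only [Zd, dd]; ring
  rw [e, h]; norm_num
end

namespace Dat
variable {p N : ℕ} [Fact p.Prime] {R : Type*} [CommRing R] [IsDomain R] (L : Dat p N R) {n : ℕ}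
  (hn : p = 4 * n + 1)
include L

include hn in
theorem unit3 : IsUnit (3 : R) := by
  have := L.toLoc.unit_nat' (k := 3) (fun h => by
    have := (Nat.prime_dvd_prime_iff_eq Fact.out Nat.prime_three).1 h
    omega)
  simpa using this

/-- cancelling a unit -/
theorem cancel {x y : R} (hx : IsUnit x) (h : (p : R) ^ 2 ∣ x * y) : (p : R) ^ 2 ∣ y :=
  (hx.dvd_mul_left).1 h

include hn in
/-- the first congruence: `S81 = 81 ^ N S1` modulo `p ^ 2` -/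
theorem eval_E1
    (hE1 : ∀ μ : R, 3 * μ = 5 → (p : R) ^ 2 ∣ 3 * μ ^ (4 * N + 1) * hom L.u N (Yn μ) (Yd μ)
      - 5 * hom L.u N (Zn μ) (Zd μ)) :
    (p : R) ^ 2 ∣ hom L.u N 1 81 - 81 ^ N * hom L.u N 1 1 := by
  obtain ⟨μ, hμ⟩ : ∃ μ : R, 3 * μ = 5 := by
    obtain ⟨v, hv⟩ := (L.unit3 hn).exists_right_inv
    exact ⟨5 * v, by linear_combination 5 * hv⟩
  have h1 := hE1 μ hμ
  have e1 : (3 : R) ^ (6 * N) * hom L.u N (Yn μ) (Yd μ) = 320 ^ N * hom L.u N 1 81 := by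
    rw [pow_mul, ← hom_smul, ← hom_smul, Yn_mu hμ, Yd_mu hμ]
  have e2 : (3 : R) ^ (6 * N) * hom L.u N (Zn μ) (Zd μ) = (625 * 320) ^ N * hom L.u N 1 1 := by
    rw [pow_mul, ← hom_smul, ← hom_smul, Zn_mu hμ, Zd_mu hμ]
  have e3 : (3 : R) ^ (4 * N) * (3 * μ ^ (4 * N + 1)) = 5 * 625 ^ N := by
    have : (3 : R) ^ (4 * N) * (3 * μ ^ (4 * N + 1)) = (3 * μ) ^ (4 * N + 1) := by
      rw [mul_pow]; ring
    rw [this, hμ, pow_succ, pow_mul]; norm_num [mul_comm]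
  have h2 : (p : R) ^ 2 ∣ (5 * (625 * 320) ^ N) *
      (hom L.u N 1 81 - 81 ^ N * hom L.u N 1 1) := by
    have h3 := h1.mul_left ((3 : R) ^ (4 * N) * 3 ^ (6 * N))
    have e4 : (3 : R) ^ (4 * N) * 3 ^ (6 * N) * (3 * μ ^ (4 * N + 1) * hom L.u N (Yn μ) (Yd μ)
        - 5 * hom L.u N (Zn μ) (Zd μ)) = (5 * (625 * 320) ^ N) *
      (hom L.u N 1 81 - 81 ^ N * hom L.u N 1 1) := by
      have e5 : (3 : R) ^ (4 * N) = 81 ^ N := by rw [pow_mul]; norm_num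
      calc _ = ((3 : R) ^ (4 * N) * (3 * μ ^ (4 * N + 1))) * (3 ^ (6 * N) * hom L.u N (Yn μ) (Yd μ))
            - 5 * 3 ^ (4 * N) * (3 ^ (6 * N) * hom L.u N (Zn μ) (Zd μ)) := by ring
        _ = _ := by rw [e1, e2, e3, e5, mul_pow]; ring
    rwa [e4] at h3
  refine L.cancel ?_ h2
  have h625 : (625 * 320 : R) = 5 ^ 5 * 2 ^ 6 := by norm_num
  rw [h625]
  exact L.unit5.mul (((L.unit5.pow 5).mul (L.unit2.pow 6)).pow N)

theorem phi_hom (U V : R) : L.φ (hom L.u N U V) = hom L.ub N (L.φ U) (L.φ V) :=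
  map_hom L.φ L.u N U V

include hn in
theorem phi_S1 : L.φ (hom L.u N 1 1) ≠ 0 := by
  rw [L.phi_hom, map_one, hom_trunc (n := n) (by have := L.N_eq hn; omega)
    (fun j h1 h2 => L.ub_eq_zero hn h1 h2), one_pow, one_mul]
  simp only [hom, one_pow, mul_one]
  exact L.sum_ub_ne hn

include hn in
theorem unit81 : IsUnit (81 : R) := by
  have : (81 : R) = 3 ^ 4 := by norm_num
  rw [this]; exact (L.unit3 hn).pow 4

include hn in
theorem phi_S81 (h : (p : R) ^ 2 ∣ hom L.u N 1 81 - 81 ^ N * hom L.u N 1 1) :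
    L.φ (hom L.u N 1 81) = 81 ^ N * L.φ (hom L.u N 1 1) := by
  have h1 : (p : R) ∣ hom L.u N 1 81 - 81 ^ N * hom L.u N 1 1 :=
    (dvd_pow_self _ (by norm_num)).trans h
  have h2 := (L.toLoc.dvd_iff _).1 h1
  rw [map_sub, map_mul, map_pow, map_ofNat, sub_eq_zero] at h2
  exact h2

include hn in
theorem eval_pow4
    (hE1 : ∀ μ : R, 3 * μ = 5 → (p : R) ^ 2 ∣ 3 * μ ^ (4 * N + 1) * hom L.u N (Yn μ) (Yd μ)
      - 5 * hom L.u N (Zn μ) (Zd μ))
    (hE2 : ∀ A B : R, A = 3 ^ (4 * N + 1) * hom L.u N (Yn 3) (Yd 3) → B = hom L.u N (Zn 3) (Zd 3) →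
      (p : R) ^ 2 ∣ (3 * A - 5 * B) ^ 4 * (A ^ 2 + 2 * A * B + 5 * B ^ 2) * (Zd 3) ^ (4 * N + 1)
          * (hom L.u N (-(Zn 3)) (Zd 3 - Zn 3)) ^ 4
        - 16 * A ^ 4 * (5 * A ^ 2 - 22 * A * B + 25 * B ^ 2) * (Zd 3 - Zn 3) ^ (4 * N + 1)
          * B ^ 4) :
    (p : R) ^ 2 ∣ (hom L.u N (-1) 80) ^ 4 - 80 ^ (4 * N) * (hom L.u N 1 1) ^ 4 := by
  have hS := L.eval_E1 hn hE1
  have h0 := hE2 _ _ rfl rfl
  rw [Zs_three, Zm_three, Zn_three, Zd_three, Yn_three, Yd_three, hom_smul, hom_smul,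
    hom_smul] at h0
  set S1 := hom L.u N 1 1 with hS1
  set S81 := hom L.u N 1 81 with hS81
  set S80 := hom L.u N (-1) 80 with hS80
  obtain ⟨t, ht⟩ := hS
  have hS81' : S81 = 81 ^ N * S1 + (p : R) ^ 2 * t := by linear_combination ht
  have e81 : (3 : R) ^ (4 * N + 1) = 3 * 81 ^ N := by
    rw [pow_succ, pow_mul]; norm_num [mul_comm]
  -- set q = p ^ 2, work modulo q
  have key : (p : R) ^ 2 ∣ (5120 * 5184 * (64 : R) ^ (8 * N) * (64 ^ N * S81) ^ 6 * 81 ^ (4 * N)) *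
      (S80 ^ 4 - 80 ^ (4 * N) * S1 ^ 4) := by
    have hA : (3 : R) ^ (4 * N + 1) * (64 ^ N * S1) = 3 * (64 ^ N * S81) - 3 * 64 ^ N * ((p : R) ^ 2 * t) := by
      rw [e81, hS81']; ring
    rw [hA] at h0
    set B := (64 : R) ^ N * S81 with hB
    rw [← Ideal.mem_span_singleton, ← Ideal.Quotient.eq_zero_iff_mem] at h0 ⊢
    set f := Ideal.Quotient.mk (Ideal.span {(p : R) ^ 2}) with hf
    have hp2 : f ((p : R) ^ 2) = 0 := by
      rw [Ideal.Quotient.eq_zero_iff_mem, Ideal.mem_span_singleton]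
    simp only [map_sub, map_add, map_mul, map_pow, map_ofNat] at h0 ⊢ hp2
    have hS81f : f S81 = 81 ^ N * f S1 := by
      rw [hS81']
      simp only [map_add, map_mul, map_pow, map_ofNat, hp2]
      ring
    have hBf : f B = 64 ^ N * (81 ^ N * f S1) := by
      rw [hB]
      simp only [map_mul, map_pow, map_ofNat, hS81f]
    rw [hp2] at h0
    have e1 : ((64 : R ⧸ Ideal.span {(p : R) ^ 2}) * 81) ^ (4 * N + 1) =
        5184 * (64 ^ (4 * N) * 81 ^ (4 * N)) := by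
      rw [pow_succ, mul_pow]; ring
    have e2 : ((64 : R ⧸ Ideal.span {(p : R) ^ 2}) * 80) ^ (4 * N + 1) =
        5120 * (64 ^ (4 * N) * 80 ^ (4 * N)) := by
      rw [pow_succ, mul_pow]; ring
    rw [e1, e2] at h0
    have e3 : (64 : R ⧸ Ideal.span {(p : R) ^ 2}) ^ (8 * N) = 64 ^ (4 * N) * 64 ^ (4 * N) := by
      rw [← pow_add]; congr 1; ring
    have e4 : (64 : R ⧸ Ideal.span {(p : R) ^ 2}) ^ (4 * N) = (64 ^ N) ^ 4 := by
      rw [← pow_mul]; congr 1; ring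
    have e5 : (81 : R ⧸ Ideal.span {(p : R) ^ 2}) ^ (4 * N) = (81 ^ N) ^ 4 := by
      rw [← pow_mul]; congr 1; ring
    rw [e3, e4, e5, hBf]
    rw [e4, e5, hBf] at h0
    linear_combination h0
  refine L.cancel ?_ key
  have h5120 : (5120 : R) = 2 ^ 10 * 5 := by norm_num
  have h5184 : (5184 : R) = 2 ^ 6 * 3 ^ 4 := by norm_num
  have h64 : (64 : R) = 2 ^ 6 := by norm_num
  have u64 : IsUnit (64 : R) := by rw [h64]; exact L.unit2.pow 6
  have uS81 : IsUnit S81 := by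
    rw [L.toLoc.unit_iff, L.phi_S81 hn ⟨t, ht⟩]
    apply mul_ne_zero
    · have := (((L.unit81 hn).pow N).map L.φ).ne_zero
      rwa [map_pow, map_ofNat] at this
    · exact L.phi_S1 hn
  have u5120 : IsUnit (5120 : R) := by rw [h5120]; exact (L.unit2.pow 10).mul L.unit5
  have u5184 : IsUnit (5184 : R) := by rw [h5184]; exact (L.unit2.pow 6).mul ((L.unit3 hn).pow 4)
  exact (((u5120.mul u5184).mul (u64.pow _)).mul (((u64.pow _).mul uS81).pow 6)).mul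
    ((L.unit81 hn).pow _)

include hn in
theorem eval_modp
    (hE1 : ∀ μ : R, 3 * μ = 5 → (p : R) ^ 2 ∣ 3 * μ ^ (4 * N + 1) * hom L.u N (Yn μ) (Yd μ)
      - 5 * hom L.u N (Zn μ) (Zd μ))
    (hgs : hom L.ub N (-1) 80 = 80 ^ n * hom L.ub n 1 81) :
    L.φ (hom L.u N (-1) 80) = 80 ^ n * 81 ^ n * L.φ (hom L.u N 1 1) := by
  have h1 := L.phi_S81 hn (L.eval_E1 hn hE1)
  rw [L.phi_hom, map_one, map_ofNat, hom_trunc (n := n) (by have := L.N_eq hn; omega)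
    (fun j h1 h2 => L.ub_eq_zero hn h1 h2)] at h1
  have hN := L.N_eq hn
  rw [show N - n = n by omega] at h1
  have h81 : (81 : ZMod p) ^ n ≠ 0 := by
    have := (((L.unit81 hn).pow n).map L.φ).ne_zero
    rwa [map_pow, map_ofNat] at this
  have h2 : hom L.ub n 1 81 = 81 ^ n * L.φ (hom L.u N 1 1) := by
    apply mul_left_cancel₀ h81
    have e : (81 : ZMod p) ^ N = 81 ^ n * 81 ^ n := by rw [← pow_add]; congr 1; omega
    rw [h1, e, mul_assoc]
  rw [L.phi_hom, map_neg, map_one, map_ofNat, hgs, h2]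
  ring

end Dat

end Sc80
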