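import Pool.Agent.Work.MP_f41de7_nt.ModP1

/-! The case `p = 4 n + 3`. -/

set_option linter.unusedSectionVars false

namespace Sc80
open Polynomial

section
variable {A : Type*} [CommRing A]

theorem coeff_X_mul_deriv (f : A[X]) (k : ℕ) : (X * derivative f).coeff k = k * f.coeff k := by
  cases k with
  | zero => simp
  | succ k => rw [coeff_X_mul, coeff_derivative]; push_cast; ring

theorem coeff_X_mul_deriv2 (f : A[X]) (k : ℕ) :
    (X * derivative (derivative f)).coeff k = (k + 1) * k * f.coeff (k + 1) := by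
  have : X * derivative (derivative f) = derivative (X * derivative f) - derivative f := by
    rw [derivative_mul, derivative_X]; ring
  rw [this, coeff_sub, coeff_derivative, coeff_derivative, coeff_X_mul_deriv]
  push_cast; ring

theorem coeff_X2_mul_deriv2 (f : A[X]) (k : ℕ) :
    (X * (X * derivative (derivative f))).coeff k = k * (k - 1) * f.coeff k := by
  have : X * (X * derivative (derivative f)) = X * derivative (X * derivative f) - X * derivative f := by
    rw [derivative_mul, derivative_X]; ring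
  rw [this, coeff_sub, coeff_X_mul_deriv, coeff_X_mul_deriv]
  ring

/-- recursion at `z = 1` -/
theorem rec_at_one {G : A[X]} (h : op G = 0) (k : ℕ) :
    2 * ((k : A) + 1) * (4 * k + 3) * (G.comp (1 - X)).coeff (k + 1) =
      (4 * k + 1) * (2 * k + 1) * (G.comp (1 - X)).coeff k := by
  set H := G.comp (1 - X) with hH
  have d1 : derivative H = - (derivative G).comp (1 - X) := by
    rw [hH, derivative_comp]; simp
  have d2 : derivative (derivative H) = (derivative (derivative G)).comp (1 - X) := by
    rw [d1, map_neg, derivative_comp]; simp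
  have h1 : 8 * (X * derivative (derivative H)) - 8 * (X * (X * derivative (derivative H)))
      + 6 * derivative H - 14 * (X * derivative H) - H = 0 := by
    have h3 := congrArg (fun f => f.comp (1 - X)) h
    simp only [op, sub_comp, add_comp, mul_comp, X_comp, one_comp, zero_comp, ofNat_comp] at h3
    rw [d2, d1, ← hH] at *
    linear_combination h3
  have h4 := congrArg (fun f => coeff f k) h1
  simp only [coeff_sub, coeff_add, coeff_zero] at h4
  have e8 : ∀ f : A[X], coeff (8 * f) k = 8 * coeff f k := fun f => by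
    rw [show (8 : A[X]) = C 8 from rfl, coeff_C_mul]
  have e6 : ∀ f : A[X], coeff (6 * f) k = 6 * coeff f k := fun f => by
    rw [show (6 : A[X]) = C 6 from rfl, coeff_C_mul]
  have e14 : ∀ f : A[X], coeff (14 * f) k = 14 * coeff f k := fun f => by
    rw [show (14 : A[X]) = C 14 from rfl, coeff_C_mul]
  rw [e8, e8, e6, e14, coeff_X2_mul_deriv2, coeff_X_mul_deriv2, coeff_X_mul_deriv, coeff_derivative] at h4
  linear_combination h4

/-- homogenisation of a polynomial -/
noncomputable def hg (N : ℕ) (f U V : A[X]) : A[X] :=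
  ∑ j ∈ Finset.range (N + 1), C (f.coeff j) * U ^ j * V ^ (N - j)

theorem hg_mul {M : ℕ} {q : A[X]} (hq : q.natDegree ≤ M) (U V : A[X]) :
    hg (M + 1) ((1 - X) * q) U V = (V - U) * hg M q U V := by
  have h1 : hg (M + 1) q U V = V * hg M q U V := by
    rw [hg, Finset.sum_range_succ, coeff_eq_zero_of_natDegree_lt (by omega), C_0, zero_mul, zero_mul,
      add_zero, hg, Finset.mul_sum]
    refine Finset.sum_congr rfl fun j hj => ?_
    rw [Finset.mem_range] at hj
    rw [show M + 1 - j = (M - j) + 1 from by omega, pow_succ]; ring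
  have h2 : hg (M + 1) (X * q) U V = U * hg M q U V := by
    rw [hg, Finset.sum_range_succ', hg, Finset.mul_sum]
    simp only [coeff_X_mul, mul_coeff_zero, coeff_X_zero, zero_mul, C_0, add_zero]
    refine Finset.sum_congr rfl fun j hj => ?_
    rw [show M + 1 - (j + 1) = M - j from by omega, pow_succ]; ring
  have h3 : hg (M + 1) ((1 - X) * q) U V = hg (M + 1) q U V - hg (M + 1) (X * q) U V := by
    rw [hg, hg, hg, ← Finset.sum_sub_distrib]
    refine Finset.sum_congr rfl fun j _ => ?_
    rw [sub_mul, one_mul, coeff_sub, C_sub]; ring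
  rw [h3, h1, h2]; ring

theorem hg_pow_dvd [IsDomain A] (k : ℕ) : ∀ {N : ℕ} {q : A[X]}, q.natDegree + k ≤ N → ∀ U V : A[X],
    (V - U) ^ k ∣ hg N ((1 - X) ^ k * q) U V := by
  induction k with
  | zero => intro N q _ U V; simp
  | succ k ih =>
    intro N q hq U V
    obtain ⟨M, rfl⟩ : ∃ M, N = M + 1 := ⟨N - 1, by omega⟩
    have hdeg : ((1 - X) ^ k * q).natDegree ≤ M := by
      refine natDegree_mul_le.trans ?_
      have : ((1 - X : A[X]) ^ k).natDegree ≤ k := by
        refine natDegree_pow_le.trans ?_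
        have : (1 - X : A[X]).natDegree ≤ 1 := by compute_degree
        calc k * _ ≤ k * 1 := Nat.mul_le_mul_left _ this
          _ = k := mul_one k
      omega
    have e : (1 - X : A[X]) ^ (k + 1) * q = (1 - X) * ((1 - X) ^ k * q) := by ring
    rw [e, hg_mul hdeg, pow_succ']
    exact mul_dvd_mul_left _ (ih (by omega) U V)

theorem hom_eq_hg (u : ℕ → A) (N : ℕ) (U V : A[X]) :
    hom (fun j => C (u j)) N U V = hg N (G u N) U V := by
  rw [hom, hg]
  refine Finset.sum_congr rfl fun j hj => ?_
  have : (G u N).coeff j = u j := by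
    rw [G, finsetSum_coeff]
    simp only [coeff_C_mul, coeff_X_pow, mul_ite, mul_one, mul_zero]
    rw [Finset.sum_ite_eq]
    rw [if_pos hj]
  rw [this]

theorem natDegree_G (u : ℕ → A) (N : ℕ) : (G u N).natDegree ≤ N := by
  rw [G]
  apply natDegree_sum_le_of_forall_le
  intro j hj
  rw [Finset.mem_range] at hj
  exact (natDegree_C_mul_X_pow_le _ _).trans (by omega)

theorem coeff_hom {u : ℕ → A} {n d : ℕ} {U V : A[X]} (hU : U.natDegree ≤ d) (hV : V.natDegree ≤ d) :
    (hom (fun j => C (u j)) n U V).coeff (d * n) = hom u n (U.coeff d) (V.coeff d) := by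
  rw [hom, hom, finsetSum_coeff]
  refine Finset.sum_congr rfl fun j hj => ?_
  rw [Finset.mem_range] at hj
  have e : d * n = d * j + d * (n - j) := by rw [← Nat.mul_add]; congr 1; omega
  have h1 : (C (u j) * U ^ j).natDegree ≤ d * j := by
    refine natDegree_C_mul_le _ _ |>.trans ?_
    refine natDegree_pow_le.trans ?_
    rw [mul_comm]; exact Nat.mul_le_mul_right _ hU
  have h2 : (V ^ (n - j)).natDegree ≤ d * (n - j) := by
    refine natDegree_pow_le.trans ?_
    rw [mul_comm]; exact Nat.mul_le_mul_right _ hV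
  rw [e, coeff_mul_add_eq_of_natDegree_le h1 h2, coeff_C_mul, mul_comm d j, coeff_pow_of_natDegree_le hU,
    mul_comm d (n - j), coeff_pow_of_natDegree_le hV]

end

namespace Dat
variable {p N : ℕ} [Fact p.Prime] {R : Type*} [CommRing R] [IsDomain R] (L : Dat p N R)
include L

variable {n : ℕ} (hn : p = 4 * n + 3)

theorem op_Gub : op (G L.ub N) = 0 := by
  rw [op, ode_G L.ub N (fun k hk => L.ub_rec hk)]
  have : (2 * (N : ZMod p) + 1) = 0 := by
    have : ((2 * N + 1 : ℕ) : ZMod p) = 0 := by rw [← L.hp]; exact ZMod.natCast_self p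
    push_cast at this
    exact this
  rw [this]; simp

include hn in
theorem G_dvd : ∃ q : (ZMod p)[X], G L.ub N = (1 - X) ^ (n + 1) * q := by
  have hN : N = 2 * n + 1 := by have := L.hp; omega
  have hrec := rec_at_one L.op_Gub
  set H := (G L.ub N).comp (1 - X) with hH
  have hne : ∀ k ≤ n, ((4 * (k : ZMod p) + 1) * (2 * k + 1)) ≠ 0 := by
    intro k hk
    have h2 := ne_nat L (k := 4 * k + 1) (fun h => by
      have := Nat.le_of_dvd (by omega) h
      omega)
    have h3 := ne_nat L (k := 2 * k + 1) (fun h => by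
      have := Nat.le_of_dvd (by omega) h
      omega)
    push_cast at h2 h3
    exact mul_ne_zero h2 h3
  have h0 : ∀ j ≤ n, H.coeff (n - j) = 0 := by
    intro j
    induction j with
    | zero =>
      intro _
      rw [Nat.sub_zero]
      have h1 := hrec n
      have h4 : (4 * (n : ZMod p) + 3) = 0 := by
        have : ((4 * n + 3 : ℕ) : ZMod p) = 0 := by rw [← hn]; exact ZMod.natCast_self p
        push_cast at this
        exact this
      rw [h4, mul_zero, zero_mul] at h1
      exact (mul_eq_zero.1 h1.symm).resolve_left (hne n le_rfl)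
    | succ j ih =>
      intro hj
      have h1 := hrec (n - (j + 1))
      rw [show n - (j + 1) + 1 = n - j from by omega, ih (by omega), mul_zero] at h1
      exact (mul_eq_zero.1 h1.symm).resolve_left (hne _ (by omega))
  have h1 : X ^ (n + 1) ∣ H := by
    rw [X_pow_dvd_iff]
    intro d hd
    have := h0 (n - d) (by omega)
    rwa [show n - (n - d) = d from by omega] at this
  obtain ⟨Q, hQ⟩ := h1
  refine ⟨Q.comp (1 - X), ?_⟩
  have h2 : G L.ub N = H.comp (1 - X) := by
    rw [hH, comp_assoc]; simp
  rw [h2, hQ, mul_comp, X_pow_comp]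

include hn in
theorem a_dvd (U V : (ZMod p)[X]) :
    (V - U) ^ (n + 1) ∣ hom (fun j => C (L.ub j)) N U V := by
  obtain ⟨q, hq⟩ := L.G_dvd hn
  rw [hom_eq_hg, hq]
  by_cases hq0 : q = 0
  · rw [hq0, mul_zero]
    have : hg N (0 : (ZMod p)[X]) U V = 0 := by simp [hg]
    rw [this]; exact dvd_zero _
  apply hg_pow_dvd
  have h1 := natDegree_G L.ub N
  have h3 : (1 - X : (ZMod p)[X]) ≠ 0 := by
    intro h
    have := congrArg (fun f => f.coeff 1) h
    simp [coeff_one] at this
  have h4 : (1 - X : (ZMod p)[X]).natDegree = 1 := by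
    rw [show (1 - X : (ZMod p)[X]) = -(X - C 1) from by simp, natDegree_neg, natDegree_X_sub_C]
  rw [hq, natDegree_mul (pow_ne_zero _ h3) hq0, natDegree_pow, h4] at h1
  omega

theorem coeff_Zn : (Zn (X : (ZMod p)[X])).coeff 6 = -1 := by
  have h1 : (Zn (X : (ZMod p)[X])) = -((X - C 5) ^ 5 * (X - C 1)) := by
    simp only [Zn, map_ofNat, map_one]; ring
  have hm : ((X - C (5 : ZMod p)) ^ 5 * (X - C 1)).Monic :=
    ((monic_X_sub_C _).pow _).mul (monic_X_sub_C _)
  have hd : ((X - C (5 : ZMod p)) ^ 5 * (X - C 1)).natDegree = 6 := by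
    rw [Monic.natDegree_mul ((monic_X_sub_C _).pow _) (monic_X_sub_C _),
      (monic_X_sub_C _).natDegree_pow, natDegree_X_sub_C, natDegree_X_sub_C]
  rw [h1, coeff_neg]
  have := hm.coeff_natDegree
  rw [hd] at this
  rw [this]

theorem coeff_Zd : (Zd (X : (ZMod p)[X])).coeff 6 = 80 := by
  have h1 : (Zd (X : (ZMod p)[X])) = C 80 * X ^ 6 - C 352 * X ^ 5 + C 400 * X ^ 4 := by
    simp only [Zd, dd, map_ofNat]; ring
  rw [h1]
  simp only [coeff_add, coeff_sub, coeff_C_mul, coeff_X_pow]
  norm_num

theorem center_mod' {c : ZMod p} (hc : c = 1 ∨ c = 5) :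
    (X - C c) ^ p ∣ X * L.g1.map L.φ - C c * L.g2.map L.φ := by
  have h1 : (X - C c) ^ p ∣ X ^ (4 * N + 1) * L.g2.map L.φ - C c * L.g1.map L.φ := by
    rcases hc with rfl | rfl
    · have := L.center_mod (c := 1) (Or.inl rfl)
      simpa using this
    · have := L.center_mod (c := 5) (Or.inr rfl)
      rw [map_ofNat] at this
      exact this
  have h4 : (X : (ZMod p)[X]) ^ p = (X - C c) ^ p + C c := by
    rw [sub_pow_char, ← C_pow, ZMod.pow_card]; ring
  have hN := L.hp
  have h5 : X * (X ^ (4 * N + 1) * L.g2.map L.φ - C c * L.g1.map L.φ) =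
      (X - C c) ^ p * (((X - C c) ^ p + 2 * C c) * L.g2.map L.φ) -
        C c * (X * L.g1.map L.φ - C c * L.g2.map L.φ) := by
    have h6 : (X : (ZMod p)[X]) * X ^ (4 * N + 1) = (X ^ p) ^ 2 := by
      rw [← pow_succ', ← pow_mul]; congr 1; omega
    rw [mul_sub, ← mul_assoc, h6, h4]
    ring
  have h7 : (X - C c) ^ p ∣ C c * (X * L.g1.map L.φ - C c * L.g2.map L.φ) := by
    have h8 := h1.mul_left X
    rw [h5] at h8
    exact (dvd_sub_right (dvd_mul_right _ _)).1 h8
  have hu : IsUnit (C c : (ZMod p)[X]) := isUnit_C.2 (isUnit_iff_ne_zero.2 (L.c_ne hc))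
  exact hu.dvd_mul_left.1 h7

include hn in
/-- MODULE D -/
theorem three_mod : L.φ (hom L.u N (-1) 80) = 0 := by
  have hN := L.hp
  have hub : L.φ (hom L.u N (-1) 80) = hom L.ub N (-1) 80 := by
    rw [map_hom (f := L.φ) L.u N (-1) 80]
    simp only [map_neg, map_one, map_ofNat]
    rfl
  rw [hub]
  rcases Nat.eq_zero_or_pos n with rfl | hn0
  · -- p = 3
    have hN1 : N = 1 := by omega
    subst hN1
    have hr := L.ub_rec (k := 0) (by norm_num)
    rw [L.ub_zero'] at hr
    norm_num at hr
    have h3 : (3 : ZMod p) = 0 := by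
      have : ((3 : ℕ) : ZMod p) = 0 := by
        have h5 : p = 3 := by omega
        rw [← h5]; exact ZMod.natCast_self p
      exact_mod_cast this
    have h8 : (8 : ZMod p) ≠ 0 := by
      have : (8 : ZMod p) = 2 ^ 3 := by norm_num
      rw [this]; exact pow_ne_zero _ L.two_ne
    apply mul_left_cancel₀ h8
    have e : hom L.ub 1 (-1) 80 = 80 - L.ub 1 := by
      simp only [hom, Finset.sum_range_succ, Finset.sum_range_zero, L.ub_zero', Nat.sub_self,
        Nat.sub_zero, pow_zero, pow_one]
      ring
    rw [e]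
    linear_combination (-1) * hr + 213 * h3
  · have h3 : (3 : ZMod p) ≠ 0 := by
      have := ne_nat L (k := 3) (fun h => by
        have := Nat.le_of_dvd (by omega) h
        omega)
      exact_mod_cast this
    have h2 := L.two_ne
    have h5 := L.five_ne
    set a := L.g1.map L.φ with ha
    set b := L.g2.map L.φ with hb
    have ha1 : a = hom (fun j => C (L.ub j)) N (Zn X) (Zd X) := by
      rw [ha, g1, map_hom', map_Zn', map_Zd']
    have hb1 : b = hom (fun j => C (L.ub j)) N (Yn X) (Yd X) := by
      rw [hb, g2, map_hom', map_Yn', map_Yd']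
    have hda : a.natDegree ≤ 6 * N := by
      rw [ha1]; exact natDegree_hom_le natDegree_Zn natDegree_Zd
    have hdb : b.natDegree ≤ 6 * N := by
      rw [hb1]; exact natDegree_hom_le natDegree_Yn (natDegree_Yd.trans (by norm_num))
    have hx3 : (3 : (ZMod p)[X]) = C 3 := by rw [map_ofNat]
    have hx5 : (5 : (ZMod p)[X]) = C 5 := by rw [map_ofNat]
    -- F
    set F := X * a * (3 - X ^ p) - b * (5 - 3 * X ^ p) with hF
    have hpow : ∀ r : ZMod p, (X : (ZMod p)[X]) ^ p = (X - C r) ^ p + C r := by
      intro r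
      rw [sub_pow_char, ← C_pow, ZMod.pow_card]; ring
    have hFc : ∀ c : ZMod p, (c = 1 ∨ c = 5) → (X - C c) ^ p ∣ F := by
      intro c hc
      have h1 := L.center_mod' hc
      have hcc : 5 - 3 * C c = C c * (3 - C c) := by
        have : (5 : ZMod p) - 3 * c = c * (3 - c) := by
          rcases hc with rfl | rfl <;> ring
        have h6 := congrArg (C : ZMod p →+* (ZMod p)[X]) this
        simpa only [map_sub, map_mul, map_ofNat] using h6
      have : F = (3 - C c) * (X * a - C c * b) + (X - C c) ^ p * (-(X * a) + 3 * b) := by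
        rw [hF, hpow c]
        linear_combination (-b) * hcc
      rw [this]
      exact dvd_add (h1.mul_left _) (dvd_mul_right _ _)
    have hr1 : (X - C (5 / 3 : ZMod p)) ^ p ∣ a := by
      have h1 := L.a_dvd hn (Zn X) (Zd X)
      rw [← ha1, Zd_sub_Zn, mul_pow, ← pow_mul] at h1
      have h6 : (X1 (X : (ZMod p)[X])) = C 3 * (X - C (5 / 3)) := by
        rw [X1, mul_sub, ← C_mul, show (3 : ZMod p) * (5 / 3) = 5 from by field_simp, map_ofNat, map_ofNat]
      rw [h6, mul_pow] at h1
      refine dvd_trans ?_ h1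
      refine Dvd.dvd.mul_right (Dvd.dvd.mul_left (pow_dvd_pow _ (by omega)) _) _
    have hr2 : (X - C (3 : ZMod p)) ^ p ∣ b := by
      have h1 := L.a_dvd hn (Yn X) (Yd X)
      have e3 : Yd (X : (ZMod p)[X]) - Yn X = (X - C 3) ^ 4 * X2 X := by
        simp only [Yd, Yn, X2, dd, map_ofNat]; ring
      rw [← hb1, e3, mul_pow, ← pow_mul] at h1
      refine dvd_trans ?_ h1
      refine Dvd.dvd.mul_right (pow_dvd_pow _ (by omega)) _
    have hF3 : (X - C (5 / 3 : ZMod p)) ^ p ∣ F := by
      have e : 5 - 3 * (X : (ZMod p)[X]) ^ p = (X - C (5 / 3 : ZMod p)) ^ p * (-3) := by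
        rw [hpow (5 / 3)]
        have : 3 * C (5 / 3 : ZMod p) = 5 := by
          rw [hx3, ← C_mul, show (3 : ZMod p) * (5 / 3) = 5 from by field_simp, map_ofNat]
        linear_combination (-1 : (ZMod p)[X]) * this
      rw [hF, e]
      exact dvd_sub ((hr1.mul_left _).mul_right _) ((dvd_mul_right _ _).mul_left _)
    have hF4 : (X - C (3 : ZMod p)) ^ p ∣ F := by
      have e : 3 - (X : (ZMod p)[X]) ^ p = (X - C (3 : ZMod p)) ^ p * (-1) := by
        rw [hpow 3, hx3]; ring
      rw [hF, e]
      exact dvd_sub ((dvd_mul_right _ _).mul_left _) (hr2.mul_right _)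
    have hcop : ∀ r s : ZMod p, r - s ≠ 0 → IsCoprime ((X - C r) ^ p) ((X - C s) ^ p) := by
      intro r s hrs
      apply IsCoprime.pow
      apply isCoprime_X_sub_C_of_isUnit_sub
      exact isUnit_iff_ne_zero.2 hrs
    have h4ne : (4 : ZMod p) ≠ 0 := by
      have : (4 : ZMod p) = 2 ^ 2 := by norm_num
      rw [this]; exact pow_ne_zero _ h2
    have hdvd : ((X - C (1 : ZMod p)) ^ p * (X - C 5) ^ p) * (X - C (5 / 3)) ^ p * (X - C 3) ^ p ∣ F := by
      apply IsCoprime.mul_dvd
      · apply IsCoprime.mul_left (IsCoprime.mul_left _ _)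
        · apply hcop
          rw [show (5 : ZMod p) / 3 - 3 = -(4 / 3) from by field_simp; norm_num, neg_ne_zero]
          exact div_ne_zero h4ne h3
        · apply hcop
          rw [show (1 : ZMod p) - 3 = -2 from by norm_num, neg_ne_zero]; exact h2
        · apply hcop
          rw [show (5 : ZMod p) - 3 = 2 from by norm_num]; exact h2
      · apply IsCoprime.mul_dvd
        · apply IsCoprime.mul_left
          · apply hcop
            rw [show (1 : ZMod p) - 5 / 3 = -(2 / 3) from by field_simp; norm_num, neg_ne_zero]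
            exact div_ne_zero h2 h3
          · apply hcop
            rw [show (5 : ZMod p) - 5 / 3 = 2 * 5 / 3 from by field_simp; norm_num]
            exact div_ne_zero (mul_ne_zero h2 h5) h3
        · apply IsCoprime.mul_dvd
          · apply hcop
            rw [show (1 : ZMod p) - 5 = -4 from by norm_num, neg_ne_zero]; exact h4ne
          · exact hFc 1 (Or.inl rfl)
          · exact hFc 5 (Or.inr rfl)
        · exact hF3
      · exact hF4
    have hF0 : F = 0 := by
      apply eq_zero_of_dvd_of_natDegree_lt hdvd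
      have hm : ∀ r : ZMod p, ((X - C r) ^ p).Monic := fun r => (monic_X_sub_C r).pow _
      have hd : ∀ r : ZMod p, ((X - C r) ^ p).natDegree = p := fun r => by
        rw [(monic_X_sub_C _).natDegree_pow, natDegree_X_sub_C, mul_one]
      have e1 : (((X - C (1 : ZMod p)) ^ p * (X - C 5) ^ p) * (X - C (5 / 3)) ^ p * (X - C 3) ^ p).natDegree
          = 4 * p := by
        rw [Monic.natDegree_mul (((hm _).mul (hm _)).mul (hm _)) (hm _),
          Monic.natDegree_mul ((hm _).mul (hm _)) (hm _), Monic.natDegree_mul (hm _) (hm _), hd, hd, hd, hd]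
        ring
      rw [e1]
      have e2 : (X * a * (3 - X ^ p)).natDegree ≤ 1 + 6 * N + p := by
        refine natDegree_mul_le.trans (Nat.add_le_add ?_ ?_)
        · exact natDegree_mul_le.trans (Nat.add_le_add natDegree_X_le hda)
        · rw [hx3]
          refine (natDegree_sub_le _ _).trans (max_le ?_ (natDegree_X_pow_le _))
          rw [natDegree_C]; omega
      have e3 : (b * (5 - 3 * X ^ p)).natDegree ≤ 6 * N + p := by
        refine natDegree_mul_le.trans (Nat.add_le_add hdb ?_)
        rw [hx5, hx3]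
        refine (natDegree_sub_le _ _).trans (max_le ?_ (natDegree_C_mul_X_pow_le _ _))
        rw [natDegree_C]; omega
      have e4 : F.natDegree ≤ 1 + 6 * N + p := by
        rw [hF]
        exact (natDegree_sub_le _ _).trans (max_le e2 (e3.trans (by omega)))
      omega
    -- coefficient 6N + p + 1
    have hco := congrArg (fun f => coeff f (6 * N + (p + 1))) hF0
    have hFe : F = 3 * (X * a) - a * X ^ (p + 1) - 5 * b + 3 * (b * X ^ p) := by
      rw [hF, pow_succ]; ring
    simp only [coeff_zero] at hco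
    rw [hFe, hx3, hx5] at hco
    rw [coeff_add, coeff_sub, coeff_sub, coeff_C_mul, coeff_C_mul, coeff_C_mul, coeff_mul_X_pow,
      show 6 * N + (p + 1) = (6 * N + 1) + p from by omega, coeff_mul_X_pow,
      show (6 * N + 1) + p = (6 * N + p) + 1 from by omega, coeff_X_mul,
      coeff_eq_zero_of_natDegree_lt (p := a) (n := 6 * N + p) (by omega),
      coeff_eq_zero_of_natDegree_lt (p := b) (n := 6 * N + p + 1) (by omega),
      coeff_eq_zero_of_natDegree_lt (p := b) (n := 6 * N + 1) (by omega)] at hco
    have hfin : a.coeff (6 * N) = 0 := by linear_combination -hco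
    rw [ha1, coeff_hom natDegree_Zn natDegree_Zd, coeff_Zn L, coeff_Zd L] at hfin
    exact hfin

end Dat

end Sc80
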