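import Pool.Agent.Work.MP_f41de7_nt.Main4
import Pool.Agent.Work.MP_f41de7_nt.ModP3
import Pool.Agent.Work.MP_f41de7_nt.CBin

/-! Final module: the bridge between the p-adic statements and the rational statement. -/

set_option linter.unusedSectionVars false

/-! Elementary facts: Euler criterion, reciprocity, parity. -/

namespace Sc80

theorem pow_fermat {p n : ℕ} [Fact p.Prime] (hn : p = 4 * n + 1) (a : ZMod p) (ha : a ≠ 0) :
    (a ^ 2) ^ (2 * n) = 1 := by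
  rw [← pow_mul, show 2 * (2 * n) = p - 1 by omega]
  exact ZMod.pow_card_sub_one_eq_one ha

theorem nat_ne {p : ℕ} [Fact p.Prime] (k : ℕ) (h : ¬ p ∣ k) : (k : ZMod p) ≠ 0 := by
  rwa [Ne, ZMod.natCast_eq_zero_iff]

theorem four_ne {p n : ℕ} [Fact p.Prime] (hn : p = 4 * n + 1) : (4 : ZMod p) ≠ 0 := by
  have hpp : p.Prime := Fact.out
  have h : ((4 : ℕ) : ZMod p) ≠ 0 := by
    apply nat_ne 4
    intro h
    have h1 : p ∣ 2 ^ 2 := by norm_num; exact h
    have := (Nat.prime_dvd_prime_iff_eq hpp Nat.prime_two).1 (hpp.dvd_of_dvd_pow h1)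
    omega
  exact_mod_cast h

theorem eighty_pow {p n : ℕ} [Fact p.Prime] (hn : p = 4 * n + 1) :
    (80 : ZMod p) ^ (2 * n) = (5 : ZMod p) ^ (2 * n) := by
  rw [show (80 : ZMod p) = 4 ^ 2 * 5 by norm_num, mul_pow, pow_fermat hn 4 (four_ne hn), one_mul]

instance fact5 : Fact (Nat.Prime 5) := ⟨Nat.prime_five⟩

theorem five_pow {p n : ℕ} [Fact p.Prime] (hn : p = 4 * n + 1) :
    (5 : ZMod p) ^ (2 * n) = ((legendreSym 5 (p : ℤ) : ℤ) : ZMod p) := by
  have h1 := legendreSym.eq_pow p (5 : ℤ)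
  have h2 := legendreSym.quadratic_reciprocity_one_mod_four (p := p) (q := 5) (by omega)
    (by norm_num)
  push_cast at h2
  rw [h2, h1, show p / 2 = 2 * n by omega]
  norm_num

theorem eighty_pow_one (p n : ℕ) [Fact p.Prime] (hn : p = 4 * n + 1)
    (h : p % 5 = 1 ∨ p % 5 = 4) : (80 : ZMod p) ^ (2 * n) = 1 := by
  rw [eighty_pow hn, five_pow hn, legendreSym.mod]
  have e : ((p : ℤ) % ((5 : ℕ) : ℤ)) = ((p % 5 : ℕ) : ℤ) := by push_cast; rfl
  rw [e]
  rcases h with h | h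
  · rw [h]
    have : legendreSym 5 ((1 : ℕ) : ℤ) = 1 := by decide
    rw [this]; norm_num
  · rw [h]
    have : legendreSym 5 ((4 : ℕ) : ℤ) = 1 := by decide
    rw [this]; norm_num

theorem eighty_pow_neg (p n : ℕ) [Fact p.Prime] (hn : p = 4 * n + 1)
    (h : p % 5 = 2 ∨ p % 5 = 3) : (80 : ZMod p) ^ (2 * n) = -1 := by
  rw [eighty_pow hn, five_pow hn, legendreSym.mod]
  have e : ((p : ℤ) % ((5 : ℕ) : ℤ)) = ((p % 5 : ℕ) : ℤ) := by push_cast; rfl
  rw [e]
  rcases h with h | h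
  · rw [h]
    have : legendreSym 5 ((2 : ℕ) : ℤ) = -1 := by decide
    rw [this]; norm_num
  · rw [h]
    have : legendreSym 5 ((3 : ℕ) : ℤ) = -1 := by decide
    rw [this]; norm_num

theorem eightyone_pow (p n : ℕ) [Fact p.Prime] (hn : p = 4 * n + 1) :
    (81 : ZMod p) ^ (2 * n) = 1 := by
  have hpp : p.Prime := Fact.out
  have h9 : ((9 : ℕ) : ZMod p) ≠ 0 := by
    apply nat_ne 9
    intro h
    have h1 : p ∣ 3 ^ 2 := by norm_num; exact h
    have := (Nat.prime_dvd_prime_iff_eq hpp Nat.prime_three).1 (hpp.dvd_of_dvd_pow h1)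
    omega
  have h9' : (9 : ZMod p) ≠ 0 := by exact_mod_cast h9
  rw [show (81 : ZMod p) = 9 ^ 2 by norm_num]
  exact pow_fermat hn 9 h9'

theorem xy_ndvd (p : ℕ) [Fact p.Prime] (x y : ℤ) (hxy : (p : ℤ) = x ^ 2 + y ^ 2) :
    ¬ (p : ℤ) ∣ x ∧ ¬ (p : ℤ) ∣ y := by
  have hpp : p.Prime := Fact.out
  have hP : Prime (p : ℤ) := Nat.prime_iff_prime_int.1 hpp
  have hp0 : (p : ℤ) ≠ 0 := hP.ne_zero
  have key : ¬ ((p : ℤ) ∣ x ∧ (p : ℤ) ∣ y) := by
    rintro ⟨⟨a, rfl⟩, ⟨b, rfl⟩⟩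
    have h1 : (p : ℤ) * 1 = p * (p * (a ^ 2 + b ^ 2)) := by linear_combination hxy
    have h2 := mul_left_cancel₀ hp0 h1
    exact hP.not_isUnit (isUnit_of_dvd_one ⟨_, h2⟩)
  constructor
  · intro h
    apply key
    refine ⟨h, ?_⟩
    have : (p : ℤ) ∣ y ^ 2 := by
      have e : y ^ 2 = p - x ^ 2 := by linear_combination -hxy
      rw [e]
      exact dvd_sub (dvd_refl _) (dvd_pow h two_ne_zero)
    exact hP.dvd_of_dvd_pow this
  · intro h
    apply key
    refine ⟨?_, h⟩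
    have : (p : ℤ) ∣ x ^ 2 := by
      have e : x ^ 2 = p - y ^ 2 := by linear_combination -hxy
      rw [e]
      exact dvd_sub (dvd_refl _) (dvd_pow h two_ne_zero)
    exact hP.dvd_of_dvd_pow this

theorem mod_four (p : ℕ) [Fact p.Prime] (h2 : p ≠ 2) (x y : ℤ) (hxy : (p : ℤ) = x ^ 2 + y ^ 2)
    (hx : Odd x) : ∃ n : ℕ, p = 4 * n + 1 ∧ 0 < n := by
  have hpp : p.Prime := Fact.out
  have hodd : p % 2 = 1 := Nat.odd_iff.1 (hpp.odd_of_ne_two h2)
  obtain ⟨a, ha⟩ := hx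
  rcases Int.even_or_odd y with ⟨b, hb⟩ | ⟨b, hb⟩
  · have h1 : (p : ℤ) = 4 * (a ^ 2 + a + b ^ 2) + 1 := by
      rw [hxy, ha, hb]; ring
    have h3 : p % 4 = 1 := by omega
    have h4 := hpp.two_le
    exact ⟨p / 4, by omega, by omega⟩
  · have h1 : (p : ℤ) = 2 * (2 * (a ^ 2 + a + b ^ 2 + b) + 1) := by
      rw [hxy, ha, hb]; ring
    omega

end Sc80

/-! The data over the p-adic integers and the bridge with rational numbers. -/


namespace Sc80
open Finset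

section loc
variable (p : ℕ) [Fact p.Prime]

theorem padic_ker (x : ℤ_[p]) (h : PadicInt.toZMod (p := p) x = 0) : (p : ℤ_[p]) ∣ x := by
  have : x ∈ RingHom.ker (PadicInt.toZMod (p := p)) := (RingHom.mem_ker).2 h
  rwa [PadicInt.ker_toZMod, PadicInt.maximalIdeal_eq_span_p, Ideal.mem_span_singleton] at this

theorem padic_unit (x : ℤ_[p]) (h : PadicInt.toZMod (p := p) x ≠ 0) : IsUnit x := by
  by_contra hx
  apply h
  have : x ∈ RingHom.ker (PadicInt.toZMod (p := p)) := by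
    rw [PadicInt.ker_toZMod]
    exact (IsLocalRing.mem_maximalIdeal x).2 hx
  exact (RingHom.mem_ker).1 this

/-- the p-adic integers as a local ring with residue field ZMod p -/
noncomputable def padicLoc : Loc p ℤ_[p] where
  φ := PadicInt.toZMod
  surj := ZMod.ringHom_surjective _
  ker := padic_ker p
  unit := padic_unit p
  p0 := by exact_mod_cast (Fact.out : p.Prime).ne_zero

variable {p}

/-- the inclusion of the p-adic integers in the p-adic numbers -/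
noncomputable def cz : ℤ_[p] →+* ℚ_[p] := PadicInt.Coe.ringHom

theorem cz_inj : Function.Injective (cz (p := p)) := fun _ _ h => Subtype.ext h

theorem pint_of {q : ℚ} (A : ℤ_[p]) (h : cz A = (q : ℚ_[p])) : ¬ p ∣ q.den := by
  have h1 : ‖(q : ℚ_[p])‖ ≤ 1 := by rw [← h]; exact A.norm_le_one
  have h2 := PadicInt.isUnit_den q h1
  intro hd
  have h3 := ((padicLoc p).unit_iff _).1 h2
  apply h3
  rw [map_natCast, ZMod.natCast_eq_zero_iff]
  exact hd

end loc

section series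
variable {p N : ℕ} [Fact p.Prime] (hpN : p = 2 * N + 1) (t : ℕ → ℚ) (ht0 : t 0 = 1)
  (ht : ∀ k : ℕ, 8 * ((k : ℚ) + 1) ^ 2 * t (k + 1) = (4 * k + 1) * (2 * k + 1) * t k)

include hpN in
theorem unit8 {k : ℕ} (hk : k + 1 < p) : IsUnit (8 * ((k : ℤ_[p]) + 1) ^ 2) := by
  have h2 : IsUnit ((2 : ℕ) : ℤ_[p]) := (padicLoc p).unit_nat (by norm_num) (by omega)
  have h1 : IsUnit ((k + 1 : ℕ) : ℤ_[p]) := (padicLoc p).unit_nat (by omega) hk
  have e : 8 * ((k : ℤ_[p]) + 1) ^ 2 = ((2 : ℕ) : ℤ_[p]) ^ 3 * ((k + 1 : ℕ) : ℤ_[p]) ^ 2 := by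
    push_cast; ring
  rw [e]
  exact (h2.pow 3).mul (h1.pow 2)

include hpN ht0 ht in
theorem exists_u : ∃ u : ℕ → ℤ_[p], (∀ k < p, cz (u k) = (t k : ℚ_[p])) ∧ u 0 = 1 ∧
    ∀ k, k + 1 < p → 8 * ((k : ℤ_[p]) + 1) ^ 2 * u (k + 1) = (4 * k + 1) * (2 * k + 1) * u k := by
  have hex : ∀ k, k < p → ∃ A : ℤ_[p], cz A = (t k : ℚ_[p]) := by
    intro k
    induction k with
    | zero => intro _; exact ⟨1, by simp [ht0]⟩
    | succ k ih =>
      intro hk
      obtain ⟨A, hA⟩ := ih (by omega)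
      obtain ⟨v, hv⟩ := (unit8 hpN hk).exists_right_inv
      refine ⟨v * ((4 * k + 1) * (2 * k + 1) * A), ?_⟩
      have h1 := congrArg cz hv
      have h2 := congrArg (fun x : ℚ => (x : ℚ_[p])) (ht k)
      simp only [map_mul, map_pow, map_add, map_one, map_ofNat, map_natCast] at h1 ⊢
      push_cast at h2
      rw [hA]
      linear_combination (-(cz v)) * h2 + (t (k + 1) : ℚ_[p]) * h1
  choose! u hu using hex
  refine ⟨u, hu, ?_, ?_⟩
  · apply cz_inj
    have := hu 0 (by omega)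
    rw [this, ht0]
    simp
  · intro k hk
    apply cz_inj
    have h1 := hu k (by omega)
    have h2 := hu (k + 1) hk
    have h3 := congrArg (fun x : ℚ => (x : ℚ_[p])) (ht k)
    simp only [map_mul, map_pow, map_add, map_one, map_ofNat, map_natCast]
    push_cast at h3
    rw [h1, h2]
    exact h3

variable {u : ℕ → ℤ_[p]}
  (hu : ∀ k, k + 1 < p → 8 * ((k : ℤ_[p]) + 1) ^ 2 * u (k + 1) = (4 * k + 1) * (2 * k + 1) * u k)

include hpN hu in
theorem dvd_tail (k : ℕ) (hk : N < k) (hkp : k < p) : (p : ℤ_[p]) ∣ u k := by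
  induction k with
  | zero => omega
  | succ k ih =>
    have h := hu k hkp
    rw [← (unit8 hpN hkp).dvd_mul_left, h]
    rcases Nat.lt_or_ge N k with h1 | h1
    · exact (ih h1 (by omega)).mul_left _
    · have hk' : k = N := by omega
      subst hk'
      have : (p : ℤ_[p]) = 2 * k + 1 := by
        have := congrArg (Nat.cast : ℕ → ℤ_[p]) hpN
        simpa using this
      rw [this]
      exact ⟨(4 * k + 1) * u k, by ring⟩

include hpN hu in
theorem dvd_mid {n : ℕ} (hn : p = 4 * n + 1) (k : ℕ) (hk : n < k) (hkp : k < p) :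
    (p : ℤ_[p]) ∣ u k := by
  induction k with
  | zero => omega
  | succ k ih =>
    have h := hu k hkp
    rw [← (unit8 hpN hkp).dvd_mul_left, h]
    rcases Nat.lt_or_ge n k with h1 | h1
    · exact (ih h1 (by omega)).mul_left _
    · have hk' : k = n := by omega
      subst hk'
      have : (p : ℤ_[p]) = 4 * k + 1 := by
        have := congrArg (Nat.cast : ℕ → ℤ_[p]) hn
        simpa using this
      rw [this]
      exact ⟨(2 * k + 1) * u k, by ring⟩

include hpN hu in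
theorem dvd_tail2 {n : ℕ} (hn : p = 4 * n + 1) (k : ℕ) (hk : N < k) (hkp : k < p) :
    (p : ℤ_[p]) ^ 2 ∣ u k := by
  have hp1 := (Fact.out : p.Prime).one_lt
  induction k with
  | zero => omega
  | succ k ih =>
    have h := hu k hkp
    rw [← (unit8 hpN hkp).dvd_mul_left, h]
    rcases Nat.lt_or_ge N k with h1 | h1
    · exact (ih h1 (by omega)).mul_left _
    · have hk' : k = N := by omega
      obtain ⟨w, hw⟩ := dvd_mid hpN hu hn k (by omega) (by omega)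
      subst hk'
      have : (p : ℤ_[p]) = 2 * k + 1 := by
        have := congrArg (Nat.cast : ℕ → ℤ_[p]) hpN
        simpa using this
      rw [hw]
      exact ⟨(4 * k + 1) * w, by rw [this]; ring⟩

include hpN in
/-- the value of the truncated series -/
theorem exists_s (hp5 : p ≠ 5) (huc : ∀ k < p, cz (u k) = (t k : ℚ_[p])) (m : ℕ)
    (htail : ∀ k, N < k → k < p → (p : ℤ_[p]) ^ m ∣ u k) :
    ∃ s : ℤ_[p], cz s = ((∑ k ∈ range p, t k / (-80) ^ k : ℚ) : ℚ_[p]) ∧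
      (p : ℤ_[p]) ^ m ∣ 80 ^ N * s - hom u N (-1) 80 := by
  have hpp : p.Prime := Fact.out
  have h80 : ¬ p ∣ 80 := by
    intro h
    have h1 : p ∣ 2 ^ 4 * 5 := by norm_num; exact h
    rcases hpp.dvd_mul.1 h1 with h2 | h2
    · have := (Nat.prime_dvd_prime_iff_eq hpp Nat.prime_two).1 (hpp.dvd_of_dvd_pow h2)
      omega
    · exact hp5 ((Nat.prime_dvd_prime_iff_eq hpp Nat.prime_five).1 h2)
  have hU : IsUnit ((80 : ℕ) : ℤ_[p]) := (padicLoc p).unit_nat' h80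
  obtain ⟨w, hw⟩ := hU.exists_right_inv
  have hw' : (80 : ℤ_[p]) * w = 1 := by simpa using hw
  have hwq : (80 : ℚ_[p]) * cz w = 1 := by
    have := congrArg cz hw'
    simpa only [map_mul, map_ofNat, map_one] using this
  have hv : cz (-w) = (-80)⁻¹ := by
    rw [map_neg]
    apply eq_inv_of_mul_eq_one_left
    linear_combination (1 : ℚ_[p]) * hwq
  refine ⟨∑ k ∈ range p, u k * (-w) ^ k, ?_, ?_⟩
  · push_cast
    rw [map_sum]
    apply Finset.sum_congr rfl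
    intro k hk
    rw [map_mul, map_pow, hv, huc k (mem_range.1 hk), inv_pow, div_eq_mul_inv]
  · have hsplit : ∑ k ∈ range p, u k * (-w) ^ k = ∑ k ∈ range (N + 1), u k * (-w) ^ k +
        ∑ j ∈ range N, u (N + 1 + j) * (-w) ^ (N + 1 + j) := by
      have hr : range p = range ((N + 1) + N) := by congr 1; omega
      rw [hr, Finset.sum_range_add]
    have hmain : 80 ^ N * ∑ k ∈ range (N + 1), u k * (-w) ^ k = hom u N (-1) 80 := by
      rw [hom, Finset.mul_sum]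
      apply Finset.sum_congr rfl
      intro k hk
      have hk' : k ≤ N := by rw [mem_range] at hk; omega
      have e1 : (80 : ℤ_[p]) ^ N = 80 ^ k * 80 ^ (N - k) := by
        rw [← pow_add]; congr 1; omega
      have e2 : (80 : ℤ_[p]) ^ k * (-w) ^ k = (-1) ^ k := by
        rw [← mul_pow, mul_neg, hw']
      rw [e1]
      linear_combination (80 ^ (N - k) * u k) * e2
    rw [hsplit, mul_add, hmain, add_sub_cancel_left]
    apply Dvd.dvd.mul_left
    apply Finset.dvd_sum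
    intro j hj
    rw [mem_range] at hj
    exact (htail (N + 1 + j) (by omega) (by omega)).mul_right _

end series

end Sc80

/-! Final arithmetic in the p-adic integers. -/


namespace Sc80
open Finset

section arith
variable {p : ℕ} [Fact p.Prime] {R : Type*} [CommRing R] (L : Loc p R)

theorem two_ne (h2 : p ≠ 2) : (2 : ZMod p) ≠ 0 := by
  have h : ((2 : ℕ) : ZMod p) ≠ 0 := by
    rw [Ne, ZMod.natCast_eq_zero_iff]
    intro h
    have := Nat.le_of_dvd (by norm_num) h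
    have h1 := (Fact.out : p.Prime).two_le
    omega
  exact_mod_cast h

include L in
theorem sq_split (h2 : p ≠ 2) (s g : R) (hg : L.φ g ≠ 0) (h : (p : R) ^ 2 ∣ s ^ 2 - g ^ 2) :
    (p : R) ^ 2 ∣ s - g ∨ (p : R) ^ 2 ∣ s + g := by
  have hs : L.φ s ^ 2 = L.φ g ^ 2 := by
    have h1 : L.φ (s ^ 2 - g ^ 2) = 0 := by
      rw [← L.dvd_iff]
      exact (dvd_pow_self _ two_ne_zero).trans h
    rw [map_sub, map_pow, map_pow] at h1
    exact sub_eq_zero.1 h1
  have e : s ^ 2 - g ^ 2 = (s + g) * (s - g) := by ring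
  rw [e] at h
  rcases sq_eq_sq_iff_eq_or_eq_neg.1 hs with h3 | h3
  · left
    have hu : IsUnit (s + g) := by
      apply L.unit
      rw [map_add, h3, ← two_mul]
      exact mul_ne_zero (two_ne h2) hg
    exact (hu.dvd_mul_left).1 h
  · right
    have hu : IsUnit (s - g) := by
      apply L.unit
      rw [map_sub, h3, show -L.φ g - L.φ g = -(2 * L.φ g) by ring]
      exact neg_ne_zero.2 (mul_ne_zero (two_ne h2) hg)
    exact (hu.dvd_mul_right).1 h

/-- The final step in the abstract ring. -/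
theorem final_step (n : ℕ) (h2 : p ≠ 2) (s H G : R) (e x y wx wy : R)
    (hc1 : ((80 : ZMod p)) ≠ 0)
    (h81 : ((81 : ZMod p)) ^ (2 * n) = 1)
    (hx : L.φ e ≠ 0) (hy : L.φ y ≠ 0) (hxy : x ^ 2 + y ^ 2 = (p : R))
    (hex : e = x ∨ e = -x) (hwx : 2 * x * wx = 1) (hwy : 2 * y * wy = 1)
    (hE4 : (p : R) ^ 2 ∣ H ^ 4 - 80 ^ (4 * (2 * n)) * G ^ 4)
    (hE : L.φ H = 80 ^ n * 81 ^ n * L.φ G)
    (hs : (p : R) ^ 2 ∣ 80 ^ (2 * n) * s - H)
    (hG : (p : R) ^ 2 ∣ 2 * e * G - (4 * e ^ 2 - p)) :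
    ((80 : ZMod p) ^ (2 * n) = 1 → (p : R) ^ 2 ∣ s - (2 * x - p * wx) ∨
      (p : R) ^ 2 ∣ s + (2 * x - p * wx)) ∧
    ((80 : ZMod p) ^ (2 * n) = -1 → (p : R) ^ 2 ∣ s - (2 * y - p * wy) ∨
      (p : R) ^ 2 ∣ s + (2 * y - p * wy)) := by
  have hp1 : (p : R) ∣ (p : R) ^ 2 := dvd_pow_self _ two_ne_zero
  -- value of phi G
  have hφG : L.φ G = 2 * L.φ e := by
    have h1 : L.φ (2 * e * G - (4 * e ^ 2 - p)) = 0 := (L.dvd_iff _).1 (hp1.trans hG)
    simp only [map_sub, map_mul, map_pow, map_ofNat, L.phi_p, sub_zero] at h1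
    have h3 : 2 * L.φ e * (L.φ G - 2 * L.φ e) = 0 := by linear_combination h1
    rcases mul_eq_zero.1 h3 with h4 | h4
    · exact absurd h4 (mul_ne_zero (two_ne h2) hx)
    · exact sub_eq_zero.1 h4
  have hφG0 : L.φ G ≠ 0 := by rw [hφG]; exact mul_ne_zero (two_ne h2) hx
  have hφs : (80 : ZMod p) ^ (2 * n) * L.φ s = L.φ H := by
    have h1 : L.φ (80 ^ (2 * n) * s - H) = 0 := (L.dvd_iff _).1 (hp1.trans hs)
    simp only [map_sub, map_mul, map_pow, map_ofNat] at h1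
    exact sub_eq_zero.1 h1
  have hc : IsUnit ((80 : R) ^ (4 * (2 * n))) := by
    apply L.unit
    rw [map_pow, map_ofNat]
    exact pow_ne_zero _ hc1
  have hs4 : (p : R) ^ 2 ∣ s ^ 4 - G ^ 4 := by
    obtain ⟨a, ha⟩ := hs
    obtain ⟨b, hb⟩ := hE4
    rw [← hc.dvd_mul_left]
    have e1 : (80 : R) ^ (2 * n) * s = H + (p : R) ^ 2 * a := by linear_combination ha
    have e2 : (80 : R) ^ (4 * (2 * n)) * s ^ 4 = (H + (p : R) ^ 2 * a) ^ 4 := by
      rw [← e1, mul_pow, ← pow_mul, mul_comm (2 * n) 4]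
    refine ⟨b + (4 * H ^ 3 * a + 6 * H ^ 2 * a ^ 2 * (p : R) ^ 2 + 4 * H * a ^ 3 * (p : R) ^ 4 +
      a ^ 4 * (p : R) ^ 6), ?_⟩
    linear_combination e2 + hb
  -- G in terms of x
  have hGx : (p : R) ^ 2 ∣ G - (2 * x - p * wx) ∨ (p : R) ^ 2 ∣ G + (2 * x - p * wx) := by
    rcases hex with rfl | rfl
    · left
      obtain ⟨a, ha⟩ := hG
      exact ⟨a * wx, by linear_combination wx * ha - (G - 2 * e) * hwx⟩
    · right
      obtain ⟨a, ha⟩ := hG
      exact ⟨-a * wx, by linear_combination (-wx) * ha - (G + 2 * x) * hwx⟩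
  have hG2 : (p : R) ^ 2 ∣ G ^ 2 - (2 * x - p * wx) ^ 2 := by
    have e : G ^ 2 - (2 * x - p * wx) ^ 2 = (G - (2 * x - p * wx)) * (G + (2 * x - p * wx)) := by
      ring
    rw [e]
    rcases hGx with h | h
    · exact h.mul_right _
    · exact h.mul_left _
  have hsq : (80 : ZMod p) ^ (2 * n) * (L.φ s ^ 2) * (80 : ZMod p) ^ (2 * n) =
      (80 : ZMod p) ^ (2 * n) * L.φ G ^ 2 := by
    have h1 : ((80 : ZMod p) ^ (2 * n) * L.φ s) ^ 2 = (80 ^ n * 81 ^ n * L.φ G) ^ 2 := by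
      rw [hφs, hE]
    have h3 : ((80 : ZMod p) ^ n * 81 ^ n * L.φ G) ^ 2 = 80 ^ (2 * n) * 81 ^ (2 * n) * L.φ G ^ 2 := by
      ring
    rw [h3, h81, mul_one] at h1
    linear_combination h1
  constructor
  · intro h80
    rw [h80] at hsq
    have hsg : (p : R) ^ 2 ∣ s ^ 2 - (2 * x - p * wx) ^ 2 := by
      have hu : IsUnit (s ^ 2 + G ^ 2) := by
        apply L.unit
        rw [map_add, map_pow, map_pow]
        have : L.φ s ^ 2 = L.φ G ^ 2 := by linear_combination hsq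
        rw [this, ← two_mul]
        exact mul_ne_zero (two_ne h2) (pow_ne_zero _ hφG0)
      have h3 : (p : R) ^ 2 ∣ s ^ 2 - G ^ 2 := by
        rw [← hu.dvd_mul_left]
        have e : (s ^ 2 + G ^ 2) * (s ^ 2 - G ^ 2) = s ^ 4 - G ^ 4 := by ring
        rwa [e]
      have e : s ^ 2 - (2 * x - p * wx) ^ 2 = (s ^ 2 - G ^ 2) + (G ^ 2 - (2 * x - p * wx) ^ 2) := by
        ring
      rw [e]
      exact dvd_add h3 hG2
    apply sq_split L h2 s _ _ hsg
    rw [map_sub, map_mul, map_mul, map_ofNat, L.phi_p, zero_mul, sub_zero]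
    refine mul_ne_zero (two_ne h2) ?_
    rcases hex with rfl | rfl
    · exact hx
    · rw [map_neg] at hx; exact neg_ne_zero.1 hx
  · intro h80
    rw [h80] at hsq
    have hsg : (p : R) ^ 2 ∣ s ^ 2 - (2 * y - p * wy) ^ 2 := by
      have hu : IsUnit (s ^ 2 - G ^ 2) := by
        apply L.unit
        rw [map_sub, map_pow, map_pow]
        have : L.φ s ^ 2 = -L.φ G ^ 2 := by linear_combination hsq
        rw [this, show -L.φ G ^ 2 - L.φ G ^ 2 = -(2 * L.φ G ^ 2) by ring]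
        exact neg_ne_zero.2 (mul_ne_zero (two_ne h2) (pow_ne_zero _ hφG0))
      have h3 : (p : R) ^ 2 ∣ s ^ 2 + G ^ 2 := by
        rw [← hu.dvd_mul_left]
        have e : (s ^ 2 - G ^ 2) * (s ^ 2 + G ^ 2) = s ^ 4 - G ^ 4 := by ring
        rwa [e]
      have e : s ^ 2 - (2 * y - p * wy) ^ 2 = (s ^ 2 + G ^ 2) - (G ^ 2 - (2 * x - p * wx) ^ 2)
          - (p : R) ^ 2 * (wx ^ 2 + wy ^ 2) := by
        linear_combination (-4 : R) * hxy + 2 * (p : R) * hwx + 2 * (p : R) * hwy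
      rw [e]
      exact dvd_sub (dvd_sub h3 hG2) (dvd_mul_right _ _)
    apply sq_split L h2 s _ _ hsg
    rw [map_sub, map_mul, map_mul, map_ofNat, L.phi_p, zero_mul, sub_zero]
    exact mul_ne_zero (two_ne h2) hy

end arith

end Sc80

/-! The bridge to rational numbers and the final statements for a general sequence. -/


namespace Sc80
open Finset

/-- congruence of p-integral rationals -/
def CC (p m : ℕ) (q r : ℚ) : Prop := ¬ p ∣ q.den ∧ ¬ p ∣ r.den ∧ ¬ p ∣ ((q - r) / p ^ m).den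

theorem cong_of {p : ℕ} [Fact p.Prime] (m : ℕ) (q r : ℚ) (A B : ℤ_[p])
    (hA : cz A = (q : ℚ_[p])) (hB : cz B = (r : ℚ_[p]))
    (h : (p : ℤ_[p]) ^ m ∣ A - B) : CC p m q r := by
  obtain ⟨C, hC⟩ := h
  refine ⟨pint_of A hA, pint_of B hB, pint_of C ?_⟩
  have hp0 : (p : ℚ_[p]) ≠ 0 := by exact_mod_cast (Fact.out : p.Prime).ne_zero
  have h1 := congrArg cz hC
  simp only [map_sub, map_mul, map_pow, map_natCast] at h1
  push_cast
  rw [eq_div_iff (pow_ne_zero _ hp0), ← hA, ← hB, h1, mul_comm]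

theorem zmod_ne {p : ℕ} [Fact p.Prime] (z : ℤ) (hz : ¬ (p : ℤ) ∣ z) : (z : ZMod p) ≠ 0 := by
  rw [Ne, CharP.intCast_eq_zero_iff (ZMod p) p z]
  exact hz

theorem exists_w {p : ℕ} [Fact p.Prime] (h2 : p ≠ 2) (z : ℤ) (hz : ¬ (p : ℤ) ∣ z) :
    ∃ w : ℤ_[p], 2 * (z : ℤ_[p]) * w = 1 ∧
      cz (2 * (z : ℤ_[p]) - (p : ℤ_[p]) * w) = ((2 * (z : ℚ) - p / (2 * z) : ℚ) : ℚ_[p]) ∧
      cz (-(2 * (z : ℤ_[p]) - (p : ℤ_[p]) * w)) = ((2 * (-(z : ℚ)) - p / (2 * (-z)) : ℚ) : ℚ_[p]) := by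
  have hu : IsUnit (2 * (z : ℤ_[p])) := by
    apply padic_unit
    rw [map_mul, map_ofNat, map_intCast]
    exact mul_ne_zero (two_ne h2) (zmod_ne z hz)
  obtain ⟨w, hw⟩ := hu.exists_right_inv
  have h1 := congrArg cz hw
  simp only [map_mul, map_ofNat, map_one, map_intCast] at h1
  have hz0 : (2 * (z : ℚ_[p])) ≠ 0 := left_ne_zero_of_mul_eq_one h1
  have hw' : cz w = (2 * (z : ℚ_[p]))⁻¹ := eq_inv_of_mul_eq_one_right h1
  have key : cz (2 * (z : ℤ_[p]) - (p : ℤ_[p]) * w) = ((2 * (z : ℚ) - p / (2 * z) : ℚ) : ℚ_[p]) := by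
    simp only [map_sub, map_mul, map_ofNat, map_intCast, map_natCast, hw']
    push_cast
    rw [div_eq_mul_inv]
  refine ⟨w, hw, key, ?_⟩
  rw [map_neg, key, ← Rat.cast_neg]
  congr 1
  ring

theorem fin_one {p n : ℕ} [Fact p.Prime] (hn : p = 4 * n + 1) (hn0 : 0 < n) (h5 : p ≠ 5)
    (t : ℕ → ℚ) (ht0 : t 0 = 1)
    (ht : ∀ k : ℕ, 8 * ((k : ℚ) + 1) ^ 2 * t (k + 1) = (4 * k + 1) * (2 * k + 1) * t k)
    (h81 : ((81 : ZMod p)) ^ (2 * n) = 1)
    (x y : ℤ) (hxy : (p : ℤ) = x ^ 2 + y ^ 2) (hx : Odd x) (hxp : ¬ (p : ℤ) ∣ x)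
    (hyp : ¬ (p : ℤ) ∣ y) :
    ((80 : ZMod p) ^ (2 * n) = 1 →
      CC p 2 (∑ k ∈ range p, t k / (-80) ^ k) (2 * (x : ℚ) - p / (2 * x)) ∨
      CC p 2 (∑ k ∈ range p, t k / (-80) ^ k) (2 * (-(x : ℚ)) - p / (2 * (-x)))) ∧
    ((80 : ZMod p) ^ (2 * n) = -1 →
      CC p 2 (∑ k ∈ range p, t k / (-80) ^ k) (2 * (y : ℚ) - p / (2 * y)) ∨
      CC p 2 (∑ k ∈ range p, t k / (-80) ^ k) (2 * (-(y : ℚ)) - p / (2 * (-y)))) := by
  have h2 : p ≠ 2 := by omega
  have hpN : p = 2 * (2 * n) + 1 := by omega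
  obtain ⟨u, huc, hu0, hu⟩ := exists_u hpN t ht0 ht
  obtain ⟨s, hsq, hs⟩ := exists_s hpN t h5 huc 2 (dvd_tail2 hpN hu hn)
  obtain ⟨wx, hwx, hx1, hx2⟩ := exists_w h2 x hxp
  obtain ⟨wy, hwy, hy1, hy2⟩ := exists_w h2 y hyp
  let L : Dat p (2 * n) ℤ_[p] :=
    { padicLoc p with
      hp := hpN
      hp5 := h5
      u := u
      hu0 := hu0
      hrec := fun k hk => hu k (by omega) }
  obtain ⟨e, he, hG⟩ := Pool.Agent.Work.MP_f41de7_nt.modC_padic n hn hn0 u hu0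
    (fun j hj => hu j (by omega)) x y hx hxy.symm
  have hG1 : hom u (2 * n) 1 1 = ∑ k ∈ range (2 * n + 1), u k := by
    simp [hom]
  have h80 : (80 : ZMod p) ≠ 0 := by
    have h : ¬ p ∣ 80 := by
      intro h
      have hpp : p.Prime := Fact.out
      have h1 : p ∣ 2 ^ 4 * 5 := by norm_num; exact h
      rcases hpp.dvd_mul.1 h1 with h2 | h2
      · have := (Nat.prime_dvd_prime_iff_eq hpp Nat.prime_two).1 (hpp.dvd_of_dvd_pow h2)
        omega
      · exact h5 ((Nat.prime_dvd_prime_iff_eq hpp Nat.prime_five).1 h2)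
    have h3 : ((80 : ℕ) : ZMod p) ≠ 0 := by rwa [Ne, ZMod.natCast_eq_zero_iff]
    exact_mod_cast h3
  have heR : (e : ℤ_[p]) = (x : ℤ_[p]) ∨ (e : ℤ_[p]) = -(x : ℤ_[p]) := by
    rcases he with rfl | rfl
    · left; rfl
    · right; push_cast; rfl
  have hep : ¬ (p : ℤ) ∣ e := by
    rcases he with rfl | rfl
    · exact hxp
    · rwa [dvd_neg]
  have hxyR : (x : ℤ_[p]) ^ 2 + (y : ℤ_[p]) ^ 2 = (p : ℤ_[p]) := by
    have := congrArg (Int.cast : ℤ → ℤ_[p]) hxy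
    push_cast at this
    exact this.symm
  obtain ⟨r1, r2⟩ := final_step (padicLoc p) n h2 s (hom u (2 * n) (-1) 80) (hom u (2 * n) 1 1)
    (e : ℤ_[p]) (x : ℤ_[p]) (y : ℤ_[p]) wx wy h80 h81
    (by rw [map_intCast]; exact zmod_ne e hep) (by rw [map_intCast]; exact zmod_ne y hyp)
    hxyR heR hwx hwy (L.main_pow4 hn) (L.main_modp hn) hs (by rw [hG1]; exact hG)
  constructor
  · intro h
    rcases r1 h with h1 | h1
    · left
      exact cong_of 2 _ _ s _ hsq hx1 h1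
    · right
      exact cong_of 2 _ _ s _ hsq hx2 (by rw [sub_neg_eq_add]; exact h1)
  · intro h
    rcases r2 h with h1 | h1
    · left
      exact cong_of 2 _ _ s _ hsq hy1 h1
    · right
      exact cong_of 2 _ _ s _ hsq hy2 (by rw [sub_neg_eq_add]; exact h1)

theorem fin_three {p n : ℕ} [Fact p.Prime] (hn : p = 4 * n + 3)
    (t : ℕ → ℚ) (ht0 : t 0 = 1)
    (ht : ∀ k : ℕ, 8 * ((k : ℚ) + 1) ^ 2 * t (k + 1) = (4 * k + 1) * (2 * k + 1) * t k) :
    CC p 1 (∑ k ∈ range p, t k / (-80) ^ k) 0 := by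
  have h2 : p ≠ 2 := by omega
  have h5 : p ≠ 5 := by omega
  have hpN : p = 2 * (2 * n + 1) + 1 := by omega
  obtain ⟨u, huc, hu0, hu⟩ := exists_u hpN t ht0 ht
  obtain ⟨s, hsq, hs⟩ := exists_s hpN t h5 huc 1
    (fun k h h' => by rw [pow_one]; exact dvd_tail hpN hu k h h')
  let L : Dat p (2 * n + 1) ℤ_[p] :=
    { padicLoc p with
      hp := hpN
      hp5 := h5
      u := u
      hu0 := hu0
      hrec := fun k hk => hu k (by omega) }
  have h0 : (p : ℤ_[p]) ∣ hom u (2 * n + 1) (-1) 80 := padic_ker p _ (L.three_mod hn)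
  have h80 : IsUnit ((80 : ℤ_[p]) ^ (2 * n + 1)) := by
    apply IsUnit.pow
    have h : ¬ p ∣ 80 := by
      intro h
      have hpp : p.Prime := Fact.out
      have h1 : p ∣ 2 ^ 4 * 5 := by norm_num; exact h
      rcases hpp.dvd_mul.1 h1 with h2 | h2
      · have := (Nat.prime_dvd_prime_iff_eq hpp Nat.prime_two).1 (hpp.dvd_of_dvd_pow h2)
        omega
      · exact h5 ((Nat.prime_dvd_prime_iff_eq hpp Nat.prime_five).1 h2)
    have := (padicLoc p).unit_nat' h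
    exact_mod_cast this
  rw [pow_one] at hs
  have h1 : (p : ℤ_[p]) ∣ 80 ^ (2 * n + 1) * s := by
    have := dvd_add hs h0
    rwa [sub_add_cancel] at this
  rw [h80.dvd_mul_left] at h1
  exact cong_of 1 _ _ s 0 hsq (by simp) (by rw [pow_one, sub_zero]; exact h1)

end Sc80
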