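import Pool.Agent.Work.MP_f41de7_nt.PoleC
import Pool.Agent.Work.MP_f41de7_nt.Eval

set_option linter.unusedSectionVars false
set_option linter.unusedSimpArgs false
set_option linter.unnecessarySimpa false

/-! The pole analysis: extraction of the polynomial `q1`. -/

namespace Sc80
open Polynomial

variable {p N : ℕ} [Fact p.Prime] {R : Type*} [CommRing R] [IsDomain R] {L : Dat p N R}
  {n : ℕ} (hn : p = 4 * n + 1)

theorem deriv_pow_p (f : PowerSeries (ZMod p)) : PowerSeries.derivative (ZMod p) (f ^ p) = 0 := by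
  rw [PowerSeries.derivative_pow]
  have : ((p : ℕ) : PowerSeries (ZMod p)) = 0 := CharP.cast_eq_zero _ _
  rw [this, zero_mul, zero_mul]

theorem cop_dd_X (L : Dat p N R) : IsCoprime (dd (X : (ZMod p)[X])) X := by
  refine cop_of_eq 1 (-(5 * X - 22)) (c := 5 ^ 2) (pow_ne_zero _ L.five_ne) ?_
  simp only [dd, map_pow, map_ofNat]
  ring

theorem dd_squarefree (L : Dat p N R) : Squarefree (dd (X : (ZMod p)[X])) := by
  apply Separable.squarefree
  rw [separable_def]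
  have hd : derivative (dd (X : (ZMod p)[X])) = 10 * X - 22 := by
    have hn : ∀ k : ℕ, derivative ((k : ℕ) : (ZMod p)[X]) = 0 := fun k => derivative_natCast
    have h5 : derivative (5 : (ZMod p)[X]) = 0 := by simpa using hn 5
    have h22 : derivative (22 : (ZMod p)[X]) = 0 := by simpa using hn 22
    have h25 : derivative (25 : (ZMod p)[X]) = 0 := by simpa using hn 25
    simp only [dd, derivative_add, derivative_sub, derivative_mul, derivative_pow, derivative_X, h5, h22, h25]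
    simp only [Nat.cast_ofNat, map_ofNat]
    norm_num
    ring
  rw [hd]
  refine cop_of_eq (20) (-(10 * X - 22)) (c := 2 ^ 4) (L.pow2_ne 4) ?_
  simp only [dd, map_pow, map_ofNat]
  ring

theorem natDegree_dd_eq (L : Dat p N R) : (dd (X : (ZMod p)[X])).natDegree = 2 := by
  apply le_antisymm natDegree_dd
  apply le_natDegree_of_ne_zero
  have h : dd (X : (ZMod p)[X]) = C 5 * X ^ 2 - C 22 * X + C 25 := by
    simp only [dd, map_ofNat]
  rw [h]
  simp only [coeff_add, coeff_sub, coeff_C_mul, coeff_X_pow, coeff_X, coeff_C]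
  norm_num
  exact L.five_ne

namespace PD
variable (Q : PD L n)

include hn in
/-- abstract extraction -/
theorem extract {σ : PowerSeries (ZMod p)} (hD : PowerSeries.derivative (ZMod p) σ = 0)
    (hσ : aeval (mc 1) Q.PS = aeval (mc 1) (dd X ^ n * L.Gh n) * σ) :
    ∃ q1 : (ZMod p)[X], q1.natDegree ≤ 5 ∧ σ = mc 1 ^ p * aeval (mc 1) q1 ^ p := by
  have hp := (Fact.out : p.Prime).two_le
  have hp0 : p ≠ 0 := by omega
  have hd0 : dd (mc (1 : ZMod p)) ≠ 0 := by
    intro h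
    have := congrArg PowerSeries.constantCoeff h
    rw [map_dd, cc_mc, map_zero] at this
    exact L.dd_ne (Or.inl rfl) this
  set w := dd (mc (1 : ZMod p)) ^ p * σ with hw
  have hDw : PowerSeries.derivative (ZMod p) w = 0 := by
    rw [hw, Derivation.leibniz, deriv_pow_p, hD]; simp
  set P1 := dd X ^ (p - n) * Q.PS with hP1
  have hP1w : aeval (mc 1) P1 = aeval (mc 1) (L.Gh n) * w := by
    have : dd (mc (1 : ZMod p)) ^ p = dd (mc 1) ^ (p - n) * dd (mc 1) ^ n := by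
      rw [← pow_add]; congr 1; omega
    rw [hP1, map_mul, hσ, map_pow, map_dd, aeval_X, map_mul, map_pow, map_dd, aeval_X, hw, this]
    ring
  have hder : derivative P1 * L.Gh n = derivative (L.Gh n) * P1 := by
    apply iota_inj (1 : ZMod p)
    have h1 := congrArg (PowerSeries.derivative (ZMod p)) hP1w
    rw [D_iota, Derivation.leibniz, hDw, smul_zero, zero_add, smul_eq_mul, D_iota] at h1
    have e1 : aeval (mc (1 : ZMod p)) (derivative P1 * L.Gh n) =
      aeval (mc 1) (derivative P1) * aeval (mc 1) (L.Gh n) := map_mul _ _ _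
    have e2 : aeval (mc (1 : ZMod p)) (derivative (L.Gh n) * P1) =
      aeval (mc 1) (derivative (L.Gh n)) * aeval (mc 1) P1 := map_mul _ _ _
    rw [e1, e2, h1, hP1w]
    ring
  have hsep : IsCoprime (L.Gh n) (derivative (L.Gh n)) := L.Gh_separable hn
  obtain ⟨Q1, hQ1⟩ : L.Gh n ∣ P1 := by
    apply hsep.dvd_of_dvd_mul_left
    rw [← hder]; exact dvd_mul_left _ _
  have hG0 := L.Gh_ne_zero hn
  have hQ1' : derivative Q1 = 0 := by
    rw [hQ1, derivative_mul] at hder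
    have : L.Gh n * L.Gh n * derivative Q1 = 0 := by linear_combination hder
    exact (mul_eq_zero.1 this).resolve_left (mul_ne_zero hG0 hG0)
  obtain ⟨q, hq⟩ : ∃ q : (ZMod p)[X], Q1 = q ^ p := by
    refine ⟨contract p Q1, ?_⟩
    rw [← ZMod.expand_card, expand_contract p hQ1' hp0]
  have hwq : w = aeval (mc 1) q ^ p := by
    have hG0' : aeval (mc (1 : ZMod p)) (L.Gh n) ≠ 0 := by
      intro h
      apply hG0
      apply iota_inj (1 : ZMod p)
      rw [h, map_zero]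
    apply mul_left_cancel₀ hG0'
    rw [← hP1w, hQ1, hq, map_mul, map_pow]
  have hXq : X ∣ q := by
    have h1 : X ∣ L.Gh n * q ^ p := by
      rw [← hq, ← hQ1, hP1]; exact (Q.X_dvd_PS hn).mul_left _
    have h2 : X ∣ q ^ p := (L.cop_Gh_X hn).symm.dvd_of_dvd_mul_left h1
    exact prime_X.dvd_of_dvd_pow h2
  have hdq : dd X ∣ q := by
    have h1 : dd X ∣ L.Gh n * q ^ p := by
      rw [← hq, ← hQ1, hP1]; exact (dvd_pow_self _ (by omega)).mul_right _
    have h2 : dd X ∣ q ^ p := (L.cop_Gh_dd hn).symm.dvd_of_dvd_mul_left h1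
    exact ((dd_squarefree L).dvd_pow_iff_dvd hp0).1 h2
  obtain ⟨q1, hq1⟩ : dd X * X ∣ q := (cop_dd_X L).mul_dvd hdq hXq
  refine ⟨q1, ?_, ?_⟩
  · by_cases h0 : q1 = 0
    · rw [h0, natDegree_zero]; omega
    · have hdd0 : dd (X : (ZMod p)[X]) ≠ 0 := fun h => by
        have := natDegree_dd_eq L
        rw [h, natDegree_zero] at this
        omega
      have hq0 : q ≠ 0 := by
        rw [hq1]; exact mul_ne_zero (mul_ne_zero hdd0 X_ne_zero) h0
      have e1 : q.natDegree = 2 + 1 + q1.natDegree := by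
        rw [hq1, natDegree_mul (mul_ne_zero hdd0 X_ne_zero) h0, natDegree_mul hdd0 X_ne_zero,
          natDegree_dd_eq L, natDegree_X]
      have e2 : P1.natDegree = 6 * n + p * q.natDegree := by
        rw [hQ1, hq, natDegree_mul hG0 (pow_ne_zero _ hq0), L.natDegree_Gh hn, natDegree_pow]
      have e3 : P1.natDegree ≤ (p - n) * 2 + (9 * p - 3) :=
        nd_mul (nd_pow natDegree_dd _) (Q.natDegree_PS hn)
      by_contra h6
      have h7 : p * 9 ≤ p * q.natDegree := Nat.mul_le_mul_left _ (by omega)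
      omega
  · have h1 : dd (mc (1 : ZMod p)) ^ p * σ = dd (mc 1) ^ p * (mc 1 ^ p * aeval (mc 1) q1 ^ p) := by
      rw [← hw, hwq, hq1, map_mul, map_mul, map_dd, aeval_X]
      ring
    exact mul_left_cancel₀ (pow_ne_zero _ hd0) h1

end PD

end Sc80

/-! Conclusion of the pole analysis. -/

namespace Sc80
open Polynomial

theorem cc_iota {k : Type*} [CommRing k] (c : k) (f : k[X]) :
    PowerSeries.constantCoeff (aeval (mc c) f) = eval c f := by
  rw [iota_eq, ← PowerSeries.coeff_zero_eq_constantCoeff_apply, Polynomial.coeff_coe,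
    coeff_zero_eq_eval_zero, eval_comp]
  simp

theorem span_div {R : Type*} [CommRing R] [IsDomain R] {p : ℕ} [Fact p.Prime] (L : Loc p R) {c : R} {k : ℕ}
    {f g : R[X]} (hf : f = C (p : R) * g) (h : f ∈ Ideal.span {C ((p : R) ^ 2), (X - C c) ^ k}) :
    (X - C (L.φ c)) ^ k ∣ g.map L.φ := by
  have hp0 : (C (p : R)) ≠ 0 := fun h => L.p0 (C_eq_zero.1 h)
  rw [Ideal.mem_span_pair] at h
  obtain ⟨a, b, hab⟩ := h
  have h1 := congrArg (fun t => t.map L.φ) hab
  simp only [hf, Polynomial.map_add, Polynomial.map_mul, map_C, map_pow, L.phi_p, Polynomial.map_pow,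
    Polynomial.map_sub, map_X, C_0, zero_pow two_ne_zero, mul_zero, zero_mul, zero_add] at h1
  have h2 := (mul_eq_zero.1 h1).resolve_right (pow_ne_zero _ (X_sub_C_ne_zero _))
  obtain ⟨b', hb'⟩ := L.map_eq_zero h2
  have h3 : g = a * C (p : R) + b' * (X - C c) ^ k := by
    apply mul_left_cancel₀ hp0
    rw [← hf, ← hab, hb', C_pow]
    ring
  rw [h3]
  simp only [Polynomial.map_add, Polynomial.map_mul, map_C, L.phi_p, Polynomial.map_pow,
    Polynomial.map_sub, map_X, C_0, mul_zero, zero_add]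
  exact dvd_mul_left _ _

variable {p N : ℕ} [Fact p.Prime] {R : Type*} [CommRing R] [IsDomain R] {L : Dat p N R}
  {n : ℕ} (hn : p = 4 * n + 1)

/-- the form `Φ` -/
def PhiF {S : Type*} [CommRing S] (N : ℕ) (A B G3 D E : S) : S :=
  (3 * A - 5 * B) ^ 4 * (A ^ 2 + 2 * A * B + 5 * B ^ 2) * (D ^ (4 * N + 1) * G3 ^ 4) -
  16 * A ^ 4 * (5 * A ^ 2 - 22 * A * B + 25 * B ^ 2) * ((D - E) ^ (4 * N + 1) * B ^ 4)

theorem map_PhiF {S T F : Type*} [CommRing S] [CommRing T] [FunLike F S T] [RingHomClass F S T] (f : F) (N : ℕ)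
    (A B G3 D E : S) : f (PhiF N A B G3 D E) = PhiF N (f A) (f B) (f G3) (f D) (f E) := by
  simp only [PhiF, map_sub, map_add, map_mul, map_pow, map_ofNat]

/-- the polynomial `Φ` -/
noncomputable def Phi (L : Dat p N R) : R[X] :=
  PhiF N (X ^ (4 * N + 1) * L.g2) L.g1 L.g3 (Zd X) (Zn X)

/-- `Φ` at the centre `5` -/
theorem Phi_five (hn : p = 4 * n + 1) (L : Dat p N R) :
    Phi L ∈ Ideal.span {C ((p : R) ^ 2), (X - C (5 : R)) ^ (5 * p)} := by
  have hc5 : (5 : R) = 1 ∨ (5 : R) = 5 := Or.inr rfl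
  obtain ⟨z, w, hz, hw, hz0, hw0⟩ := exists_zw hc5 L.unit2 L.unit5
  apply poly_mem_span
  have h1 := center_series hc5 L.unit2 L.unit5 L.hu0 L.hrec (L.hq2 hn) L.unitP hz hw hz0 hw0
  have h2 := pfaff_poly L.unit2 L.hu0 L.hrec (L.hq2 hn) L.unitP
  set I := Ideal.span {PowerSeries.C ((p : R) ^ 2), (PowerSeries.X : PowerSeries R) ^ (5 * p)} with hI
  have hI1 : PowerSeries.C ((p : R) ^ 2) ∈ I := Ideal.subset_span (by simp)
  have hI2 : (PowerSeries.X : PowerSeries R) ^ (5 * p) ∈ I := Ideal.subset_span (by simp)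
  -- `g1, g2, g3` at the centre
  have a1 : aeval (mc (5 : R)) L.g1 = Zd (mc 5) ^ N * aeval z (G L.u N) := by
    rw [Dat.g1, map_hom, map_Zn, map_Zd, aeval_X, hom_eval _ N _ _ _ hz, aeval_G]
    simp only [aeval_C]
  have a2 : aeval (mc (5 : R)) (X ^ (4 * N + 1) * L.g2) = Zd (mc 5) ^ N * (mc 5 * aeval w (G L.u N)) := by
    rw [Dat.g2, map_mul, map_pow, map_hom, map_Yn, map_Yd, aeval_X, hom_eval _ N _ _ _ hw, aeval_G, Zd_eq]
    simp only [aeval_C]
    have : mc (5 : R) ^ (4 * N + 1) = mc 5 * (mc 5 ^ 4) ^ N := by rw [← pow_mul]; ring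
    rw [this, mul_pow]; ring
  have a3 : aeval (mc (5 : R)) L.g3 = Zd (mc 5) ^ N * aeval z (Gs L.u N) := by
    rw [Dat.g3, Gs, map_hom, map_hom]
    simp only [map_neg, map_sub, map_Zn, map_Zd, aeval_X, aeval_C, map_one]
    rw [← hom_scale]
    congr 1
    · rw [← hz]; ring
    · rw [← hz]; ring
  have a4 : Zd (mc (5 : R)) - Zn (mc 5) = Zd (mc 5) * (1 - z) := by rw [← hz]; ring
  -- the Pfaff part
  have hz5 : ∃ r, z = (PowerSeries.X : PowerSeries R) ^ 5 * r := by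
    obtain ⟨v, hv⟩ := (unit_Zd_mc hc5 L.unit2 L.unit5).exists_left_inv
    refine ⟨-(mc 5 - 1) * v, ?_⟩
    have hX : (PowerSeries.X : PowerSeries R) = mc 5 - 5 := by rw [mc, map_ofNat]; ring
    have : z = Zn (mc 5) * v := by rw [← hz, mul_assoc, mul_comm (Zd _), hv, mul_one]
    rw [this, hX, Zn]; ring
  have b1 : (1 - z) ^ (4 * N + 1) * aeval z (G L.u N) ^ 4 - aeval z (Gs L.u N) ^ 4 ∈ I := by
    rw [Ideal.mem_span_pair] at h2
    obtain ⟨a, b, hab⟩ := h2
    have h3 := congrArg (aeval z) hab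
    simp only [map_add, map_mul, aeval_C, map_pow, aeval_X, map_sub, map_one] at h3
    have hCC : (algebraMap R (PowerSeries R)) (p : R) ^ 2 = PowerSeries.C ((p : R) ^ 2) := by
      rw [← map_pow]; rfl
    rw [hCC] at h3
    rw [← h3]
    obtain ⟨r, hr⟩ := hz5
    apply I.add_mem
    · exact I.mul_mem_left _ hI1
    · rw [hr, mul_pow, ← pow_mul]
      exact I.mul_mem_left _ (I.mul_mem_right _ hI2)
  -- the difference
  have b2 : (mc 5 * aeval w (G L.u N) - 5 * aeval z (G L.u N)) ^ 5 ∈ I := by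
    have hC5 : (PowerSeries.C (5 : R)) = 5 := map_ofNat _ 5
    rw [hC5] at h1
    rw [Ideal.mem_span_pair] at h1
    obtain ⟨a, b, hab⟩ := h1
    rw [← hab]
    have e : (a * PowerSeries.C ((p : R) ^ 2) + b * (PowerSeries.X : PowerSeries R) ^ p) ^ 5 =
      (a * (a ^ 4 * PowerSeries.C ((p : R) ^ 2) ^ 4 +
        5 * a ^ 3 * PowerSeries.C ((p : R) ^ 2) ^ 3 * (b * (PowerSeries.X : PowerSeries R) ^ p) +
        10 * a ^ 2 * PowerSeries.C ((p : R) ^ 2) ^ 2 * (b * (PowerSeries.X : PowerSeries R) ^ p) ^ 2 +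
        10 * a * PowerSeries.C ((p : R) ^ 2) * (b * (PowerSeries.X : PowerSeries R) ^ p) ^ 3 +
        5 * (b * (PowerSeries.X : PowerSeries R) ^ p) ^ 4)) * PowerSeries.C ((p : R) ^ 2) +
      b ^ 5 * (PowerSeries.X : PowerSeries R) ^ (5 * p) := by ring
    rw [e]
    exact I.add_mem (I.mul_mem_left _ hI1) (I.mul_mem_left _ hI2)
  have e : aeval (mc (5 : R)) (Phi L) =
      (-(16 * (Zd (mc 5) ^ N * (mc 5 * aeval w (G L.u N))) ^ 4 *
        (5 * (Zd (mc 5) ^ N * (mc 5 * aeval w (G L.u N))) ^ 2 -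
          22 * (Zd (mc 5) ^ N * (mc 5 * aeval w (G L.u N))) * (Zd (mc 5) ^ N * aeval z (G L.u N)) +
          25 * (Zd (mc 5) ^ N * aeval z (G L.u N)) ^ 2) * Zd (mc 5) ^ (8 * N + 1))) *
        ((1 - z) ^ (4 * N + 1) * aeval z (G L.u N) ^ 4 - aeval z (Gs L.u N) ^ 4) +
      (Zd (mc 5) ^ (5 * N) * (Zd (mc 5) ^ N * (mc 5 * aeval w (G L.u N)) - Zd (mc 5) ^ N * aeval z (G L.u N)) *
        (Zd (mc 5) ^ (4 * N + 1) * (Zd (mc 5) ^ N * aeval z (Gs L.u N)) ^ 4)) *
        (mc 5 * aeval w (G L.u N) - 5 * aeval z (G L.u N)) ^ 5 := by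
    rw [Phi, map_PhiF, a1, a2, a3, map_Zd, map_Zn, aeval_X, PhiF, a4, mul_pow (Zd (mc (5 : R))) (1 - z)]
    ring
  rw [e]
  exact I.add_mem (I.mul_mem_left _ b1) (I.mul_mem_left _ b2)

end Sc80

/-! Conclusion of the pole analysis. -/

namespace Sc80
open Polynomial

variable {p N : ℕ} [Fact p.Prime] {R : Type*} [CommRing R] [IsDomain R] {L : Dat p N R}
  {n : ℕ} (hn : p = 4 * n + 1)

/-- `Φ` at the centre `1` -/
theorem Ctr.Phi_one (E : Ctr L) {ν : PowerSeries R} (hν : 1 - E.zT = E.V + (p : PowerSeries R) * ν) :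
    aeval (mc (1 : R)) (Phi L) = (p : PowerSeries R) * (aeval (mc 1) L.g1 ^ 6 * Zd E.T *
      Zd (mc 1) ^ (4 * N + 1) * aeval (mc 1) L.g3 ^ 4 * ν) := by
  have hA : aeval (mc (1 : R)) (X ^ (4 * N + 1) * L.g2) = aeval (mc 1) L.g1 * E.T := by
    rw [E.aeval_g2, E.aeval_g1, ← E.y1T]; ring
  have hD : Zd (mc (1 : R)) - Zn (mc 1) = Zd (mc 1) * (1 - E.z) := by rw [← E.hz]; ring
  have hVm := E.V_mul
  have hT : X1 E.T ^ 4 * X2 E.T = Zd E.T * (E.V + (p : PowerSeries R) * ν) := by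
    rw [← hν, ← Zd_sub_Zn, ← E.hzT']; ring
  rw [Phi, map_PhiF, hA, map_Zd, map_Zn, aeval_X, PhiF, hD, mul_pow (Zd _) (1 - E.z)]
  generalize aeval (mc (1 : R)) L.g1 = B at *
  generalize aeval (mc (1 : R)) L.g3 = G3 at *
  have e1 : (3 * (B * E.T) - 5 * B) ^ 4 * ((B * E.T) ^ 2 + 2 * (B * E.T) * B + 5 * B ^ 2) =
      B ^ 6 * (X1 E.T ^ 4 * X2 E.T) := by simp only [X1, X2]; ring
  have e2 : 16 * (B * E.T) ^ 4 * (5 * (B * E.T) ^ 2 - 22 * (B * E.T) * B + 25 * B ^ 2) =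
      B ^ 6 * Zd E.T := by simp only [Zd, dd]; ring
  rw [e1, e2, hT]
  linear_combination (B ^ 6 * Zd E.T * Zd (mc (1 : R)) ^ (4 * N + 1)) * hVm

theorem psi_cc (L : Dat p N R) (f : PowerSeries R) :
    PowerSeries.constantCoeff (L.toLoc.ψ f) = L.φ (PowerSeries.constantCoeff f) := by
  rw [← PowerSeries.coeff_zero_eq_constantCoeff_apply, ← PowerSeries.coeff_zero_eq_constantCoeff_apply,
    Loc.ψ, PowerSeries.coeff_map]

include hn in
theorem pole_conclusion (L : Dat p N R) : ∃ Q : PD L n, Q.PS = 0 ∧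
    ∃ F : R[X], Phi L = C ((p : R) ^ 2) * F := by
  have hN := L.N_eq hn
  have hp := (Fact.out : p.Prime).two_le
  obtain ⟨Q⟩ := PD.nonempty L hn
  obtain ⟨E⟩ := Ctr.nonempty L
  obtain ⟨ν, τ, κ, hν, hDν, hν0, hτ, hκ, hmain⟩ := E.nu_data hn Q
  refine ⟨Q, ?_⟩
  -- nonvanishing
  have nz : ∀ f : PowerSeries (ZMod p), PowerSeries.constantCoeff f ≠ 0 → f ≠ 0 := by
    intro f hf h
    rw [h, map_zero] at hf
    exact hf rfl
  have hm0 : mc (1 : ZMod p) ≠ 0 := nz _ (by rw [cc_mc]; exact one_ne_zero)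
  have hd0 : dd (mc (1 : ZMod p)) ≠ 0 := nz _ (by rw [map_dd, cc_mc]; exact L.dd_ne (Or.inl rfl))
  have hX10 : X1 (mc (1 : ZMod p)) ≠ 0 := nz _ (by
    rw [map_X1, cc_mc, X1, show (3 : ZMod p) * 1 - 5 = -2 from by norm_num]
    exact neg_ne_zero.2 L.two_ne)
  have h16 : (16 : ZMod p) ≠ 0 := by
    have : (16 : ZMod p) = 2 ^ 4 := by norm_num
    rw [this]; exact L.pow2_ne 4
  have hZd1 : ∀ {c : ZMod p}, (c = 1 ∨ c = 5) → Zd c ≠ 0 := fun hc =>
    mul_ne_zero (mul_ne_zero h16 (pow_ne_zero _ (L.c_ne hc))) (L.dd_ne hc)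
  -- relations for τ, κ
  have hg1m : aeval (mc (1 : ZMod p)) (L.g1.map L.φ) =
      mc 1 ^ (4 * n) * aeval (mc 1) (dd X ^ n * L.Gh n) := by
    rw [L.map_g1 hn, L.Zd_pow_n hn, map_mul, map_mul, map_mul, map_pow, aeval_X]
    ring
  have hτ' : aeval (mc 1) (dd X ^ n * L.Gh n) * L.toLoc.ψ τ = mc 1 * aeval (mc 1) (Q.a2.map L.φ) := by
    have h1 := congrArg L.toLoc.ψ hτ
    rw [map_mul, map_mul, Ctr.psi_aeval, Ctr.psi_aeval, map_pow, L.toLoc.ψ_mc, map_one, hg1m] at h1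
    apply mul_left_cancel₀ (pow_ne_zero (4 * n) hm0)
    have h2 : (mc (1 : ZMod p)) ^ p = mc 1 ^ (4 * n) * mc 1 := by rw [← pow_succ]; congr 1
    rw [h2] at h1
    linear_combination h1
  have hκ' : L.toLoc.ψ κ * aeval (mc 1) (dd X ^ n * L.Gh n) * X1 (mc 1) ^ p * X2 (mc 1) ^ p * mc 1 ^ p =
      mc 1 * X1 (mc 1) * X2 (mc 1) ^ (p - n) * aeval (mc 1) (Q.b1.map L.φ) := by
    have h1 := congrArg L.toLoc.ψ hκ
    rw [map_mul, map_mul, Ctr.psi_aeval, Ctr.psi_aeval, map_pow, map_mul, map_pow, map_X1, map_X2,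
      L.toLoc.ψ_mc, map_one, hg1m] at h1
    rw [← h1]
    have e1 : (mc (1 : ZMod p)) ^ p = mc 1 ^ (4 * n) * mc 1 := by rw [← pow_succ]; congr 1
    have e2 : X1 (mc (1 : ZMod p)) ^ p = X1 (mc 1) ^ (4 * n) * X1 (mc 1) := by rw [← pow_succ]; congr 1
    have e3 : X2 (mc (1 : ZMod p)) ^ p = X2 (mc 1) ^ (p - n) * X2 (mc 1) ^ n := by
      rw [← pow_add]; congr 1; omega
    rw [e1, e2, e3]
    ring
  have hPS := Q.PS_Sm hn hτ' hκ'
  set σ := Sm p (mc 1) (L.toLoc.ψ τ) (L.toLoc.ψ κ) (PowerSeries.C (L.φ Q.q))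
        (aeval (mc 1) (Q.d1.map L.φ)) (aeval (mc 1) (Q.d2.map L.φ)) (aeval (mc 1) (Q.d4.map L.φ)) with hσdef
  have hDσ : PowerSeries.derivative (ZMod p) σ = 0 := by
    have h1 := congrArg (PowerSeries.derivative (ZMod p)) hmain
    rw [Derivation.leibniz, Derivation.leibniz (D := PowerSeries.derivative (ZMod p)) (L.toLoc.ψ ν),
      Derivation.leibniz (D := PowerSeries.derivative (ZMod p)) (mc 1 ^ p),
      Derivation.leibniz (D := PowerSeries.derivative (ZMod p)) (X1 (mc 1) ^ (3 * p)),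
      pow_mul, deriv_pow_p, deriv_pow_p, deriv_pow_p, deriv_pow_p, hDν] at h1
    simp only [smul_eq_mul, mul_zero, add_zero, zero_add] at h1
    exact (mul_eq_zero.1 h1.symm).resolve_left (pow_ne_zero _ (pow_ne_zero _ hX10))
  obtain ⟨q1, hdeg, hq1⟩ := Q.extract hn hDσ hPS
  have hkey : L.toLoc.ψ ν * Zd (mc 1) ^ p * dd (mc 1) ^ p = X1 (mc 1) ^ (3 * p) * aeval (mc 1) q1 ^ p := by
    apply mul_left_cancel₀ (pow_ne_zero p hm0)
    rw [hq1] at hmain
    linear_combination hmain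
  -- Φ
  have hPhi1 := E.Phi_one hν
  obtain ⟨F1, hF1⟩ : ∃ F1 : R[X], Phi L = C (p : R) * F1 := by
    apply L.toLoc.map_eq_zero
    apply iota_inj (1 : ZMod p)
    rw [← Ctr.psi_aeval, hPhi1, map_mul, L.toLoc.ψ_p, zero_mul, map_zero]
  have hF1c : aeval (mc (1 : R)) F1 = aeval (mc 1) L.g1 ^ 6 * Zd E.T *
      Zd (mc 1) ^ (4 * N + 1) * aeval (mc 1) L.g3 ^ 4 * ν := by
    have hP0 : (p : PowerSeries R) ≠ 0 := L.toLoc.ψ_natCast_ne
    apply mul_left_cancel₀ hP0
    rw [← hPhi1, hF1, map_mul, aeval_C]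
    simp
  have hF1m : F1.map L.φ * dd X ^ p = (L.g1.map L.φ) ^ 6 * Zd X ^ (4 * N + 1) * (L.g3.map L.φ) ^ 4 *
      X1 X ^ (3 * p) * q1 ^ p := by
    apply iota_inj (1 : ZMod p)
    have h1 := congrArg L.toLoc.ψ hF1c
    obtain ⟨τ2, hτ2⟩ := E.T_mod hn
    have hT : L.toLoc.ψ E.T = mc 1 ^ p := by
      rw [hτ2, map_add, map_mul, L.toLoc.ψ_p, zero_mul, add_zero, map_pow, L.toLoc.ψ_mc, map_one]
    rw [map_mul, map_mul, map_mul, map_mul, map_pow, map_pow, map_pow, Ctr.psi_aeval, Ctr.psi_aeval, Ctr.psi_aeval,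
      map_Zd, map_Zd, hT, frob_Zd, L.toLoc.ψ_mc, map_one] at h1
    rw [map_mul, map_pow, map_dd, aeval_X, h1]
    simp only [map_mul, map_pow, map_Zd, map_X1, aeval_X]
    linear_combination (aeval (mc (1 : ZMod p)) (L.g1.map L.φ) ^ 6 * Zd (mc 1) ^ (4 * N + 1) *
      aeval (mc (1 : ZMod p)) (L.g3.map L.φ) ^ 4) * hkey
  -- zero at 5
  have h5 : ((X - C (5 : ZMod p)) ^ 5) ∣ q1 := by
    have h1 := span_div L.toLoc hF1 (Phi_five hn L)
    rw [map_ofNat] at h1
    have h2 : (X - C (5 : ZMod p)) ^ (5 * p) ∣ (L.g1.map L.φ) ^ 6 * Zd X ^ (4 * N + 1) * (L.g3.map L.φ) ^ 4 *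
      X1 X ^ (3 * p) * q1 ^ p := by
      rw [← hF1m]; exact h1.mul_right _
    have h3 : (X - C (5 : ZMod p)) ^ (5 * p) ∣ q1 ^ p := by
      apply (prime_X_sub_C (5 : ZMod p)).pow_dvd_of_dvd_mul_left _ _ h2
      rw [dvd_iff_isRoot, IsRoot.def]
      have eZ : eval (5 : ZMod p) (Zd (X : (ZMod p)[X])) = Zd 5 := by
        have := map_Zd (evalRingHom (5 : ZMod p)) X
        simpa using this
      have e1 : eval (5 : ZMod p) (X1 (X : (ZMod p)[X])) = 2 * 5 := by
        have := map_X1 (evalRingHom (5 : ZMod p)) X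
        simp only [coe_evalRingHom, eval_X] at this
        rw [this, X1]; norm_num
      have e2 : eval (5 : ZMod p) (X2 (X : (ZMod p)[X])) = 2 ^ 3 * 5 := by
        have := map_X2 (evalRingHom (5 : ZMod p)) X
        simp only [coe_evalRingHom, eval_X] at this
        rw [this, X2]; norm_num
      have hGh : eval 5 (L.Gh n) ≠ 0 := L.eval_Gh_five
      rw [L.map_g1 hn, L.map_g3 hn]
      simp only [eval_mul, eval_pow, eZ, e1, e2]
      have hZ5 := hZd1 (c := 5) (Or.inr rfl)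
      have h25 : (2 : ZMod p) * 5 ≠ 0 := mul_ne_zero L.two_ne L.five_ne
      have h35 : (2 : ZMod p) ^ 3 * 5 ≠ 0 := mul_ne_zero (L.pow2_ne 3) L.five_ne
      exact mul_ne_zero (mul_ne_zero (mul_ne_zero (pow_ne_zero _ (mul_ne_zero (pow_ne_zero _ hZ5) hGh))
        (pow_ne_zero _ hZ5)) (pow_ne_zero _ (mul_ne_zero (pow_ne_zero _ (mul_ne_zero (pow_ne_zero _ h25) h35)) hGh)))
        (pow_ne_zero _ h25)
    rw [pow_mul] at h3
    exact (IsIntegrallyClosed.pow_dvd_pow_iff (by omega)).1 h3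
  -- zero at 1
  have h1 : (X - C (1 : ZMod p)) ∣ q1 := by
    rw [dvd_iff_isRoot, IsRoot.def]
    have h2 := congrArg PowerSeries.constantCoeff hkey
    rw [map_mul, map_mul, psi_cc, hν0, map_zero, zero_mul, zero_mul, map_mul, map_pow, map_pow, cc_iota] at h2
    have h3 := (mul_eq_zero.1 h2.symm).resolve_left (pow_ne_zero _ (by
      rw [map_X1, cc_mc, X1, show (3 : ZMod p) * 1 - 5 = -2 from by norm_num]
      exact neg_ne_zero.2 L.two_ne))
    exact pow_eq_zero_iff (by omega) |>.1 h3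
  have hq10 : q1 = 0 := by
    have hcop : IsCoprime (X - C (1 : ZMod p)) ((X - C (5 : ZMod p)) ^ 5) := by
      apply IsCoprime.pow_right
      apply isCoprime_X_sub_C_of_isUnit_sub
      rw [isUnit_iff_ne_zero]
      have : (1 : ZMod p) - 5 = - 2 ^ 2 := by norm_num
      rw [this, neg_ne_zero]
      exact pow_ne_zero _ L.two_ne
    apply eq_zero_of_dvd_of_natDegree_lt (hcop.mul_dvd h1 h5)
    rw [Monic.natDegree_mul (monic_X_sub_C _) ((monic_X_sub_C _).pow _), natDegree_X_sub_C,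
      (monic_X_sub_C _).natDegree_pow, natDegree_X_sub_C]
    omega
  constructor
  · apply iota_inj (1 : ZMod p)
    rw [hPS, hq1, hq10, map_zero, zero_pow (by omega), mul_zero, mul_zero]
  · rw [hq10, zero_pow (by omega), mul_zero] at hF1m
    have hddX : dd (X : (ZMod p)[X]) ≠ 0 := fun h => by
      have := natDegree_dd_eq L
      rw [h, natDegree_zero] at this
      omega
    have h2 := (mul_eq_zero.1 hF1m).resolve_right (pow_ne_zero _ hddX)
    obtain ⟨F, hF⟩ := L.toLoc.map_eq_zero h2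
    refine ⟨F, ?_⟩
    rw [hF1, hF, C_pow]
    ring

end Sc80

/-! The main congruences for `p = 4 n + 1`. -/

namespace Sc80
open Polynomial

namespace Dat
variable {p N : ℕ} [Fact p.Prime] {R : Type*} [CommRing R] [IsDomain R] (L : Dat p N R)
  {n : ℕ} (hn : p = 4 * n + 1)
include L hn

theorem eval_g (μ : R) : eval μ L.g1 = hom L.u N (Zn μ) (Zd μ) ∧ eval μ L.g2 = hom L.u N (Yn μ) (Yd μ) ∧
    eval μ L.g3 = hom L.u N (-(Zn μ)) (Zd μ - Zn μ) := by
  have e1 := map_Zn (evalRingHom μ) X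
  have e2 := map_Zd (evalRingHom μ) X
  have e3 := map_Yn (evalRingHom μ) X
  have e4 := map_Yd (evalRingHom μ) X
  refine ⟨?_, ?_, ?_⟩
  · have := map_hom (evalRingHom μ) (fun j => C (L.u j)) N (Zn X) (Zd X)
    rw [e1, e2] at this
    simpa [g1] using this
  · have := map_hom (evalRingHom μ) (fun j => C (L.u j)) N (Yn X) (Yd X)
    rw [e3, e4] at this
    simpa [g2] using this
  · have := map_hom (evalRingHom μ) (fun j => C (L.u j)) N (-(Zn X)) (Zd X - Zn X)
    rw [map_sub, map_neg, e1, e2] at this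
    simpa [g3] using this

theorem hE1 : ∀ μ : R, 3 * μ = 5 →
    (p : R) ^ 2 ∣ 3 * μ ^ (4 * N + 1) * hom L.u N (Yn μ) (Yd μ) - 5 * hom L.u N (Zn μ) (Zd μ) := by
  intro μ hμ
  have hN := L.N_eq hn
  obtain ⟨Q, hPS, -⟩ := pole_conclusion hn L
  obtain ⟨eg1, eg2, -⟩ := L.eval_g hn μ
  rw [← eg1, ← eg2]
  set m := L.φ μ with hm
  have hm3 : 3 * m = 5 := by
    have := congrArg L.φ hμ
    rw [map_mul, map_ofNat, map_ofNat] at this
    exact this
  have h1 := congrArg (eval m) hPS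
  have eX1 : X1 m = 0 := by rw [X1, hm3]; ring
  have hm0 : m ≠ 0 := by
    intro h
    rw [h, mul_zero] at hm3
    exact L.five_ne hm3.symm
  have hdm : dd m ≠ 0 := by
    intro h
    have : 9 * dd m = 2 ^ 2 * 5 := by
      simp only [dd]
      linear_combination (15 * m - 41) * hm3
    rw [h, mul_zero] at this
    exact mul_ne_zero (L.pow2_ne 2) L.five_ne this.symm
  have hX2m : X2 m ≠ 0 := by
    intro h
    have : 9 * X2 m = 2 ^ 2 * 5 ^ 2 := by
      simp only [X2]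
      linear_combination (3 * m + 11) * hm3
    rw [h, mul_zero] at this
    exact mul_ne_zero (L.pow2_ne 2) (pow_ne_zero _ L.five_ne) this.symm
  have evX1 : eval m (X1 (X : (ZMod p)[X])) = 0 := by
    have := map_X1 (evalRingHom m) X
    simp only [coe_evalRingHom, eval_X] at this
    rw [this, eX1]
  have evX2 : eval m (X2 (X : (ZMod p)[X])) = X2 m := by
    have := map_X2 (evalRingHom m) X
    simpa using this
  have evdd : eval m (dd (X : (ZMod p)[X])) = dd m := by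
    have := map_dd (evalRingHom m) X
    simpa using this
  rw [PD.PS] at h1
  simp only [eval_sub, eval_add, eval_mul, eval_pow, eval_X, eval_C, eval_ofNat, evX1, evX2, evdd,
    zero_pow (show p ≠ 0 by omega), eval_zero, zero_mul, mul_zero, add_zero, sub_zero] at h1
  have h4 : (4 : ZMod p) ≠ 0 := by
    have : (4 : ZMod p) = 2 ^ 2 := by norm_num
    rw [this]; exact L.pow2_ne 2
  have h2 := (mul_eq_zero.1 h1).resolve_left (mul_ne_zero (pow_ne_zero _ hm0) (pow_ne_zero _ hdm))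
  have h3 := (mul_eq_zero.1 h2).resolve_left (mul_ne_zero h4 (pow_ne_zero _ hX2m))
  -- the value of g1 modulo p
  have hg1 : eval m (L.g1.map L.φ) = dd m ^ n * eval m (L.Gh n) := by
    rw [L.map_g1 hn, L.Zd_pow_n hn, eval_mul, eval_mul, eval_pow, eval_pow, eval_X, evdd]
    have : m ^ (4 * n) = 1 := by
      rw [show 4 * n = p - 1 from by omega]
      exact ZMod.pow_card_sub_one_eq_one hm0
    rw [this, one_mul]
  -- lift
  have hev : ∀ f : R[X], L.φ (eval μ f) = eval m (f.map L.φ) := fun f => by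
    rw [hm, eval_map, eval₂_at_apply]
  have hφ : L.φ (3 * μ * eval μ Q.a2 + eval μ Q.d1 * eval μ L.g1) = 0 := by
    rw [map_add, map_mul, map_mul, map_mul, map_ofNat, hev, hev, hev, hg1, ← hm]
    linear_combination h3
  obtain ⟨r, hr⟩ := L.ker _ hφ
  have ha2 := congrArg (eval μ) Q.ha2
  have hd1 := congrArg (eval μ) Q.hd1
  have evR : ∀ x : R[X], eval μ (X1 x) = X1 (eval μ x) := fun x => by
    have := map_X1 (evalRingHom μ) x
    simpa using this
  simp only [eval_sub, eval_mul, eval_pow, eval_X, eval_C, evR] at ha2 hd1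
  have eX1R : X1 μ = 0 := by rw [X1, hμ]; ring
  rw [eX1R, zero_pow (show p ≠ 0 by omega), X1] at hd1
  have hpow : μ ^ (4 * N + 1) = μ ^ p * μ ^ (p - 1) := by rw [← pow_add]; congr 1; omega
  refine ⟨r + eval μ Q.d1 * eval μ Q.a2, ?_⟩
  rw [hpow]
  linear_combination (3 * μ ^ p) * ha2 + (eval μ L.g1 + (p : R) * eval μ Q.a2) * hd1 + (p : R) * hr -
    (p : R) * eval μ Q.a2 * hμ

theorem hE2 : ∀ A B : R, A = 3 ^ (4 * N + 1) * hom L.u N (Yn 3) (Yd 3) → B = hom L.u N (Zn 3) (Zd 3) →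
    (p : R) ^ 2 ∣ (3 * A - 5 * B) ^ 4 * (A ^ 2 + 2 * A * B + 5 * B ^ 2) * (Zd 3) ^ (4 * N + 1) *
      (hom L.u N (-(Zn 3)) (Zd 3 - Zn 3)) ^ 4
      - 16 * A ^ 4 * (5 * A ^ 2 - 22 * A * B + 25 * B ^ 2) * (Zd 3 - Zn 3) ^ (4 * N + 1) * B ^ 4 := by
  intro A B hA hB
  obtain ⟨-, -, F, hF⟩ := pole_conclusion hn L
  obtain ⟨eg1, eg2, eg3⟩ := L.eval_g hn 3
  have h1 := congrArg (evalRingHom (3 : R)) hF
  rw [Phi, map_PhiF, map_mul, map_pow, map_Zd, map_Zn, map_mul] at h1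
  simp only [coe_evalRingHom, eval_X, eval_C] at h1
  rw [eg1, eg2, eg3, ← hA, ← hB] at h1
  refine ⟨eval 3 F, ?_⟩
  rw [← h1, PhiF]
  ring

/-- MAIN congruence modulo `p^2` -/
theorem main_pow4 : (p : R) ^ 2 ∣ (hom L.u N (-1) 80) ^ 4 - 80 ^ (4 * N) * (hom L.u N 1 1) ^ 4 :=
  L.eval_pow4 hn (L.hE1 hn) (L.hE2 hn)

/-- MAIN congruence modulo `p` -/
theorem main_modp : L.φ (hom L.u N (-1) 80) = 80 ^ n * 81 ^ n * L.φ (hom L.u N 1 1) := by
  apply L.eval_modp hn (L.hE1 hn)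
  have h81 : (81 : ZMod p) ≠ 0 := by
    have := ((L.unit81 hn).map L.φ).ne_zero
    rwa [map_ofNat] at this
  have h := L.hom_gs hn (RingHom.id (ZMod p)) 1 81 h81
  simp only [RingHom.id_apply] at h
  rw [show (81 : ZMod p) - 1 = 80 from by norm_num] at h
  exact h

end Dat

end Sc80

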