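import Mathlib

/-! Square roots and fourth roots of power series with constant term one. -/

namespace Sc80
open PowerSeries

variable {A : Type*} [CommRing A]

noncomputable def sq (i2 : A) (f : A⟦X⟧) : ℕ → A
  | 0 => 1
  | (n + 1) => i2 * (coeff (n + 1) f - ∑ i : Fin n, sq i2 f (i.1 + 1) * sq i2 f (n - i.1))
decreasing_by
  · have := i.2; omega
  · have := i.2; omega

theorem exists_sqrt {i2 : A} (h : 2 * i2 = 1) (f : A⟦X⟧) (h0 : constantCoeff f = 1) :
    ∃ g : A⟦X⟧, constantCoeff g = 1 ∧ g ^ 2 = f := by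
  refine ⟨PowerSeries.mk (sq i2 f), ?_, ?_⟩
  · rw [← coeff_zero_eq_constantCoeff_apply, coeff_mk, sq]
  · ext n
    rw [pow_two, coeff_mul]
    cases n with
    | zero =>
      simp only [Finset.Nat.antidiagonal_zero, Finset.sum_singleton, coeff_mk]
      rw [sq, coeff_zero_eq_constantCoeff_apply, h0, mul_one]
    | succ n =>
      rw [Finset.Nat.antidiagonal_succ, Finset.sum_cons, Finset.sum_map]
      simp only [coeff_mk, Function.Embedding.prodMap, Function.Embedding.coeFn_mk, Prod.map]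
      rw [Finset.Nat.sum_antidiagonal_eq_sum_range_succ_mk, Finset.sum_range_succ]
      have h1 : sq i2 f (n + 1) = i2 * (coeff (n + 1) f - ∑ i : Fin n, sq i2 f (i.1 + 1) * sq i2 f (n - i.1)) := by
        rw [sq]
      rw [Fin.sum_univ_eq_sum_range (fun i => sq i2 f (i + 1) * sq i2 f (n - i)) n] at h1
      simp only [Function.Embedding.refl_apply, Nat.sub_self, Nat.succ_eq_add_one]
      have h2 : sq i2 f 0 = 1 := by rw [sq]
      rw [h2]
      linear_combination 2 * h1 + (coeff (n + 1) f - ∑ i ∈ Finset.range n, sq i2 f (i + 1) * sq i2 f (n - i)) * h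

theorem exists_root4 {i2 : A} (h : 2 * i2 = 1) (f : A⟦X⟧) (h0 : constantCoeff f = 1) :
    ∃ g : A⟦X⟧, constantCoeff g = 1 ∧ g ^ 4 = f := by
  obtain ⟨g, hg, rfl⟩ := exists_sqrt h f h0
  obtain ⟨k, hk, rfl⟩ := exists_sqrt h g hg
  exact ⟨k, hk, by ring⟩

end Sc80
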