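import Mathlib

/-! Uniqueness of power series solutions at a regular singular point with exponents `0, 0`. -/

namespace Sc80
open PowerSeries

variable {A : Type*} [CommRing A]

theorem X_mul_D_pow (n : ℕ) : (X : A⟦X⟧) * d⁄dX A (X ^ n) = (n : A⟦X⟧) * X ^ n := by
  rw [derivative_pow, derivative_X]
  cases n with
  | zero => simp
  | succ n => simp; ring

theorem uniq0 {p : ℕ} (hunit : ∀ k : ℕ, 0 < k → k < p → IsUnit (k : A)) {a b c Y : A⟦X⟧}
    (ha : IsUnit (constantCoeff a)) (hb : constantCoeff b = constantCoeff a)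
    (hY0 : coeff 0 Y = 0)
    (hode : X * a * d⁄dX A (d⁄dX A Y) + b * d⁄dX A Y + c * Y = 0) :
    ∀ n < p, coeff n Y = 0 := by
  intro n
  induction n using Nat.strong_induction_on with
  | _ n ih =>
    intro hn
    rcases Nat.eq_zero_or_pos n with rfl | hpos
    · exact hY0
    obtain ⟨m, rfl⟩ : ∃ m, n = m + 1 := ⟨n - 1, by omega⟩
    have hdvd : (X : A⟦X⟧) ^ (m + 1) ∣ Y := by
      rw [X_pow_dvd_iff]
      intro k hk
      exact ih k hk (by omega)
    obtain ⟨Z, rfl⟩ := hdvd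
    have h1 : d⁄dX A (X ^ (m + 1) * Z) = ((m : A⟦X⟧) + 1) * X ^ m * Z + X ^ (m + 1) * d⁄dX A Z := by
      rw [Derivation.leibniz, derivative_pow, derivative_X]
      simp only [smul_eq_mul, Nat.cast_add, Nat.cast_one, Nat.add_sub_cancel]
      ring
    have h2 : X * d⁄dX A (d⁄dX A (X ^ (m + 1) * Z)) =
        X ^ m * (((m : A⟦X⟧) + 1) * (m : A⟦X⟧) * Z + 2 * ((m : A⟦X⟧) + 1) * X * d⁄dX A Z +
          X ^ 2 * d⁄dX A (d⁄dX A Z)) := by
      rw [h1, map_add, Derivation.leibniz, Derivation.leibniz, Derivation.leibniz]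
      have h3 := X_mul_D_pow (A := A) m
      have h4 := X_mul_D_pow (A := A) (m + 1)
      have h5 : d⁄dX A ((m : A⟦X⟧) + 1) = 0 := by
        rw [map_add]
        have : d⁄dX A ((m : A⟦X⟧)) = 0 := by
          rw [← nsmul_one, map_nsmul, derivative_one, smul_zero]
        rw [this, derivative_one, add_zero]
      simp only [smul_eq_mul, h5, mul_zero, add_zero]
      push_cast at h4
      linear_combination ((m : A⟦X⟧) + 1) * Z * h3 + d⁄dX A Z * h4
    have h6 : coeff m (X ^ m * (a * (((m : A⟦X⟧) + 1) * (m : A⟦X⟧) * Z + 2 * ((m : A⟦X⟧) + 1) * X * d⁄dX A Z +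
          X ^ 2 * d⁄dX A (d⁄dX A Z)) + b * (((m : A⟦X⟧) + 1) * Z + X * d⁄dX A Z) + c * (X * Z))) = 0 := by
      have : X ^ m * (a * (((m : A⟦X⟧) + 1) * (m : A⟦X⟧) * Z + 2 * ((m : A⟦X⟧) + 1) * X * d⁄dX A Z +
          X ^ 2 * d⁄dX A (d⁄dX A Z)) + b * (((m : A⟦X⟧) + 1) * Z + X * d⁄dX A Z) + c * (X * Z)) =
          X * a * d⁄dX A (d⁄dX A (X ^ (m + 1) * Z)) + b * d⁄dX A (X ^ (m + 1) * Z) +
            c * (X ^ (m + 1) * Z) := by
        rw [h1] at h2 ⊢
        linear_combination (-a) * h2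
      rw [this, hode, map_zero]
    have h7 := h6
    rw [show (coeff m) (X ^ m * (a * (((m : A⟦X⟧) + 1) * (m : A⟦X⟧) * Z + 2 * ((m : A⟦X⟧) + 1) * X * d⁄dX A Z +
          X ^ 2 * d⁄dX A (d⁄dX A Z)) + b * (((m : A⟦X⟧) + 1) * Z + X * d⁄dX A Z) + c * (X * Z))) =
        coeff (0 + m) (X ^ m * (a * (((m : A⟦X⟧) + 1) * (m : A⟦X⟧) * Z + 2 * ((m : A⟦X⟧) + 1) * X * d⁄dX A Z +
          X ^ 2 * d⁄dX A (d⁄dX A Z)) + b * (((m : A⟦X⟧) + 1) * Z + X * d⁄dX A Z) + c * (X * Z))) from by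
          rw [Nat.zero_add], coeff_X_pow_mul] at h7
    rw [coeff_zero_eq_constantCoeff_apply] at h7
    simp only [map_add, map_mul, constantCoeff_X, map_pow, hb, map_one, map_natCast,
      zero_mul, mul_zero, add_zero, ne_eq, OfNat.ofNat_ne_zero, not_false_eq_true, zero_pow] at h7
    have h8 : ((m + 1 : ℕ) : A) * (((m + 1 : ℕ) : A) * (constantCoeff a * constantCoeff Z)) = 0 := by
      push_cast
      linear_combination h7
    have hu := hunit (m + 1) (by omega) hn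
    have h9 := hu.mul_right_eq_zero.mp h8
    have h10 := hu.mul_right_eq_zero.mp h9
    have h11 := ha.mul_right_eq_zero.mp h10
    rw [show coeff (m + 1) (X ^ (m + 1) * Z) = coeff (0 + (m + 1)) (X ^ (m + 1) * Z) from by
      rw [Nat.zero_add], coeff_X_pow_mul, coeff_zero_eq_constantCoeff_apply]
    exact h11

end Sc80
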