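import Pool.Agent.Work.MP_f41de7_nt.Ode
import Pool.Agent.Work.MP_f41de7_nt.Uniq
import Pool.Agent.Work.MP_f41de7_nt.Root

set_option linter.unusedSectionVars false

/-! Expansions at a centre `c`. -/

namespace Sc80
open Polynomial

section
variable {R : Type*} [CommRing R]

/-- the variable `m` near the centre `c` -/
noncomputable def mc (c : R) : PowerSeries R := PowerSeries.X + PowerSeries.C c

theorem iota_eq (c : R) (f : R[X]) :
    aeval (mc c) f = ((f.comp (X + C c) : R[X]) : PowerSeries R) := by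
  induction f using Polynomial.induction_on' with
  | add p q hp hq => rw [map_add, hp, hq, add_comp, Polynomial.coe_add]
  | monomial n a =>
    rw [aeval_monomial, monomial_comp, Polynomial.coe_mul, Polynomial.coe_pow, Polynomial.coe_add,
      Polynomial.coe_X, Polynomial.coe_C, Polynomial.coe_C, mc]
    rfl

theorem mem_span_coeff {q : R} {P : ℕ} {Y : PowerSeries R} :
    Y ∈ Ideal.span {PowerSeries.C q, PowerSeries.X ^ P} ↔ ∀ k < P, q ∣ PowerSeries.coeff k Y := by
  rw [Ideal.mem_span_pair]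
  constructor
  · rintro ⟨a, b, rfl⟩ k hk
    rw [map_add, mul_comm a, PowerSeries.coeff_C_mul, PowerSeries.coeff_mul_X_pow', if_neg (by omega),
      add_zero]
    exact dvd_mul_right _ _
  · intro h
    choose! g hg using h
    refine ⟨PowerSeries.mk (fun k => if k < P then g k else 0), PowerSeries.mk (fun k => PowerSeries.coeff (k + P) Y), ?_⟩
    ext k
    rw [map_add, mul_comm _ (PowerSeries.C q), PowerSeries.coeff_C_mul, PowerSeries.coeff_mul_X_pow',
      PowerSeries.coeff_mk]
    split_ifs with h1 h2 h2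
    · omega
    · rw [← hg k h1]; simp
    · rw [PowerSeries.coeff_mk, Nat.sub_add_cancel h2]; simp
    · omega

theorem poly_mem_span {q c : R} {P : ℕ} {f : R[X]}
    (h : aeval (mc c) f ∈ Ideal.span {PowerSeries.C q, PowerSeries.X ^ P}) :
    f ∈ Ideal.span {C q, (X - C c) ^ P} := by
  rw [mem_span_coeff] at h
  rw [iota_eq] at h
  simp only [Polynomial.coeff_coe] at h
  set F := f.comp (X + C c) with hF
  choose! g hg using h
  have h1 : (X : R[X]) ^ P ∣ F - C q * ∑ k ∈ Finset.range P, C (g k) * X ^ k := by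
    rw [X_pow_dvd_iff]
    intro d hd
    rw [coeff_sub, coeff_C_mul, finsetSum_coeff, hg d hd]
    simp only [coeff_C_mul, coeff_X_pow, mul_ite, mul_one, mul_zero, Finset.sum_ite_eq,
      Finset.mem_range, if_pos hd, sub_self]
  obtain ⟨H, hH⟩ := h1
  have h2 : f = F.comp (X - C c) := by
    rw [hF, comp_assoc]; simp
  rw [Ideal.mem_span_pair]
  refine ⟨(∑ k ∈ Finset.range P, C (g k) * X ^ k).comp (X - C c), H.comp (X - C c), ?_⟩
  rw [h2, show F = C q * (∑ k ∈ Finset.range P, C (g k) * X ^ k) + X ^ P * H from by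
    rw [← hH]; ring]
  simp only [add_comp, mul_comp, C_comp, pow_comp, X_comp]
  ring

theorem D_mc (c : R) : PowerSeries.derivative R (mc c) = 1 := by
  rw [mc, map_add, PowerSeries.derivative_X, PowerSeries.derivative_C, add_zero]

end

section
variable {R : Type*} [CommRing R] [IsDomain R]

/-- uniqueness modulo `q` -/
theorem uniqd {q : R} {P : ℕ} (hunit : ∀ k : ℕ, 0 < k → k < P → IsUnit (k : R))
    {a b c Y : PowerSeries R} (ha : IsUnit (PowerSeries.constantCoeff a))
    (hb : PowerSeries.constantCoeff b = PowerSeries.constantCoeff a)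
    (hY0 : q ∣ PowerSeries.constantCoeff Y)
    (hode : PowerSeries.C q ∣ PowerSeries.X * a * PowerSeries.derivative R (PowerSeries.derivative R Y)
      + b * PowerSeries.derivative R Y + c * Y) :
    Y ∈ Ideal.span {PowerSeries.C q, PowerSeries.X ^ P} := by
  rw [mem_span_coeff]
  set I := Ideal.span {q} with hI
  set π := Ideal.Quotient.mk I with hπ
  have hmem : ∀ x : R, π x = 0 ↔ q ∣ x := by
    intro x
    rw [hπ, Ideal.Quotient.eq_zero_iff_mem, hI, Ideal.mem_span_singleton]
  have hD : ∀ f : PowerSeries R, PowerSeries.map π (PowerSeries.derivative R f) =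
      PowerSeries.derivative (R ⧸ I) (PowerSeries.map π f) := by
    intro f
    ext n
    simp [PowerSeries.coeff_map, PowerSeries.coeff_derivative]
  have h0 := uniq0 (A := R ⧸ I) (p := P)
    (fun k h1 h2 => by
      have := (hunit k h1 h2).map π
      rwa [map_natCast] at this)
    (a := PowerSeries.map π a) (b := PowerSeries.map π b) (c := PowerSeries.map π c)
    (Y := PowerSeries.map π Y)
    (by rw [← PowerSeries.coeff_zero_eq_constantCoeff_apply, PowerSeries.coeff_map,
          PowerSeries.coeff_zero_eq_constantCoeff_apply]; exact ha.map π)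
    (by rw [← PowerSeries.coeff_zero_eq_constantCoeff_apply, ← PowerSeries.coeff_zero_eq_constantCoeff_apply,
          PowerSeries.coeff_map, PowerSeries.coeff_map, PowerSeries.coeff_zero_eq_constantCoeff_apply,
          PowerSeries.coeff_zero_eq_constantCoeff_apply, hb])
    (by rw [PowerSeries.coeff_map, PowerSeries.coeff_zero_eq_constantCoeff_apply, hmem]; exact hY0)
    (by
      rw [← hD, ← hD]
      have hX : PowerSeries.map π (PowerSeries.X : PowerSeries R) = PowerSeries.X := PowerSeries.map_X _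
      rw [← hX, ← map_mul, ← map_mul, ← map_mul, ← map_mul, ← map_add, ← map_add]
      obtain ⟨g, hg⟩ := hode
      rw [hg, map_mul, PowerSeries.map_C, (hmem q).2 dvd_rfl, map_zero, zero_mul])
  intro k hk
  have := h0 k hk
  rwa [PowerSeries.coeff_map, hmem] at this

end

end Sc80

/-! `m G(z') - c G(z)` is small at the centres `c = 1, 5`. -/

namespace Sc80
open Polynomial

section
variable {R : Type*} [CommRing R] [IsDomain R] {c : R} (hc : c = 1 ∨ c = 5)
  (h2 : IsUnit (2 : R)) (h5 : IsUnit (5 : R))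

theorem cc_mc (c : R) : PowerSeries.constantCoeff (mc c) = c := by
  simp [mc]

include hc h2 h5 in
theorem unit_c : IsUnit c := by
  rcases hc with rfl | rfl
  · exact isUnit_one
  · exact h5

include hc h2 h5 in
theorem unit_dd_c : IsUnit (dd c) := by
  rcases hc with rfl | rfl
  · have : dd (1 : R) = 2 ^ 3 := by simp only [dd]; norm_num
    rw [this]; exact h2.pow 3
  · have : dd (5 : R) = 2 ^ 3 * 5 := by simp only [dd]; norm_num
    rw [this]; exact (h2.pow 3).mul h5

include hc h2 h5 in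
theorem unit_mc : IsUnit (mc c) := by
  rw [PowerSeries.isUnit_iff_constantCoeff, cc_mc]
  exact unit_c hc h2 h5

include hc h2 h5 in
theorem unit_dd_mc : IsUnit (dd (mc c)) := by
  rw [PowerSeries.isUnit_iff_constantCoeff, map_dd, cc_mc]
  exact unit_dd_c hc h2 h5

theorem unit_two_ps : IsUnit (2 : R) → IsUnit (2 : PowerSeries R) := by
  intro h
  have : (2 : PowerSeries R) = PowerSeries.C 2 := by rw [map_ofNat]
  rw [this]; exact h.map _

include hc h2 h5 in
theorem unit_Zd_mc : IsUnit (Zd (mc c)) := by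
  have h16 : IsUnit (16 : PowerSeries R) := by
    have : (16 : PowerSeries R) = 2 ^ 4 := by norm_num
    rw [this]; exact (unit_two_ps h2).pow 4
  exact (h16.mul ((unit_mc hc h2 h5).pow 4)).mul (unit_dd_mc hc h2 h5)

include hc h2 h5 in
theorem unit_Yd_mc : IsUnit (Yd (mc c)) := by
  have h16 : IsUnit (16 : PowerSeries R) := by
    have : (16 : PowerSeries R) = 2 ^ 4 := by norm_num
    rw [this]; exact (unit_two_ps h2).pow 4
  exact h16.mul (unit_dd_mc hc h2 h5)

include hc h2 h5 in
theorem exists_zw : ∃ z w : PowerSeries R, z * Zd (mc c) = Zn (mc c) ∧ w * Yd (mc c) = Yn (mc c) ∧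
    PowerSeries.constantCoeff z = 0 ∧ PowerSeries.constantCoeff w = 0 := by
  obtain ⟨v, hv⟩ := (unit_Zd_mc hc h2 h5).exists_left_inv
  obtain ⟨v', hv'⟩ := (unit_Yd_mc hc h2 h5).exists_left_inv
  refine ⟨Zn (mc c) * v, Yn (mc c) * v', by rw [mul_assoc, hv, mul_one], by rw [mul_assoc, hv', mul_one], ?_, ?_⟩
  · rw [map_mul, map_Zn, cc_mc]
    rcases hc with rfl | rfl <;> simp [Zn]
  · rw [map_mul, map_Yn, cc_mc]
    rcases hc with rfl | rfl <;> simp [Yn]

variable {u : ℕ → R} {N P : ℕ} {q : R} (hu0 : u 0 = 1)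
  (hrec : ∀ k < N, 8 * ((k : R) + 1) ^ 2 * u (k + 1) = (4 * k + 1) * (2 * k + 1) * u k)
  (hq : q ∣ (4 * (N : R) + 1) * (2 * N + 1) * u N)
  (hunit : ∀ k : ℕ, 0 < k → k < P → IsUnit (k : R))

include hrec in
theorem op_G : op (G u N) = - (C ((4 * (N : R) + 1) * (2 * N + 1) * u N) * X ^ N) := by
  rw [op]; exact ode_G u N hrec

include hrec hq in
theorem aeval_op_G (s : PowerSeries R) : PowerSeries.C q ∣ aeval s (op (G u N)) := by
  rw [op_G hrec, map_neg, map_mul, aeval_C, dvd_neg]
  apply Dvd.dvd.mul_right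
  exact (map_dvd (PowerSeries.C (R := R)) hq)

theorem cc_aeval_G {s : PowerSeries R} (hs : PowerSeries.constantCoeff s = 0) (hu0 : u 0 = 1) :
    PowerSeries.constantCoeff (aeval s (G u N)) = 1 := by
  rw [aeval_G, hom, map_sum, Finset.sum_range_succ']
  simp only [map_mul, map_pow, hs, one_pow, mul_one, ne_eq, Nat.add_eq_zero_iff, one_ne_zero,
    and_false, not_false_eq_true, zero_pow, mul_zero, Finset.sum_const_zero, pow_zero, zero_add]
  rw [hu0]; simp

/-- the coefficient `A0 / (m - c)` -/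
theorem A0_factor (hc : c = 1 ∨ c = 5) (h2 : IsUnit (2 : R)) (h5 : IsUnit (5 : R)) :
    ∃ a1 : PowerSeries R, A0 (mc c) = PowerSeries.X * a1 ∧
    IsUnit (PowerSeries.constantCoeff a1) ∧
    PowerSeries.constantCoeff (B0 (mc c)) = PowerSeries.constantCoeff a1 := by
  rcases hc with rfl | rfl
  · refine ⟨2 * (mc 1 - 5) * mc 1 ^ 2 * dd (mc 1) ^ 2 * X2 (mc 1), ?_, ?_, ?_⟩
    · have : (PowerSeries.X : PowerSeries R) = mc 1 - 1 := by simp [mc]
      rw [this, A0]; ring
    · have : PowerSeries.constantCoeff (2 * (mc 1 - 5) * mc 1 ^ 2 * dd (mc 1) ^ 2 * X2 (mc (1:R)))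
        = -(2 ^ 12) := by
        simp only [dd, X2, map_mul, map_sub, map_add, map_pow, cc_mc, map_ofNat]; norm_num
      rw [this]; exact (h2.pow 12).neg
    · simp only [B0, map_mul, map_sub, map_add, map_pow, cc_mc, map_ofNat, map_one, dd, X2]
      ring
  · refine ⟨2 * (mc 5 - 1) * mc 5 ^ 2 * dd (mc 5) ^ 2 * X2 (mc 5), ?_, ?_, ?_⟩
    · have : (PowerSeries.X : PowerSeries R) = mc 5 - 5 := by
        rw [mc, map_ofNat]; ring
      rw [this, A0]; ring
    · have : PowerSeries.constantCoeff (2 * (mc 5 - 1) * mc 5 ^ 2 * dd (mc 5) ^ 2 * X2 (mc (5:R)))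
        = 2 ^ 12 * 5 ^ 5 := by
        simp only [dd, X2, map_mul, map_sub, map_add, map_pow, cc_mc, map_ofNat, map_one]; norm_num
      rw [this]; exact (h2.pow 12).mul (h5.pow 5)
    · simp only [B0, map_mul, map_sub, map_add, map_pow, cc_mc, map_ofNat, map_one, dd, X2]
      ring

include hc h2 h5 hu0 hrec hq hunit in
/-- power series form -/
theorem center_series {z w : PowerSeries R} (hz : z * Zd (mc c) = Zn (mc c))
    (hw : w * Yd (mc c) = Yn (mc c)) (hz0 : PowerSeries.constantCoeff z = 0)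
    (hw0 : PowerSeries.constantCoeff w = 0) :
    mc c * aeval w (G u N) - PowerSeries.C c * aeval z (G u N) ∈
      Ideal.span {PowerSeries.C q, PowerSeries.X ^ P} := by
  have hm := D_mc c
  have h2' : (2 : PowerSeries R) ≠ 0 := (unit_two_ps h2).ne_zero
  have hm0 : mc c ≠ 0 := (unit_mc hc h2 h5).ne_zero
  have hd0 : dd (mc c) ≠ 0 := (unit_dd_mc hc h2 h5).ne_zero
  obtain ⟨a1, ha1, hau, hab⟩ := A0_factor hc h2 h5
  have o1 := ode_y1 hm h2' hm0 hd0 hz (G u N)
  have o2 := ode_y2 hm h2' hd0 hw (G u N)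
  apply uniqd hunit (a := a1) (b := B0 (mc c)) (c := C0 (mc c)) hau hab
  · rw [map_sub, map_mul, map_mul, cc_aeval_G hz0 hu0, cc_aeval_G hw0 hu0, cc_mc,
      PowerSeries.constantCoeff_C]
    simp
  · have hD1 : PowerSeries.derivative R (PowerSeries.C c * aeval z (G u N)) = PowerSeries.C c * PowerSeries.derivative R (aeval z (G u N)) := by
      rw [Derivation.leibniz, PowerSeries.derivative_C]; simp
    have hD2 : PowerSeries.derivative R (PowerSeries.C c * PowerSeries.derivative R (aeval z (G u N))) = PowerSeries.C c * PowerSeries.derivative R (PowerSeries.derivative R (aeval z (G u N))) := by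
      rw [Derivation.leibniz, PowerSeries.derivative_C]; simp
    have e1 : PowerSeries.X * a1 * PowerSeries.derivative R (PowerSeries.derivative R (mc c * aeval w (G u N) - PowerSeries.C c * aeval z (G u N))) +
        B0 (mc c) * PowerSeries.derivative R (mc c * aeval w (G u N) - PowerSeries.C c * aeval z (G u N)) +
        C0 (mc c) * (mc c * aeval w (G u N) - PowerSeries.C c * aeval z (G u N)) =
        K' (mc c) * aeval w (op (G u N)) - PowerSeries.C c * (K (mc c) * aeval z (op (G u N))) := by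
      rw [← ha1, map_sub, hD1, map_sub, hD2]
      linear_combination o2 - PowerSeries.C c * o1
    rw [e1]
    apply dvd_sub
    · exact (aeval_op_G hrec hq w).mul_left _
    · exact ((aeval_op_G hrec hq z).mul_left _).mul_left _

include hc h2 h5 hu0 hrec hq hunit in
/-- polynomial form -/
theorem center_poly :
    X ^ (4 * N + 1) * hom (fun j => C (u j)) N (Yn X) (Yd X) -
      C c * hom (fun j => C (u j)) N (Zn X) (Zd X) ∈ Ideal.span {C q, (X - C c) ^ P} := by
  obtain ⟨z, w, hz, hw, hz0, hw0⟩ := exists_zw hc h2 h5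
  apply poly_mem_span
  have h1 := center_series hc h2 h5 hu0 hrec hq hunit hz hw hz0 hw0
  have h3 : aeval (mc c) (X ^ (4 * N + 1) * hom (fun j => C (u j)) N (Yn X) (Yd X) -
      C c * hom (fun j => C (u j)) N (Zn X) (Zd X)) =
      Zd (mc c) ^ N * (mc c * aeval w (G u N) - PowerSeries.C c * aeval z (G u N)) := by
    rw [map_sub, map_mul, map_mul, map_pow, map_hom, map_hom, map_Yn, map_Yd, map_Zn, map_Zd]
    simp only [aeval_X, aeval_C]
    rw [hom_eval _ N _ _ _ hz, hom_eval _ N _ _ _ hw, aeval_G, aeval_G]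
    have : (algebraMap R (PowerSeries R)) c = PowerSeries.C c := rfl
    rw [this, Zd_eq]
    have : mc c ^ (4 * N + 1) = mc c * (mc c ^ 4) ^ N := by rw [← pow_mul]; ring
    rw [this, mul_pow]
    ring
  rw [h3]
  exact Ideal.mul_mem_left _ _ h1

end

end Sc80

/-! Pfaff transformation for the truncated series. -/

namespace Sc80
open Polynomial

section
variable {R S : Type*} [CommRing R] [CommRing S] [IsDomain S] [Algebra R S] {D : Derivation R S S}

theorem root_deriv {z e a : S} (he : e * (1 - z) = 1) (ha : a ^ 4 = e) :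
    4 * D a = a * (e * D z) := by
  have hDe := D_e (D := D) he
  have h1 := congrArg D ha
  rw [D.leibniz_pow, hDe] at h1
  simp only [smul_eq_mul, nsmul_eq_mul, Nat.reduceSub] at h1
  push_cast at h1
  have he0 : e ≠ 0 := left_ne_zero_of_mul_eq_one he
  apply mul_left_cancel₀ he0
  linear_combination a * h1 - 4 * D a * ha

end

section
variable {R : Type*} [CommRing R] [IsDomain R] (h2 : IsUnit (2 : R))
  {u : ℕ → R} {N P : ℕ} {q : R} (hu0 : u 0 = 1)
  (hrec : ∀ k < N, 8 * ((k : R) + 1) ^ 2 * u (k + 1) = (4 * k + 1) * (2 * k + 1) * u k)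
  (hq : q ∣ (4 * (N : R) + 1) * (2 * N + 1) * u N)
  (hunit : ∀ k : ℕ, 0 < k → k < P → IsUnit (k : R))

theorem exists_inv_one_sub {z : PowerSeries R} (hz : PowerSeries.constantCoeff z = 0) :
    ∃ e : PowerSeries R, e * (1 - z) = 1 ∧ PowerSeries.constantCoeff e = 1 := by
  have hu : IsUnit (1 - z) := by
    rw [PowerSeries.isUnit_iff_constantCoeff, map_sub, hz]
    simp
  obtain ⟨e, he⟩ := hu.exists_left_inv
  refine ⟨e, he, ?_⟩
  have := congrArg PowerSeries.constantCoeff he
  rw [map_mul, map_sub, hz] at this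
  simpa using this

include h2 in
theorem exists_ea {z : PowerSeries R} (hz : PowerSeries.constantCoeff z = 0) :
    ∃ e a : PowerSeries R, e * (1 - z) = 1 ∧ PowerSeries.constantCoeff e = 1 ∧ a ^ 4 = e ∧
      PowerSeries.constantCoeff a = 1 := by
  obtain ⟨e, he, he1⟩ := exists_inv_one_sub hz
  obtain ⟨i2, hi2⟩ := h2.exists_right_inv
  obtain ⟨a, ha1, ha⟩ := exists_root4 hi2 e he1
  exact ⟨e, a, he, he1, ha, ha1⟩

include h2 hu0 hrec hq hunit in
theorem pfaff_series {e a : PowerSeries R} (he : e * (1 - (PowerSeries.X : PowerSeries R)) = 1) (ha : a ^ 4 = e)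
    (ha1 : PowerSeries.constantCoeff a = 1) :
    aeval (PowerSeries.X : PowerSeries R) (G u N) - a * aeval (-((PowerSeries.X : PowerSeries R) * e)) (G u N) ∈ Ideal.span {PowerSeries.C q, (PowerSeries.X : PowerSeries R) ^ P} := by
  have h2' : (2 : PowerSeries R) ≠ 0 := (unit_two_ps h2).ne_zero
  have hDX : PowerSeries.derivative R (PowerSeries.X : PowerSeries R) = 1 := PowerSeries.derivative_X
  have hDX2 : PowerSeries.derivative R (PowerSeries.derivative R (PowerSeries.X : PowerSeries R)) = 0 := by rw [hDX]; exact (PowerSeries.derivative R).map_one_eq_zero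
  have o3 := ode_pfaff (D := PowerSeries.derivative R) (z := (PowerSeries.X : PowerSeries R)) h2' he (root_deriv he ha)
    (a0 := 8 * (PowerSeries.X : PowerSeries R) * (1 - (PowerSeries.X : PowerSeries R))) (b0 := 8 - 14 * (PowerSeries.X : PowerSeries R)) (k0 := 1)
    (by rw [hDX]; ring) (by rw [hDX2, hDX]; ring) (G u N)
  have o1 : 8 * (PowerSeries.X : PowerSeries R) * (1 - (PowerSeries.X : PowerSeries R)) * PowerSeries.derivative R (PowerSeries.derivative R (aeval (PowerSeries.X : PowerSeries R) (G u N))) + (8 - 14 * (PowerSeries.X : PowerSeries R)) * PowerSeries.derivative R (aeval (PowerSeries.X : PowerSeries R) (G u N))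
      - aeval (PowerSeries.X : PowerSeries R) (G u N) = aeval (PowerSeries.X : PowerSeries R) (op (G u N)) := by
    rw [Derivation.map_aeval, hDX, smul_eq_mul, mul_one, Derivation.map_aeval, hDX, smul_eq_mul,
      mul_one, aeval_op]
  apply uniqd hunit (a := 8 * (1 - (PowerSeries.X : PowerSeries R))) (b := 8 - 14 * (PowerSeries.X : PowerSeries R)) (c := -1)
  · have : PowerSeries.constantCoeff (8 * (1 - (PowerSeries.X : PowerSeries R))) = 2 ^ 3 := by
      simp only [map_mul, map_sub, map_ofNat, map_one, PowerSeries.constantCoeff_X]; norm_num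
    rw [this]; exact h2.pow 3
  · simp only [map_mul, map_sub, map_ofNat, map_one, PowerSeries.constantCoeff_X]; ring
  · rw [map_sub, map_mul, cc_aeval_G PowerSeries.constantCoeff_X hu0, cc_aeval_G _ hu0, ha1]
    · simp
    · simp
  · have e1 : (PowerSeries.X : PowerSeries R) * (8 * (1 - (PowerSeries.X : PowerSeries R))) * PowerSeries.derivative R (PowerSeries.derivative R (aeval (PowerSeries.X : PowerSeries R) (G u N) - a * aeval (-((PowerSeries.X : PowerSeries R) * e)) (G u N))) +
        (8 - 14 * (PowerSeries.X : PowerSeries R)) * PowerSeries.derivative R (aeval (PowerSeries.X : PowerSeries R) (G u N) - a * aeval (-((PowerSeries.X : PowerSeries R) * e)) (G u N)) +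
        (-1) * (aeval (PowerSeries.X : PowerSeries R) (G u N) - a * aeval (-((PowerSeries.X : PowerSeries R) * e)) (G u N)) =
        aeval (PowerSeries.X : PowerSeries R) (op (G u N)) + a * e * 1 * aeval (-((PowerSeries.X : PowerSeries R) * e)) (op (G u N)) := by
      rw [map_sub, map_sub]
      linear_combination o1 - o3
    rw [e1]
    exact dvd_add (aeval_op_G hrec hq _) ((aeval_op_G hrec hq _).mul_left _)

/-- the Pfaff transform, a polynomial -/
noncomputable def Gs (u : ℕ → R) (N : ℕ) : R[X] := hom (fun j => C (u j)) N (-X) (1 - X)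

theorem G_eq_hom (u : ℕ → R) (N : ℕ) : G u N = hom (fun j => C (u j)) N X 1 := by
  simp [G, hom]

theorem aeval_Gs (u : ℕ → R) (N : ℕ) {z e : PowerSeries R} (he : e * (1 - z) = 1) :
    aeval z (Gs u N) = (1 - z) ^ N * aeval (-(z * e)) (G u N) := by
  rw [Gs, map_hom, map_neg, map_sub, map_one, aeval_X, aeval_G, hom_eval _ N (-z) (1 - z) (-(z * e))]
  · congr 1
    simp only [hom, aeval_C]
  · linear_combination (-z) * he

theorem mc_zero : mc (0 : R) = PowerSeries.X := by simp [mc]

theorem pow4_sub {S : Type*} [CommRing S] {I : Ideal S} {x y : S} (h : x - y ∈ I) :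
    x ^ 4 - y ^ 4 ∈ I := by
  have : x ^ 4 - y ^ 4 = (x + y) * (x ^ 2 + y ^ 2) * (x - y) := by ring
  rw [this]; exact I.mul_mem_left _ h

include h2 hu0 hrec hq hunit in
theorem pfaff_poly : (1 - X) ^ (4 * N + 1) * G u N ^ 4 - Gs u N ^ 4 ∈ Ideal.span {C q, X ^ P} := by
  obtain ⟨e, a, he, he1, ha, ha1⟩ := exists_ea h2 (z := (PowerSeries.X : PowerSeries R)) PowerSeries.constantCoeff_X
  have h1 := pfaff_series h2 hu0 hrec hq hunit he ha ha1
  have h3 := Ideal.mul_mem_left _ ((1 - (PowerSeries.X : PowerSeries R)) ^ (4 * N + 1)) (pow4_sub h1)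
  have h4 : aeval (mc (0 : R)) ((1 - X) ^ (4 * N + 1) * G u N ^ 4 - Gs u N ^ 4) =
      (1 - (PowerSeries.X : PowerSeries R)) ^ (4 * N + 1) * (aeval (PowerSeries.X : PowerSeries R) (G u N) ^ 4 - (a * aeval (-((PowerSeries.X : PowerSeries R) * e)) (G u N)) ^ 4) := by
    rw [mc_zero, map_sub, map_mul, map_pow, map_sub, map_one, aeval_X, map_pow, map_pow,
      aeval_Gs u N he, mul_pow a, ha]
    have : (1 - (PowerSeries.X : PowerSeries R)) ^ (4 * N + 1) = (1 - (PowerSeries.X : PowerSeries R)) * ((1 - (PowerSeries.X : PowerSeries R)) ^ N) ^ 4 := by rw [← pow_mul]; ring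
    rw [this, mul_pow]
    linear_combination ((1 - (PowerSeries.X : PowerSeries R)) ^ N) ^ 4 * aeval (-((PowerSeries.X : PowerSeries R) * e)) (G u N) ^ 4 * he
  rw [← h4] at h3
  have h5 := poly_mem_span h3
  simpa using h5

end

end Sc80

/-! Reduction modulo `p`. -/

namespace Sc80
open Polynomial

/-- a local ring with residue field `ZMod p` whose maximal ideal is generated by `p` -/
structure Loc (p : ℕ) [Fact p.Prime] (R : Type*) [CommRing R] where
  φ : R →+* ZMod p
  surj : Function.Surjective φ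
  ker : ∀ x, φ x = 0 → (p : R) ∣ x
  unit : ∀ x, φ x ≠ 0 → IsUnit x
  p0 : (p : R) ≠ 0

namespace Loc
variable {p : ℕ} [Fact p.Prime] {R : Type*} [CommRing R] (L : Loc p R)

theorem phi_p : L.φ (p : R) = 0 := by rw [map_natCast]; exact ZMod.natCast_self p

theorem dvd_iff (x : R) : (p : R) ∣ x ↔ L.φ x = 0 := by
  constructor
  · rintro ⟨y, rfl⟩; rw [map_mul, L.phi_p, zero_mul]
  · exact L.ker x

theorem unit_iff (x : R) : IsUnit x ↔ L.φ x ≠ 0 := by
  constructor
  · intro h; exact (h.map L.φ).ne_zero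
  · exact L.unit x

include L in
theorem unit_nat {k : ℕ} (h0 : 0 < k) (hk : k < p) : IsUnit (k : R) := by
  apply L.unit
  rw [map_natCast, Ne, ZMod.natCast_eq_zero_iff]
  intro h
  exact absurd (Nat.le_of_dvd h0 h) (by omega)

include L in
theorem unit_nat' {k : ℕ} (h : ¬ p ∣ k) : IsUnit (k : R) := by
  apply L.unit
  rwa [map_natCast, Ne, ZMod.natCast_eq_zero_iff]

theorem map_eq_zero {f : R[X]} (h : f.map L.φ = 0) : ∃ g : R[X], f = C (p : R) * g := by
  have h1 : ∀ n, (p : R) ∣ f.coeff n := by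
    intro n
    apply L.ker
    have := congrArg (fun g => g.coeff n) h
    simpa [coeff_map] using this
  exact (C_dvd_iff_dvd_coeff _ _).2 h1

theorem map_span {P : ℕ} {c : R} {f : R[X]} (h : f ∈ Ideal.span {C (p : R), (X - C c) ^ P}) :
    (X - C (L.φ c)) ^ P ∣ f.map L.φ := by
  rw [Ideal.mem_span_pair] at h
  obtain ⟨a, b, rfl⟩ := h
  rw [Polynomial.map_add, Polynomial.map_mul, Polynomial.map_mul, map_C, L.phi_p, C_0, mul_zero,
    zero_add, Polynomial.map_pow, Polynomial.map_sub, map_X, map_C]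
  exact dvd_mul_left _ _

end Loc

section
variable {A : Type*} [CommRing A]

theorem hom_trunc {u : ℕ → A} {n N : ℕ} (hnN : n ≤ N) (h : ∀ j, n < j → j ≤ N → u j = 0) (U V : A) :
    hom u N U V = V ^ (N - n) * hom u n U V := by
  rw [hom, hom, Finset.mul_sum]
  rw [show N + 1 = (n + 1) + (N - n) from by omega, Finset.sum_range_add]
  rw [Finset.sum_eq_zero (s := Finset.range (N - n)), add_zero]
  · apply Finset.sum_congr rfl
    intro j hj
    rw [Finset.mem_range] at hj
    rw [show N - j = (N - n) + (n - j) from by omega, pow_add]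
    ring
  · intro j hj
    rw [Finset.mem_range] at hj
    rw [h (n + 1 + j) (by omega) (by omega)]
    ring

theorem natDegree_hom_le {u : ℕ → A} {n d : ℕ} {U V : A[X]} (hU : U.natDegree ≤ d)
    (hV : V.natDegree ≤ d) : (hom (fun j => C (u j)) n U V).natDegree ≤ d * n := by
  rw [hom]
  apply natDegree_sum_le_of_forall_le
  intro j hj
  rw [Finset.mem_range] at hj
  calc _ ≤ (C (u j) * U ^ j).natDegree + (V ^ (n - j)).natDegree := natDegree_mul_le
    _ ≤ (0 + j * d) + (n - j) * d := by
        gcongr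
        · refine natDegree_mul_le.trans ?_
          rw [natDegree_C]
          gcongr
          exact natDegree_pow_le.trans (Nat.mul_le_mul_left _ hU)
        · exact natDegree_pow_le.trans (Nat.mul_le_mul_left _ hV)
    _ = d * n := by
        rw [zero_add, ← Nat.add_mul, Nat.add_sub_cancel' (by omega), Nat.mul_comm]

theorem natDegree_dd : (dd (X : A[X])).natDegree ≤ 2 := by
  rw [dd]; compute_degree
theorem natDegree_Zn : (Zn (X : A[X])).natDegree ≤ 6 := by
  rw [Zn]; compute_degree
theorem natDegree_Yn : (Yn (X : A[X])).natDegree ≤ 6 := by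
  rw [Yn]; compute_degree
theorem natDegree_Zd : (Zd (X : A[X])).natDegree ≤ 6 := by
  rw [Zd, dd]; compute_degree
theorem natDegree_Yd : (Yd (X : A[X])).natDegree ≤ 2 := by
  rw [Yd, dd]; compute_degree
end

/-- standing data -/
structure Dat (p N : ℕ) [Fact p.Prime] (R : Type*) [CommRing R] extends Loc p R where
  hp : p = 2 * N + 1
  hp5 : p ≠ 5
  u : ℕ → R
  hu0 : u 0 = 1
  hrec : ∀ k < N, 8 * ((k : R) + 1) ^ 2 * u (k + 1) = (4 * k + 1) * (2 * k + 1) * u k

namespace Dat
variable {p N : ℕ} [Fact p.Prime] {R : Type*} [CommRing R] (L : Dat p N R)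

include L in
theorem p2 : p ≠ 2 := by have := L.hp; omega
include L in
theorem unit2 : IsUnit (2 : R) := by
  have := L.toLoc.unit_nat' (k := 2) (fun h => L.p2 ((Nat.prime_dvd_prime_iff_eq Fact.out Nat.prime_two).1 h))
  simpa using this
include L in
theorem unit5 : IsUnit (5 : R) := by
  have := L.toLoc.unit_nat' (k := 5) (fun h => L.hp5 ((Nat.prime_dvd_prime_iff_eq Fact.out Nat.prime_five).1 h))
  simpa using this

include L in
theorem unitP : ∀ k : ℕ, 0 < k → k < p → IsUnit (k : R) := fun _ h0 hk => L.toLoc.unit_nat h0 hk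

theorem hq1 : (p : R) ∣ (4 * (N : R) + 1) * (2 * N + 1) * L.u N := by
  have : (p : R) = 2 * N + 1 := by
    have := congrArg (Nat.cast (R := R)) L.hp
    simpa using this
  rw [← this]
  exact ⟨(4 * (N : R) + 1) * L.u N, by ring⟩

end Dat

end Sc80

/-! The case `p = 4 n + 1`, modulo `p`. -/

namespace Sc80
open Polynomial

namespace Dat
variable {p N : ℕ} [Fact p.Prime] {R : Type*} [CommRing R] [IsDomain R] (L : Dat p N R)
include L

/-- `Zd^N G(z)` -/
noncomputable def g1 : R[X] := hom (fun j => C (L.u j)) N (Zn X) (Zd X)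
/-- `Yd^N G(z')` -/
noncomputable def g2 : R[X] := hom (fun j => C (L.u j)) N (Yn X) (Yd X)
/-- reduced coefficients -/
def ub (j : ℕ) : ZMod p := L.φ (L.u j)

theorem map_hom' (n : ℕ) (U V : R[X]) : (hom (fun j => C (L.u j)) n U V).map L.φ =
    hom (fun j => C (L.ub j)) n (U.map L.φ) (V.map L.φ) := by
  have := map_hom (mapRingHom L.φ) (fun j => C (L.u j)) n U V
  simpa [ub] using this

theorem map_Zn' : (Zn (X : R[X])).map L.φ = Zn X := by
  have := map_Zn (mapRingHom L.φ) X
  simpa using this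
theorem map_Zd' : (Zd (X : R[X])).map L.φ = Zd X := by
  have := map_Zd (mapRingHom L.φ) X
  simpa using this
theorem map_Yn' : (Yn (X : R[X])).map L.φ = Yn X := by
  have := map_Yn (mapRingHom L.φ) X
  simpa using this
theorem map_Yd' : (Yd (X : R[X])).map L.φ = Yd X := by
  have := map_Yd (mapRingHom L.φ) X
  simpa using this

theorem ne_nat {k : ℕ} (h : ¬ p ∣ k) : ((k : ℕ) : ZMod p) ≠ 0 := by
  rwa [Ne, ZMod.natCast_eq_zero_iff]

theorem ub_rec {k : ℕ} (hk : k < N) :
    8 * ((k : ZMod p) + 1) ^ 2 * L.ub (k + 1) = (4 * k + 1) * (2 * k + 1) * L.ub k := by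
  have := congrArg L.φ (L.hrec k hk)
  simpa [ub, map_mul, map_add, map_pow, map_ofNat] using this

theorem ub_zero' : L.ub 0 = 1 := by simp [ub, L.hu0]

theorem two_ne : (2 : ZMod p) ≠ 0 := by
  have := (L.unit2.map L.φ).ne_zero
  rwa [map_ofNat] at this
theorem five_ne : (5 : ZMod p) ≠ 0 := by
  have := (L.unit5.map L.φ).ne_zero
  rwa [map_ofNat] at this

theorem eight_ne {k : ℕ} (hk : k < N) : 8 * ((k : ZMod p) + 1) ^ 2 ≠ 0 := by
  have h8 : (8 : ZMod p) = 2 ^ 3 := by norm_num
  rw [h8]
  apply mul_ne_zero (pow_ne_zero _ L.two_ne) (pow_ne_zero _ _)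
  have := ne_nat L (k := k + 1) (fun h => by
    have := Nat.le_of_dvd (by omega) h
    have := L.hp
    omega)
  push_cast at this
  exact this

variable {n : ℕ} (hn : p = 4 * n + 1)

include hn in
theorem N_eq : N = 2 * n := by have := L.hp; omega

include hn in
theorem ub_ne {k : ℕ} (hk : k ≤ n) : L.ub k ≠ 0 := by
  have hN := L.N_eq hn
  induction k with
  | zero => rw [L.ub_zero']; exact one_ne_zero
  | succ k ih =>
    intro h0
    have h1 := L.ub_rec (k := k) (by omega)
    rw [h0, mul_zero] at h1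
    have h2 := ne_nat L (k := 4 * k + 1) (fun h => by
      have := Nat.le_of_dvd (by omega) h
      omega)
    have h3 := ne_nat L (k := 2 * k + 1) (fun h => by
      have := Nat.le_of_dvd (by omega) h
      omega)
    push_cast at h2 h3
    exact mul_ne_zero (mul_ne_zero h2 h3) (ih (by omega)) h1.symm

include hn in
theorem ub_eq_zero {k : ℕ} (h1 : n < k) (h2 : k ≤ N) : L.ub k = 0 := by
  obtain ⟨j, rfl⟩ : ∃ j, k = n + 1 + j := ⟨k - (n + 1), by omega⟩
  induction j with
  | zero =>
    have h3 := L.ub_rec (k := n) (by omega)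
    have h4 : (4 * (n : ZMod p) + 1) = 0 := by
      have : ((4 * n + 1 : ℕ) : ZMod p) = 0 := by rw [← hn]; exact ZMod.natCast_self p
      push_cast at this
      exact this
    rw [h4, zero_mul, zero_mul] at h3
    exact (mul_eq_zero.1 h3).resolve_left (L.eight_ne (by omega))
  | succ j ih =>
    have h3 := L.ub_rec (k := n + 1 + j) (by omega)
    rw [ih (by omega) (by omega), mul_zero] at h3
    exact (mul_eq_zero.1 h3).resolve_left (L.eight_ne (by omega))

/-- the reduction of `Zd^n G(z)` -/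
noncomputable def Gh (n : ℕ) : (ZMod p)[X] := hom (fun j => C (L.ub j)) n (Zn X) (Zd X)
noncomputable def Gh2 (n : ℕ) : (ZMod p)[X] := hom (fun j => C (L.ub j)) n (Yn X) (Yd X)

include hn in
theorem map_g1 : L.g1.map L.φ = Zd X ^ n * L.Gh n := by
  rw [g1, map_hom', map_Zn', map_Zd', hom_trunc (n := n) (by have := L.N_eq hn; omega)
    (fun j h1 h2 => by rw [L.ub_eq_zero hn h1 h2, C_0]), Gh]
  congr 2
  have := L.N_eq hn
  omega

include hn in
theorem map_g2 : L.g2.map L.φ = Yd X ^ n * L.Gh2 n := by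
  rw [g2, map_hom', map_Yn', map_Yd', hom_trunc (n := n) (by have := L.N_eq hn; omega)
    (fun j h1 h2 => by rw [L.ub_eq_zero hn h1 h2, C_0]), Gh2]
  congr 2
  have := L.N_eq hn
  omega

theorem center_mod {c : R} (hc : c = 1 ∨ c = 5) :
    (X - C (L.φ c)) ^ p ∣ X ^ (4 * N + 1) * L.g2.map L.φ - C (L.φ c) * L.g1.map L.φ := by
  have h1 := center_poly hc L.unit2 L.unit5 L.hu0 L.hrec L.hq1 L.unitP
  have h3 := L.toLoc.map_span h1
  simpa [g1, g2] using h3

theorem dd_ne {c : ZMod p} (hc : c = 1 ∨ c = 5) : dd c ≠ 0 := by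
  rcases hc with rfl | rfl
  · have : dd (1 : ZMod p) = 2 ^ 3 := by simp only [dd]; norm_num
    rw [this]; exact pow_ne_zero _ L.two_ne
  · have : dd (5 : ZMod p) = 2 ^ 3 * 5 := by simp only [dd]; norm_num
    rw [this]; exact mul_ne_zero (pow_ne_zero _ L.two_ne) L.five_ne

theorem c_ne {c : ZMod p} (hc : c = 1 ∨ c = 5) : c ≠ 0 := by
  rcases hc with rfl | rfl
  · exact one_ne_zero
  · exact L.five_ne

include hn in
theorem Gh_center {c : ZMod p} (hc : c = 1 ∨ c = 5) : (X - C c) ^ p ∣ L.Gh2 n - L.Gh n := by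
  have hN := L.N_eq hn
  have h1 : (X - C c) ^ p ∣ X ^ (4 * N + 1) * L.g2.map L.φ - C c * L.g1.map L.φ := by
    rcases hc with rfl | rfl
    · have := L.center_mod (c := 1) (Or.inl rfl)
      simpa using this
    · have := L.center_mod (c := 5) (Or.inr rfl)
      rw [map_ofNat] at this
      exact this
  rw [L.map_g1 hn, L.map_g2 hn, Zd_eq, mul_pow] at h1
  have h2 : (X : (ZMod p)[X]) ^ (4 * N + 1) * (Yd X ^ n * L.Gh2 n) -
      C c * ((X ^ 4) ^ n * Yd X ^ n * L.Gh n) =
      (X ^ (4 * n) * Yd X ^ n) * (X ^ p * L.Gh2 n - C c * L.Gh n) := by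
    rw [show 4 * N + 1 = 4 * n + p from by omega, pow_add, ← pow_mul]
    ring
  rw [h2] at h1
  have h3 : (X - C c) ^ p ∣ X ^ p * L.Gh2 n - C c * L.Gh n := by
    apply (prime_X_sub_C c).pow_dvd_of_dvd_mul_left _ _ h1
    rw [dvd_iff_isRoot, IsRoot.def, eval_mul, eval_pow, eval_pow, eval_X]
    have h16 : (16 : ZMod p) ≠ 0 := by
      have : (16 : ZMod p) = 2 ^ 4 := by norm_num
      rw [this]; exact pow_ne_zero _ L.two_ne
    have hYd : eval c (Yd (X : (ZMod p)[X])) = Yd c := by
      have := map_Yd (evalRingHom c) X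
      simpa using this
    rw [hYd]
    exact mul_ne_zero (pow_ne_zero _ (L.c_ne hc)) (pow_ne_zero _ (mul_ne_zero h16 (L.dd_ne hc)))
  have h4 : (X : (ZMod p)[X]) ^ p = (X - C c) ^ p + C c := by
    rw [sub_pow_char, ← C_pow, ZMod.pow_card]; ring
  rw [h4] at h3
  have h5 : ((X - C c) ^ p + C c) * L.Gh2 n - C c * L.Gh n =
      (X - C c) ^ p * L.Gh2 n + C c * (L.Gh2 n - L.Gh n) := by ring
  rw [h5] at h3
  have h6 := (dvd_add_right (dvd_mul_right _ _)).1 h3
  have hu : IsUnit (C c : (ZMod p)[X]) := isUnit_C.2 (isUnit_iff_ne_zero.2 (L.c_ne hc))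
  exact hu.dvd_mul_left.1 h6

include hn in
/-- the key identity modulo `p` -/
theorem Gh_eq : L.Gh2 n = L.Gh n := by
  have h1 := L.Gh_center hn (c := 1) (Or.inl rfl)
  have h5 := L.Gh_center hn (c := 5) (Or.inr rfl)
  have hco : IsCoprime ((X - C (1 : ZMod p)) ^ p) ((X - C (5 : ZMod p)) ^ p) := by
    apply IsCoprime.pow
    apply isCoprime_X_sub_C_of_isUnit_sub
    rw [isUnit_iff_ne_zero]
    have : (1 : ZMod p) - 5 = - 2 ^ 2 := by norm_num
    rw [this, neg_ne_zero]
    exact pow_ne_zero _ L.two_ne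
  have h := hco.mul_dvd h1 h5
  have hz : L.Gh2 n - L.Gh n = 0 := by
    apply eq_zero_of_dvd_of_natDegree_lt h
    have e1 : (((X - C (1 : ZMod p)) ^ p) * ((X - C (5 : ZMod p)) ^ p)).natDegree = 2 * p := by
      rw [Monic.natDegree_mul ((monic_X_sub_C _).pow _) ((monic_X_sub_C _).pow _),
        (monic_X_sub_C _).natDegree_pow, (monic_X_sub_C _).natDegree_pow, natDegree_X_sub_C,
        natDegree_X_sub_C]
      ring
    rw [e1]
    have e2 : (L.Gh2 n).natDegree ≤ 6 * n :=
      natDegree_hom_le natDegree_Yn (natDegree_Yd.trans (by norm_num))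
    have e3 : (L.Gh n).natDegree ≤ 6 * n := natDegree_hom_le natDegree_Zn natDegree_Zd
    have e4 := natDegree_sub_le (L.Gh2 n) (L.Gh n)
    have : (L.Gh2 n - L.Gh n).natDegree ≤ 6 * n := e4.trans (max_le e2 e3)
    omega
  exact sub_eq_zero.1 hz

end Dat

end Sc80

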