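import Mathlib

set_option linter.unusedSimpArgs false
set_option linter.unusedSectionVars false

/-! Basic definitions: the truncated hypergeometric polynomial, the 5-isogeny, the pulled back
differential equation. -/

namespace Sc80
open Polynomial

section defs
variable {A : Type*} [CommRing A]

/-- `d = 5 m^2 - 22 m + 25` -/
def dd (m : A) : A := 5 * m ^ 2 - 22 * m + 25
/-- numerator and denominator of `z(m)` -/
def Zn (m : A) : A := -(m - 5) ^ 5 * (m - 1)
def Zd (m : A) : A := 16 * m ^ 4 * dd m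
/-- numerator and denominator of `z(5/m)` -/
def Yn (m : A) : A := -(m - 1) ^ 5 * (m - 5)
def Yd (m : A) : A := 16 * dd m
def X1 (m : A) : A := 3 * m - 5
def X2 (m : A) : A := m ^ 2 + 2 * m + 5
/-- coefficients of the differential equation -/
def A0 (m : A) : A := 2 * (m - 1) * (m - 5) * m ^ 2 * dd m ^ 2 * X2 m
def B0 (m : A) : A := m * dd m * (2 * (m - 5) * m * dd m * X2 m + 2 * (m - 1) * m * dd m * X2 m
  - 4 * (m - 1) * (m - 5) * dd m * X2 m + (m - 1) * (m - 5) * m * (5 * m - 11) * X2 m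
  + 3 * (m - 1) * (m - 5) * m * (m + 1) * dd m)
def C0 (m : A) : A := 4 * X1 m ^ 2 * (m - 5) ^ 4

theorem Zd_sub_Zn (m : A) : Zd m - Zn m = X1 m ^ 4 * X2 m := by
  simp only [Zd, Zn, X1, X2, dd]; ring

theorem Zd_eq (m : A) : Zd m = m ^ 4 * Yd m := by
  simp only [Zd, Yd]; ring

/-- homogenised truncated series -/
def hom (u : ℕ → A) (N : ℕ) (U V : A) : A :=
  ∑ j ∈ Finset.range (N + 1), u j * U ^ j * V ^ (N - j)

theorem hom_eval (u : ℕ → A) (N : ℕ) (U V s : A) (h : s * V = U) :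
    hom u N U V = V ^ N * hom u N s 1 := by
  simp only [hom, Finset.mul_sum]
  apply Finset.sum_congr rfl
  intro j hj
  have hj' : j ≤ N := by
    rw [Finset.mem_range] at hj; omega
  subst h
  have : V ^ N = V ^ j * V ^ (N - j) := by rw [← pow_add]; congr 1; omega
  rw [this]; ring

section maps
variable {B : Type*} [CommRing B] {F : Type*} [FunLike F A B] [RingHomClass F A B] (f : F) (m : A)

theorem map_dd : f (dd m) = dd (f m) := by
  simp only [dd, map_add, map_sub, map_mul, map_pow, map_ofNat]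
theorem map_Zn : f (Zn m) = Zn (f m) := by
  simp only [Zn, map_neg, map_sub, map_mul, map_pow, map_ofNat, map_one]
theorem map_Zd : f (Zd m) = Zd (f m) := by
  simp only [Zd, map_mul, map_pow, map_ofNat, map_dd]
theorem map_Yn : f (Yn m) = Yn (f m) := by
  simp only [Yn, map_neg, map_sub, map_mul, map_pow, map_ofNat, map_one]
theorem map_Yd : f (Yd m) = Yd (f m) := by
  simp only [Yd, map_mul, map_ofNat, map_dd]
theorem map_X1 : f (X1 m) = X1 (f m) := by
  simp only [X1, map_sub, map_mul, map_ofNat]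
theorem map_X2 : f (X2 m) = X2 (f m) := by
  simp only [X2, map_add, map_mul, map_pow, map_ofNat]
theorem map_hom (u : ℕ → A) (N : ℕ) (U V : A) :
    f (hom u N U V) = hom (fun j => f (u j)) N (f U) (f V) := by
  simp only [hom, map_sum, map_mul, map_pow]
end maps

/-- truncated series -/
noncomputable def G (u : ℕ → A) (N : ℕ) : A[X] := ∑ j ∈ Finset.range (N + 1), C (u j) * X ^ j

theorem G_succ (u : ℕ → A) (N : ℕ) : G u (N + 1) = G u N + C (u (N + 1)) * X ^ (N + 1) := by
  simp [G, Finset.sum_range_succ]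

theorem aeval_G {S : Type*} [CommRing S] [Algebra A S] (u : ℕ → A) (N : ℕ) (s : S) :
    aeval s (G u N) = hom (fun j => algebraMap A S (u j)) N s 1 := by
  simp [G, hom]

/-- the truncated series satisfies the hypergeometric equation up to one term -/
theorem ode_G (u : ℕ → A) (N : ℕ)
    (hrec : ∀ k < N, 8 * ((k : A) + 1) ^ 2 * u (k + 1) = (4 * k + 1) * (2 * k + 1) * u k) :
    8 * X * (1 - X) * derivative (derivative (G u N)) + (8 - 14 * X) * derivative (G u N) - G u N
      = - (C ((4 * (N : A) + 1) * (2 * N + 1) * u N) * X ^ N) := by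
  induction N with
  | zero => simp [G]
  | succ N ih =>
    have ih' := ih (fun k hk => hrec k (by omega))
    have hr := hrec N (by omega)
    rw [G_succ]
    simp only [map_add, derivative_mul, derivative_C, zero_mul, zero_add, derivative_X_pow,
      map_natCast, derivative_natCast]
    have h1 : (X : A[X]) * X ^ (N + 1 - 1) = X ^ (N + 1) := by
      rw [Nat.add_sub_cancel, pow_succ]; ring
    have h2 : (X : A[X]) * (((N + 1 - 1 : ℕ) : A[X]) * X ^ (N + 1 - 1 - 1)) = (N : A[X]) * X ^ N := by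
      rw [Nat.add_sub_cancel]
      cases N with
      | zero => simp
      | succ M => simp only [Nat.add_sub_cancel]; push_cast; ring
    have h3 : C ((4 * (N : A) + 1) * (2 * N + 1) * u N) = 8 * ((N : A[X]) + 1) ^ 2 * C (u (N + 1)) := by
      rw [← hr]
      simp only [map_mul, map_pow, map_add, map_natCast, map_one]
      rfl
    rw [Nat.add_sub_cancel] at h2 ⊢
    rw [h3] at ih'
    have h4 : C ((4 * ((N + 1 : ℕ) : A) + 1) * (2 * ((N + 1 : ℕ) : A) + 1) * u (N + 1)) =
      (4 * ((N : A[X]) + 1) + 1) * (2 * ((N : A[X]) + 1) + 1) * C (u (N + 1)) := by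
      simp only [map_mul, map_pow, map_add, map_natCast, map_one, Nat.cast_add, Nat.cast_one]
      rfl
    rw [h4]
    push_cast
    linear_combination ih' + (8 * (1 - X) * C (u (N + 1)) * ((N : A[X]) + 1)) * h2
end defs

end Sc80

/-! The functions `G(z)` and `m G(z')` satisfy the same differential equation up to an explicit
error term. -/

namespace Sc80
open Polynomial

section
variable {R S : Type*} [CommRing R] [CommRing S] [IsDomain S] [Algebra R S] (D : Derivation R S S)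

theorem D_num2 : D (2 : S) = 0 := by
  have := D.map_natCast 2
  simpa using this

theorem D_num3 : D (3 : S) = 0 := by
  have := D.map_natCast 3
  simpa using this

theorem D_num4 : D (4 : S) = 0 := by
  have := D.map_natCast 4
  simpa using this

theorem D_num5 : D (5 : S) = 0 := by
  have := D.map_natCast 5
  simpa using this

theorem D_num8 : D (8 : S) = 0 := by
  have := D.map_natCast 8
  simpa using this

theorem D_num11 : D (11 : S) = 0 := by
  have := D.map_natCast 11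
  simpa using this

theorem D_num14 : D (14 : S) = 0 := by
  have := D.map_natCast 14
  simpa using this

theorem D_num16 : D (16 : S) = 0 := by
  have := D.map_natCast 16
  simpa using this

theorem D_num22 : D (22 : S) = 0 := by
  have := D.map_natCast 22
  simpa using this

theorem D_num25 : D (25 : S) = 0 := by
  have := D.map_natCast 25
  simpa using this

theorem D_num7 : D (7 : S) = 0 := by
  have := D.map_natCast 7
  simpa using this

theorem D_one' : D (1 : S) = 0 := D.map_one_eq_zero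

variable {D} {m z w : S} (hm : D m = 1)

include hm in
theorem D_dd : D (dd m) = 10 * m - 22 := by
  simp only [dd, map_add, map_sub, Derivation.leibniz, Derivation.leibniz_pow, D_num2, D_num3, D_num4, D_num5, D_num8, D_num11, D_num14, D_num16, D_num22, D_num25, D_num7,
    smul_eq_mul, nsmul_eq_mul, hm]
  push_cast
  ring

include hm in
theorem D_X1 : D (X1 m) = 3 := by
  simp only [X1, map_add, map_sub, Derivation.leibniz, Derivation.leibniz_pow, D_num2, D_num3, D_num4, D_num5, D_num8, D_num11, D_num14, D_num16, D_num22, D_num25, D_num7,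
    smul_eq_mul, nsmul_eq_mul, hm]
  ring

include hm in
theorem D_Zn : D (Zn m) = -(5 * (m - 5) ^ 4 * (m - 1) + (m - 5) ^ 5) := by
  simp only [Zn, map_add, map_sub, map_neg, Derivation.leibniz, Derivation.leibniz_pow, D_num2, D_num3, D_num4, D_num5, D_num8, D_num11, D_num14, D_num16, D_num22, D_num25, D_num7,
    smul_eq_mul, nsmul_eq_mul, hm, D_one']
  push_cast
  ring

include hm in
theorem D_Zd : D (Zd m) = 64 * m ^ 3 * dd m + 16 * m ^ 4 * (10 * m - 22) := by
  simp only [Zd, map_add, map_sub, Derivation.leibniz, Derivation.leibniz_pow, D_num2, D_num3, D_num4, D_num5, D_num8, D_num11, D_num14, D_num16, D_num22, D_num25, D_num7,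
    smul_eq_mul, nsmul_eq_mul, hm, D_one', D_dd hm]
  push_cast
  ring

include hm in
theorem D_Yn : D (Yn m) = -(5 * (m - 1) ^ 4 * (m - 5) + (m - 1) ^ 5) := by
  simp only [Yn, map_add, map_sub, map_neg, Derivation.leibniz, Derivation.leibniz_pow, D_num2, D_num3, D_num4, D_num5, D_num8, D_num11, D_num14, D_num16, D_num22, D_num25, D_num7,
    smul_eq_mul, nsmul_eq_mul, hm, D_one']
  push_cast
  ring

include hm in
theorem D_Yd : D (Yd m) = 16 * (10 * m - 22) := by
  simp only [Yd, map_add, map_sub, Derivation.leibniz, Derivation.leibniz_pow, D_num2, D_num3, D_num4, D_num5, D_num8, D_num11, D_num14, D_num16, D_num22, D_num25, D_num7,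
    smul_eq_mul, nsmul_eq_mul, hm, D_one', D_dd hm]
  ring

variable (h2 : (2 : S) ≠ 0) (hm0 : m ≠ 0) (hd0 : dd m ≠ 0) (hz : z * Zd m = Zn m)
  (hw : w * Yd m = Yn m)

include h2 hm0 hd0 in
theorem Zd_ne : Zd m ≠ 0 := by
  have : (16 : S) ≠ 0 := by
    have : (16 : S) = 2 ^ 4 := by norm_num
    rw [this]; exact pow_ne_zero _ h2
  exact mul_ne_zero (mul_ne_zero this (pow_ne_zero _ hm0)) hd0

include h2 hd0 in
theorem Yd_ne : Yd m ≠ 0 := by
  have : (16 : S) ≠ 0 := by
    have : (16 : S) = 2 ^ 4 := by norm_num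
    rw [this]; exact pow_ne_zero _ h2
  exact mul_ne_zero this hd0

include hm h2 hm0 hd0 hz in
theorem D_z : 4 * m ^ 5 * dd m ^ 2 * D z = -((m - 5) ^ 4 * X1 m ^ 3) := by
  have h1 : D (z * Zd m) = D (Zn m) := by rw [hz]
  rw [Derivation.leibniz, D_Zn hm, D_Zd hm] at h1
  simp only [smul_eq_mul] at h1
  apply mul_left_cancel₀ (pow_ne_zero 2 (Zd_ne h2 hm0 hd0))
  have h3 : Zd m ^ 2 * (4 * m ^ 5 * dd m ^ 2 * D z) = Zd m ^ 2 * -((m - 5) ^ 4 * X1 m ^ 3) +
      (4 * m ^ 5 * dd m ^ 2) * Zd m * ((z * (64 * m ^ 3 * dd m + 16 * m ^ 4 * (10 * m - 22)) + Zd m * D z) - -(5 * (m - 5) ^ 4 * (m - 1) + (m - 5) ^ 5))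
      - (4 * m ^ 5 * dd m ^ 2) * (64 * m ^ 3 * dd m + 16 * m ^ 4 * (10 * m - 22)) * (z * Zd m - Zn m) := by
    simp only [Zd, Zn, X1, dd]; ring
  rw [h3, h1, hz]; ring

include hm h2 hm0 hd0 hz in
theorem DD_z : (20 * m ^ 4 * dd m ^ 2 + 8 * m ^ 5 * dd m * (10 * m - 22)) * D z +
    4 * m ^ 5 * dd m ^ 2 * D (D z) = -(4 * (m - 5) ^ 3 * X1 m ^ 3 + 9 * (m - 5) ^ 4 * X1 m ^ 2) := by
  have h1 := congrArg D (D_z hm h2 hm0 hd0 hz)
  simp only [map_add, map_sub, map_neg, Derivation.leibniz, Derivation.leibniz_pow, D_num2, D_num3, D_num4, D_num5, D_num8, D_num11, D_num14, D_num16, D_num22, D_num25, D_num7,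
    smul_eq_mul, nsmul_eq_mul, hm, D_one', D_dd hm, D_X1 hm] at h1
  push_cast at h1
  norm_num at h1
  linear_combination h1

include hm h2 hd0 hw in
theorem D_w : 4 * dd m ^ 2 * D w = -(5 * (m - 1) ^ 4 * (m - 3) ^ 3) := by
  have h1 : D (w * Yd m) = D (Yn m) := by rw [hw]
  rw [Derivation.leibniz, D_Yn hm, D_Yd hm] at h1
  simp only [smul_eq_mul] at h1
  apply mul_left_cancel₀ (pow_ne_zero 2 (Yd_ne h2 hd0))
  have h3 : Yd m ^ 2 * (4 * dd m ^ 2 * D w) = Yd m ^ 2 * -(5 * (m - 1) ^ 4 * (m - 3) ^ 3) +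
      (4 * dd m ^ 2) * Yd m * ((w * (16 * (10 * m - 22)) + Yd m * D w) - -(5 * (m - 1) ^ 4 * (m - 5) + (m - 1) ^ 5))
      - (4 * dd m ^ 2) * (16 * (10 * m - 22)) * (w * Yd m - Yn m) := by
    simp only [Yd, Yn, dd]; ring
  rw [h3, h1, hw]; ring

include hm h2 hd0 hw in
theorem DD_w : 8 * dd m * (10 * m - 22) * D w + 4 * dd m ^ 2 * D (D w) =
    -(20 * (m - 1) ^ 3 * (m - 3) ^ 3 + 15 * (m - 1) ^ 4 * (m - 3) ^ 2) := by
  have h1 := congrArg D (D_w hm h2 hd0 hw)
  simp only [map_add, map_sub, map_neg, Derivation.leibniz, Derivation.leibniz_pow, D_num2, D_num3, D_num4, D_num5, D_num8, D_num11, D_num14, D_num16, D_num22, D_num25, D_num7,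
    smul_eq_mul, nsmul_eq_mul, hm, D_one', D_dd hm] at h1
  push_cast at h1
  norm_num at h1
  linear_combination h1

theorem ne16 (h2 : (2 : S) ≠ 0) : (16 : S) ≠ 0 := by
  have : (16 : S) = 2 ^ 4 := by norm_num
  rw [this]; exact pow_ne_zero _ h2

/-- the factor in front of the error term -/
def K (m : S) : S := -(4 * (m - 5) ^ 4 * X1 m ^ 2)
def K' (m : S) : S := -(100 * m ^ 3 * (m - 1) ^ 4 * (m - 3) ^ 2)

include hm h2 hm0 hd0 hz in
theorem I1 : A0 m * D z ^ 2 = K m * (8 * z * (1 - z)) := by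
  have h1 := D_z hm h2 hm0 hd0 hz
  apply mul_left_cancel₀ (mul_ne_zero (mul_ne_zero (ne16 h2) (pow_ne_zero 2 (Zd_ne h2 hm0 hd0)))
    (mul_ne_zero (pow_ne_zero 10 hm0) (pow_ne_zero 4 hd0)))
  have e1 : 16 * Zd m ^ 2 * (m ^ 10 * dd m ^ 4) * (A0 m * D z ^ 2) =
      Zd m ^ 2 * A0 m * (4 * m ^ 5 * dd m ^ 2 * D z) ^ 2 := by ring
  have e2 : 16 * Zd m ^ 2 * (m ^ 10 * dd m ^ 4) * (K m * (8 * z * (1 - z))) =
      16 * (m ^ 10 * dd m ^ 4) * K m * (8 * (z * Zd m) * (Zd m - z * Zd m)) := by ring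
  rw [e1, e2, h1, hz, Zd_sub_Zn]
  simp only [Zd, Zn, A0, K]
  ring

include hm h2 hm0 hd0 hz in
theorem I2 : A0 m * D (D z) + B0 m * D z = K m * (8 - 14 * z) := by
  have h1 := D_z hm h2 hm0 hd0 hz
  have h3 := DD_z hm h2 hm0 hd0 hz
  apply mul_left_cancel₀ (mul_ne_zero (ne16 h2)
    (mul_ne_zero (pow_ne_zero 10 hm0) (pow_ne_zero 4 hd0)))
  have e1 : 16 * (m ^ 10 * dd m ^ 4) * (A0 m * D (D z) + B0 m * D z) =
      4 * m ^ 5 * dd m ^ 2 * A0 m * ((20 * m ^ 4 * dd m ^ 2 + 8 * m ^ 5 * dd m * (10 * m - 22)) * D z +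
    4 * m ^ 5 * dd m ^ 2 * D (D z)) + (4 * m ^ 5 * dd m ^ 2 * B0 m - A0 m * (20 * m ^ 4 * dd m ^ 2 + 8 * m ^ 5 * dd m * (10 * m - 22))) * (4 * m ^ 5 * dd m ^ 2 * D z) := by ring
  have e2 : 16 * (m ^ 10 * dd m ^ 4) * (K m * (8 - 14 * z)) =
      K m * (128 * (m ^ 10 * dd m ^ 4) - 14 * m ^ 6 * dd m ^ 3 * (z * Zd m)) := by
    simp only [Zd]; ring
  rw [e1, e2, h1, h3, hz]
  simp only [Zn, A0, B0, K, dd, X1, X2]
  ring

theorem I3 : C0 m = - K m := by
  simp only [C0, K]; ring

include hm h2 hd0 hw in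
theorem J1 : A0 m * m * D w ^ 2 = K' m * (8 * w * (1 - w)) := by
  have h1 := D_w hm h2 hd0 hw
  apply mul_left_cancel₀ (mul_ne_zero (mul_ne_zero (ne16 h2) (pow_ne_zero 2 (Yd_ne h2 hd0)))
    (pow_ne_zero 4 hd0))
  have e1 : 16 * Yd m ^ 2 * dd m ^ 4 * (A0 m * m * D w ^ 2) =
      Yd m ^ 2 * A0 m * m * (4 * dd m ^ 2 * D w) ^ 2 := by ring
  have e2 : 16 * Yd m ^ 2 * dd m ^ 4 * (K' m * (8 * w * (1 - w))) =
      16 * dd m ^ 4 * K' m * (8 * (w * Yd m) * (Yd m - w * Yd m)) := by ring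
  have e3 : Yd m - Yn m = (m - 3) ^ 4 * X2 m := by simp only [Yd, Yn, X2, dd]; ring
  rw [e1, e2, h1, hw, e3]
  simp only [Yd, Yn, A0, K']
  ring

include hm h2 hd0 hw in
theorem J2 : 2 * A0 m * D w + m * A0 m * D (D w) + m * B0 m * D w = K' m * (8 - 14 * w) := by
  have h1 := D_w hm h2 hd0 hw
  have h3 := DD_w hm h2 hd0 hw
  apply mul_left_cancel₀ (mul_ne_zero (ne16 h2) (pow_ne_zero 4 hd0))
  have e1 : 16 * dd m ^ 4 * (2 * A0 m * D w + m * A0 m * D (D w) + m * B0 m * D w) =
      4 * dd m ^ 2 * A0 m * m * (8 * dd m * (10 * m - 22) * D w + 4 * dd m ^ 2 * D (D w)) +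
        (4 * dd m ^ 2 * (2 * A0 m + m * B0 m) - A0 m * m * (8 * dd m * (10 * m - 22))) * (4 * dd m ^ 2 * D w) := by ring
  have e2 : 16 * dd m ^ 4 * (K' m * (8 - 14 * w)) =
      K' m * (128 * dd m ^ 4 - 14 * dd m ^ 3 * (w * Yd m)) := by
    simp only [Yd]; ring
  rw [e1, e2, h1, h3, hw]
  simp only [Yn, A0, B0, K', dd, X2]
  ring

theorem J3 : B0 m + m * C0 m = - K' m := by
  simp only [B0, C0, K', dd, X1, X2]; ring

/-- hypergeometric operator -/
noncomputable def op (f : R[X]) : R[X] :=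
  8 * X * (1 - X) * derivative (derivative f) + (8 - 14 * X) * derivative f - f

theorem aeval_op (f : R[X]) (s : S) : aeval s (op f) =
    8 * s * (1 - s) * aeval s (derivative (derivative f)) + (8 - 14 * s) * aeval s (derivative f)
      - aeval s f := by
  have h8 : aeval s (8 : R[X]) = 8 := map_ofNat _ 8
  have h14 : aeval s (14 : R[X]) = 14 := map_ofNat _ 14
  simp only [op, map_sub, map_add, map_mul, map_one, aeval_X, h8, h14]

include hm h2 hm0 hd0 hz in
theorem ode_y1 (f : R[X]) :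
    A0 m * D (D (aeval z f)) + B0 m * D (aeval z f) + C0 m * aeval z f = K m * aeval z (op f) := by
  have i1 := I1 hm h2 hm0 hd0 hz
  have i2 := I2 hm h2 hm0 hd0 hz
  rw [D.map_aeval, smul_eq_mul, D.leibniz, D.map_aeval, aeval_op]
  simp only [smul_eq_mul]
  rw [I3]
  linear_combination aeval z (derivative (derivative f)) * i1 + aeval z (derivative f) * i2

include hm h2 hd0 hw in
theorem ode_y2 (f : R[X]) :
    A0 m * D (D (m * aeval w f)) + B0 m * D (m * aeval w f) + C0 m * (m * aeval w f) =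
      K' m * aeval w (op f) := by
  have i1 := J1 hm h2 hd0 hw
  have i2 := J2 hm h2 hd0 hw
  have i3 := J3 (m := m)
  rw [D.leibniz, D.map_aeval, hm]
  simp only [smul_eq_mul, mul_one]
  rw [map_add, D.leibniz, D.leibniz, D.map_aeval, D.map_aeval, aeval_op, hm]
  simp only [smul_eq_mul, mul_one]
  linear_combination aeval w (derivative (derivative f)) * i1 + aeval w (derivative f) * i2 +
    aeval w f * i3

variable {e a : S} (he : e * (1 - z) = 1) (ha : 4 * D a = a * (e * D z))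

include he in
theorem D_e : D e = e ^ 2 * D z := by
  have h1 : D (e * (1 - z)) = 0 := by rw [he]; exact D.map_one_eq_zero
  rw [D.leibniz, map_sub, D_one'] at h1
  simp only [smul_eq_mul, zero_sub] at h1
  linear_combination e * h1 - D e * he

include h2 he ha in
theorem ode_pfaff {a0 b0 k0 : S} (i1 : a0 * D z ^ 2 = k0 * (8 * z * (1 - z)))
    (i2 : a0 * D (D z) + b0 * D z = k0 * (8 - 14 * z)) (f : R[X]) :
    a0 * D (D (a * aeval (-(z * e)) f)) + b0 * D (a * aeval (-(z * e)) f) -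
      k0 * (a * aeval (-(z * e)) f) = -(a * e * k0 * aeval (-(z * e)) (op f)) := by
  have hDe := D_e (D := D) he
  have hs : D (-(z * e)) = -(e ^ 2 * D z) := by
    rw [map_neg, D.leibniz, hDe]
    simp only [smul_eq_mul]
    linear_combination (e * D z) * he
  have hs2 : D (D (-(z * e))) = -(2 * e ^ 3 * D z ^ 2 + e ^ 2 * D (D z)) := by
    rw [hs, map_neg, D.leibniz, D.leibniz_pow, hDe]
    simp only [smul_eq_mul, nsmul_eq_mul]
    push_cast
    ring
  have ha2 : 16 * D (D a) = a * (5 * e ^ 2 * D z ^ 2 + 4 * e * D (D z)) := by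
    have h1 := congrArg D ha
    rw [D.leibniz, D.leibniz, D.leibniz, D_num4, hDe] at h1
    simp only [smul_eq_mul] at h1
    linear_combination 4 * h1 + e * D z * ha
  have key : ∀ P Q T : S, T = aeval (-(z * e)) f → Q = aeval (-(z * e)) (derivative f) →
      P = aeval (-(z * e)) (derivative (derivative f)) → D T = Q * D (-(z * e)) → D Q = P * D (-(z * e)) →
      16 * (a0 * D (D (a * T)) + b0 * D (a * T) - k0 * (a * T)) =
      -(16 * (a * e * k0 * (8 * (-(z * e)) * (1 - (-(z * e))) * P + (8 - 14 * (-(z * e))) * Q - T))) := by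
    intro P Q T hT hQ hP hDT hDQ
    rw [D.leibniz]
    simp only [smul_eq_mul]
    rw [map_add, D.leibniz, D.leibniz, hDT]
    simp only [smul_eq_mul]
    rw [D.leibniz, hDQ]
    simp only [smul_eq_mul]
    rw [hs2, hs]
    linear_combination (16 * a * e ^ 4 * P - 40 * a * e ^ 3 * Q + 5 * a * e ^ 2 * T) * i1 +
      (-16 * a * e ^ 2 * Q + 4 * a * e * T) * i2 + (-8 * a0 * Q * e ^ 2 * D z + 4 * b0 * T) * ha +
      (a0 * T) * ha2 + k0 * (128 * a * z * e ^ 2 * (e + 1) * P - a * e * (320 * e * z + 128) * Q +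
        a * (40 * e * z + 16) * T) * he
  apply mul_left_cancel₀ (ne16 h2)
  rw [key _ _ _ rfl rfl rfl (D.map_aeval f _) (D.map_aeval (derivative f) _), aeval_op]
  ring

include hm h2 hm0 hd0 hz he ha in
theorem ode_y3 (f : R[X]) :
    A0 m * D (D (a * aeval (-(z * e)) f)) + B0 m * D (a * aeval (-(z * e)) f) +
      C0 m * (a * aeval (-(z * e)) f) = -(a * e * K m * aeval (-(z * e)) (op f)) := by
  rw [← ode_pfaff (D := D) h2 he ha (I1 hm h2 hm0 hd0 hz) (I2 hm h2 hm0 hd0 hz) f, I3]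
  ring

end

end Sc80

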