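import Pool.Agent.Work.MP_f41de7_nt.TrickE
import Pool.Agent.Work.MP_f41de7_nt.Sep

set_option linter.unusedSectionVars false
set_option linter.unusedSimpArgs false

/-! Polynomials for the pole analysis. -/

namespace Sc80
open Polynomial

section
variable {A : Type*} [CommRing A]

theorem hom_scale (u : ℕ → A) (N : ℕ) (c U V : A) :
    hom u N (c * U) (c * V) = c ^ N * hom u N U V := by
  rw [hom, hom, Finset.mul_sum]
  apply Finset.sum_congr rfl
  intro j hj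
  rw [Finset.mem_range] at hj
  have : c ^ N = c ^ j * c ^ (N - j) := by rw [← pow_add]; congr 1; omega
  rw [this]; ring

theorem natDegree_X1 : (X1 (X : A[X])).natDegree ≤ 1 := by
  rw [X1]; compute_degree
theorem natDegree_X2 : (X2 (X : A[X])).natDegree ≤ 2 := by
  rw [X2]; compute_degree

theorem nd_pow {f : A[X]} {d : ℕ} (h : f.natDegree ≤ d) (k : ℕ) : (f ^ k).natDegree ≤ k * d :=
  natDegree_pow_le.trans (Nat.mul_le_mul_left _ h)
theorem nd_mul {f g : A[X]} {d e : ℕ} (hf : f.natDegree ≤ d) (hg : g.natDegree ≤ e) :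
    (f * g).natDegree ≤ d + e := natDegree_mul_le.trans (Nat.add_le_add hf hg)
theorem nd_add {f g : A[X]} {d : ℕ} (hf : f.natDegree ≤ d) (hg : g.natDegree ≤ d) :
    (f + g).natDegree ≤ d := (natDegree_add_le f g).trans (max_le hf hg)
theorem nd_sub {f g : A[X]} {d : ℕ} (hf : f.natDegree ≤ d) (hg : g.natDegree ≤ d) :
    (f - g).natDegree ≤ d := (natDegree_sub_le f g).trans (max_le hf hg)
theorem nd_C (a : A) : (C a).natDegree ≤ 0 := (natDegree_C a).le
theorem nd_num (k : ℕ) [k.AtLeastTwo] : (OfNat.ofNat k : A[X]).natDegree ≤ 0 :=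
  (natDegree_ofNat k).le
theorem nd_up {f : A[X]} {d e : ℕ} (h : f.natDegree ≤ d) (hd : d ≤ e) : f.natDegree ≤ e := h.trans hd
end

namespace Dat
variable {p N : ℕ} [Fact p.Prime] {R : Type*} [CommRing R] [IsDomain R] (L : Dat p N R)
  {n : ℕ} (hn : p = 4 * n + 1)
include L

include hn in
theorem hom_gs_field {K : Type*} [Field K] (g : ZMod p →+* K) (U V : K) (hV : V ≠ 0) :
    hom (fun j => g (L.ub j)) N (-U) (V - U) = (V - U) ^ n * hom (fun j => g (L.ub j)) n U V := by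
  have hN := L.N_eq hn
  have h1 := L.Gs_mod hn
  rw [G_eq_hom, Gs, map_hom', map_hom'] at h1
  simp only [Polynomial.map_neg, Polynomial.map_sub, Polynomial.map_one, map_X] at h1
  have h2 := congrArg (eval₂RingHom g (U / V)) h1
  rw [map_hom, map_mul, map_hom, map_pow] at h2
  simp only [map_neg, map_sub, map_one, coe_eval₂RingHom, eval₂_X, eval₂_C] at h2
  rw [hom_trunc (u := fun j => g (L.ub j)) (n := n) (N := N) (by omega)
    (fun j h1 h2 => by rw [L.ub_eq_zero hn h1 h2, map_zero]) (U / V) 1, one_pow, one_mul] at h2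
  have hs : V * (U / V) = U := by field_simp
  have e1 := hom_scale (fun j => g (L.ub j)) N V (-(U / V)) (1 - U / V)
  have e2 := hom_scale (fun j => g (L.ub j)) n V (U / V) 1
  rw [mul_neg, hs, mul_sub, hs, mul_one, h2] at e1
  rw [hs, mul_one] at e2
  rw [e1, e2]
  have e3 : V - U = V * (1 - U / V) := by rw [mul_sub, hs, mul_one]
  have hNN : V ^ N = V ^ n * V ^ n := by rw [← pow_add]; congr 1; omega
  rw [e3, mul_pow, hNN]
  ring

include hn in
theorem hom_gs {S : Type*} [CommRing S] [IsDomain S] (g : ZMod p →+* S) (U V : S) (hV : V ≠ 0) :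
    hom (fun j => g (L.ub j)) N (-U) (V - U) = (V - U) ^ n * hom (fun j => g (L.ub j)) n U V := by
  apply IsFractionRing.injective S (FractionRing S)
  have hV' : algebraMap S (FractionRing S) V ≠ 0 := by
    rw [Ne, IsFractionRing.to_map_eq_zero_iff]; exact hV
  have := L.hom_gs_field hn ((algebraMap S (FractionRing S)).comp g)
    (algebraMap S (FractionRing S) U) (algebraMap S (FractionRing S) V) hV'
  rw [map_hom, map_mul, map_pow, map_hom, map_sub, map_neg]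
  exact this

/-- `Zd^N Gs(z)` -/
noncomputable def g3 : R[X] := hom (fun j => C (L.u j)) N (-(Zn X)) (Zd X - Zn X)

theorem Zd_ne' : (Zd (X : (ZMod p)[X])) ≠ 0 := by
  intro h
  have h1 := L.cop_X1_Zd
  rw [h] at h1
  have h2 := isCoprime_zero_right.1 h1
  have h3 := natDegree_eq_zero_of_isUnit h2
  have h4 : (X1 (X : (ZMod p)[X])).eval 0 = -5 := by simp [X1]
  have h5 : (X1 (X : (ZMod p)[X])).eval 1 = -2 := by simp [X1]; norm_num
  rw [natDegree_eq_zero] at h3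
  obtain ⟨c, hc⟩ := h3
  rw [← hc, eval_C] at h4 h5
  rw [h4] at h5
  have h6 : (3 : ZMod p) = 0 := by linear_combination -h5
  have h7 : X1 (X : (ZMod p)[X]) = -5 := by
    have : (3 : (ZMod p)[X]) = C 3 := by rw [map_ofNat]
    rw [X1, this, h6, C_0]; ring
  -- if 3 = 0 then use X coefficient of Zd
  have h8 := congrArg (eval 1) h
  have h9 : eval (1 : ZMod p) (Zd (X : (ZMod p)[X])) = 2 ^ 7 := by
    have := map_Zd (evalRingHom (1 : ZMod p)) X
    simp only [coe_evalRingHom, eval_X] at this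
    rw [this, Zd, dd]; norm_num
  rw [h9, eval_zero] at h8
  exact L.pow2_ne 7 h8

include hn in
theorem map_g3 : L.g3.map L.φ = (X1 X ^ 4 * X2 X) ^ n * L.Gh n := by
  have h1 := L.hom_gs hn (C : ZMod p →+* (ZMod p)[X]) (Zn X) (Zd X) L.Zd_ne'
  rw [g3, map_hom', Polynomial.map_neg, Polynomial.map_sub, map_Zn', map_Zd', h1, Zd_sub_Zn, Gh]

theorem natDegree_g1 : L.g1.natDegree ≤ 6 * N := natDegree_hom_le natDegree_Zn natDegree_Zd
theorem natDegree_g2 : L.g2.natDegree ≤ 6 * N :=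
  natDegree_hom_le natDegree_Yn (natDegree_Yd.trans (by norm_num))
theorem natDegree_g3 : L.g3.natDegree ≤ 6 * N :=
  natDegree_hom_le (by rw [natDegree_neg]; exact natDegree_Zn) (nd_sub natDegree_Zd natDegree_Zn)

include hn in
theorem sixteen_pow : (16 : ZMod p) ^ n = 1 := by
  have : (16 : ZMod p) ^ n = 2 ^ (p - 1) := by
    rw [show (16 : ZMod p) = 2 ^ 4 from by norm_num, ← pow_mul]; congr 1; omega
  rw [this]; exact ZMod.pow_card_sub_one_eq_one L.two_ne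

include hn in
theorem Zd_pow_n {S : Type*} [CommRing S] [Algebra (ZMod p) S] (m : S) :
    Zd m ^ n = m ^ (4 * n) * dd m ^ n := by
  have h16 : (16 : S) ^ n = 1 := by
    have := congrArg (algebraMap (ZMod p) S) (L.sixteen_pow hn)
    rw [map_pow, map_ofNat, map_one] at this
    exact this
  rw [Zd, mul_pow, mul_pow, h16, one_mul, ← pow_mul]

end Dat

/-- the auxiliary polynomials -/
structure PD {p N : ℕ} [Fact p.Prime] {R : Type*} [CommRing R] [IsDomain R] (L : Dat p N R) (n : ℕ) where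
  a2 : R[X]
  b1 : R[X]
  d1 : R[X]
  d2 : R[X]
  d4 : R[X]
  q : R
  ha2 : X ^ (p - 1) * L.g2 - L.g1 = C (p : R) * a2
  hb1 : (X1 X ^ 4 * X2 X) ^ n * L.g1 - Zd X ^ n * L.g3 = C (p : R) * b1
  hd1 : X1 (X ^ p) - X1 X ^ p = C (p : R) * d1
  hd2 : X2 (X ^ p) - X2 X ^ p = C (p : R) * d2
  hd4 : dd (X ^ p) - dd X ^ p = C (p : R) * d4
  hq : (16 : R) ^ p = 16 * (1 + p * q)
  na2 : a2.natDegree ≤ 16 * n
  nb1 : b1.natDegree ≤ 18 * n
  nd1 : d1.natDegree ≤ p
  nd2 : d2.natDegree ≤ 2 * p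
  nd4 : d4.natDegree ≤ 2 * p

namespace PD
variable {p N : ℕ} [Fact p.Prime] {R : Type*} [CommRing R] [IsDomain R] (L : Dat p N R)
  {n : ℕ} (hn : p = 4 * n + 1)
include L hn

theorem mk_div {f : R[X]} {d : ℕ} (h : f.map L.φ = 0) (hd : f.natDegree ≤ d) :
    ∃ g : R[X], f = C (p : R) * g ∧ g.natDegree ≤ d := by
  obtain ⟨g, hg⟩ := L.toLoc.map_eq_zero h
  refine ⟨g, hg, ?_⟩
  rw [hg, natDegree_C_mul L.p0] at hd
  exact hd

theorem nonempty : Nonempty (PD L n) := by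
  have hN := L.N_eq hn
  have hp := (Fact.out : p.Prime).two_le
  have mX1 : ∀ f : R[X], (X1 f).map L.φ = X1 (f.map L.φ) := fun f => by
    have := map_X1 (mapRingHom L.φ) f
    simpa using this
  have mX2 : ∀ f : R[X], (X2 f).map L.φ = X2 (f.map L.φ) := fun f => by
    have := map_X2 (mapRingHom L.φ) f
    simpa using this
  have mdd : ∀ f : R[X], (dd f).map L.φ = dd (f.map L.φ) := fun f => by
    have := map_dd (mapRingHom L.φ) f
    simpa using this
  have fX1 : X1 ((X : (ZMod p)[X]) ^ p) = X1 X ^ p := by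
    have := map_X1 (frobenius (ZMod p)[X] p) X
    simpa [frobenius_def] using this.symm
  have fX2 : X2 ((X : (ZMod p)[X]) ^ p) = X2 X ^ p := by
    have := map_X2 (frobenius (ZMod p)[X] p) X
    simpa [frobenius_def] using this.symm
  have fdd : dd ((X : (ZMod p)[X]) ^ p) = dd X ^ p := by
    have := map_dd (frobenius (ZMod p)[X] p) X
    simpa [frobenius_def] using this.symm
  obtain ⟨a2, ha2, na2⟩ := mk_div L hn (f := X ^ (p - 1) * L.g2 - L.g1) (d := 16 * n) (by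
    rw [Polynomial.map_sub, Polynomial.map_mul, Polynomial.map_pow, map_X, L.map_g1 hn, L.map_g2 hn,
      L.Gh_eq hn, Zd_eq, mul_pow, ← pow_mul, show p - 1 = 4 * n from by omega]
    ring) (by
      apply nd_sub
      · exact nd_up (nd_mul (nd_pow natDegree_X_le _) L.natDegree_g2) (by omega)
      · exact nd_up L.natDegree_g1 (by omega))
  obtain ⟨b1, hb1, nb1⟩ := mk_div L hn
    (f := (X1 X ^ 4 * X2 X) ^ n * L.g1 - Zd X ^ n * L.g3) (d := 18 * n) (by
    rw [Polynomial.map_sub, Polynomial.map_mul, Polynomial.map_pow, Polynomial.map_mul, Polynomial.map_pow,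
      mX1, mX2, map_X, Polynomial.map_mul, Polynomial.map_pow, Dat.map_Zd' L, L.map_g1 hn, L.map_g3 hn]
    ring) (by
      apply nd_sub
      · exact nd_up (nd_mul (nd_pow (nd_mul (nd_pow natDegree_X1 4) natDegree_X2) n) L.natDegree_g1)
          (by omega)
      · exact nd_up (nd_mul (nd_pow natDegree_Zd n) L.natDegree_g3) (by omega))
  have hXp : ((X : R[X]) ^ p).natDegree ≤ p := natDegree_X_pow_le _
  obtain ⟨d1, hd1, nd1⟩ := mk_div L hn (f := X1 ((X : R[X]) ^ p) - X1 X ^ p) (d := p) (by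
    rw [Polynomial.map_sub, mX1, Polynomial.map_pow, Polynomial.map_pow, mX1, map_X, fX1, sub_self]) (by
      apply nd_sub
      · rw [X1]
        exact nd_sub (nd_up (nd_mul (nd_num 3) hXp) (by omega)) (nd_up (nd_num 5) (by omega))
      · exact nd_up (nd_pow natDegree_X1 p) (by omega))
  obtain ⟨d2, hd2, nd2⟩ := mk_div L hn (f := X2 ((X : R[X]) ^ p) - X2 X ^ p) (d := 2 * p) (by
    rw [Polynomial.map_sub, mX2, Polynomial.map_pow, Polynomial.map_pow, mX2, map_X, fX2, sub_self]) (by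
      apply nd_sub
      · rw [X2]
        exact nd_add (nd_add (nd_pow hXp 2) (nd_up (nd_mul (nd_num 2) hXp) (by omega)))
          (nd_up (nd_num 5) (by omega))
      · exact nd_up (nd_pow natDegree_X2 p) (by omega))
  obtain ⟨d4, hd4, nd4⟩ := mk_div L hn (f := dd ((X : R[X]) ^ p) - dd X ^ p) (d := 2 * p) (by
    rw [Polynomial.map_sub, mdd, Polynomial.map_pow, Polynomial.map_pow, mdd, map_X, fdd, sub_self]) (by
      apply nd_sub
      · rw [dd]
        exact nd_add (nd_sub (nd_up (nd_mul (nd_num 5) (nd_pow hXp 2)) (by omega))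
          (nd_up (nd_mul (nd_num 22) hXp) (by omega)))
          (nd_up (nd_num 25) (by omega))
      · exact nd_up (nd_pow natDegree_dd p) (by omega))
  obtain ⟨q, hq⟩ : ∃ q, (16 : R) ^ (p - 1) = 1 + p * q := by
    have h1 : L.φ ((16 : R) ^ (p - 1) - 1) = 0 := by
      rw [map_sub, map_pow, map_one, map_ofNat, ZMod.pow_card_sub_one_eq_one, sub_self]
      have : (16 : ZMod p) = 2 ^ 4 := by norm_num
      rw [this]; exact L.pow2_ne 4
    obtain ⟨q, hq⟩ := L.ker _ h1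
    exact ⟨q, by linear_combination hq⟩
  refine ⟨⟨a2, b1, d1, d2, d4, q, ha2, hb1, hd1, hd2, hd4, ?_, na2, nb1, nd1, nd2, nd4⟩⟩
  rw [← hq, ← pow_succ']
  congr 1; omega

end PD

end Sc80

/-! The first order expansion of `ν`. -/

namespace Sc80
open Polynomial

section jet
variable {S : Type*} [CommRing S]

/-- `x = x0 + P x1` modulo `P^2` -/
def Jet (P x x0 x1 : S) : Prop := ∃ j, x = x0 + P * x1 + P ^ 2 * j

theorem Jet.mul {P x x0 x1 y y0 y1 : S} (hx : Jet P x x0 x1) (hy : Jet P y y0 y1) :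
    Jet P (x * y) (x0 * y0) (x0 * y1 + x1 * y0) := by
  obtain ⟨i, rfl⟩ := hx
  obtain ⟨j, rfl⟩ := hy
  exact ⟨x0 * j + x1 * y1 + i * y0 + P * (x1 * j + i * y1) + P ^ 2 * (i * j), by ring⟩

theorem Jet.add {P x x0 x1 y y0 y1 : S} (hx : Jet P x x0 x1) (hy : Jet P y y0 y1) :
    Jet P (x + y) (x0 + y0) (x1 + y1) := by
  obtain ⟨i, rfl⟩ := hx
  obtain ⟨j, rfl⟩ := hy
  exact ⟨i + j, by ring⟩

theorem Jet.pow4 {P x x0 x1 : S} (hx : Jet P x x0 x1) : Jet P (x ^ 4) (x0 ^ 4) (4 * x0 ^ 3 * x1) := by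
  have h2 := hx.mul hx
  have h4 := h2.mul h2
  convert h4 using 1 <;> ring

theorem Jet.const (P x : S) : Jet P x x 0 := ⟨0, by ring⟩

theorem Jet.pmul {P x x0 x1 : S} (v : S) (hx : Jet P x x0 x1) : Jet P (P * v * x) 0 (v * x0) := by
  obtain ⟨i, rfl⟩ := hx
  exact ⟨v * x1 + P * v * i, by ring⟩

theorem Jet.cmp [IsDomain S] {P x x0 x1 y1 : S} (hP : P ≠ 0) (hx : Jet P x x0 x1) (hy : Jet P x x0 y1) :
    ∃ j, x1 = y1 + P * j := by
  obtain ⟨i, hi⟩ := hx
  obtain ⟨j, hj⟩ := hy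
  refine ⟨j - i, ?_⟩
  apply mul_left_cancel₀ hP
  linear_combination hj - hi

/-- the function `S_m` -/
def Sm (p : ℕ) (m τ κ q δ1 δ2 δ4 : S) : S :=
  m ^ p * dd m ^ p * (4 * X2 m ^ p * (δ1 + 3 * τ) + X1 m ^ p * (δ2 + (2 * m ^ p + 2) * τ) +
    (q - 4 * κ) * X1 m ^ p * X2 m ^ p) -
  X1 m ^ p * X2 m ^ p * (4 * τ * dd m ^ p + m ^ p * (δ4 + (10 * m ^ p - 22) * τ))

theorem jet_main [IsDomain S] {P : S} {p : ℕ} {m T V Z ν τ κ q δ1 δ2 δ4 z : S} (hP : P ≠ 0)
    (hT : T = m ^ p + P * τ)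
    (h1 : X1 (m ^ p) = X1 m ^ p + P * δ1)
    (h2 : X2 (m ^ p) = X2 m ^ p + P * δ2)
    (h4 : dd (m ^ p) = dd m ^ p + P * δ4)
    (h16 : (16 : S) ^ p = 16 * (1 + P * q))
    (hz : (1 - z) * Zd m = X1 m ^ 4 * X2 m)
    (hV : V * (1 - P * κ) ^ 4 = (1 - z) ^ p)
    (hZ : 1 - Z = V + P * ν)
    (hZT : Z * Zd T = Zn T) :
    ∃ j, 16 * m ^ (3 * p) * (ν * Zd m ^ p * (m ^ p * dd m ^ p)) =
      16 * m ^ (3 * p) * (X1 m ^ (3 * p) * Sm p m τ κ q δ1 δ2 δ4) + P * j := by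
  have jT : Jet P T (m ^ p) τ := ⟨0, by rw [hT]; ring⟩
  have j1 : Jet P (X1 T) (X1 m ^ p) (δ1 + 3 * τ) := by
    refine ⟨0, ?_⟩
    have : X1 T = X1 (m ^ p) + 3 * (P * τ) := by rw [hT]; simp only [X1]; ring
    rw [this, h1]; ring
  have j2 : Jet P (X2 T) (X2 m ^ p) (δ2 + (2 * m ^ p + 2) * τ) := by
    refine ⟨τ ^ 2, ?_⟩
    have : X2 T = X2 (m ^ p) + (2 * m ^ p + 2) * (P * τ) + (P * τ) ^ 2 := by
      rw [hT]; simp only [X2]; ring
    rw [this, h2]; ring
  have j4 : Jet P (dd T) (dd m ^ p) (δ4 + (10 * m ^ p - 22) * τ) := by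
    refine ⟨5 * τ ^ 2, ?_⟩
    have : dd T = dd (m ^ p) + (10 * m ^ p - 22) * (P * τ) + 5 * (P * τ) ^ 2 := by
      rw [hT]; simp only [dd]; ring
    rw [this, h4]; ring
  have jκ : Jet P ((1 - P * κ) ^ 4) (1 ^ 4) (4 * 1 ^ 3 * (-κ)) := Jet.pow4 ⟨0, by ring⟩
  have jZ : Jet P (Zd m ^ p) (16 * (m ^ p) ^ 4 * dd m ^ p) (16 * (m ^ p) ^ 4 * dd m ^ p * q) := by
    refine ⟨0, ?_⟩
    rw [Zd, mul_pow, mul_pow, h16]; ring
  have jZT : Jet P (Zd T) _ _ := ((Jet.const P 16).mul jT.pow4).mul j4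
  have ja := (jκ.mul jZ).mul (j1.pow4.mul j2)
  have jb := ((Jet.const P ((X1 m ^ 4 * X2 m) ^ p)).add (Jet.pmul ν (jκ.mul jZ))).mul jZT
  have e : (1 - P * κ) ^ 4 * Zd m ^ p * (X1 T ^ 4 * X2 T) =
      ((X1 m ^ 4 * X2 m) ^ p + P * ν * ((1 - P * κ) ^ 4 * Zd m ^ p)) * Zd T := by
    rw [← Zd_sub_Zn, ← hZT, ← hz, mul_pow, ← hV]
    linear_combination (1 - P * κ) ^ 4 * Zd m ^ p * Zd T * hZ
  rw [e] at ja
  have e0 : 1 ^ 4 * (16 * (m ^ p) ^ 4 * dd m ^ p) * ((X1 m ^ p) ^ 4 * X2 m ^ p) =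
      ((X1 m ^ 4 * X2 m) ^ p + 0) * (16 * (m ^ p) ^ 4 * dd m ^ p) := by
    ring
  rw [e0] at ja
  obtain ⟨j, hj⟩ := jb.cmp hP ja
  refine ⟨j + q * (16 * m ^ (3 * p) * (ν * (16 * m ^ (4 * p) * dd m ^ p) * (m ^ p * dd m ^ p))), ?_⟩
  rw [Zd, Sm, mul_pow, mul_pow, h16]
  linear_combination hj

theorem map_Sm {S' : Type*} [CommRing S'] (f : S →+* S') (p : ℕ) (m τ κ q δ1 δ2 δ4 : S) :
    f (Sm p m τ κ q δ1 δ2 δ4) = Sm p (f m) (f τ) (f κ) (f q) (f δ1) (f δ2) (f δ4) := by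
  simp only [Sm, map_sub, map_add, map_mul, map_pow, map_ofNat, map_dd, map_X1, map_X2]
end jet

theorem Loc.psi_aeval {p : ℕ} [Fact p.Prime] {R : Type*} [CommRing R] (L : Loc p R) (c : R) (f : R[X]) :
    L.ψ (aeval (mc c) f) = aeval (mc (L.φ c)) (f.map L.φ) := by
  rw [aeval_def, aeval_def, hom_eval₂, eval₂_map, L.ψ_mc]
  congr 1
  ext x
  simp [Loc.ψ]

variable {p N : ℕ} [Fact p.Prime] {R : Type*} [CommRing R] [IsDomain R] {L : Dat p N R}
  {n : ℕ} (hn : p = 4 * n + 1) (E : Ctr L)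

namespace Ctr

theorem psi_aeval (L : Dat p N R) (f : R[X]) :
    L.toLoc.ψ (aeval (mc 1) f) = aeval (mc 1) (f.map L.φ) := by
  rw [L.toLoc.psi_aeval, map_one]

theorem aeval_g3 : aeval (mc (1 : R)) L.g3 = Zd (mc 1) ^ N * aeval E.z (Gs L.u N) := by
  rw [Dat.g3, Gs, map_hom, map_hom]
  simp only [map_neg, map_sub, map_Zn, map_Zd, aeval_X, aeval_C, map_one]
  rw [← hom_scale]
  congr 1
  · rw [← E.hz]; ring
  · rw [← E.hz]; ring

theorem g3_pow : aeval (mc (1 : R)) L.g3 ^ 4 =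
    Zd (mc 1) ^ (4 * N) * (1 - E.z) ^ (4 * N + 1) * E.y3 ^ 4 := by
  rw [E.aeval_g3, aeval_Gs L.u N E.he, y3, mul_pow E.a, E.ha]
  linear_combination (-(Zd (mc 1) ^ (4 * N) * (1 - E.z) ^ (4 * N) * aeval (-(E.z * E.e)) (G L.u N) ^ 4)) * E.he

theorem one_sub_z : (1 - E.z) * Zd (mc (1 : R)) = X1 (mc 1) ^ 4 * X2 (mc 1) := by
  rw [← Zd_sub_Zn, ← E.hz]; ring

theorem V_mul : E.V * aeval (mc (1 : R)) L.g3 ^ 4 =
    aeval (mc (1 : R)) L.g1 ^ 4 * (1 - E.z) ^ (4 * N + 1) := by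
  have e3 : (E.y3 * E.v3) ^ 4 = 1 := by rw [E.hv3', one_pow]
  rw [E.g3_pow, E.aeval_g1, V]
  linear_combination (E.y1 ^ 4 * Zd (mc 1) ^ (4 * N) * (1 - E.z) ^ (4 * N + 1)) * e3

theorem y1T : E.y1 * E.T = E.y2 := by
  rw [T]; linear_combination E.y2 * E.hv1'

theorem unit_one_sub : IsUnit (1 - E.z) := by
  rw [PowerSeries.isUnit_iff_constantCoeff, map_sub, E.hz0, sub_zero]
  simp

theorem unit_y1 : IsUnit E.y1 := IsUnit.of_mul_eq_one _ E.hv1'

theorem cc_y1 : PowerSeries.constantCoeff E.y1 = 1 := cc_aeval_G E.hz0 L.hu0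
theorem cc_y3 : PowerSeries.constantCoeff E.y3 = 1 := by
  rw [y3, map_mul, E.ha1, cc_aeval_G (by rw [map_neg, map_mul, E.hz0]; simp) L.hu0, one_mul]
theorem cc_T : PowerSeries.constantCoeff E.T = 1 := by
  have h1 := congrArg PowerSeries.constantCoeff E.hv1'
  rw [map_mul, E.cc_y1, one_mul, map_one] at h1
  rw [T, map_mul, h1, y2, map_mul, cc_aeval_G E.hw0 L.hu0, cc_mc]
  ring
theorem cc_V : PowerSeries.constantCoeff E.V = 1 := by
  have h1 := congrArg PowerSeries.constantCoeff E.hv3'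
  rw [map_mul, E.cc_y3, one_mul, map_one] at h1
  rw [V, map_pow, map_mul, h1, E.cc_y1]
  ring
theorem cc_zT : PowerSeries.constantCoeff E.zT = 0 := by
  have h1 := congrArg PowerSeries.constantCoeff E.hzT'
  rw [map_mul, map_Zd, map_Zn, E.cc_T] at h1
  have h2 : Zn (1 : R) = 0 := by simp [Zn]
  have h3 : IsUnit (Zd (1 : R)) := by
    have : Zd (1 : R) = 2 ^ 7 := by simp only [Zd, dd]; norm_num
    rw [this]; exact L.unit2.pow 7
  rw [h2] at h1
  exact (mul_eq_zero.1 h1).resolve_right h3.ne_zero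

include hn in
theorem nu_data (Q : PD L n) : ∃ ν τ κ : PowerSeries R,
    1 - E.zT = E.V + (p : PowerSeries R) * ν ∧
    PowerSeries.derivative (ZMod p) (L.toLoc.ψ ν) = 0 ∧
    PowerSeries.constantCoeff ν = 0 ∧
    aeval (mc (1 : R)) L.g1 * τ = mc 1 ^ p * aeval (mc 1) Q.a2 ∧
    κ * ((X1 (mc 1) ^ 4 * X2 (mc 1)) ^ n * aeval (mc (1 : R)) L.g1) = aeval (mc 1) Q.b1 ∧
    L.toLoc.ψ ν * Zd (mc 1) ^ p * (mc 1 ^ p * dd (mc 1) ^ p) =
      X1 (mc 1) ^ (3 * p) * Sm p (mc 1) (L.toLoc.ψ τ) (L.toLoc.ψ κ) (PowerSeries.C (L.φ Q.q))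
        (aeval (mc 1) (Q.d1.map L.φ)) (aeval (mc 1) (Q.d2.map L.φ)) (aeval (mc 1) (Q.d4.map L.φ)) := by
  have hN := L.N_eq hn
  obtain ⟨ν, hν, hDν⟩ := E.nu_deriv hn
  obtain ⟨τ, hτ⟩ := E.T_mod hn
  have hP0 : (p : PowerSeries R) ≠ 0 := L.toLoc.ψ_natCast_ne
  have hCp : (algebraMap R (PowerSeries R)) (p : R) = (p : PowerSeries R) := by simp
  have hψP : L.toLoc.ψ (p : PowerSeries R) = 0 := L.toLoc.ψ_p
  have ev : ∀ {f g : R[X]}, f = g → aeval (mc (1 : R)) f = aeval (mc 1) g := fun h => by rw [h]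
  set P : PowerSeries R := (p : PowerSeries R) with hP
  -- τ
  have hτ2 : aeval (mc (1 : R)) L.g1 * τ = mc 1 ^ p * aeval (mc 1) Q.a2 := by
    have h1 := ev Q.ha2
    rw [map_sub, map_mul, map_mul, map_pow, aeval_X, aeval_C, hCp] at h1
    have h2 := E.aeval_g2
    rw [map_mul, map_pow, aeval_X, show 4 * N + 1 = p + (p - 1) from by omega, pow_add] at h2
    have h3 := E.aeval_g1
    have h4 := E.y1T
    apply mul_left_cancel₀ hP0
    rw [hτ] at h4
    linear_combination mc 1 ^ p * h1 - h2 + Zd (mc 1) ^ N * h4 + (mc 1 ^ p + P * τ) * h3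
  -- κ
  have hug1 : IsUnit (aeval (mc (1 : R)) L.g1) := by
    rw [E.aeval_g1]; exact ((unitZd L).pow N).mul E.unit_y1
  have huW : IsUnit ((X1 (mc 1) ^ 4 * X2 (mc 1)) ^ n * aeval (mc (1 : R)) L.g1) := by
    rw [← E.one_sub_z]
    exact ((E.unit_one_sub.mul (unitZd L)).pow n).mul hug1
  obtain ⟨κ, hκ⟩ : ∃ κ, κ * ((X1 (mc 1) ^ 4 * X2 (mc 1)) ^ n * aeval (mc (1 : R)) L.g1) =
      aeval (mc 1) Q.b1 := by
    obtain ⟨i, hi⟩ := huW.exists_left_inv
    exact ⟨aeval (mc 1) Q.b1 * i, by rw [mul_assoc, hi, mul_one]⟩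
  have hκ2 : aeval (mc (1 : R)) L.g3 = (1 - P * κ) * (1 - E.z) ^ n * aeval (mc 1) L.g1 := by
    have h1 := ev Q.hb1
    rw [map_sub, map_mul, map_mul, map_pow, map_pow, map_mul, map_pow, map_X1, map_X2, map_Zd, aeval_X,
      map_mul, aeval_C, hCp, ← hκ, ← E.one_sub_z, mul_pow] at h1
    apply mul_left_cancel₀ ((unitZd L).pow n).ne_zero
    linear_combination -h1
  have hV : E.V * (1 - P * κ) ^ 4 = (1 - E.z) ^ p := by
    have h1 := E.V_mul
    rw [hκ2, show 4 * N + 1 = p + 4 * n from by omega, pow_add] at h1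
    apply mul_left_cancel₀ ((hug1.pow 4).mul (E.unit_one_sub.pow (4 * n))).ne_zero
    linear_combination h1
  have h1 : X1 (mc (1 : R) ^ p) = X1 (mc 1) ^ p + P * aeval (mc 1) Q.d1 := by
    have h1 := ev Q.hd1
    rw [map_sub, map_X1, map_pow, map_pow, map_X1, aeval_X, map_mul, aeval_C, hCp] at h1
    linear_combination h1
  have h2 : X2 (mc (1 : R) ^ p) = X2 (mc 1) ^ p + P * aeval (mc 1) Q.d2 := by
    have h1 := ev Q.hd2
    rw [map_sub, map_X2, map_pow, map_pow, map_X2, aeval_X, map_mul, aeval_C, hCp] at h1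
    linear_combination h1
  have h4 : dd (mc (1 : R) ^ p) = dd (mc 1) ^ p + P * aeval (mc 1) Q.d4 := by
    have h1 := ev Q.hd4
    rw [map_sub, map_dd, map_pow, map_pow, map_dd, aeval_X, map_mul, aeval_C, hCp] at h1
    linear_combination h1
  have h16 : (16 : PowerSeries R) ^ p = 16 * (1 + P * PowerSeries.C Q.q) := by
    have h1 := congrArg (PowerSeries.C (R := R)) Q.hq
    rw [map_pow, map_mul, map_add, map_mul, map_one, map_ofNat, map_natCast] at h1
    exact h1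
  obtain ⟨j, hj⟩ := jet_main hP0 hτ h1 h2 h4 h16 E.one_sub_z hV hν E.hzT'
  refine ⟨ν, τ, κ, hν, hDν, ?_, hτ2, hκ, ?_⟩
  · have h5 := congrArg PowerSeries.constantCoeff hν
    rw [map_sub, map_one, E.cc_zT, map_add, E.cc_V, map_mul, hP, map_natCast, sub_zero] at h5
    have h6 : (p : R) * PowerSeries.constantCoeff ν = 0 := by linear_combination -h5
    exact (mul_eq_zero.1 h6).resolve_left L.p0
  · have h5 := congrArg L.toLoc.ψ hj
    rw [map_add, map_mul, map_mul _ P, hψP, zero_mul, add_zero, map_mul, map_mul, map_mul, map_mul,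
      map_pow, map_pow, map_mul, map_pow, map_pow, map_ofNat, map_mul _ _ (Sm _ _ _ _ _ _ _ _), map_pow, map_Sm,
      map_dd, map_X1, map_Zd,
      L.toLoc.ψ_mc, psi_aeval, psi_aeval, psi_aeval, map_one, map_mul L.toLoc.ψ 16, map_ofNat, map_pow,
      L.toLoc.ψ_mc, map_one] at h5
    have h16' : (16 : PowerSeries (ZMod p)) ≠ 0 := by
      have : (16 : PowerSeries (ZMod p)) = 2 ^ 4 := by norm_num
      rw [this]
      apply pow_ne_zero
      exact (unit_two_ps (isUnit_iff_ne_zero.2 L.two_ne)).ne_zero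
    have hm0 : mc (1 : ZMod p) ≠ 0 := by
      intro h
      have := congrArg PowerSeries.constantCoeff h
      rw [cc_mc, map_zero] at this
      exact one_ne_zero this
    have h7 := mul_left_cancel₀ (mul_ne_zero h16' (pow_ne_zero _ hm0)) h5
    rw [h7]
    congr 2
    simp [Loc.ψ]

end Ctr

end Sc80

/-! The pole analysis. -/

namespace Sc80
open Polynomial

section
variable {k : Type*} [Field k]

theorem iota_inj (c : k) {f g : k[X]} (h : aeval (mc c) f = aeval (mc c) g) : f = g := by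
  rw [iota_eq, iota_eq] at h
  have h1 := Polynomial.coe_injective k h
  have h2 := congrArg (fun t => t.comp (X - C c)) h1
  simp only [comp_assoc] at h2
  simpa using h2

theorem D_iota (c : k) (f : k[X]) :
    PowerSeries.derivative k (aeval (mc c) f) = aeval (mc c) (derivative f) := by
  rw [Derivation.map_aeval, D_mc, smul_eq_mul, mul_one]
end

variable {p N : ℕ} [Fact p.Prime] {R : Type*} [CommRing R] [IsDomain R] {L : Dat p N R}
  {n : ℕ} (hn : p = 4 * n + 1)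

namespace PD
variable (Q : PD L n)

/-- the polynomial `P_S` -/
noncomputable def PS : (ZMod p)[X] :=
  X ^ p * dd X ^ p * (4 * X2 X ^ p * (Q.d1.map L.φ * (dd X ^ n * L.Gh n) + 3 * (X * Q.a2.map L.φ)) +
    X1 X ^ p * (Q.d2.map L.φ * (dd X ^ n * L.Gh n) + (2 * X ^ p + 2) * (X * Q.a2.map L.φ)) +
    C (L.φ Q.q) * X1 X ^ p * X2 X ^ p * (dd X ^ n * L.Gh n)) -
  4 * (X * X1 X * X2 X ^ (p - n) * dd X ^ p * Q.b1.map L.φ) -
  X1 X ^ p * X2 X ^ p * (4 * dd X ^ p * (X * Q.a2.map L.φ) +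
    X ^ p * (Q.d4.map L.φ * (dd X ^ n * L.Gh n) + (10 * X ^ p - 22) * (X * Q.a2.map L.φ)))

include hn in
theorem natDegree_PS : Q.PS.natDegree ≤ 9 * p - 3 := by
  have hp := (Fact.out : p.Prime).two_le
  have hX : (X : (ZMod p)[X]).natDegree ≤ 1 := natDegree_X_le
  have hXp : ((X : (ZMod p)[X]) ^ p).natDegree ≤ p := natDegree_X_pow_le _
  have ha2 : (X * Q.a2.map L.φ).natDegree ≤ 1 + 16 * n :=
    nd_mul hX (natDegree_map_le.trans Q.na2)
  have hb1 : (Q.b1.map L.φ).natDegree ≤ 18 * n := natDegree_map_le.trans Q.nb1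
  have hd1 : (Q.d1.map L.φ).natDegree ≤ p := natDegree_map_le.trans Q.nd1
  have hd2 : (Q.d2.map L.φ).natDegree ≤ 2 * p := natDegree_map_le.trans Q.nd2
  have hd4 : (Q.d4.map L.φ).natDegree ≤ 2 * p := natDegree_map_le.trans Q.nd4
  have hD : (dd X ^ n * L.Gh n).natDegree ≤ 8 * n :=
    nd_up (nd_mul (nd_pow natDegree_dd n) (L.natDegree_Gh hn).le) (by omega)
  have hdd : (dd (X : (ZMod p)[X]) ^ p).natDegree ≤ 2 * p := nd_up (nd_pow natDegree_dd p) (by omega)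
  have hX2 : (X2 (X : (ZMod p)[X]) ^ p).natDegree ≤ 2 * p := nd_up (nd_pow natDegree_X2 p) (by omega)
  have hX1 : (X1 (X : (ZMod p)[X]) ^ p).natDegree ≤ p := nd_up (nd_pow natDegree_X1 p) (by omega)
  have h4 : (4 : (ZMod p)[X]).natDegree ≤ 0 := nd_num 4
  have h3 : (3 : (ZMod p)[X]).natDegree ≤ 0 := nd_num 3
  rw [PS]
  apply nd_sub
  · apply nd_sub
    · refine nd_up (e := 9 * p - 3) (d := (p + 2 * p) + (6 * p - 3)) (nd_mul (nd_mul hXp hdd) ?_) (by omega)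
      apply nd_add
      · apply nd_add
        · refine nd_up (d := (0 + 2 * p) + (4 * p - 3)) (nd_mul (nd_mul h4 hX2) ?_) (by omega)
          apply nd_add
          · exact nd_up (nd_mul hd1 hD) (by omega)
          · exact nd_up (nd_mul h3 ha2) (by omega)
        · refine nd_up (d := p + (5 * p - 3)) (nd_mul hX1 ?_) (by omega)
          apply nd_add
          · exact nd_up (nd_mul hd2 hD) (by omega)
          · refine nd_up (d := p + (1 + 16 * n)) (nd_mul ?_ ha2) (by omega)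
            exact nd_add (nd_up (nd_mul (nd_num 2) hXp) (by omega)) (nd_up (nd_num 2) (by omega))
      · exact nd_up (nd_mul (nd_mul (nd_mul (nd_C _) hX1) hX2) hD) (by omega)
    · exact nd_up (nd_mul h4 (nd_mul (nd_mul (nd_mul (nd_mul hX natDegree_X1)
        (nd_pow natDegree_X2 (p - n))) hdd) hb1)) (by omega)
  · refine nd_up (d := (p + 2 * p) + (6 * p - 3)) (nd_mul (nd_mul hX1 hX2) ?_) (by omega)
    apply nd_add
    · exact nd_up (nd_mul (nd_mul h4 hdd) ha2) (by omega)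
    · refine nd_up (d := p + (5 * p - 3)) (nd_mul hXp ?_) (by omega)
      apply nd_add
      · exact nd_up (nd_mul hd4 hD) (by omega)
      · refine nd_up (d := p + (1 + 16 * n)) (nd_mul ?_ ha2) (by omega)
        exact nd_sub (nd_up (nd_mul (nd_num 10) hXp) (by omega)) (nd_up (nd_num 22) (by omega))

include hn in
theorem X_dvd_PS : X ∣ Q.PS := by
  have hp : X ∣ (X : (ZMod p)[X]) ^ p := dvd_pow_self _ (by omega)
  rw [PS]
  apply dvd_sub
  · apply dvd_sub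
    · exact (hp.mul_right _).mul_right _
    · exact ((((dvd_mul_right _ _).mul_right _).mul_right _).mul_right _).mul_left _
  · apply Dvd.dvd.mul_left
    apply dvd_add
    · exact (dvd_mul_right _ _).mul_left _
    · exact hp.mul_right _

include hn in
theorem PS_Sm {τ κ : PowerSeries (ZMod p)}
    (hτ : aeval (mc 1) (dd X ^ n * L.Gh n) * τ = mc 1 * aeval (mc 1) (Q.a2.map L.φ))
    (hκ : κ * aeval (mc 1) (dd X ^ n * L.Gh n) * X1 (mc 1) ^ p * X2 (mc 1) ^ p * mc 1 ^ p =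
      mc 1 * X1 (mc 1) * X2 (mc 1) ^ (p - n) * aeval (mc 1) (Q.b1.map L.φ)) :
    aeval (mc 1) Q.PS = aeval (mc 1) (dd X ^ n * L.Gh n) * Sm p (mc 1) τ κ (PowerSeries.C (L.φ Q.q))
        (aeval (mc 1) (Q.d1.map L.φ)) (aeval (mc 1) (Q.d2.map L.φ)) (aeval (mc 1) (Q.d4.map L.φ)) := by
  have hC : (aeval (mc (1 : ZMod p))) (C (L.φ Q.q)) = PowerSeries.C (L.φ Q.q) := by
    rw [aeval_C]; rfl
  rw [PS, Sm]
  generalize dd X ^ n * L.Gh n = D at *
  simp only [map_sub, map_add, map_mul, map_pow, map_ofNat, map_dd, map_X1, map_X2, aeval_X, hC]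
  generalize aeval (mc (1 : ZMod p)) D = D at *
  linear_combination (-(mc 1 ^ p * dd (mc 1) ^ p * (12 * X2 (mc 1) ^ p + X1 (mc 1) ^ p * (2 * mc 1 ^ p + 2)) -
    X1 (mc 1) ^ p * X2 (mc 1) ^ p * (4 * dd (mc 1) ^ p + mc 1 ^ p * (10 * mc 1 ^ p - 22)))) * hτ +
    4 * dd (mc 1) ^ p * hκ

end PD

end Sc80

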