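import Pool.Agent.Work.MP_f41de7_nt.ModP1

set_option linter.unusedSectionVars false
set_option linter.unusedSimpArgs false

/-! The derivative trick in characteristic `p`. -/

namespace Sc80
open PowerSeries

variable {k : Type*} [Field k] {p : ℕ} [Fact p.Prime] [CharP k p]

theorem coeff_mc_pow (c : k) (n l : ℕ) :
    coeff l ((mc c) ^ n) = c ^ (n - l) * (n.choose l : k) := by
  have : (mc c) ^ n = (((Polynomial.X + Polynomial.C c) ^ n : Polynomial k) : PowerSeries k) := by
    rw [Polynomial.coe_pow, Polynomial.coe_add, Polynomial.coe_X, Polynomial.coe_C, mc]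
  rw [this, Polynomial.coeff_coe, Polynomial.coeff_X_add_C_pow]

theorem coeff_eq_zero_of_deriv {g : PowerSeries k} (hg : derivative k g = 0) {j : ℕ}
    (hj : ¬ p ∣ j) : coeff j g = 0 := by
  obtain ⟨i, rfl⟩ : ∃ i, j = i + 1 := by
    rcases Nat.eq_zero_or_pos j with rfl | h
    · exact absurd (dvd_zero p) hj
    · exact ⟨j - 1, by omega⟩
  have h1 := congrArg (coeff i) hg
  rw [coeff_derivative, map_zero] at h1
  have h2 : ((i : k) + 1) ≠ 0 := by
    have := (CharP.cast_eq_zero_iff k p (i + 1)).not.2 hj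
    push_cast at this
    exact this
  exact (mul_eq_zero.1 h1).resolve_right h2

theorem deriv_coeff_zero (h : PowerSeries k) {j : ℕ} (hj : p ∣ j + 1) :
    coeff j (derivative k h) = 0 := by
  rw [coeff_derivative]
  have := (CharP.cast_eq_zero_iff k p (j + 1)).2 hj
  push_cast at this
  rw [this, mul_zero]

theorem exact_trick {g h : PowerSeries k} {c : k} (hg : derivative k g = 0)
    (hgh : g * (mc c) ^ (p - 1) = derivative k h) : g = 0 := by
  have hp := (Fact.out : p.Prime).two_le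
  ext j
  rw [map_zero]
  induction j using Nat.strong_induction_on with
  | _ j ih =>
    by_cases hj : p ∣ j
    · have h1 := congrArg (coeff (j + (p - 1))) hgh
      rw [deriv_coeff_zero (p := p) h (by
        rw [show j + (p - 1) + 1 = j + p from by omega]; exact (Nat.dvd_add_right hj).2 dvd_rfl)] at h1
      rw [coeff_mul, Finset.sum_eq_single (j, p - 1)] at h1
      · rw [coeff_mc_pow] at h1
        simpa using h1
      · rintro ⟨a, b⟩ hab hne
        rw [Finset.HasAntidiagonal.mem_antidiagonal] at hab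
        simp only at hab ⊢
        by_cases hb : b ≤ p - 1
        · by_cases ha : a < j
          · rw [ih a ha, zero_mul]
          · have ha' : a ≠ j := by
              rintro rfl
              apply hne
              have : b = p - 1 := by omega
              rw [this]
            rw [coeff_eq_zero_of_deriv (p := p) hg, zero_mul]
            intro hpa
            have : p ∣ a - j := (Nat.dvd_sub hpa hj)
            have := Nat.le_of_dvd (by omega) this
            omega
        · rw [coeff_mc_pow, Nat.choose_eq_zero_of_lt (by omega), Nat.cast_zero, mul_zero, mul_zero]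
      · intro h2
        exact absurd (by rw [Finset.HasAntidiagonal.mem_antidiagonal]) h2
    · exact coeff_eq_zero_of_deriv (p := p) hg hj

/-- The main trick: `ν' = -γ α - β`, `α β' = β α'`, `γ' = 0`, `α = m^(p-1) + τ'` force `ν' = 0`. -/
theorem main_trick {c : k} {α β ν γ τ : PowerSeries k} (hp3 : 3 ≤ p)
    (hα : α = (mc c) ^ (p - 1) + derivative k τ) (hγ : derivative k γ = 0)
    (hαβ : α * derivative k β = β * derivative k α)
    (hν : derivative k ν = -(γ * α) - β) : derivative k ν = 0 := by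
  obtain ⟨r, hr⟩ : ∃ r, p = r + 2 := ⟨p - 2, by omega⟩
  have hcp : ((p : ℕ) : PowerSeries k) = 0 := by
    rw [← map_natCast (C (R := k)), CharP.cast_eq_zero, map_zero]
  have hpow : ∀ f : PowerSeries k, derivative k (f ^ p) = 0 := by
    intro f
    rw [derivative_pow, hcp, zero_mul, zero_mul]
  have hα0 : α ≠ 0 := by
    intro h
    have h1 := congrArg (coeff (p - 1)) hα
    rw [h, map_zero, map_add, coeff_mc_pow, deriv_coeff_zero (p := p) τ (by
      rw [show p - 1 + 1 = p from by omega])] at h1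
    simp at h1
  set B := β * α ^ (p - 1) with hB
  have hB' : derivative k B = 0 := by
    rw [hB, Derivation.leibniz, derivative_pow]
    simp only [smul_eq_mul]
    have e1 : α ^ (p - 1) = α ^ (p - 1 - 1) * α := by
      rw [← pow_succ]; congr 1; omega
    have e2 : ((p - 1 : ℕ) : PowerSeries k) = -1 := by
      have : ((p - 1 : ℕ) : PowerSeries k) + 1 = 0 := by
        rw [← hcp]
        have : p = (p - 1) + 1 := by omega
        conv_rhs => rw [this]
        push_cast
        rfl
      linear_combination this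
    rw [e2, e1]
    linear_combination α ^ (p - 1 - 1) * hαβ
  have hpp : α ^ p = α ^ (p - 1) * α := by
    rw [← pow_succ]; congr 1; omega
  have hg : derivative k (B + γ * α ^ p) = 0 := by
    rw [map_add, hB', Derivation.leibniz, hpow, hγ]; simp
  have hg2 : (B + γ * α ^ p) * (mc c) ^ (p - 1) =
      derivative k (-(α ^ p * ν) - (B + γ * α ^ p) * τ) := by
    rw [map_sub, map_neg, Derivation.leibniz, Derivation.leibniz, hpow, hg]
    simp only [smul_eq_mul, mul_zero, add_zero]
    have e3 : (mc c) ^ (p - 1) = α - derivative k τ := by rw [hα]; ring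
    rw [e3, hν, hB, hpp]
    ring
  have h0 := exact_trick hg hg2
  have h1 : α ^ p * derivative k ν = 0 := by
    have h3 := hg2
    rw [h0, zero_mul] at h3
    rw [zero_mul, sub_zero, map_neg, Derivation.leibniz, hpow] at h3
    simp only [smul_eq_mul, mul_zero, add_zero] at h3
    linear_combination h3
  exact (mul_eq_zero.1 h1).resolve_left (pow_ne_zero _ hα0)

end Sc80

/-! Pfaff transformation modulo `p`, `p = 4 n + 1`. -/

namespace Sc80
open Polynomial

namespace Dat
variable {p N : ℕ} [Fact p.Prime] {R : Type*} [CommRing R] [IsDomain R] (L : Dat p N R)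
  {n : ℕ} (hn : p = 4 * n + 1)
include L

include hn in
theorem a_mod {e a : PowerSeries R} (he : e * (1 - (PowerSeries.X : PowerSeries R)) = 1) (ha : a ^ 4 = e)
    (ha1 : PowerSeries.constantCoeff a = 1) :
    (1 - (PowerSeries.X : PowerSeries R)) ^ n - a ∈ Ideal.span {PowerSeries.C (p : R), (PowerSeries.X : PowerSeries R) ^ p} := by
  set I := Ideal.span {PowerSeries.C (p : R), (PowerSeries.X : PowerSeries R) ^ p} with hI
  obtain ⟨r, hr⟩ := exists_add_pow_prime_eq (Fact.out : p.Prime) (1 : PowerSeries R) (-(PowerSeries.X : PowerSeries R))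
  have hodd : Odd p := ⟨2 * n, by omega⟩
  rw [hodd.neg_pow, one_pow, ← sub_eq_add_neg] at hr
  have hCp : ((p : ℕ) : PowerSeries R) ∈ I := by
    have : ((p : ℕ) : PowerSeries R) = PowerSeries.C (p : R) := by simp
    rw [this]; exact Ideal.subset_span (by simp)
  have hZp : (PowerSeries.X : PowerSeries R) ^ p ∈ I := Ideal.subset_span (by simp)
  have h1 : (1 - (PowerSeries.X : PowerSeries R)) ^ p - 1 ∈ I := by
    rw [hr]
    have : 1 + -(PowerSeries.X : PowerSeries R) ^ p + (p : PowerSeries R) * 1 * -(PowerSeries.X : PowerSeries R) * r - 1 =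
      (-(PowerSeries.X : PowerSeries R) * r) * (p : PowerSeries R) - (PowerSeries.X : PowerSeries R) ^ p := by ring
    rw [this]
    exact I.sub_mem (I.mul_mem_left _ hCp) hZp
  have h2 : ((1 - (PowerSeries.X : PowerSeries R)) ^ n) ^ 4 - a ^ 4 ∈ I := by
    have : ((1 - (PowerSeries.X : PowerSeries R)) ^ n) ^ 4 - a ^ 4 = e * ((1 - (PowerSeries.X : PowerSeries R)) ^ p - 1) := by
      have e1 : (1 - (PowerSeries.X : PowerSeries R)) ^ p = (1 - (PowerSeries.X : PowerSeries R)) * ((1 - (PowerSeries.X : PowerSeries R)) ^ n) ^ 4 := by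
        rw [← pow_mul, ← pow_succ']; congr 1; omega
      rw [e1, ha]
      linear_combination (-((1 - (PowerSeries.X : PowerSeries R)) ^ n) ^ 4) * he
    rw [this]; exact I.mul_mem_left _ h1
  set b := (1 - (PowerSeries.X : PowerSeries R)) ^ n with hb
  have hu : IsUnit ((b + a) * (b ^ 2 + a ^ 2)) := by
    rw [PowerSeries.isUnit_iff_constantCoeff]
    have : PowerSeries.constantCoeff ((b + a) * (b ^ 2 + a ^ 2)) = 2 ^ 2 := by
      simp only [map_mul, map_add, map_pow, ha1, hb, map_sub, map_one, PowerSeries.constantCoeff_X,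
        sub_zero, one_pow]
      norm_num
    rw [this]; exact L.unit2.pow 2
  have h3 : b ^ 4 - a ^ 4 = ((b + a) * (b ^ 2 + a ^ 2)) * (b - a) := by ring
  rw [h3] at h2
  exact (Ideal.unit_mul_mem_iff_mem I hu).1 h2

include hn in
theorem natDegree_map_G : ((G L.u N).map L.φ).natDegree ≤ n := by
  rw [G_eq_hom, map_hom', hom_trunc (n := n) (by have := L.N_eq hn; omega)
    (fun j h1 h2 => by rw [L.ub_eq_zero hn h1 h2, C_0]), Polynomial.map_one, one_pow, one_mul]
  have := natDegree_hom_le (u := L.ub) (n := n) (d := 1) (U := (X : R[X]).map L.φ) (V := 1)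
    (by rw [map_X]; exact natDegree_X_le) (by rw [natDegree_one]; omega)
  simpa using this

include hn in
theorem Gs_mod : (Gs L.u N).map L.φ = (1 - X) ^ n * (G L.u N).map L.φ := by
  have hN := L.N_eq hn
  obtain ⟨e, a, he, he1, ha, ha1⟩ := exists_ea L.unit2 (z := (PowerSeries.X : PowerSeries R)) PowerSeries.constantCoeff_X
  have h1 := pfaff_series L.unit2 L.hu0 L.hrec L.hq1 L.unitP he ha ha1
  have h2 := L.a_mod hn he ha ha1
  set I := Ideal.span {PowerSeries.C (p : R), (PowerSeries.X : PowerSeries R) ^ p} with hI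
  have h3 : aeval (mc (0 : R)) (Gs L.u N - (1 - X) ^ n * G L.u N) ∈ I := by
    rw [mc_zero, map_sub, map_mul, map_pow, map_sub, map_one, aeval_X, aeval_Gs L.u N he]
    have e2 : (1 - (PowerSeries.X : PowerSeries R)) ^ N = (1 - (PowerSeries.X : PowerSeries R)) ^ n * (1 - (PowerSeries.X : PowerSeries R)) ^ n := by rw [← pow_add]; congr 1; omega
    have : (1 - (PowerSeries.X : PowerSeries R)) ^ N * aeval (-((PowerSeries.X : PowerSeries R) * e)) (G L.u N) - (1 - (PowerSeries.X : PowerSeries R)) ^ n * aeval (PowerSeries.X : PowerSeries R) (G L.u N) =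
        -((1 - (PowerSeries.X : PowerSeries R)) ^ n * (aeval (PowerSeries.X : PowerSeries R) (G L.u N) - a * aeval (-((PowerSeries.X : PowerSeries R) * e)) (G L.u N))) +
        (1 - (PowerSeries.X : PowerSeries R)) ^ n * aeval (-((PowerSeries.X : PowerSeries R) * e)) (G L.u N) * ((1 - (PowerSeries.X : PowerSeries R)) ^ n - a) := by
      rw [e2]; ring
    rw [this]
    exact I.add_mem (I.neg_mem (I.mul_mem_left _ h1)) (I.mul_mem_left _ h2)
  have h4 := L.toLoc.map_span (poly_mem_span h3)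
  rw [map_zero, C_0, sub_zero] at h4
  have h5 : (Gs L.u N - (1 - X) ^ n * G L.u N).map L.φ = 0 := by
    apply eq_zero_of_dvd_of_natDegree_lt h4
    rw [natDegree_X_pow]
    rw [Polynomial.map_sub, Polynomial.map_mul, Polynomial.map_pow, Polynomial.map_sub,
      Polynomial.map_one, map_X]
    have d1 : ((Gs L.u N).map L.φ).natDegree ≤ N := by
      rw [Gs, map_hom']
      have := natDegree_hom_le (u := L.ub) (n := N) (d := 1) (U := (-X : R[X]).map L.φ)
        (V := (1 - X : R[X]).map L.φ)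
        (by rw [Polynomial.map_neg, map_X, natDegree_neg]; exact natDegree_X_le)
        (by rw [Polynomial.map_sub, Polynomial.map_one, map_X]; compute_degree)
      simpa using this
    have d2 : ((1 - X : (ZMod p)[X]) ^ n * (G L.u N).map L.φ).natDegree ≤ n + n := by
      refine natDegree_mul_le.trans (Nat.add_le_add ?_ (L.natDegree_map_G hn))
      refine natDegree_pow_le.trans ?_
      have : (1 - X : (ZMod p)[X]).natDegree ≤ 1 := by compute_degree
      calc n * (1 - X : (ZMod p)[X]).natDegree ≤ n * 1 := Nat.mul_le_mul_left _ this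
        _ = n := Nat.mul_one _
    have := (natDegree_sub_le ((Gs L.u N).map L.φ) ((1 - X : (ZMod p)[X]) ^ n * (G L.u N).map L.φ)).trans
      (max_le (d1.trans (by omega : N ≤ n + n)) d2)
    omega
  rw [Polynomial.map_sub, sub_eq_zero] at h5
  rw [h5, Polynomial.map_mul, Polynomial.map_pow, Polynomial.map_sub, Polynomial.map_one, map_X]

end Dat

end Sc80

/-! The set-up at the centre `m = 1` modulo `p^2`. -/

namespace Sc80
open Polynomial

section
variable {R S : Type*} [CommRing R] [CommRing S] [IsDomain S] [Algebra R S] {D : Derivation R S S}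

theorem D_dd_gen (m : S) : D (dd m) = (10 * m - 22) * D m := by
  simp only [dd, map_add, map_sub, Derivation.leibniz, Derivation.leibniz_pow, D_num5, D_num22, D_num25,
    smul_eq_mul, nsmul_eq_mul]
  push_cast
  ring

theorem D_Zn_gen (m : S) : D (Zn m) = -(5 * (m - 5) ^ 4 * (m - 1) + (m - 5) ^ 5) * D m := by
  simp only [Zn, map_add, map_sub, map_neg, Derivation.leibniz, Derivation.leibniz_pow, D_num5,
    smul_eq_mul, nsmul_eq_mul, D_one']
  push_cast
  ring

theorem D_Zd_gen (m : S) : D (Zd m) = (64 * m ^ 3 * dd m + 16 * m ^ 4 * (10 * m - 22)) * D m := by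
  simp only [Zd, map_add, map_sub, Derivation.leibniz, Derivation.leibniz_pow, D_num16,
    smul_eq_mul, nsmul_eq_mul, D_dd_gen]
  push_cast
  ring

/-- derivative of `z(T)` -/
theorem D_zT {T zT i : S} (h : zT * Zd T = Zn T) (hi : Zd T * i = 1) :
    D zT = -(64 * T ^ 3 * (T - 5) ^ 4 * X1 T ^ 3 * i ^ 2) * D T := by
  have h1 := congrArg D h
  rw [D.leibniz, D_Zn_gen, D_Zd_gen] at h1
  simp only [smul_eq_mul] at h1
  have h2 : Zd T ^ 2 * D zT = -(64 * T ^ 3 * (T - 5) ^ 4 * X1 T ^ 3) * D T := by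
    have e : Zd T ^ 2 * D zT = Zd T * (zT * ((64 * T ^ 3 * dd T + 16 * T ^ 4 * (10 * T - 22)) * D T) + Zd T * D zT)
      - (zT * Zd T) * ((64 * T ^ 3 * dd T + 16 * T ^ 4 * (10 * T - 22)) * D T) := by ring
    rw [e, h1, h]
    simp only [Zd, Zn, X1, dd]; ring
  have h3 : (Zd T * i) ^ 2 * D zT = i ^ 2 * (Zd T ^ 2 * D zT) := by ring
  rw [hi, one_pow, one_mul, h2] at h3
  rw [h3]; ring

theorem D_zT_zero {T i : S} (hi : Zd T * i = 1) (hT : D T = 0) :
    D (-(64 * T ^ 3 * (T - 5) ^ 4 * X1 T ^ 3 * i ^ 2)) = 0 := by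
  have h0 : D i = 0 := by
    have h1 := congrArg D hi
    rw [D.leibniz, D_Zd_gen, hT, D_one'] at h1
    simp only [smul_eq_mul, mul_zero, add_zero] at h1
    exact (mul_eq_zero.1 h1).resolve_left (left_ne_zero_of_mul_eq_one hi)
  have h64 : D (64 : S) = 0 := by
    have := D.map_natCast 64
    simpa using this
  simp only [X1, map_neg, map_sub, Derivation.leibniz, Derivation.leibniz_pow, hT, h0, h64, D_num5, D_num3,
    smul_eq_mul, nsmul_eq_mul, mul_zero, add_zero, sub_zero, neg_zero]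
end

namespace Loc
variable {p : ℕ} [Fact p.Prime] {R : Type*} [CommRing R] (L : Loc p R)

/-- reduction of power series -/
noncomputable def ψ : PowerSeries R →+* PowerSeries (ZMod p) := PowerSeries.map L.φ

theorem ψ_deriv (f : PowerSeries R) :
    L.ψ (PowerSeries.derivative R f) = PowerSeries.derivative (ZMod p) (L.ψ f) := by
  ext n
  simp [ψ, PowerSeries.coeff_map, PowerSeries.coeff_derivative]

theorem ψ_p : L.ψ (p : PowerSeries R) = 0 := by
  rw [map_natCast, ← map_natCast (PowerSeries.C (R := ZMod p)), ZMod.natCast_self, map_zero]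

theorem ψ_ker {f : PowerSeries R} (h : L.ψ f = 0) : ∃ g, f = (p : PowerSeries R) * g := by
  have h1 : ∀ n, (p : R) ∣ PowerSeries.coeff n f := by
    intro n
    apply L.ker
    have := congrArg (PowerSeries.coeff n) h
    simpa [ψ, PowerSeries.coeff_map] using this
  choose g hg using h1
  refine ⟨PowerSeries.mk g, ?_⟩
  ext n
  have : (p : PowerSeries R) = PowerSeries.C (p : R) := by simp
  rw [this, PowerSeries.coeff_C_mul, PowerSeries.coeff_mk, hg n]

theorem ψ_mc (c : R) : L.ψ (mc c) = mc (L.φ c) := by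
  simp [ψ, mc, PowerSeries.map_X, PowerSeries.map_C]

include L in
theorem ψ_natCast_ne [IsDomain R] : (p : PowerSeries R) ≠ 0 := by
  have : (p : PowerSeries R) = PowerSeries.C (p : R) := by simp
  rw [this]
  intro h
  apply L.p0
  have := congrArg PowerSeries.constantCoeff h
  simpa using this

end Loc

/-- all the functions at the centre `m = 1` -/
structure Ctr {p N : ℕ} [Fact p.Prime] {R : Type*} [CommRing R] (L : Dat p N R) where
  z : PowerSeries R
  w : PowerSeries R
  e : PowerSeries R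
  a : PowerSeries R
  v1 : PowerSeries R
  v3 : PowerSeries R
  zT : PowerSeries R
  i : PowerSeries R
  hz : z * Zd (mc (1 : R)) = Zn (mc 1)
  hw : w * Yd (mc (1 : R)) = Yn (mc 1)
  hz0 : PowerSeries.constantCoeff z = 0
  hw0 : PowerSeries.constantCoeff w = 0
  he : e * (1 - z) = 1
  ha : a ^ 4 = e
  ha1 : PowerSeries.constantCoeff a = 1
  hv1 : aeval z (G L.u N) * v1 = 1
  hv3 : (a * aeval (-(z * e)) (G L.u N)) * v3 = 1
  hzT : zT * Zd ((mc 1 * aeval w (G L.u N)) * v1) = Zn ((mc 1 * aeval w (G L.u N)) * v1)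
  hi : Zd ((mc 1 * aeval w (G L.u N)) * v1) * i = 1

theorem Ctr.nonempty {p N : ℕ} [Fact p.Prime] {R : Type*} [CommRing R] [IsDomain R] (L : Dat p N R) :
    Nonempty (Ctr L) := by
  obtain ⟨z, w, hz, hw, hz0, hw0⟩ := exists_zw (c := (1 : R)) (Or.inl rfl) L.unit2 L.unit5
  obtain ⟨e, a, he, he1, ha, ha1⟩ := exists_ea L.unit2 hz0
  have h1 : IsUnit (aeval z (G L.u N)) := by
    rw [PowerSeries.isUnit_iff_constantCoeff, cc_aeval_G hz0 L.hu0]; exact isUnit_one
  obtain ⟨v1, hv1⟩ := h1.exists_right_inv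
  have h3 : IsUnit (a * aeval (-(z * e)) (G L.u N)) := by
    rw [PowerSeries.isUnit_iff_constantCoeff, map_mul, ha1, cc_aeval_G (by simp [hz0]) L.hu0]
    simp
  obtain ⟨v3, hv3⟩ := h3.exists_right_inv
  have hcv1 : PowerSeries.constantCoeff v1 = 1 := by
    have := congrArg PowerSeries.constantCoeff hv1
    rw [map_mul, cc_aeval_G hz0 L.hu0] at this
    simpa using this
  have hcT : PowerSeries.constantCoeff ((mc 1 * aeval w (G L.u N)) * v1) = 1 := by
    rw [map_mul, map_mul, cc_aeval_G hw0 L.hu0, cc_mc, hcv1]; ring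
  have hT : IsUnit (Zd ((mc 1 * aeval w (G L.u N)) * v1)) := by
    rw [PowerSeries.isUnit_iff_constantCoeff, map_Zd, hcT]
    have : Zd (1 : R) = 2 ^ 7 := by simp only [Zd, dd]; norm_num
    rw [this]; exact L.unit2.pow 7
  obtain ⟨i, hi⟩ := hT.exists_right_inv
  exact ⟨⟨z, w, e, a, v1, v3, Zn ((mc 1 * aeval w (G L.u N)) * v1) * i, i, hz, hw, hz0, hw0, he, ha, ha1, hv1, hv3,
    by rw [mul_assoc, mul_comm i, hi, mul_one], hi⟩⟩

end Sc80

/-! Expansions modulo `p` at the centre `m = 1`. -/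

namespace Sc80
open Polynomial

variable {p N : ℕ} [Fact p.Prime] {R : Type*} [CommRing R] [IsDomain R] {L : Dat p N R}
  {n : ℕ} (hn : p = 4 * n + 1) (E : Ctr L)

namespace Ctr

/-- the three solutions -/
noncomputable def y1 : PowerSeries R := aeval E.z (G L.u N)
noncomputable def y2 : PowerSeries R := mc 1 * aeval E.w (G L.u N)
noncomputable def y3 : PowerSeries R := E.a * aeval (-(E.z * E.e)) (G L.u N)
noncomputable def T : PowerSeries R := E.y2 * E.v1
noncomputable def V : PowerSeries R := (E.y1 * E.v3) ^ 4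

theorem hv1' : E.y1 * E.v1 = 1 := E.hv1
theorem hv3' : E.y3 * E.v3 = 1 := E.hv3
theorem hzT' : E.zT * Zd E.T = Zn E.T := E.hzT
theorem hi' : Zd E.T * E.i = 1 := E.hi

theorem aeval_g1 : aeval (mc (1 : R)) L.g1 = Zd (mc 1) ^ N * E.y1 := by
  rw [Dat.g1, map_hom, map_Zn, map_Zd, aeval_X, hom_eval _ N _ _ _ E.hz, y1, aeval_G]
  simp only [aeval_C]

theorem aeval_g2 : aeval (mc (1 : R)) (X ^ (4 * N + 1) * L.g2) = Zd (mc 1) ^ N * E.y2 := by
  rw [Dat.g2, map_mul, map_pow, map_hom, map_Yn, map_Yd, aeval_X, hom_eval _ N _ _ _ E.hw, y2, aeval_G, Zd_eq]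
  simp only [aeval_C]
  have : mc (1 : R) ^ (4 * N + 1) = mc 1 * (mc 1 ^ 4) ^ N := by rw [← pow_mul]; ring
  rw [this, mul_pow]; ring

theorem unitZd (L : Dat p N R) : IsUnit (Zd (mc (1 : R))) := unit_Zd_mc (Or.inl rfl) L.unit2 L.unit5

include hn in
/-- `y2 = m^p y1` modulo `p` -/
theorem y2_mod : ∃ r, E.y2 = mc 1 ^ p * E.y1 + (p : PowerSeries R) * r := by
  have h0 : (X ^ (4 * N + 1) * L.g2 - X ^ p * L.g1).map L.φ = 0 := by
    rw [Polynomial.map_sub, Polynomial.map_mul, Polynomial.map_mul, Polynomial.map_pow, Polynomial.map_pow,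
      map_X, L.map_g1 hn, L.map_g2 hn, L.Gh_eq hn, Zd_eq, mul_pow, ← pow_mul,
      show 4 * N + 1 = p + 4 * n from by have := L.N_eq hn; omega, pow_add]
    ring
  obtain ⟨g, hg⟩ := L.toLoc.map_eq_zero h0
  have h1 := congrArg (aeval (mc (1 : R))) hg
  rw [map_sub, E.aeval_g2, map_mul, map_pow, aeval_X, E.aeval_g1, map_mul, aeval_C] at h1
  obtain ⟨c, hc⟩ := ((unitZd L).pow N).exists_left_inv
  refine ⟨c * aeval (mc 1) g, ?_⟩
  have hp : (algebraMap R (PowerSeries R)) (p : R) = (p : PowerSeries R) := by simp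
  rw [hp] at h1
  linear_combination c * h1 - (E.y2 - mc 1 ^ p * E.y1) * hc

include hn in
/-- `T = m^p` modulo `p` -/
theorem T_mod : ∃ τ, E.T = mc 1 ^ p + (p : PowerSeries R) * τ := by
  obtain ⟨r, hr⟩ := E.y2_mod hn
  refine ⟨r * E.v1, ?_⟩
  rw [T, hr]
  linear_combination (mc 1 ^ p) * E.hv1'

include hn in
/-- `y3 = a e^n y1` modulo `p` -/
theorem y3_mod : ∃ r, E.y3 = E.a * E.e ^ n * E.y1 + (p : PowerSeries R) * r := by
  have h0 : (Gs L.u N - (1 - X) ^ n * G L.u N).map L.φ = 0 := by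
    rw [Polynomial.map_sub, Polynomial.map_mul, Polynomial.map_pow, Polynomial.map_sub,
      Polynomial.map_one, map_X, L.Gs_mod hn, sub_self]
  obtain ⟨g, hg⟩ := L.toLoc.map_eq_zero h0
  have h1 := congrArg (aeval E.z) hg
  rw [map_sub, aeval_Gs L.u N E.he, map_mul, map_pow, map_sub, map_one, aeval_X, map_mul, aeval_C] at h1
  refine ⟨E.a * E.e ^ N * aeval E.z g, ?_⟩
  have hp : (algebraMap R (PowerSeries R)) (p : R) = (p : PowerSeries R) := by simp
  rw [hp] at h1
  have e1 : E.e ^ N * (1 - E.z) ^ N = 1 := by rw [← mul_pow, E.he, one_pow]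
  have e2 : E.e ^ N * (1 - E.z) ^ n = E.e ^ n := by
    have hN := L.N_eq hn
    have hNN : E.e ^ N = E.e ^ (n + n) := congrArg (fun t => E.e ^ t) (by omega : N = n + n)
    rw [hNN, pow_add, mul_assoc, ← mul_pow, E.he, one_pow, mul_one]
  rw [y3, y1]
  linear_combination (E.a * E.e ^ N) * h1 - (E.a * aeval (-(E.z * E.e)) (G L.u N)) * e1
    + (E.a * aeval E.z (G L.u N)) * e2

include hn in
/-- `V = (1-z)^p` modulo `p` -/
theorem V_mod : ∃ r, E.V = (1 - E.z) ^ p + (p : PowerSeries R) * r := by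
  obtain ⟨r, hr⟩ := E.y3_mod hn
  have h1 : L.toLoc.ψ (E.V - (1 - E.z) ^ p) = 0 := by
    have h3 := congrArg L.toLoc.ψ E.hv3'
    rw [hr, map_mul, map_add, map_mul _ (p : PowerSeries R), L.toLoc.ψ_p, zero_mul, add_zero, map_one,
      map_mul, map_mul] at h3
    have h4 := congrArg L.toLoc.ψ E.he
    rw [map_mul, map_one] at h4
    have h5 := congrArg L.toLoc.ψ E.ha
    rw [map_pow] at h5
    rw [map_sub, V, map_pow, map_pow, map_mul]
    rw [map_pow] at h3
    set A := L.toLoc.ψ E.a
    set B := L.toLoc.ψ E.e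
    set Y := L.toLoc.ψ E.y1
    set W := L.toLoc.ψ E.v3
    set U := L.toLoc.ψ (1 - E.z)
    have e1 : (B * U) ^ p = 1 := by rw [h4, one_pow]
    have e2 : (A * B ^ n * Y * W) ^ 4 = 1 := by rw [h3, one_pow]
    have e3 : B ^ p * (Y * W) ^ 4 = 1 := by
      have : B ^ p = A ^ 4 * (B ^ n) ^ 4 := by
        rw [h5, ← pow_mul, ← pow_succ']; congr 1; omega
      rw [this]; linear_combination e2
    rw [mul_pow] at e1
    linear_combination (-(Y * W) ^ 4) * e1 + U ^ p * e3
  obtain ⟨g, hg⟩ := L.toLoc.ψ_ker h1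
  exact ⟨g, by linear_combination hg⟩

end Ctr

end Sc80

/-! The difference `(1 - z(T) - V)/p` has derivative zero. -/

namespace Sc80
open Polynomial

section wronsk
variable {R S : Type*} [CommRing R] [CommRing S] [Algebra R S] {D : Derivation R S S}

theorem wronskian {a0 b0 c0 y y' q s s' : S}
    (h : a0 * D (D y) + b0 * D y + c0 * y = q * s)
    (h' : a0 * D (D y') + b0 * D y' + c0 * y' = q * s') :
    a0 * D (y * D y' - y' * D y) + b0 * (y * D y' - y' * D y) = q * (y * s' - y' * s) := by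
  rw [map_sub, D.leibniz, D.leibniz]
  simp only [smul_eq_mul]
  linear_combination y * h' - y' * h
end wronsk

variable {p N : ℕ} [Fact p.Prime] {R : Type*} [CommRing R] [IsDomain R] {L : Dat p N R}
  {n : ℕ} (hn : p = 4 * n + 1) (E : Ctr L)

include hn in
theorem Dat.hq2 (L : Dat p N R) : (p : R) ^ 2 ∣ (4 * (N : R) + 1) * (2 * N + 1) * L.u N := by
  have hpN : (p : R) = 2 * N + 1 := by
    have := congrArg (Nat.cast (R := R)) L.hp
    simpa using this
  have hp1 := (Fact.out : p.Prime).two_le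
  have h1 : (p : R) ∣ L.u N := by
    rw [L.toLoc.dvd_iff]
    exact L.ub_eq_zero hn (by have := L.N_eq hn; omega) le_rfl
  obtain ⟨s, hs⟩ := h1
  rw [← hpN, hs]
  exact ⟨(4 * (N : R) + 1) * s, by ring⟩

instance : CharP (PowerSeries (ZMod p)) p :=
  charP_of_injective_algebraMap (algebraMap (ZMod p) (PowerSeries (ZMod p))).injective p

theorem frob_Zn {S : Type*} [CommRing S] [CharP S p] (x : S) : Zn (x ^ p) = Zn x ^ p := by
  have := map_Zn (frobenius S p) x
  simpa [frobenius_def] using this.symm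
theorem frob_Zd {S : Type*} [CommRing S] [CharP S p] (x : S) : Zd (x ^ p) = Zd x ^ p := by
  have := map_Zd (frobenius S p) x
  simpa [frobenius_def] using this.symm

namespace Ctr

theorem hm1 : PowerSeries.derivative R (mc (1 : R)) = 1 := D_mc 1

theorem ps2 (L : Dat p N R) : (2 : PowerSeries R) ≠ 0 := (unit_two_ps L.unit2).ne_zero
theorem psm (L : Dat p N R) : mc (1 : R) ≠ 0 := (unit_mc (Or.inl rfl) L.unit2 L.unit5).ne_zero
theorem psd (L : Dat p N R) : dd (mc (1 : R)) ≠ 0 := (unit_dd_mc (Or.inl rfl) L.unit2 L.unit5).ne_zero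

include hn in
theorem op_small (s : PowerSeries R) : ∃ r, aeval s (op (G L.u N)) = (p : PowerSeries R) ^ 2 * r := by
  obtain ⟨r, hr⟩ := aeval_op_G L.hrec (L.hq2 hn) s
  refine ⟨r, ?_⟩
  rw [hr, map_pow]; simp

include hn in
theorem ode1 : ∃ s, A0 (mc 1) * PowerSeries.derivative R (PowerSeries.derivative R E.y1) +
    B0 (mc 1) * PowerSeries.derivative R E.y1 + C0 (mc 1) * E.y1 = (p : PowerSeries R) ^ 2 * s := by
  obtain ⟨r, hr⟩ := op_small hn (L := L) E.z
  have := ode_y1 (hm1 (R := R)) (ps2 L) (psm L) (psd L) E.hz (G L.u N)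
  rw [hr] at this
  exact ⟨K (mc 1) * r, by rw [y1, this]; ring⟩

include hn in
theorem ode2 : ∃ s, A0 (mc 1) * PowerSeries.derivative R (PowerSeries.derivative R E.y2) +
    B0 (mc 1) * PowerSeries.derivative R E.y2 + C0 (mc 1) * E.y2 = (p : PowerSeries R) ^ 2 * s := by
  obtain ⟨r, hr⟩ := op_small hn (L := L) E.w
  have := ode_y2 (hm1 (R := R)) (ps2 L) (psd L) E.hw (G L.u N)
  rw [hr] at this
  exact ⟨K' (mc 1) * r, by rw [y2, this]; ring⟩

include hn in
theorem ode3 : ∃ s, A0 (mc 1) * PowerSeries.derivative R (PowerSeries.derivative R E.y3) +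
    B0 (mc 1) * PowerSeries.derivative R E.y3 + C0 (mc 1) * E.y3 = (p : PowerSeries R) ^ 2 * s := by
  obtain ⟨r, hr⟩ := op_small hn (L := L) (-(E.z * E.e))
  have := ode_y3 (hm1 (R := R)) (ps2 L) (psm L) (psd L) E.hz E.he (root_deriv E.he E.ha) (G L.u N)
  rw [hr] at this
  exact ⟨-(E.a * E.e * K (mc 1) * r), by rw [y3, this]; ring⟩

theorem psi_A0 (L : Dat p N R) : L.toLoc.ψ (A0 (mc (1 : R))) ≠ 0 := by
  obtain ⟨a1, h1, h2, h3⟩ := A0_factor (c := (1 : R)) (Or.inl rfl) L.unit2 L.unit5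
  rw [h1, map_mul]
  apply mul_ne_zero
  · have : L.toLoc.ψ (PowerSeries.X : PowerSeries R) = PowerSeries.X := PowerSeries.map_X _
    rw [this]; exact PowerSeries.X_ne_zero
  · have : IsUnit a1 := PowerSeries.isUnit_iff_constantCoeff.2 h2
    exact (this.map L.toLoc.ψ).ne_zero

include hn in
/-- the derivative of `T` -/
theorem DT {τ : PowerSeries R} (hτ : E.T = mc 1 ^ p + (p : PowerSeries R) * τ) :
    PowerSeries.derivative R E.T = (p : PowerSeries R) * (mc 1 ^ (p - 1) + PowerSeries.derivative R τ) := by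
  rw [hτ, map_add, PowerSeries.derivative_pow, D_mc, Derivation.leibniz, Derivation.map_natCast]
  simp only [smul_eq_mul]; ring

include hn in
theorem DV {v : PowerSeries R} (hv : E.V = (1 - E.z) ^ p + (p : PowerSeries R) * v) :
    PowerSeries.derivative R E.V = (p : PowerSeries R) * (-((1 - E.z) ^ (p - 1) * PowerSeries.derivative R E.z) +
      PowerSeries.derivative R v) := by
  rw [hv, map_add, PowerSeries.derivative_pow, map_sub, Derivation.leibniz, Derivation.map_natCast,
    Derivation.map_one_eq_zero]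
  simp only [smul_eq_mul]; ring

theorem W12 : E.y1 ^ 2 * PowerSeries.derivative R E.T =
    E.y1 * PowerSeries.derivative R E.y2 - E.y2 * PowerSeries.derivative R E.y1 := by
  have h1 := congrArg (PowerSeries.derivative R) E.hv1'
  rw [Derivation.leibniz, Derivation.map_one_eq_zero] at h1
  simp only [smul_eq_mul] at h1
  rw [T, Derivation.leibniz]
  simp only [smul_eq_mul]
  linear_combination (E.y1 * E.y2) * h1 + (E.y1 * PowerSeries.derivative R E.y2 - E.y2 * PowerSeries.derivative R E.y1) * E.hv1'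

theorem W31 : E.y3 ^ 5 * PowerSeries.derivative R E.V = 4 * E.y1 ^ 3 *
    (E.y3 * PowerSeries.derivative R E.y1 - E.y1 * PowerSeries.derivative R E.y3) := by
  have h1 := congrArg (PowerSeries.derivative R) E.hv3'
  rw [Derivation.leibniz, Derivation.map_one_eq_zero] at h1
  simp only [smul_eq_mul] at h1
  have h3 := E.hv3'
  have hV : PowerSeries.derivative R E.V = 4 * (E.y1 * E.v3) ^ 3 *
      (E.y1 * PowerSeries.derivative R E.v3 + E.v3 * PowerSeries.derivative R E.y1) := by
    rw [V, PowerSeries.derivative_pow, Derivation.leibniz]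
    simp only [smul_eq_mul]; push_cast; ring
  rw [hV]
  have e3 : (E.y3 * E.v3) ^ 3 = 1 := by rw [h3, one_pow]
  have e4 : (E.y3 * E.v3) ^ 4 = 1 := by rw [h3, one_pow]
  linear_combination (4 * E.y1 ^ 4 * E.y3 * (E.y3 * E.v3) ^ 3) * h1 +
    (4 * E.y1 ^ 3 * E.y3 * PowerSeries.derivative R E.y1) * e4 -
    (4 * E.y1 ^ 4 * PowerSeries.derivative R E.y3) * e4
end Ctr

end Sc80

/-! The difference `(1 - z(T) - V)/p` has derivative zero. -/

namespace Sc80
open Polynomial

variable {p N : ℕ} [Fact p.Prime] {R : Type*} [CommRing R] [IsDomain R] {L : Dat p N R}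
  {n : ℕ} (hn : p = 4 * n + 1) (E : Ctr L)

namespace Ctr

/-- abstract form of the Wronskian comparison -/
theorem cross {k : Type*} [Field k] {A B ω1 ω2 : PowerSeries k} (hA : A ≠ 0)
    (h1 : A * PowerSeries.derivative k ω1 + B * ω1 = 0)
    (h2 : A * PowerSeries.derivative k ω2 + B * ω2 = 0) :
    ω1 * PowerSeries.derivative k ω2 = ω2 * PowerSeries.derivative k ω1 := by
  apply mul_left_cancel₀ hA
  linear_combination ω1 * h2 - ω2 * h1

include hn in
theorem zT_mod : L.toLoc.ψ E.zT = L.toLoc.ψ E.z ^ p := by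
  obtain ⟨τ, hτ⟩ := E.T_mod hn
  have hT : L.toLoc.ψ E.T = L.toLoc.ψ (mc 1) ^ p := by
    rw [hτ, map_add, map_mul, L.toLoc.ψ_p, zero_mul, add_zero, map_pow]
  have h1 := congrArg L.toLoc.ψ E.hzT'
  rw [map_mul, map_Zd, map_Zn, hT, frob_Zn, frob_Zd] at h1
  have h2 := congrArg L.toLoc.ψ E.hz
  rw [map_mul, map_Zd, map_Zn] at h2
  have h3 : L.toLoc.ψ E.z ^ p * Zd (L.toLoc.ψ (mc 1)) ^ p = Zn (L.toLoc.ψ (mc 1)) ^ p := by
    rw [← mul_pow, h2]
  have h4 : Zd (L.toLoc.ψ (mc 1)) ≠ 0 := by
    rw [← map_Zd]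
    exact ((unitZd L).map L.toLoc.ψ).ne_zero
  apply mul_right_cancel₀ (pow_ne_zero p h4)
  rw [h1, h3]

include hn in
/-- the crucial statement: there is `ν` with `1 - z(T) = V + p ν` and `ν' = 0` modulo `p` -/
theorem nu_deriv : ∃ ν, 1 - E.zT = E.V + (p : PowerSeries R) * ν ∧
    PowerSeries.derivative (ZMod p) (L.toLoc.ψ ν) = 0 := by
  obtain ⟨τ, hτ⟩ := E.T_mod hn
  obtain ⟨v, hv⟩ := E.V_mod hn
  obtain ⟨r3, hr3⟩ := E.y3_mod hn
  obtain ⟨s1, hs1⟩ := E.ode1 hn
  obtain ⟨s2, hs2⟩ := E.ode2 hn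
  obtain ⟨s3, hs3⟩ := E.ode3 hn
  have hP0 : (p : PowerSeries R) ≠ 0 := L.toLoc.ψ_natCast_ne
  set P : PowerSeries R := (p : PowerSeries R) with hP
  have hDT := E.DT hn hτ
  have hDV := E.DV hn hv
  set α := mc (1 : R) ^ (p - 1) + PowerSeries.derivative R τ with hα
  set β := -((1 - E.z) ^ (p - 1) * PowerSeries.derivative R E.z) + PowerSeries.derivative R v with hβ
  -- existence of ν
  have hψP : L.toLoc.ψ P = 0 := L.toLoc.ψ_p
  have hex : ∃ ν, 1 - E.zT = E.V + P * ν := by
    have : L.toLoc.ψ (1 - E.zT - E.V) = 0 := by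
      rw [hv, map_sub, map_sub, map_one, E.zT_mod hn, map_add, map_mul, hψP, zero_mul, add_zero, map_pow,
        map_sub, map_one, sub_pow_char, one_pow, sub_self]
    obtain ⟨g, hg⟩ := L.toLoc.ψ_ker this
    exact ⟨g, by linear_combination hg⟩
  obtain ⟨ν, hν⟩ := hex
  refine ⟨ν, hν, ?_⟩
  set γ := -(64 * E.T ^ 3 * (E.T - 5) ^ 4 * X1 E.T ^ 3 * E.i ^ 2) with hγ
  have hDz : PowerSeries.derivative R E.zT = γ * (P * α) := by
    rw [D_zT E.hzT' E.hi', hDT]
  have hDν : PowerSeries.derivative R ν = -(γ * α) - β := by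
    have h1 := congrArg (PowerSeries.derivative R) hν
    rw [map_sub, Derivation.map_one_eq_zero, hDz, map_add, hDV, Derivation.leibniz,
      Derivation.map_natCast] at h1
    simp only [smul_eq_mul] at h1
    apply mul_left_cancel₀ hP0
    linear_combination -h1
  -- Wronskians
  have hW12 := E.W12
  have hW31 := E.W31
  rw [hDT] at hW12
  rw [hDV] at hW31
  have w1 := wronskian hs1 hs2
  rw [← hW12] at w1
  have w1' : A0 (mc 1) * PowerSeries.derivative R (E.y1 ^ 2 * α) + B0 (mc 1) * (E.y1 ^ 2 * α) =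
      P * (E.y1 * s2 - E.y2 * s1) := by
    apply mul_left_cancel₀ hP0
    have e1 : E.y1 ^ 2 * (P * α) = P * (E.y1 ^ 2 * α) := by ring
    rw [e1, Derivation.leibniz (D := PowerSeries.derivative R) P, Derivation.map_natCast] at w1
    simp only [smul_eq_mul] at w1
    linear_combination w1
  obtain ⟨i4, hi4⟩ : ∃ i4 : PowerSeries R, 4 * i4 = 1 := by
    have : IsUnit (4 : PowerSeries R) := by
      have : (4 : PowerSeries R) = 2 ^ 2 := by norm_num
      rw [this]; exact (unit_two_ps L.unit2).pow 2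
    exact this.exists_right_inv
  have hω2 : E.y3 * PowerSeries.derivative R E.y1 - E.y1 * PowerSeries.derivative R E.y3 =
      P * (i4 * E.v1 ^ 3 * E.y3 ^ 5 * β) := by
    have e3 : (E.y1 * E.v1) ^ 3 = 1 := by rw [E.hv1', one_pow]
    linear_combination (-(i4 * E.v1 ^ 3)) * hW31 -
      (E.y1 * E.v1) ^ 3 * (E.y3 * PowerSeries.derivative R E.y1 - E.y1 * PowerSeries.derivative R E.y3) * hi4 -
      (E.y3 * PowerSeries.derivative R E.y1 - E.y1 * PowerSeries.derivative R E.y3) * e3
  have w3 := wronskian hs3 hs1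
  rw [hω2] at w3
  have w3' : A0 (mc 1) * PowerSeries.derivative R (i4 * E.v1 ^ 3 * E.y3 ^ 5 * β) +
      B0 (mc 1) * (i4 * E.v1 ^ 3 * E.y3 ^ 5 * β) = P * (E.y3 * s1 - E.y1 * s3) := by
    apply mul_left_cancel₀ hP0
    rw [Derivation.leibniz (D := PowerSeries.derivative R) P, Derivation.map_natCast] at w3
    simp only [smul_eq_mul] at w3
    linear_combination w3
  -- reduction
  have m1 := congrArg L.toLoc.ψ w1'
  have m3 := congrArg L.toLoc.ψ w3'
  rw [map_mul L.toLoc.ψ P, hψP, zero_mul, map_add L.toLoc.ψ, map_mul L.toLoc.ψ (A0 (mc 1)),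
    map_mul L.toLoc.ψ (B0 (mc 1)), L.toLoc.ψ_deriv] at m1
  rw [map_mul L.toLoc.ψ P, hψP, zero_mul, map_add L.toLoc.ψ, map_mul L.toLoc.ψ (A0 (mc 1)),
    map_mul L.toLoc.ψ (B0 (mc 1)), L.toLoc.ψ_deriv] at m3
  have hc := cross (psi_A0 L) m1 m3
  -- h
  set h := L.toLoc.ψ (E.a * E.e ^ n) with hh
  have hy3 : L.toLoc.ψ E.y3 = h * L.toLoc.ψ E.y1 := by
    rw [hr3, map_add, map_mul _ P, hψP, zero_mul, add_zero, map_mul]
  have four_ne : (4 : PowerSeries (ZMod p)) ≠ 0 := by
    have := congrArg L.toLoc.ψ hi4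
    rw [map_mul, map_ofNat, map_one] at this
    exact left_ne_zero_of_mul_eq_one this
  have hDh : PowerSeries.derivative (ZMod p) h = 0 := by
    have e1 : 4 * PowerSeries.derivative R (E.a * E.e ^ n) = P * (E.a * E.e ^ (n + 1) * PowerSeries.derivative R E.z) := by
      have h1 := root_deriv (D := PowerSeries.derivative R) E.he E.ha
      have h2 := D_e (D := PowerSeries.derivative R) E.he
      rw [Derivation.leibniz, PowerSeries.derivative_pow, h2]
      simp only [smul_eq_mul]
      have e2 : (n : PowerSeries R) * E.e ^ (n - 1) * (E.e ^ 2 * PowerSeries.derivative R E.z) =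
        (n : PowerSeries R) * E.e ^ (n + 1) * PowerSeries.derivative R E.z := by
        rcases Nat.eq_zero_or_pos n with h0 | h0
        · rw [h0]; simp
        · rw [show n + 1 = (n - 1) + 2 from by omega, pow_add]; ring
      rw [e2]
      have e3 : P = 4 * (n : PowerSeries R) + 1 := by
        rw [hP]
        have := congrArg (Nat.cast (R := PowerSeries R)) hn
        simpa using this
      rw [e3]
      linear_combination E.e ^ n * h1
    have e2 := congrArg L.toLoc.ψ e1
    rw [map_mul _ P, hψP, zero_mul, map_mul, map_ofNat, L.toLoc.ψ_deriv] at e2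
    exact (mul_eq_zero.1 e2).resolve_left four_ne
  have hDi4 : PowerSeries.derivative (ZMod p) (L.toLoc.ψ i4) = 0 := by
    have e1 := congrArg L.toLoc.ψ hi4
    rw [map_mul, map_ofNat, map_one] at e1
    have e2 := congrArg (PowerSeries.derivative (ZMod p)) e1
    rw [Derivation.leibniz, Derivation.map_one_eq_zero] at e2
    have e3 : PowerSeries.derivative (ZMod p) (4 : PowerSeries (ZMod p)) = 0 := by
      have := (PowerSeries.derivative (ZMod p)).map_natCast 4
      simpa using this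
    rw [e3] at e2
    simp only [smul_eq_mul, mul_zero, add_zero] at e2
    exact (mul_eq_zero.1 e2).resolve_left four_ne
  have hv1ψ : L.toLoc.ψ E.y1 * L.toLoc.ψ E.v1 = 1 := by
    rw [← map_mul, E.hv1', map_one]
  set Y := L.toLoc.ψ E.y1 with hY
  set W := L.toLoc.ψ E.v1 with hW
  set c5 := L.toLoc.ψ i4 * h ^ 5 with hc5
  have hDc5 : PowerSeries.derivative (ZMod p) c5 = 0 := by
    rw [hc5, Derivation.leibniz, PowerSeries.derivative_pow, hDh, hDi4]; simp
  have hω2ψ : L.toLoc.ψ (i4 * E.v1 ^ 3 * E.y3 ^ 5 * β) = c5 * (Y ^ 2 * L.toLoc.ψ β) := by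
    rw [map_mul, map_mul, map_mul, map_pow, map_pow, hy3, ← hW, hc5]
    have e3 : (Y * W) ^ 3 = 1 := by rw [hv1ψ, one_pow]
    linear_combination (L.toLoc.ψ i4 * h ^ 5 * Y ^ 2 * L.toLoc.ψ β) * e3
  have hω1ψ : L.toLoc.ψ (E.y1 ^ 2 * α) = Y ^ 2 * L.toLoc.ψ α := by
    rw [map_mul, map_pow]
  rw [hω2ψ, hω1ψ] at hc
  have hY0 : Y ≠ 0 := left_ne_zero_of_mul_eq_one hv1ψ
  have hc50 : c5 ≠ 0 := by
    have e1 := congrArg L.toLoc.ψ hi4
    rw [map_mul, map_ofNat, map_one] at e1
    have e2 : L.toLoc.ψ E.y3 ≠ 0 := by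
      have := congrArg L.toLoc.ψ E.hv3'
      rw [map_mul, map_one] at this
      exact left_ne_zero_of_mul_eq_one this
    rw [hy3] at e2
    exact mul_ne_zero (right_ne_zero_of_mul_eq_one e1) (pow_ne_zero _ (left_ne_zero_of_mul e2))
  have hαβ : L.toLoc.ψ α * PowerSeries.derivative (ZMod p) (L.toLoc.ψ β) =
      L.toLoc.ψ β * PowerSeries.derivative (ZMod p) (L.toLoc.ψ α) := by
    rw [Derivation.leibniz (D := PowerSeries.derivative (ZMod p)) c5, hDc5,
      Derivation.leibniz, Derivation.leibniz] at hc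
    simp only [smul_eq_mul, mul_zero, add_zero] at hc
    apply mul_left_cancel₀ (mul_ne_zero hc50 (pow_ne_zero 4 hY0))
    linear_combination hc
  -- conclusion
  have hT0 : PowerSeries.derivative (ZMod p) (L.toLoc.ψ E.T) = 0 := by
    rw [← L.toLoc.ψ_deriv, hDT, map_mul, hψP, zero_mul]
  have hγ0 : PowerSeries.derivative (ZMod p) (L.toLoc.ψ γ) = 0 := by
    have e1 := congrArg L.toLoc.ψ E.hi'
    rw [map_mul, map_Zd, map_one] at e1
    have e2 := D_zT_zero (D := PowerSeries.derivative (ZMod p)) e1 hT0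
    rw [hγ]
    simp only [map_neg, map_mul, map_pow, map_sub, map_ofNat, map_X1] at e2 ⊢
    exact e2
  have hp3 : 3 ≤ p := by
    have := (Fact.out : p.Prime).two_le
    have := L.p2
    omega
  refine main_trick (c := (1 : ZMod p)) (α := L.toLoc.ψ α) (β := L.toLoc.ψ β) (γ := L.toLoc.ψ γ)
    (τ := L.toLoc.ψ τ) hp3 ?_ hγ0 hαβ ?_
  · rw [hα, map_add, map_pow, L.toLoc.ψ_mc, map_one, L.toLoc.ψ_deriv]
  · rw [← L.toLoc.ψ_deriv, hDν, map_sub, map_neg, map_mul]

end Ctr

end Sc80

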